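/-!
Kernel checker for unit propagation proofs: functions on bit masks (MP_1e71f9_co).

Clauses are bit masks: bit `i < 4096` is the literal `χ i`, bit `4096 + i` its negation, bit
`8192 + s` the literal `T s`, bit `12288 + s` its negation.
-/

set_option autoImplicit false

namespace Pool.Agent.H13.Z12

noncomputable section

/-- `a` ones at `0` and at `2 a` -/
def eG (a : Nat) : Nat := Nat.add (Nat.sub (Nat.pow (nat_lit 2) a) (nat_lit 1))
  (Nat.shiftLeft (Nat.sub (Nat.pow (nat_lit 2) a) (nat_lit 1)) (Nat.mul (nat_lit 2) a))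

/-- positions of the positive literals -/
def eM : Nat := eG (nat_lit 4096)

/-- negation of all literals of a mask -/
def ng (x : Nat) : Nat := Nat.lor (Nat.shiftLeft (Nat.land x eM) (nat_lit 4096))
  (Nat.land (Nat.shiftRight x (nat_lit 4096)) eM)

/-- one propagation step -/
def stp (D α v : Nat) (k : Nat → Nat → Nat → Bool) : Bool :=
  (fun x => k x (Nat.lor α (ng x)) (Nat.lor v (Nat.land x (Nat.sub x (nat_lit 1)))))
    (Nat.xor (Nat.lor D α) α)

/-- one hint -/
def hnt (ent : Nat → Nat) (i α v : Nat) (k : Nat → Nat → Nat → Bool) : Bool :=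
  @Nat.rec (fun _ => Bool) (stp (ent (nat_lit 0)) α v k)
    (fun p _ => stp (ent (Nat.succ p)) α v k) i

/-- `g` groups of four hints of 14 bits each -/
def inner (ent : Nat → Nat) (c : Nat) (K : Nat → Bool) (g : Nat) : Nat → Nat → Nat → Nat → Bool :=
  @Nat.rec (fun _ => Nat → Nat → Nat → Nat → Bool)
    (fun _ _ v x => K (Nat.lor v x))
    (fun _ ih r α v _ =>
      (fun w =>
        hnt ent (Nat.sub c (Nat.land w (nat_lit 16383))) α v fun _ α v =>
        hnt ent (Nat.sub c (Nat.land (Nat.shiftRight w (nat_lit 14)) (nat_lit 16383))) α v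
          fun _ α v =>
        hnt ent (Nat.sub c (Nat.land (Nat.shiftRight w (nat_lit 28)) (nat_lit 16383))) α v
          fun _ α v =>
        hnt ent (Nat.sub c (Nat.shiftRight w (nat_lit 42))) α v
          fun x α v => ih (Nat.shiftRight r (nat_lit 56)) α v x)
        (Nat.land r (nat_lit 72057594037927935))) g

/-- negated literal of a unit clause, `0` for other clauses -/
def addU (m : Nat) : Nat :=
  @Bool.rec (fun _ => Nat) (nat_lit 0) (ng m)
    (Nat.beq (Nat.land m (Nat.sub m (nat_lit 1))) (nat_lit 0))

/-- the lemmas `c + 1, c + 2, …`; `U` is the set of literals known to be false; records of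
hints: number of groups (8 bits), groups -/
def outer (ent : Nat → Nat) (F : Nat → Bool) (fuel : Nat) : Nat → Nat → Nat → Bool :=
  @Nat.rec (fun _ => Nat → Nat → Nat → Bool)
    (fun _ _ U => F U)
    (fun _ ih c r U => (fun m g => inner ent c
      (fun w => @Nat.rec (fun _ => Bool)
        (ih (Nat.succ c) (Nat.shiftRight r (Nat.add (nat_lit 8) (Nat.mul (nat_lit 56) g)))
          (Nat.lor U (addU m)))
        (fun _ _ => false) w)
      g (Nat.land (Nat.shiftRight r (nat_lit 8))
        (Nat.sub (Nat.pow (nat_lit 2) (nat_lit 14280)) (nat_lit 1))) (Nat.lor m U) (nat_lit 0)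
      (nat_lit 1)) (ent (Nat.succ c)) (Nat.land r (nat_lit 255))) fuel

/-- literal lists, four literals of 14 bits at a time -/
def lloop (g : Nat) : Nat → Nat → Nat :=
  @Nat.rec (fun _ => Nat → Nat → Nat)
    (fun _ m => m)
    (fun _ ih r m =>
      (fun w => ih (Nat.shiftRight r (nat_lit 56))
        (Nat.lor (Nat.lor (Nat.lor (Nat.lor m
          (Nat.shiftLeft (nat_lit 1) (Nat.land w (nat_lit 16383))))
          (Nat.shiftLeft (nat_lit 1) (Nat.land (Nat.shiftRight w (nat_lit 14)) (nat_lit 16383))))
          (Nat.shiftLeft (nat_lit 1) (Nat.land (Nat.shiftRight w (nat_lit 28)) (nat_lit 16383))))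
          (Nat.shiftLeft (nat_lit 1) (Nat.shiftRight w (nat_lit 42)))))
        (Nat.land r (nat_lit 72057594037927935))) g

/-- the mask with number `i` of a table: offsets of 20 bits, records `g` (8 bits) and `4 g`
literals -/
def lmask (off lits i : Nat) : Nat :=
  (fun r => lloop (Nat.land r (nat_lit 255)) (Nat.shiftRight r (nat_lit 8)) (nat_lit 0))
    (Nat.land (Nat.shiftRight lits (Nat.land (Nat.shiftRight off (Nat.mul (nat_lit 20) i))
      (nat_lit 1048575))) (Nat.sub (Nat.pow (nat_lit 2) (nat_lit 3592)) (nat_lit 1)))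

/-- clauses of a block: `nb` base clauses (codes of 32 bits), `np` clauses of the previous
table, then the clauses of the present table -/
def ent3 (G : Nat → Nat) (bt nb poff plits np off lits i : Nat) : Nat :=
  @Bool.rec (fun _ => Nat)
    (@Bool.rec (fun _ => Nat) (lmask off lits (Nat.sub i (Nat.add nb np)))
      (lmask poff plits (Nat.sub i nb)) (Nat.ble (Nat.succ i) (Nat.add nb np)))
    (G (Nat.land (Nat.shiftRight bt (Nat.mul (nat_lit 32) i)) (nat_lit 4294967295)))
    (Nat.ble (Nat.succ i) nb)

/-- the clauses `0, …, fuel - 1` of the table `coff, clits` are the entries `N - d` with `d`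
listed in `ix` (16 bits each, last one first) -/
def carry (ent : Nat → Nat) (N coff clits fuel : Nat) : Nat → Bool :=
  @Nat.rec (fun _ => Nat → Bool)
    (fun _ => true)
    (fun p ih ix => @Bool.rec (fun _ => Bool) false (ih (Nat.shiftRight ix (nat_lit 16)))
      (Nat.beq (lmask coff clits p)
        (@Nat.rec (fun _ => Nat) (ent (nat_lit 0)) (fun q _ => ent (Nat.succ q))
          (Nat.sub N (Nat.land ix (nat_lit 65535)))))) fuel

/-- a block: `n` lemmas with hints `hs` after the entries `0, …, c`, false literals `U` before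
and `V` after the block, new table `coff, clits` with `nc` clauses and indices `ix` -/
def blk (ent : Nat → Nat) (n c hs U V coff clits nc ix : Nat) : Bool :=
  outer ent (fun W => @Bool.rec (fun _ => Bool) false (carry ent (Nat.add c n) coff clits nc ix)
    (Nat.beq (Nat.lor V W) W)) n c hs U

end

end Pool.Agent.H13.Z12
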