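import Pool.Agent.H13.Z12.Defs9

/-!
Fast evaluation of the blocks of the eighth checker (MP_1e71f9_co), second text.

The functions of Defs9, but the steps are closed terms `fun …` which are passed as arguments, the branches
of the case distinctions are closed, the large numbers are literals, and the first test of an entry is
whether it is below the largest finished group of levels.
-/

set_option autoImplicit false
set_option maxRecDepth 10000

namespace Pool.Agent.H13.Z12.B10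

open Pool.Agent.H13.Z12.B3 (tr eM)
open Pool.Agent.H13.Z12.B6 (mk lend)
open Pool.Agent.H13.Z12.B7 (hf yb MT mm)
open Pool.Agent.H17.Z12.B8 (ng lb dl hN hk hV)
open Pool.Agent.H13.Z12.B9 (Val is pl nv vv lz pend s0)

noncomputable section

/-- all levels: `Tb` levels after the first finished group `E0` with the end `a` -/
def L5 (t : Nat → Nat) (F : (Nat → Val) → Nat → Val) (Tb : Nat → (Nat → Val) → Nat → (Nat → Val) → Nat → Nat → Val) :
    Nat → Nat → Val :=
  @Nat.rec (fun _ => Nat → Val) (fun p => F (fun _ => Val.cl tr) p)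
    (fun k ih p => @Bool.rec (fun _ => Val) (ih p)
      (Tb k (fun p => vv (ih p)) (t (Nat.pow (nat_lit 2) k)) (fun _ => Val.cl tr) (Nat.pow (nat_lit 2) k) p)
      (Nat.ble (t (Nat.pow (nat_lit 2) k)) p))

def L4 (t : Nat → Nat) (F : (Nat → Val) → Nat → Val) : Nat → Nat → Val :=
  L5 t F (@Nat.rec (fun _ => (Nat → Val) → Nat → (Nat → Val) → Nat → Nat → Val)
    (fun E0 a E _ p => F (fun p => @Bool.rec (fun _ => Nat → Val) E0 E (Nat.ble a p) p) p)
    (fun k ih E0 a E n p => @Bool.rec (fun _ => Val) (ih E0 a E n p)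
      (ih E0 a (fun p => @Bool.rec (fun _ => Nat → Val) E (fun p => vv (ih E0 a E n p)) (Nat.ble (t n) p) p)
        (Nat.add n (Nat.pow (nat_lit 2) k)) p)
      (Nat.ble (t (Nat.add n (Nat.pow (nat_lit 2) k))) p)))

def L3 (TH TY h w m : Nat) (QC QP : (Nat → Val) → Nat → Val) : Nat → Nat → Val :=
  L4 (fun n => Nat.land (Nat.shiftRight TH (Nat.mul w n)) m)
    (fun E p => @Bool.rec (fun _ => (Nat → Val) → Nat → Val) QC QP (yb TY h p) E p)

/-- `FB`, `FC`, `FP`, `FV`: steps of a derivation with a base clause, a clause, a pair, a vertex mask; `HB`, … the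
same for pairs; `SB E`: derivation inside a derivation -/
def L2 (TH TY h w m N k NV NB NX : Nat) (M : Nat → Nat) (FB : Nat → ((Nat → Nat → Nat) → Nat → Nat → Nat)) (FC : Nat → ((Nat → Nat → Nat) → Nat → Nat → Nat)) (FP : Nat → Nat → ((Nat → Nat → Nat) → Nat → Nat → Nat)) (FV : Nat → ((Nat → Nat → Nat) → Nat → Nat → Nat))
    (HB : Nat → ((Nat → Nat → Nat → Val) → Nat → Nat → Nat → Val)) (HC : Nat → ((Nat → Nat → Nat → Val) → Nat → Nat → Nat → Val)) (HP : Nat → Nat → ((Nat → Nat → Nat → Val) → Nat → Nat → Nat → Val)) (HV : Nat → ((Nat → Nat → Nat → Val) → Nat → Nat → Nat → Val))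
    (SB : (Nat → Val) → ((Nat → Nat → Nat) → Nat → Nat → Nat)) : Nat → Nat → Val :=
  L3 TH TY h w m
    (fun E p =>
      let q : ((Nat → Nat → Nat) → Nat → Nat → Nat) :=
        fun ih r S => @Nat.rec (fun _ => ((Nat → Nat → Nat) → Nat → Nat → Nat)) (fun _ _ S => S) (fun p _ ih r S
        => @Bool.rec (fun _ => Nat → ((Nat → Nat → Nat) → Nat → Nat → Nat)) FB (fun p ih r S => @Bool.rec (fun _
        => Nat → ((Nat → Nat → Nat) → Nat → Nat → Nat)) (fun p ih r S => @Val.rec (fun _ => ((Nat → Nat → Nat) →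
        Nat → Nat → Nat)) FC FP (E p) ih r S) (fun p ih r S => @Bool.rec (fun _ => Nat → ((Nat → Nat → Nat) →
        Nat → Nat → Nat)) FV (fun p ih r S => is (SB E) ih (Nat.add (Nat.shiftLeft r k) (Nat.sub p NV)) S)
        (Nat.ble NV p) p ih r S) (Nat.ble NX p) p ih r S) (Nat.ble NB p) p ih r S) (Nat.mod r N) ih (Nat.div r
        N) S
      let q4 : (Nat → Nat → Nat) → Nat → Nat → Nat := fun ih => q (q (q (q ih)))
      nv (@Nat.rec (fun _ => Nat → Nat → Nat) lend (fun _ ih => q4 (q4 (q4 (q4 ih)))) (nat_lit 64) (M p) (nat_lit 0)))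
    (fun E p =>
      let q : ((Nat → Nat → Nat → Val) → Nat → Nat → Nat → Val) :=
        fun ih r S Y => @Nat.rec (fun _ => ((Nat → Nat → Nat → Val) → Nat → Nat → Nat → Val)) (fun _ _ S Y =>
        Val.pr Y S) (fun p _ ih r S Y => @Bool.rec (fun _ => Nat → ((Nat → Nat → Nat → Val) → Nat → Nat → Nat →
        Val)) HB (fun p ih r S Y => @Bool.rec (fun _ => Nat → ((Nat → Nat → Nat → Val) → Nat → Nat → Nat → Val))
        (fun p ih r S Y => @Val.rec (fun _ => ((Nat → Nat → Nat → Val) → Nat → Nat → Nat → Val)) HC HP (E p) ih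
        r S Y) (fun p ih r S Y => @Bool.rec (fun _ => Nat → ((Nat → Nat → Nat → Val) → Nat → Nat → Nat → Val))
        HV (fun p ih r S Y => pl ih (Nat.add (Nat.shiftLeft r k) (Nat.sub p NV)) S Y) (Nat.ble NV p) p ih r S Y)
        (Nat.ble NX p) p ih r S Y) (Nat.ble NB p) p ih r S Y) (Nat.mod r N) ih (Nat.div r N) S Y
      let q4 : (Nat → Nat → Nat → Val) → Nat → Nat → Nat → Val := fun ih => q (q (q (q ih)))
      @Nat.rec (fun _ => Nat → Nat → Nat → Val) pend (fun _ ih => q4 (q4 (q4 (q4 ih)))) (nat_lit 64) (M p) (nat_lit 0)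
        (nat_lit 0))

def L1 (TH TY h w m N k NV NB NX : Nat) (M : Nat → Nat) (FB : Nat → ((Nat → Nat → Nat) → Nat → Nat → Nat)) (FC : Nat → ((Nat → Nat → Nat) → Nat → Nat → Nat)) (FP : Nat → Nat → ((Nat → Nat → Nat) → Nat → Nat → Nat)) (FV : Nat → ((Nat → Nat → Nat) → Nat → Nat → Nat))
    (HB : Nat → ((Nat → Nat → Nat → Val) → Nat → Nat → Nat → Val)) (HC : Nat → ((Nat → Nat → Nat → Val) → Nat → Nat → Nat → Val)) (HP : Nat → Nat → ((Nat → Nat → Nat → Val) → Nat → Nat → Nat → Val)) (HV : Nat → ((Nat → Nat → Nat → Val) → Nat → Nat → Nat → Val)) : Nat → Nat → Val :=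
  L2 TH TY h w m N k NV NB NX M FB FC FP FV HB HC HP HV (fun E =>
    @Nat.rec (fun _ => ((Nat → Nat → Nat) → Nat → Nat → Nat)) s0
      (fun _ Sb ih r S =>
        let q : ((Nat → Nat → Nat) → Nat → Nat → Nat) :=
          fun ih r S => @Nat.rec (fun _ => ((Nat → Nat → Nat) → Nat → Nat → Nat)) (fun _ _ S => S) (fun p _ ih r
          S => @Bool.rec (fun _ => Nat → ((Nat → Nat → Nat) → Nat → Nat → Nat)) FB (fun p ih r S => @Bool.rec
          (fun _ => Nat → ((Nat → Nat → Nat) → Nat → Nat → Nat)) (fun p ih r S => @Val.rec (fun _ => ((Nat → Nat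
          → Nat) → Nat → Nat → Nat)) FC FP (E p) ih r S) (fun p ih r S => @Bool.rec (fun _ => Nat → ((Nat → Nat
          → Nat) → Nat → Nat → Nat)) FV (fun p ih r S => is Sb ih (Nat.add (Nat.shiftLeft r k) (Nat.sub p NV))
          S) (Nat.ble NV p) p ih r S) (Nat.ble NX p) p ih r S) (Nat.ble NB p) p ih r S) (Nat.mod r N) ih
          (Nat.div r N) S
        @Nat.rec (fun _ => Nat → Nat → Nat) (fun r v => FC v ih r S) (fun _ => q) (Nat.land r (nat_lit 31))
          (Nat.shiftRight r (nat_lit 5)) (nat_lit 0)) (nat_lit 14))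

/-- `PA`: step of a pair with the union `T`, `GP`: step which replaces -/
def M1 (TH TY h w m N k NV NB NX : Nat) (B M V : Nat → Nat) (f : Nat) (FB : Nat → ((Nat → Nat → Nat) → Nat → Nat → Nat)) (FC : Nat → ((Nat → Nat → Nat) → Nat → Nat → Nat)) (FP : Nat → Nat → ((Nat → Nat → Nat) → Nat → Nat → Nat)) (FV : Nat → ((Nat → Nat → Nat) → Nat → Nat → Nat))
    (PA : (Nat → Nat → Nat → Val) → Nat → Nat → Nat → Nat → Val) (GP : (Nat → Nat → Nat → Val) → Nat → Nat → Nat → Val) : Nat → Nat → Val :=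
  L1 TH TY h w m N k NV NB NX M FB FC FP FV
    (fun p ih r S Y => PA ih r S Y (Nat.lor S (B p)))
    (fun v ih r S Y => PA ih r S Y (Nat.lor S v))
    (fun y v ih r S Y => GP ih r (Nat.lor (Nat.xor (Nat.lor S y) y) v) (Nat.lor Y y))
    (fun p ih r S Y => GP ih r (Nat.xor (Nat.lor S (V p)) (Nat.land (V p) f)) (Nat.lor Y (Nat.land (V p) f)))

/-- `O`: step of a pair with a new output -/
def M2 (TH TY h w m N k NV NB NX : Nat) (B M V : Nat → Nat) (e c f : Nat) (FB : Nat → ((Nat → Nat → Nat) → Nat → Nat → Nat)) (FC : Nat → ((Nat → Nat → Nat) → Nat → Nat → Nat)) (FP : Nat → Nat → ((Nat → Nat → Nat) → Nat → Nat → Nat)) (FV : Nat → ((Nat → Nat → Nat) → Nat → Nat → Nat))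
    (O : (Nat → Nat → Nat → Val) → Nat → Nat → Nat → Nat → Val) : Nat → Nat → Val :=
  M1 TH TY h w m N k NV NB NX B M V f FB FC FP FV
    (fun ih r S Y T => @Nat.rec (fun _ => (Nat → Nat → Nat → Val) → Nat → Nat → Nat → Nat → Val) O
      (fun _ _ ih r S Y T =>
        @Nat.rec (fun _ => Val) (ih r (Nat.xor T (Nat.mul (Nat.land (Nat.land T (Nat.shiftRight T (nat_lit
        4096))) e) c)) (Nat.lor Y (Nat.land S (Nat.mul (Nat.land (Nat.land T (Nat.shiftRight T (nat_lit 4096)))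
        e) c)))) (fun _ _ => Val.cl tr) (Nat.land (Nat.land (Nat.land T (Nat.shiftRight T (nat_lit 4096))) e)
        (Nat.sub (Nat.land (Nat.land T (Nat.shiftRight T (nat_lit 4096))) e) (nat_lit 1))))
      (Nat.land (Nat.land T (Nat.shiftRight T (nat_lit 4096))) e) ih r S Y T)
    (fun ih r S Y => @Nat.rec (fun _ => Val) (ih r S Y) (fun _ _ => Val.cl tr)
      (Nat.land (Nat.land S (Nat.shiftRight S (nat_lit 4096))) e))

/-- `O3`: step of a pair with the new output `y` -/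
def M3 (TH TY h w m N k NV NB NX : Nat) (B M V : Nat → Nat) (e c f : Nat) (FB : Nat → ((Nat → Nat → Nat) → Nat → Nat → Nat)) (FC : Nat → ((Nat → Nat → Nat) → Nat → Nat → Nat)) (FP : Nat → Nat → ((Nat → Nat → Nat) → Nat → Nat → Nat)) (FV : Nat → ((Nat → Nat → Nat) → Nat → Nat → Nat))
    (O3 : (Nat → Nat → Nat → Val) → Nat → Nat → Nat → Nat → Nat → Val) : Nat → Nat → Val :=
  M2 TH TY h w m N k NV NB NX B M V e c f FB FC FP FV (fun ih r S Y T =>
    @Bool.rec (fun _ => Val)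
      (O3 ih (Nat.shiftRight r (nat_lit 5)) S Y T (ng (lb (dl (Nat.xor T S) (Nat.land r (nat_lit 31))))))
      (O3 ih (Nat.shiftRight r (nat_lit 14)) S Y T
        (ng (lb (dl (Nat.xor T S) (Nat.land (Nat.shiftRight r (nat_lit 5)) (nat_lit 511))))))
      (Nat.beq (Nat.land r (nat_lit 31)) (nat_lit 31)))

/-- `O2`: the same, `S`, `Y`, `T` contain the output -/
def M4 (TH TY h w m N k NV NB NX : Nat) (B M V : Nat → Nat) (e c f : Nat) (FB : Nat → ((Nat → Nat → Nat) → Nat → Nat → Nat)) (FC : Nat → ((Nat → Nat → Nat) → Nat → Nat → Nat)) (FP : Nat → Nat → ((Nat → Nat → Nat) → Nat → Nat → Nat)) (FV : Nat → ((Nat → Nat → Nat) → Nat → Nat → Nat))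
    (O2 : (Nat → Nat → Nat → Val) → Nat → Nat → Nat → Nat → Val) : Nat → Nat → Val :=
  M3 TH TY h w m N k NV NB NX B M V e c f FB FC FP FV
    (fun ih r S Y T y => O2 ih r (Nat.lor S y) (Nat.lor Y y) (Nat.lor T y))

def M5 (TH TY h w m N k NV NB NX : Nat) (B M V : Nat → Nat) (e c f : Nat) : Nat → Nat → Val :=
  M4 TH TY h w m N k NV NB NX B M V e c f
    (fun p ih r S =>
      @Nat.rec (fun _ => Nat) (ih r (Nat.xor (Nat.lor S (B p)) (Nat.mul (Nat.land (Nat.land (Nat.lor S (B p))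
      (Nat.shiftRight (Nat.lor S (B p)) (nat_lit 4096))) e) c))) (fun _ _ => tr) (Nat.land (Nat.land (Nat.land
      (Nat.lor S (B p)) (Nat.shiftRight (Nat.lor S (B p)) (nat_lit 4096))) e) (Nat.sub (Nat.land (Nat.land
      (Nat.lor S (B p)) (Nat.shiftRight (Nat.lor S (B p)) (nat_lit 4096))) e) (nat_lit 1))))
    (fun v ih r S =>
      @Nat.rec (fun _ => Nat) (ih r (Nat.xor (Nat.lor S v) (Nat.mul (Nat.land (Nat.land (Nat.lor S v)
      (Nat.shiftRight (Nat.lor S v) (nat_lit 4096))) e) c))) (fun _ _ => tr) (Nat.land (Nat.land (Nat.land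
      (Nat.lor S v) (Nat.shiftRight (Nat.lor S v) (nat_lit 4096))) e) (Nat.sub (Nat.land (Nat.land (Nat.lor S v)
      (Nat.shiftRight (Nat.lor S v) (nat_lit 4096))) e) (nat_lit 1))))
    (fun y v ih r S =>
      @Nat.rec (fun _ => Nat) (ih r (Nat.lor (Nat.xor (Nat.lor S y) y) v)) (fun _ _ => tr) (Nat.lor (Nat.land
      (Nat.land (Nat.lor (Nat.xor (Nat.lor S y) y) v) (Nat.shiftRight (Nat.lor (Nat.xor (Nat.lor S y) y) v)
      (nat_lit 4096))) e) (Nat.sub (nat_lit 1) S)))
    (fun p ih r S =>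
      @Nat.rec (fun _ => Nat) (ih r (Nat.xor (Nat.lor S (V p)) (Nat.land (V p) f))) (fun _ _ => tr) (Nat.lor
      (Nat.land (Nat.land (Nat.xor (Nat.lor S (V p)) (Nat.land (V p) f)) (Nat.shiftRight (Nat.xor (Nat.lor S (V
      p)) (Nat.land (V p) f)) (nat_lit 4096))) e) (Nat.sub (nat_lit 1) S)))
    (fun ih r S Y T => @Nat.rec (fun _ => Val)
      (@Nat.rec (fun _ => Val) (ih r (Nat.xor T (Nat.mul (Nat.land (Nat.land T (Nat.shiftRight T (nat_lit 4096))) e) c)) (Nat.lor Y (Nat.land S (Nat.mul (Nat.land (Nat.land T (Nat.shiftRight T (nat_lit 4096))) e) c)))) (fun _ _ => Val.cl tr) (Nat.land (Nat.land (Nat.land T (Nat.shiftRight T (nat_lit 4096))) e) (Nat.sub (Nat.land (Nat.land T (Nat.shiftRight T (nat_lit 4096))) e) (nat_lit 1))))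
      (fun _ _ => Val.cl tr) (Nat.land (Nat.land S (Nat.shiftRight S (nat_lit 4096))) e))

/-- all computed entries of a group -/
def D10 (TH TY : Nat) (B M V : Nat → Nat → Nat) (h : Nat) : Nat → Val :=
  lz (fun w => lz (fun m => lz (fun N => lz (fun k => lz (fun NV => lz (fun NB => lz (fun NX => lz (fun e => lz (fun c =>
    lz (fun f => lz (fun t => lz (fun K => M5 t TY h w m N k NV NB NX (B h) (M h) (V h) e c f K)
      (Nat.land (hf h (nat_lit 192)) (nat_lit 15)))
      (Nat.shiftRight TH (Nat.mul (nat_lit 16) (hf h (nat_lit 176))))) MT) mm) eM)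
      (hf h (nat_lit 160))) (hf h (nat_lit 144))) (hV h)) (hk h)) (hN h)) (mk w)) (hf h (nat_lit 0))

end

end Pool.Agent.H13.Z12.B10

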