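import Pool.Agent.H28.Z12.Gen

/-!
Kernel checker for unit propagation proofs, second version (MP_1e71f9_co).

Clauses are bit masks as in `Gen`. An entry is a pair `(R, Y)` of masks: if all literals in `R` are
false then all literals in `Y` are false. A lemma is checked by backward resolution over entries.
-/

set_option autoImplicit false
set_option maxRecDepth 10000

namespace Pool.Agent.H13.Z12.B2

open Pool.Agent.H28.Z12 (rlb ipM tpos T4 T5 spLo spHi)

noncomputable section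

def M8 : Nat := Nat.sub (Nat.pow (nat_lit 2) (nat_lit 8192)) (nat_lit 1)

/-- a literal which is never false -/
def tr : Nat := Nat.pow (nat_lit 2) (nat_lit 65535)

def pb (x y : Nat) : Nat := Nat.shiftLeft (nat_lit 1) (Nat.add x y)

def rp (x s : Nat) : Nat := Nat.lor x (Nat.shiftLeft x s)

def T1H (x y : Nat) : Nat :=
  Nat.lor (Nat.lor (Nat.shiftLeft x (nat_lit 8192)) (Nat.shiftLeft y (nat_lit 16384))) (Nat.shiftLeft (Nat.xor x y) (nat_lit 24576))

def T2H (x y c : Nat) : Nat :=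
  Nat.lor (Nat.lor x (Nat.shiftLeft (Nat.xor x c) (nat_lit 8192)))
    (Nat.lor (Nat.shiftLeft y (nat_lit 16384)) (Nat.shiftLeft (Nat.xor y c) (nat_lit 24576)))

def t2M (M b1 b3 b4 b5 : Nat) : Nat :=
  T2H (Nat.xor M (rp (Nat.lor b1 b5) (nat_lit 4096))) (Nat.xor M (rp b3 (nat_lit 4096))) (rp (Nat.lor b4 b5) (nat_lit 4096))

def t1b (b0 b1 b2 b3 : Nat) : Nat := T1H (rp (Nat.lor b0 b1) (nat_lit 4096)) (rp (Nat.lor b2 b3) (nat_lit 4096))

def t2b (b0 b1 b2 b3 b4 b5 : Nat) : Nat :=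
  t2M (Nat.lor (Nat.lor (Nat.lor b0 b1) (Nat.lor b2 b3)) (Nat.lor b4 b5)) b1 b3 b4 b5

def t1e (a b c d : Nat) : Nat := t1b (pb a b) (pb c d) (pb a c) (pb b d)

def t2e (a b c d : Nat) : Nat := t2b (pb a b) (pb c d) (pb a c) (pb b d) (pb a d) (pb b c)

/-- first table of a 4-set -/
def t1 (Q : Nat) : Nat :=
  t1e (Nat.xor Q (rlb Q)) (Nat.xor (rlb Q) (rlb (rlb Q))) (Nat.xor (rlb (rlb Q)) (rlb (rlb (rlb Q))))
    (rlb (rlb (rlb Q)))

/-- second table of a 4-set -/
def t2 (Q : Nat) : Nat :=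
  t2e (Nat.xor Q (rlb Q)) (Nat.xor (rlb Q) (rlb (rlb Q))) (Nat.xor (rlb (rlb Q)) (rlb (rlb (rlb Q))))
    (rlb (rlb (rlb Q)))

def N4 : Nat := Nat.xor (Nat.sub (Nat.pow (nat_lit 2) (nat_lit 4096)) (nat_lit 1)) T4

/-- `Q` if it is a 4-set, a number with twelve ones otherwise -/
def gq (Q : Nat) : Nat :=
  Nat.lor Q (Nat.mul (nat_lit 4095) (Nat.sub (nat_lit 1) (Nat.land (Nat.shiftRight T4 Q) (nat_lit 1))))

/-- `s`, `u` contain the number of the pattern in the bits 13 and 14 -/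
def gpc (s u A T U Q : Nat) : Nat :=
  Nat.lor (Nat.shiftLeft (Nat.xor (Nat.land (Nat.shiftRight T (Nat.land s (nat_lit 24576))) M8)
      (Nat.land (Nat.shiftRight U (Nat.land u (nat_lit 24576))) M8)) A)
    (Nat.shiftLeft (Nat.lor (Nat.land (Nat.shiftRight N4 A) (nat_lit 1)) (Nat.land A Q)) (nat_lit 32768))

def gpq (s u q : Nat) (_ : Nat) : Nat :=
  gpc s u (Nat.land s (nat_lit 4095)) (t1 (Nat.succ q)) (t2 (Nat.succ q)) (gq (Nat.succ q))

def gpu (c u : Nat) : Nat := @Nat.rec (fun _ => Nat) tr (gpq c u) (Nat.land u (nat_lit 4095))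

/-- three term clause: `A` (12 bits), free bit, pattern (2 bits), `Q` (12 bits), free bit, pattern (2 bits) -/
def gp (c : Nat) : Nat := gpu c (Nat.shiftRight c (nat_lit 15))

def sH (k : Nat) : Nat :=
  Nat.mod (Nat.shiftRight spHi (Nat.mul (nat_lit 2112) k)) (Nat.pow (nat_lit 2) (nat_lit 2112))

def sH1 (k : Nat) (_ : Nat) : Nat := sH (Nat.succ k)

def sL (y : Nat) : Nat :=
  Nat.mod (Nat.shiftRight spLo (Nat.mul (nat_lit 64) (Nat.mod y (nat_lit 64)))) (nat_lit 0x10000000000000000)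

/-- forced spread -/
def spr (y : Nat) : Nat :=
  Nat.lor (sL y) (@Nat.rec (fun _ => Nat) (nat_lit 0) sH1 (Nat.shiftRight y (nat_lit 6)))

/-- positions for a 5-set -/
def cJ (A : Nat) : Nat := Nat.lor (spr (Nat.xor (nat_lit 4095) A))
  (Nat.shiftLeft (Nat.sub (nat_lit 1) (Nat.land (Nat.shiftRight T5 A) (nat_lit 1))) (nat_lit 32768))

def ccH2 (J U A : Nat) : Nat :=
  Nat.shiftLeft (Nat.lor (Nat.xor J U) (Nat.shiftLeft U (nat_lit 4096))) A

def ccT (A t : Nat) : Nat :=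
  Nat.lor (ccH2 (cJ A) (spr (Nat.land (Nat.xor t (ipM A)) (Nat.xor (nat_lit 4095) A))) A)
        (Nat.shiftLeft (nat_lit 1) (Nat.add (nat_lit 8192) (tpos t)))

def ccq (c q : Nat) (_ : Nat) : Nat := ccT (Nat.succ q) (Nat.land c (nat_lit 4095))

/-- cocircuit clause: record `t` (12 bits), `A` (12 bits) -/
def cc (c : Nat) : Nat :=
  @Nat.rec (fun _ => Nat) tr (ccq c) (Nat.shiftRight c (nat_lit 12))

def lit4 (_ : Nat) (ih : Nat → Nat → Nat) (r m : Nat) : Nat :=
  ih (Nat.shiftRight r (nat_lit 56))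
        (Nat.lor (Nat.lor (Nat.lor (Nat.lor m
          (Nat.shiftLeft (nat_lit 1) (Nat.land r (nat_lit 16383))))
          (Nat.shiftLeft (nat_lit 1) (Nat.land (Nat.shiftRight r (nat_lit 14)) (nat_lit 16383))))
          (Nat.shiftLeft (nat_lit 1) (Nat.land (Nat.shiftRight r (nat_lit 28)) (nat_lit 16383))))
          (Nat.shiftLeft (nat_lit 1) (Nat.land (Nat.shiftRight r (nat_lit 42)) (nat_lit 16383))))

def lend (_ m : Nat) : Nat := m

/-- literal lists, four literals of 14 bits at a time -/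
def lloop (g : Nat) : Nat → Nat → Nat := @Nat.rec (fun _ => Nat → Nat → Nat) lend lit4 g

/-- chunk `k` of 256 records of `w` bits -/
def chk (bt w k : Nat) : Nat :=
  Nat.land (Nat.shiftRight bt (Nat.mul (Nat.mul (nat_lit 256) w) k))
    (Nat.sub (Nat.pow (nat_lit 2) (Nat.mul (nat_lit 256) w)) (nat_lit 1))

def trc1 (bt w i k : Nat) (_ : Nat) : Nat :=
  Nat.land (Nat.shiftRight (chk bt w k) (Nat.mul w (Nat.land i (nat_lit 255)))) (Nat.sub (Nat.pow (nat_lit 2) w) (nat_lit 1))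

/-- record `i` -/
def trc (bt w i : Nat) : Nat :=
  @Nat.rec (fun _ => Nat) (nat_lit 0) (trc1 bt w i) (Nat.succ (Nat.shiftRight i (nat_lit 8)))

def lch1 (ld a b : Nat) : Nat :=
  Nat.land (Nat.shiftRight ld a) (Nat.sub (Nat.pow (nat_lit 2) (Nat.sub b a)) (nat_lit 1))

/-- chunk of eight records, offsets of 24 bits -/
def lch (lo ld k : Nat) : Nat :=
  lch1 ld (Nat.land (Nat.shiftRight lo (Nat.mul (nat_lit 24) k)) (nat_lit 16777215))
    (Nat.land (Nat.shiftRight lo (Nat.mul (nat_lit 24) (Nat.succ k))) (nat_lit 16777215))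

def lr2 (C i : Nat) : Nat :=
  Nat.shiftRight C (Nat.land (Nat.shiftRight C (Nat.mul (nat_lit 18) (Nat.land i (nat_lit 7)))) (nat_lit 262143))

def lr1 (lo ld i k : Nat) (_ : Nat) : Nat := lr2 (lch lo ld k) i

/-- record `i` of a table of records of variable length -/
def lr (lo ld i : Nat) : Nat :=
  @Nat.rec (fun _ => Nat) (nat_lit 0) (lr1 lo ld i) (Nat.succ (Nat.shiftRight i (nat_lit 3)))

/-- clause of a lemma record -/
def lm1 (r : Nat) : Nat := lloop (Nat.land r (nat_lit 255)) (Nat.shiftRight r (nat_lit 8)) (nat_lit 0)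

def lpq (r i : Nat) : Nat :=
  Nat.land (Nat.shiftRight r (Nat.add (nat_lit 8) (Nat.mul (nat_lit 14) (Nat.land i (nat_lit 3))))) (nat_lit 16383)

/-- case distinction on the index -/
def sw (n : Nat) (f g : Nat → Nat) (i : Nat) : Nat :=
  @Bool.rec (fun _ => Nat) (f i) (g (Nat.sub i n)) (Nat.ble n i)

def eRl1 (LM LR : Nat → Nat) (i j : Nat) (_ : Nat) : Nat :=
  Nat.lor (Nat.xor (LM j) (Nat.shiftLeft (nat_lit 1) (lpq (LR j) i))) (Nat.shiftLeft (nat_lit 1) (Nat.add (nat_lit 16384) j))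

/-- required set, lemma entries -/
def eRl (LM LR : Nat → Nat) (i : Nat) : Nat :=
  @Nat.rec (fun _ => Nat) (nat_lit 0) (eRl1 LM LR i) (Nat.succ (Nat.shiftRight i (nat_lit 2)))

def eRg (r : Nat) : Nat := Nat.xor (gp (Nat.shiftRight r (nat_lit 14))) (Nat.shiftLeft (nat_lit 1) (Nat.land r (nat_lit 16383)))

def eRc (r : Nat) : Nat := Nat.xor (cc (Nat.shiftRight r (nat_lit 14))) (Nat.shiftLeft (nat_lit 1) (Nat.land r (nat_lit 16383)))

def eRo (G : Nat → Nat) (r : Nat) : Nat := Nat.xor (G (Nat.shiftRight r (nat_lit 14))) (Nat.shiftLeft (nat_lit 1) (Nat.land r (nat_lit 16383)))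

def eYb (r : Nat) : Nat := Nat.shiftLeft (nat_lit 1) (Nat.xor (Nat.land r (nat_lit 16383)) (nat_lit 4096))

def eYl1 (LR : Nat → Nat) (i j : Nat) (_ : Nat) : Nat :=
  Nat.shiftLeft (nat_lit 1) (Nat.xor (lpq (LR j) i) (nat_lit 4096))

def eYl (LR : Nat → Nat) (i : Nat) : Nat :=
  @Nat.rec (fun _ => Nat) (nat_lit 0) (eYl1 LR i) (Nat.succ (Nat.shiftRight i (nat_lit 2)))

def stp (R Y : Nat → Nat) (S p : Nat) (_ : Nat) : Nat :=
  Nat.lor (Nat.xor (Nat.lor S (Y p)) (Y p)) (R p)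

def sty (Y : Nat → Nat) (S p : Nat) (_ : Nat) : Nat := Nat.lor S (Y p)

/-- union of the sets `Y` -/
def yy (Y : Nat → Nat) (_ : Nat) (ih : Nat → Nat → Nat) (r S : Nat) : Nat :=
  ih (Nat.shiftRight r (nat_lit 30))
    (@Nat.rec (fun _ => Nat) (nat_lit 0) (sty Y
      (@Nat.rec (fun _ => Nat) (nat_lit 0) (sty Y S) (Nat.land r (nat_lit 32767))))
      (Nat.land (Nat.shiftRight r (nat_lit 15)) (nat_lit 32767)))

/-- two resolution steps on a set -/
def r2 (R Y : Nat → Nat) (_ : Nat) (ih : Nat → Nat → Nat) (r S : Nat) : Nat :=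
  ih (Nat.shiftRight r (nat_lit 30))
    (@Nat.rec (fun _ => Nat) tr (stp R Y
      (@Nat.rec (fun _ => Nat) tr (stp R Y S) (Nat.land r (nat_lit 32767))))
      (Nat.land (Nat.shiftRight r (nat_lit 15)) (nat_lit 32767)))

/-- four resolution steps on a set -/
def rr (R Y : Nat → Nat) (_ : Nat) (ih : Nat → Nat → Nat) (r S : Nat) : Nat :=
  ih (Nat.shiftRight r (nat_lit 60))
    (@Nat.rec (fun _ => Nat) tr (stp R Y
      (@Nat.rec (fun _ => Nat) tr (stp R Y
        (@Nat.rec (fun _ => Nat) tr (stp R Y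
          (@Nat.rec (fun _ => Nat) tr (stp R Y S) (Nat.land r (nat_lit 32767))))
          (Nat.land (Nat.shiftRight r (nat_lit 15)) (nat_lit 32767))))
        (Nat.land (Nat.shiftRight r (nat_lit 30)) (nat_lit 32767))))
      (Nat.land (Nat.shiftRight r (nat_lit 45)) (nat_lit 32767)))

def yl (Y : Nat → Nat) (g : Nat) : Nat → Nat → Nat := @Nat.rec (fun _ => Nat → Nat → Nat) lend (yy Y) g

def rl (R Y : Nat → Nat) (g : Nat) : Nat → Nat → Nat := @Nat.rec (fun _ => Nat → Nat → Nat) lend (rr R Y) g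

def mY (Y : Nat → Nat) (r : Nat) : Nat := yl Y (Nat.land r (nat_lit 255)) (Nat.shiftRight r (nat_lit 8)) (nat_lit 0)

def rm (R Y : Nat → Nat) (g : Nat) : Nat → Nat → Nat := @Nat.rec (fun _ => Nat → Nat → Nat) lend (r2 R Y) g

def mR (R Y : Nat → Nat) (r : Nat) : Nat := rm R Y (Nat.land r (nat_lit 255)) (Nat.shiftRight r (nat_lit 8)) (mY Y r)

def eM : Nat := Nat.mul (Nat.sub (Nat.pow (nat_lit 2) (nat_lit 4096)) (nat_lit 1))
  (Nat.add (nat_lit 1) (Nat.pow (nat_lit 2) (nat_lit 8192)))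

/-- negation of all literals of a mask -/
def ng (x : Nat) : Nat := Nat.lor (Nat.shiftLeft (Nat.land x eM) (nat_lit 4096))
  (Nat.land (Nat.shiftRight x (nat_lit 4096)) eM)

def m1 : Nat := Nat.add (nat_lit 1) (Nat.pow (nat_lit 2) (nat_lit 4096))

def addU (m : Nat) : Nat :=
  @Bool.rec (fun _ => Nat) (nat_lit 0) (ng m)
    (Nat.beq (Nat.land m (Nat.sub m (nat_lit 1))) (nat_lit 0))

def cf (_ : Nat) (_ : Bool) : Bool := false

/-- `A`: literals known to be false, `g`: number of groups of hints -/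
def ou2 (R Y : Nat → Nat) (k : Nat → Bool) (U' A r g : Nat) : Bool :=
  @Nat.rec (fun _ => Bool) (k U') cf
    (Nat.xor (Nat.lor (rl R Y g (Nat.mod (Nat.shiftRight r (nat_lit 22)) (Nat.pow (nat_lit 2) (Nat.mul (nat_lit 60) g)))
      (Nat.mul m1 (Nat.shiftLeft (nat_lit 1) (Nat.land (Nat.shiftRight r (nat_lit 8)) (nat_lit 12287))))) A) A)

def ou1 (R Y : Nat → Nat) (k : Nat → Bool) (U n m r : Nat) : Bool :=
  ou2 R Y k (Nat.lor (Nat.lor U (addU m)) (Nat.shiftLeft (nat_lit 1) (Nat.add (nat_lit 16384) n))) (Nat.lor m U)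
    r (Nat.land r (nat_lit 255))

def ou (R Y LM LR : Nat → Nat) (n : Nat) (ih : Nat → Bool) (U : Nat) : Bool :=
  ou1 R Y ih U n (LM n) (Nat.shiftRight (LR n) (Nat.add (nat_lit 8) (Nat.mul (nat_lit 56) (Nat.land (LR n) (nat_lit 255)))))

/-- lemmas `fuel - 1, …, 0` -/
def outer (R Y LM LR : Nat → Nat) (F : Nat → Bool) (fuel : Nat) : Nat → Bool :=
  @Nat.rec (fun _ => Nat → Bool) F (ou R Y LM LR) fuel

/-- the mask `V` is contained in the final mask -/
def fin (V W : Nat) : Bool := Nat.beq (Nat.lor V W) W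

/-- clause `n + i` of the block is clause `k` of the list `S` of length `m` -/
def impC (S LM : Nat → Nat) (m n i k : Nat) : Bool :=
  @Bool.rec (fun _ => Bool) false (Nat.beq (LM (Nat.add n i)) (S k)) (Nat.ble (Nat.succ k) m)

def impS (S LM : Nat → Nat) (m n ix i : Nat) (ih : Bool) : Bool :=
  @Bool.rec (fun _ => Bool) false ih
    (impC S LM m n i (Nat.land (Nat.shiftRight ix (Nat.mul (nat_lit 32) i)) (nat_lit 4294967295)))

/-- the imported clauses, 32 bits for each index -/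
def imp (S LM : Nat → Nat) (m n ix np : Nat) : Bool :=
  @Nat.rec (fun _ => Bool) true (impS S LM m n ix) np

end

end Pool.Agent.H13.Z12.B2
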