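import Pool.Agent.H28.Z12.Gen

/-!
Kernel checker for unit propagation proofs, third version (MP_1e71f9_co).

Positions of a mask: below `16384` literals, `16384 + j` (`j < 8192`) flag of the stored lemma `j`,
from `24576` on never false, everything from `28673` on is ignored. An entry is a pair `(R, Y)` of
masks: if all positions in `R` are false then all positions in `Y` are false; `N` is the complement
of `Y` among the first `28673` positions. Entries are base clauses with a pivot, stored lemmas with a pivot,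
composite entries (several steps at once) and computed lemmas (the clause is the result of a
derivation).
-/

set_option autoImplicit false
set_option maxRecDepth 10000

namespace Pool.Agent.H13.Z12.B3

open Pool.Agent.H28.Z12 (rlb ipM tpos T4 T5 spLo spHi)

noncomputable section

def M8 : Nat := Nat.sub (Nat.pow (nat_lit 2) (nat_lit 8192)) (nat_lit 1)

/-- a literal which is never false -/
def tr : Nat := Nat.pow (nat_lit 2) (nat_lit 28672)

/-- all positions -/
def fu : Nat := Nat.sub (Nat.pow (nat_lit 2) (nat_lit 28673)) (nat_lit 1)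

def pb (x y : Nat) : Nat := Nat.shiftLeft (nat_lit 1) (Nat.add x y)

def rp (x s : Nat) : Nat := Nat.lor x (Nat.shiftLeft x s)

def T1H (x y : Nat) : Nat :=
  Nat.lor (Nat.lor (Nat.shiftLeft x (nat_lit 8192)) (Nat.shiftLeft y (nat_lit 16384))) (Nat.shiftLeft (Nat.xor x y) (nat_lit 24576))

def T2H (x y c : Nat) : Nat :=
  Nat.lor (Nat.lor x (Nat.shiftLeft (Nat.xor x c) (nat_lit 8192)))
    (Nat.lor (Nat.shiftLeft y (nat_lit 16384)) (Nat.shiftLeft (Nat.xor y c) (nat_lit 24576)))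

def t2M (M b1 b3 b4 b5 : Nat) : Nat :=
  T2H (Nat.xor M (rp (Nat.lor b1 b5) (nat_lit 4096))) (Nat.xor M (rp b3 (nat_lit 4096))) (rp (Nat.lor b4 b5) (nat_lit 4096))

def t1b (b0 b1 b2 b3 : Nat) : Nat := T1H (rp (Nat.lor b0 b1) (nat_lit 4096)) (rp (Nat.lor b2 b3) (nat_lit 4096))

def t2b (b0 b1 b2 b3 b4 b5 : Nat) : Nat :=
  t2M (Nat.lor (Nat.lor (Nat.lor b0 b1) (Nat.lor b2 b3)) (Nat.lor b4 b5)) b1 b3 b4 b5

def t1e (a b c d : Nat) : Nat := t1b (pb a b) (pb c d) (pb a c) (pb b d)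

def t2e (a b c d : Nat) : Nat := t2b (pb a b) (pb c d) (pb a c) (pb b d) (pb a d) (pb b c)

/-- first table of a 4-set -/
def t1 (Q : Nat) : Nat :=
  t1e (Nat.xor Q (rlb Q)) (Nat.xor (rlb Q) (rlb (rlb Q))) (Nat.xor (rlb (rlb Q)) (rlb (rlb (rlb Q))))
    (rlb (rlb (rlb Q)))

/-- second table of a 4-set -/
def t2 (Q : Nat) : Nat :=
  t2e (Nat.xor Q (rlb Q)) (Nat.xor (rlb Q) (rlb (rlb Q))) (Nat.xor (rlb (rlb Q)) (rlb (rlb (rlb Q))))
    (rlb (rlb (rlb Q)))

def N4 : Nat := Nat.xor (Nat.sub (Nat.pow (nat_lit 2) (nat_lit 4096)) (nat_lit 1)) T4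

/-- `Q` if it is a 4-set, a number with twelve ones otherwise -/
def gq (Q : Nat) : Nat :=
  Nat.lor Q (Nat.mul (nat_lit 4095) (Nat.sub (nat_lit 1) (Nat.land (Nat.shiftRight T4 Q) (nat_lit 1))))

/-- `s`, `u` contain the number of the pattern in the bits 13 and 14 -/
def gpc (s u A T U Q : Nat) : Nat :=
  Nat.lor (Nat.shiftLeft (Nat.xor (Nat.land (Nat.shiftRight T (Nat.land s (nat_lit 24576))) M8)
      (Nat.land (Nat.shiftRight U (Nat.land u (nat_lit 24576))) M8)) A)
    (Nat.shiftLeft (Nat.lor (Nat.land (Nat.shiftRight N4 A) (nat_lit 1)) (Nat.land A Q)) (nat_lit 24576))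

def gpq (s u q : Nat) (_ : Nat) : Nat :=
  gpc s u (Nat.land s (nat_lit 4095)) (t1 (Nat.succ q)) (t2 (Nat.succ q)) (gq (Nat.succ q))

def gpu (c u : Nat) : Nat := @Nat.rec (fun _ => Nat) tr (gpq c u) (Nat.land u (nat_lit 4095))

/-- three term clause: `A` (12 bits), free bit, pattern (2 bits), `Q` (12 bits), free bit, pattern (2 bits) -/
def gp (c : Nat) : Nat := gpu c (Nat.shiftRight c (nat_lit 15))

def sH (k : Nat) : Nat :=
  Nat.mod (Nat.shiftRight spHi (Nat.mul (nat_lit 2112) k)) (Nat.pow (nat_lit 2) (nat_lit 2112))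

def sH1 (k : Nat) (_ : Nat) : Nat := sH (Nat.succ k)

def sL (y : Nat) : Nat :=
  Nat.mod (Nat.shiftRight spLo (Nat.mul (nat_lit 64) (Nat.mod y (nat_lit 64)))) (nat_lit 0x10000000000000000)

/-- forced spread -/
def spr (y : Nat) : Nat :=
  Nat.lor (sL y) (@Nat.rec (fun _ => Nat) (nat_lit 0) sH1 (Nat.shiftRight y (nat_lit 6)))

/-- positions for a 5-set -/
def cJ (A : Nat) : Nat := Nat.lor (spr (Nat.xor (nat_lit 4095) A))
  (Nat.shiftLeft (Nat.sub (nat_lit 1) (Nat.land (Nat.shiftRight T5 A) (nat_lit 1))) (nat_lit 24576))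

def ccH2 (J U A : Nat) : Nat :=
  Nat.shiftLeft (Nat.lor (Nat.xor J U) (Nat.shiftLeft U (nat_lit 4096))) A

def ccT (A t : Nat) : Nat :=
  Nat.lor (ccH2 (cJ A) (spr (Nat.land (Nat.xor t (ipM A)) (Nat.xor (nat_lit 4095) A))) A)
        (Nat.shiftLeft (nat_lit 1) (Nat.add (nat_lit 8192) (tpos t)))

def ccq (c q : Nat) (_ : Nat) : Nat := ccT (Nat.succ q) (Nat.land c (nat_lit 4095))

/-- cocircuit clause: record `t` (12 bits), `A` (12 bits) -/
def cc (c : Nat) : Nat :=
  @Nat.rec (fun _ => Nat) tr (ccq c) (Nat.land (Nat.shiftRight c (nat_lit 12)) (nat_lit 4095))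

/-- four literals of 14 bits -/
def lit4 (_ : Nat) (ih : Nat → Nat → Nat) (r m : Nat) : Nat :=
  ih (Nat.shiftRight r (nat_lit 56))
        (Nat.lor (Nat.lor (Nat.lor (Nat.lor m
          (Nat.shiftLeft (nat_lit 1) (Nat.land r (nat_lit 16383))))
          (Nat.shiftLeft (nat_lit 1) (Nat.land (Nat.shiftRight r (nat_lit 14)) (nat_lit 16383))))
          (Nat.shiftLeft (nat_lit 1) (Nat.land (Nat.shiftRight r (nat_lit 28)) (nat_lit 16383))))
          (Nat.shiftLeft (nat_lit 1) (Nat.land (Nat.shiftRight r (nat_lit 42)) (nat_lit 16383))))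

def lit1 (_ : Nat) (ih : Nat → Nat → Nat) (r m : Nat) : Nat :=
  ih (Nat.shiftRight r (nat_lit 14)) (Nat.lor m (Nat.shiftLeft (nat_lit 1) (Nat.land r (nat_lit 16383))))

def lend (_ m : Nat) : Nat := m

/-- literal lists: `a` single literals, then `g` groups of four -/
def lloop (a g : Nat) : Nat → Nat → Nat :=
  @Nat.rec (fun _ => Nat → Nat → Nat) (@Nat.rec (fun _ => Nat → Nat → Nat) lend lit4 g) lit1 a

/-- chunk `k` of 256 records of `w` bits -/
def chk (bt w k : Nat) : Nat :=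
  Nat.land (Nat.shiftRight bt (Nat.mul (Nat.mul (nat_lit 256) w) k))
    (Nat.sub (Nat.pow (nat_lit 2) (Nat.mul (nat_lit 256) w)) (nat_lit 1))

def trc1 (bt w i k : Nat) (_ : Nat) : Nat :=
  Nat.land (Nat.shiftRight (chk bt w k) (Nat.mul w (Nat.land i (nat_lit 255)))) (Nat.sub (Nat.pow (nat_lit 2) w) (nat_lit 1))

/-- record `i` -/
def trc (bt w i : Nat) : Nat :=
  @Nat.rec (fun _ => Nat) (nat_lit 0) (trc1 bt w i) (Nat.succ (Nat.shiftRight i (nat_lit 8)))

def lch1 (ld a b : Nat) : Nat :=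
  Nat.land (Nat.shiftRight ld a) (Nat.sub (Nat.pow (nat_lit 2) (Nat.sub b a)) (nat_lit 1))

/-- chunk of eight records, offsets of 24 bits -/
def lch (lo ld k : Nat) : Nat :=
  lch1 ld (Nat.land (Nat.shiftRight lo (Nat.mul (nat_lit 24) k)) (nat_lit 16777215))
    (Nat.land (Nat.shiftRight lo (Nat.mul (nat_lit 24) (Nat.succ k))) (nat_lit 16777215))

/-- record in a chunk: offsets of `w` bits -/
def lr2 (w C i : Nat) : Nat :=
  Nat.shiftRight C (Nat.land (Nat.shiftRight C (Nat.mul w (Nat.land i (nat_lit 7))))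
    (Nat.sub (Nat.pow (nat_lit 2) w) (nat_lit 1)))

def lr1 (w lo ld i k : Nat) (_ : Nat) : Nat := lr2 w (lch lo ld k) i

/-- record `i` of a table of records of variable length -/
def lr (w lo ld i : Nat) : Nat :=
  @Nat.rec (fun _ => Nat) (nat_lit 0) (lr1 w lo ld i) (Nat.succ (Nat.shiftRight i (nat_lit 3)))

/-- clause of a lemma record: 2 bits and 8 bits for the numbers of literals -/
def lm1 (r : Nat) : Nat :=
  lloop (Nat.land r (nat_lit 3)) (Nat.land (Nat.shiftRight r (nat_lit 2)) (nat_lit 255)) (Nat.shiftRight r (nat_lit 10)) (nat_lit 0)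

/-- literal `i` (modulo four) of a lemma record -/
def lpq (r i : Nat) : Nat :=
  Nat.land (Nat.shiftRight r (Nat.add (nat_lit 10) (Nat.mul (nat_lit 14) (Nat.land i (nat_lit 3))))) (nat_lit 16383)

/-- case distinction on the index -/
def sw (n : Nat) (f g : Nat → Nat) (i : Nat) : Nat :=
  @Bool.rec (fun _ => Nat) (f i) (g (Nat.sub i n)) (Nat.ble n i)

/-- case distinction on the index, same index -/
def sv (n : Nat) (f g : Nat → Nat) (i : Nat) : Nat :=
  @Bool.rec (fun _ => Nat) (f i) (g i) (Nat.ble n i)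

def eRl1 (LM LR : Nat → Nat) (i j : Nat) (_ : Nat) : Nat :=
  Nat.lor (Nat.xor (LM j) (Nat.shiftLeft (nat_lit 1) (lpq (LR j) i))) (Nat.shiftLeft (nat_lit 1) (Nat.add (nat_lit 16384) j))

/-- required set, lemma entries -/
def eRl (LM LR : Nat → Nat) (i : Nat) : Nat :=
  @Nat.rec (fun _ => Nat) (nat_lit 0) (eRl1 LM LR i) (Nat.succ (Nat.shiftRight (Nat.land i (nat_lit 32767)) (nat_lit 2)))

def eRg (r : Nat) : Nat := Nat.xor (gp (Nat.shiftRight r (nat_lit 14))) (Nat.shiftLeft (nat_lit 1) (Nat.land r (nat_lit 16383)))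

def eRc (r : Nat) : Nat := Nat.xor (cc (Nat.shiftRight r (nat_lit 14))) (Nat.shiftLeft (nat_lit 1) (Nat.land r (nat_lit 16383)))

def eRo (G : Nat → Nat) (r : Nat) : Nat := Nat.xor (G (Nat.shiftRight r (nat_lit 14))) (Nat.shiftLeft (nat_lit 1) (Nat.land r (nat_lit 16383)))

def eYb (r : Nat) : Nat := Nat.shiftLeft (nat_lit 1) (Nat.xor (Nat.land r (nat_lit 16383)) (nat_lit 4096))

def eYl1 (LR : Nat → Nat) (i j : Nat) (_ : Nat) : Nat :=
  Nat.shiftLeft (nat_lit 1) (Nat.xor (lpq (LR j) i) (nat_lit 4096))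

def eYl (LR : Nat → Nat) (i : Nat) : Nat :=
  @Nat.rec (fun _ => Nat) (nat_lit 0) (eYl1 LR i) (Nat.succ (Nat.shiftRight (Nat.land i (nat_lit 32767)) (nat_lit 2)))

/-- one resolution step on a set -/
def stp (R N : Nat → Nat) (S p : Nat) (_ : Nat) : Nat := Nat.lor (Nat.land S (N p)) (R p)

def sty (Y : Nat → Nat) (S p : Nat) (_ : Nat) : Nat := Nat.lor S (Y p)

def y1 (Y : Nat → Nat) (_ : Nat) (ih : Nat → Nat → Nat) (r S : Nat) : Nat :=
  ih (Nat.shiftRight r (nat_lit 15)) (@Nat.rec (fun _ => Nat) (nat_lit 0) (sty Y S) (Nat.land r (nat_lit 32767)))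

def y4 (Y : Nat → Nat) (_ : Nat) (ih : Nat → Nat → Nat) (r S : Nat) : Nat :=
  ih (Nat.shiftRight r (nat_lit 60))
    (@Nat.rec (fun _ => Nat) (nat_lit 0) (sty Y
      (@Nat.rec (fun _ => Nat) (nat_lit 0) (sty Y
        (@Nat.rec (fun _ => Nat) (nat_lit 0) (sty Y
          (@Nat.rec (fun _ => Nat) (nat_lit 0) (sty Y S) (Nat.land r (nat_lit 32767))))
          (Nat.land (Nat.shiftRight r (nat_lit 15)) (nat_lit 32767))))
        (Nat.land (Nat.shiftRight r (nat_lit 30)) (nat_lit 32767))))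
      (Nat.land (Nat.shiftRight r (nat_lit 45)) (nat_lit 32767)))

/-- union of the sets `Y` -/
def yl (Y : Nat → Nat) (a g : Nat) : Nat → Nat → Nat :=
  @Nat.rec (fun _ => Nat → Nat → Nat) (@Nat.rec (fun _ => Nat → Nat → Nat) lend (y4 Y) g) (y1 Y) a

/-- the set `S` is evaluated before the next step -/
def fo (ih : Nat → Nat → Nat) (r S : Nat) : Nat :=
  @Bool.rec (fun _ => Nat) tr (ih r S) (Nat.ble (nat_lit 0) S)

/-- one resolution step on a set -/
def r1 (R N : Nat → Nat) (_ : Nat) (ih : Nat → Nat → Nat) (r S : Nat) : Nat :=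
  ih (Nat.shiftRight r (nat_lit 15)) (@Nat.rec (fun _ => Nat) tr (stp R N S) (Nat.land r (nat_lit 32767)))

/-- four resolution steps on a set -/
def r4 (R N : Nat → Nat) (_ : Nat) (ih : Nat → Nat → Nat) (r S : Nat) : Nat :=
  fo ih (Nat.shiftRight r (nat_lit 60))
    (@Nat.rec (fun _ => Nat) tr (stp R N
      (@Nat.rec (fun _ => Nat) tr (stp R N
        (@Nat.rec (fun _ => Nat) tr (stp R N
          (@Nat.rec (fun _ => Nat) tr (stp R N S) (Nat.land r (nat_lit 32767))))
          (Nat.land (Nat.shiftRight r (nat_lit 15)) (nat_lit 32767))))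
        (Nat.land (Nat.shiftRight r (nat_lit 30)) (nat_lit 32767))))
      (Nat.land (Nat.shiftRight r (nat_lit 45)) (nat_lit 32767)))

/-- derivation: `a` single steps, then `g` groups of four -/
def rl (R N : Nat → Nat) (a g : Nat) : Nat → Nat → Nat :=
  @Nat.rec (fun _ => Nat → Nat → Nat) (@Nat.rec (fun _ => Nat → Nat → Nat) lend (r4 R N) g) (r1 R N) a

/-- composite entries: numbers of steps (2 and 8 bits), steps -/
def mY (Y : Nat → Nat) (r : Nat) : Nat :=
  yl Y (Nat.land r (nat_lit 3)) (Nat.land (Nat.shiftRight r (nat_lit 2)) (nat_lit 255)) (Nat.shiftRight r (nat_lit 10)) (nat_lit 0)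

def mR (R N Y : Nat → Nat) (r : Nat) : Nat :=
  rl R N (Nat.land r (nat_lit 3)) (Nat.land (Nat.shiftRight r (nat_lit 2)) (nat_lit 255)) (Nat.shiftRight r (nat_lit 10)) (mY Y r)

def m1 : Nat := Nat.add (nat_lit 1) (Nat.pow (nat_lit 2) (nat_lit 4096))

/-- start of a derivation: a variable and its negation -/
def st0 (x : Nat) : Nat := Nat.mul m1 (Nat.shiftLeft (nat_lit 1) (Nat.land x (nat_lit 12287)))

/-- computed lemmas: numbers of steps (2 and 8 bits), variable (14 bits), pivot (14 bits), steps -/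
def iR (R N : Nat → Nat) (r : Nat) : Nat :=
  Nat.xor (rl R N (Nat.land r (nat_lit 3)) (Nat.land (Nat.shiftRight r (nat_lit 2)) (nat_lit 255)) (Nat.shiftRight r (nat_lit 38))
    (st0 (Nat.shiftRight r (nat_lit 10)))) (Nat.shiftLeft (nat_lit 1) (Nat.land (Nat.shiftRight r (nat_lit 24)) (nat_lit 16383)))

def iY (r : Nat) : Nat :=
  Nat.shiftLeft (nat_lit 1) (Nat.xor (Nat.land (Nat.shiftRight r (nat_lit 24)) (nat_lit 16383)) (nat_lit 4096))

def eM : Nat := Nat.mul (Nat.sub (Nat.pow (nat_lit 2) (nat_lit 4096)) (nat_lit 1))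
  (Nat.add (nat_lit 1) (Nat.pow (nat_lit 2) (nat_lit 8192)))

/-- negation of all literals of a mask -/
def ng (x : Nat) : Nat := Nat.lor (Nat.shiftLeft (Nat.land x eM) (nat_lit 4096))
  (Nat.land (Nat.shiftRight x (nat_lit 4096)) eM)

def addU (m : Nat) : Nat :=
  @Bool.rec (fun _ => Nat) (nat_lit 0) (ng m)
    (Nat.beq (Nat.land m (Nat.sub m (nat_lit 1))) (nat_lit 0))

def cf (_ : Nat) (_ : Bool) : Bool := false

/-- `A`: literals known to be false; `r`: numbers of steps (2 and 8 bits), variable (14 bits), steps -/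
def ou2 (R N : Nat → Nat) (k : Nat → Bool) (U' A r : Nat) : Bool :=
  @Nat.rec (fun _ => Bool) (k U') cf
    (Nat.xor (Nat.lor (rl R N (Nat.land r (nat_lit 3)) (Nat.land (Nat.shiftRight r (nat_lit 2)) (nat_lit 255))
      (Nat.shiftRight r (nat_lit 24)) (st0 (Nat.shiftRight r (nat_lit 10)))) A) A)

def ou1 (R N : Nat → Nat) (k : Nat → Bool) (U n m r : Nat) : Bool :=
  ou2 R N k (Nat.lor (Nat.lor U (addU m)) (Nat.shiftLeft (nat_lit 1) (Nat.add (nat_lit 16384) n))) (Nat.lor m U) r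

/-- rest of a lemma record after the literals -/
def lrs (r : Nat) : Nat :=
  Nat.shiftRight r (Nat.add (nat_lit 10) (Nat.mul (nat_lit 14)
    (Nat.add (Nat.land r (nat_lit 3)) (Nat.land r (nat_lit 1020)))))

def ou (R N LM LR : Nat → Nat) (n : Nat) (ih : Nat → Bool) (U : Nat) : Bool :=
  ou1 R N ih U n (LM n) (lrs (LR n))

/-- lemmas `fuel - 1, …, 0` -/
def outer (R N LM LR : Nat → Nat) (F : Nat → Bool) (fuel : Nat) : Nat → Bool :=
  @Nat.rec (fun _ => Nat → Bool) F (ou R N LM LR) fuel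

/-- the mask `V` is contained in the final mask -/
def fin (V W : Nat) : Bool := Nat.beq (Nat.lor V W) W

/-- clause `n + i` of the block is clause `k` of the list `S` of length `m` -/
def impC (S LM : Nat → Nat) (m n i k : Nat) : Bool :=
  @Bool.rec (fun _ => Bool) false (Nat.beq (LM (Nat.add n i)) (S k)) (Nat.ble (Nat.succ k) m)

def impS (S LM : Nat → Nat) (m n ix i : Nat) (ih : Bool) : Bool :=
  @Bool.rec (fun _ => Bool) false ih
    (impC S LM m n i (Nat.land (Nat.shiftRight ix (Nat.mul (nat_lit 16) i)) (nat_lit 65535)))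

/-- the imported clauses, 16 bits for each index -/
def imp (S LM : Nat → Nat) (m n ix np : Nat) : Bool :=
  @Nat.rec (fun _ => Bool) true (impS S LM m n ix) np

end

end Pool.Agent.H13.Z12.B3
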