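import Pool.Agent.H13.Z12.Defs3

/-!
Kernel checker for unit propagation proofs, fourth version (MP_1e71f9_co).

Masks and tables as in the third version. A step is a function of the set `S` and the index `p` of
an entry; the entries of a level are reached by case distinctions on the index, so the masks of an
entry are computed once. Hints have `w` bits.
-/

set_option autoImplicit false
set_option maxRecDepth 10000

namespace Pool.Agent.H13.Z12.B4

open Pool.Agent.H13.Z12.B3 (fu tr gp cc trc lr lm1 lpq sw eRl eRg eYb eYl fo lend sty st0 lloop addU cf lrs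
  fin imp)

noncomputable section

def gp1 (c : Nat) (_ : Nat) : Nat := Nat.lor (gp c) (nat_lit 0)

def cc1 (c : Nat) (_ : Nat) : Nat := Nat.lor (cc c) (nat_lit 0)

/-- pivot (14 bits), code of a three term clause plus one -/
def tG (t i : Nat) : Nat :=
  Nat.xor (@Nat.rec (fun _ => Nat) tr gp1 (Nat.shiftRight (trc t (nat_lit 44) i) (nat_lit 14)))
    (Nat.shiftLeft (nat_lit 1) (Nat.land (trc t (nat_lit 44) i) (nat_lit 16383)))

/-- pivot (14 bits), code of a cocircuit clause plus one -/
def tC (t i : Nat) : Nat :=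
  Nat.xor (@Nat.rec (fun _ => Nat) tr cc1 (Nat.shiftRight (trc t (nat_lit 38) i) (nat_lit 14)))
    (Nat.shiftLeft (nat_lit 1) (Nat.land (trc t (nat_lit 38) i) (nat_lit 16383)))

/-- pivot (14 bits), code -/
def tO (G : Nat → Nat) (t i : Nat) : Nat :=
  Nat.xor (G (Nat.shiftRight (trc t (nat_lit 46) i) (nat_lit 14)))
    (Nat.shiftLeft (nat_lit 1) (Nat.land (trc t (nat_lit 46) i) (nat_lit 16383)))

def tY (w t i : Nat) : Nat := eYb (trc t w i)

/-- required sets of the base clauses and of the stored lemmas -/
def bR (G LM LR : Nat → Nat) (tg tc to n1 n2 n3 : Nat) : Nat → Nat :=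
  sw n1 (tG tg) (sw n2 (tC tc) (sw n3 (tO G to) (eRl LM LR)))

def bY (LR : Nat → Nat) (tg tc to n1 n2 n3 : Nat) : Nat → Nat :=
  sw n1 (tY (nat_lit 44) tg) (sw n2 (tY (nat_lit 38) tc) (sw n3 (tY (nat_lit 46) to) (eYl LR)))

def mk (w : Nat) : Nat := Nat.sub (Nat.pow (nat_lit 2) w) (nat_lit 1)

/-- union of sets -/
def y1 (w : Nat) (Y : Nat → Nat) (_ : Nat) (ih : Nat → Nat → Nat) (r S : Nat) : Nat :=
  ih (Nat.shiftRight r w) (@Nat.rec (fun _ => Nat) (nat_lit 0) (sty Y S) (Nat.land r (mk w)))

def y4 (w : Nat) (Y : Nat → Nat) (_ : Nat) (ih : Nat → Nat → Nat) (r S : Nat) : Nat :=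
  ih (Nat.shiftRight r (Nat.mul (nat_lit 4) w))
    (@Nat.rec (fun _ => Nat) (nat_lit 0) (sty Y
      (@Nat.rec (fun _ => Nat) (nat_lit 0) (sty Y
        (@Nat.rec (fun _ => Nat) (nat_lit 0) (sty Y
          (@Nat.rec (fun _ => Nat) (nat_lit 0) (sty Y S) (Nat.land r (mk w))))
          (Nat.land (Nat.shiftRight r w) (mk w))))
        (Nat.land (Nat.shiftRight r (Nat.mul (nat_lit 2) w)) (mk w))))
      (Nat.land (Nat.shiftRight r (Nat.mul (nat_lit 3) w)) (mk w)))

def yl (w : Nat) (Y : Nat → Nat) (a g : Nat) : Nat → Nat → Nat :=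
  @Nat.rec (fun _ => Nat → Nat → Nat) (@Nat.rec (fun _ => Nat → Nat → Nat) lend (y4 w Y) g) (y1 w Y) a

/-- numbers of hints (2 and 8 bits), hints -/
def mY (w : Nat) (Y : Nat → Nat) (r : Nat) : Nat :=
  yl w Y (Nat.land r (nat_lit 3)) (Nat.land (Nat.shiftRight r (nat_lit 2)) (nat_lit 255)) (Nat.shiftRight r (nat_lit 10)) (nat_lit 0)

/-- one step: `F S p x` is the new set, `x` is not used -/
def r1 (w : Nat) (F : Nat → Nat → Nat → Nat) (_ : Nat) (ih : Nat → Nat → Nat) (r S : Nat) : Nat :=
  ih (Nat.shiftRight r w) (@Nat.rec (fun _ => Nat) tr (F S) (Nat.land r (mk w)))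

/-- four steps -/
def r4 (w : Nat) (F : Nat → Nat → Nat → Nat) (_ : Nat) (ih : Nat → Nat → Nat) (r S : Nat) : Nat :=
  fo ih (Nat.shiftRight r (Nat.mul (nat_lit 4) w))
    (@Nat.rec (fun _ => Nat) tr (F
      (@Nat.rec (fun _ => Nat) tr (F
        (@Nat.rec (fun _ => Nat) tr (F
          (@Nat.rec (fun _ => Nat) tr (F S) (Nat.land r (mk w))))
          (Nat.land (Nat.shiftRight r w) (mk w))))
        (Nat.land (Nat.shiftRight r (Nat.mul (nat_lit 2) w)) (mk w))))
      (Nat.land (Nat.shiftRight r (Nat.mul (nat_lit 3) w)) (mk w)))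

/-- derivation: `a` single steps, then `g` groups of four -/
def rl (w : Nat) (F : Nat → Nat → Nat → Nat) (a g : Nat) : Nat → Nat → Nat :=
  @Nat.rec (fun _ => Nat → Nat → Nat) (@Nat.rec (fun _ => Nat → Nat → Nat) lend (r4 w F) g) (r1 w F) a

/-- composite entries: numbers of hints (2 and 8 bits), hints -/
def mR (w : Nat) (F : Nat → Nat → Nat → Nat) (Y : Nat → Nat) (r : Nat) : Nat :=
  rl w F (Nat.land r (nat_lit 3)) (Nat.land (Nat.shiftRight r (nat_lit 2)) (nat_lit 255)) (Nat.shiftRight r (nat_lit 10)) (mY w Y r)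

/-- computed lemmas: numbers of hints (2 and 8 bits), variable (14 bits), pivot (14 bits), hints -/
def iR (w : Nat) (F : Nat → Nat → Nat → Nat) (r : Nat) : Nat :=
  Nat.xor (rl w F (Nat.land r (nat_lit 3)) (Nat.land (Nat.shiftRight r (nat_lit 2)) (nat_lit 255)) (Nat.shiftRight r (nat_lit 38))
    (st0 (Nat.shiftRight r (nat_lit 10)))) (Nat.shiftLeft (nat_lit 1) (Nat.land (Nat.shiftRight r (nat_lit 24)) (nat_lit 16383)))

def iY (r : Nat) : Nat :=
  Nat.shiftLeft (nat_lit 1) (Nat.xor (Nat.land (Nat.shiftRight r (nat_lit 24)) (nat_lit 16383)) (nat_lit 4096))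

/-- step with a base clause or a stored lemma -/
def bS (R Y : Nat → Nat) (S p : Nat) (_ : Nat) : Nat := Nat.lor (Nat.land S (Nat.xor fu (Y p))) (R p)

/-- step with a composite entry -/
def cS (w : Nat) (F : Nat → Nat → Nat → Nat) (Y : Nat → Nat) (r S : Nat) : Nat :=
  Nat.lor (Nat.land S (Nat.xor fu (mY w Y r))) (mR w F Y r)

/-- step with a computed lemma -/
def iS (w : Nat) (F : Nat → Nat → Nat → Nat) (r S : Nat) : Nat := Nat.lor (Nat.land S (Nat.xor fu (iY r))) (iR w F r)

/-- entries of a level: composites below `b`, computed lemmas from `b` -/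
def cl (b w : Nat) (F : Nat → Nat → Nat → Nat) (Y M : Nat → Nat) (S p : Nat) : Nat :=
  @Bool.rec (fun _ => Nat) (cS w F Y (M p) S) (iS w F (M p) S) (Nat.ble b p)

/-- entries up to a level: from `a` those of the level -/
def es (a b w : Nat) (F : Nat → Nat → Nat → Nat) (Y M : Nat → Nat) (E : Nat → Nat → Nat → Nat) (S p x : Nat) : Nat :=
  @Bool.rec (fun _ => Nat) (E S p x) (cl b w F Y M S p) (Nat.ble a p)

def zs (a b w : Nat) (Y M Z : Nat → Nat) (p : Nat) : Nat :=
  @Bool.rec (fun _ => Nat) (Z p) (@Bool.rec (fun _ => Nat) (mY w Y (M p)) (iY (M p)) (Nat.ble b p)) (Nat.ble a p)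

/-- base entries below `n` -/
def fs (n : Nat) (F E : Nat → Nat → Nat → Nat) (S p x : Nat) : Nat :=
  @Bool.rec (fun _ => Nat) (F S p x) (E S p x) (Nat.ble n p)

def ys (n : Nat) (Y Z : Nat → Nat) (p : Nat) : Nat := @Bool.rec (fun _ => Nat) (Y p) (Z p) (Nat.ble n p)

def e0 (_ : Nat) (_ : Nat) (_ : Nat) : Nat := tr

def z0 (_ : Nat) : Nat := nat_lit 0

/-- `A`: literals known to be false; `r`: numbers of steps (2 and 8 bits), variable (14 bits), steps -/
def ou2 (w : Nat) (F : Nat → Nat → Nat → Nat) (k : Nat → Bool) (U A r : Nat) : Bool :=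
  @Nat.rec (fun _ => Bool) (k U) cf
    (Nat.xor (Nat.lor (rl w F (Nat.land r (nat_lit 3)) (Nat.land (Nat.shiftRight r (nat_lit 2)) (nat_lit 255))
      (Nat.shiftRight r (nat_lit 24)) (st0 (Nat.shiftRight r (nat_lit 10)))) A) A)

def ou1 (w : Nat) (F : Nat → Nat → Nat → Nat) (k : Nat → Bool) (U n m r : Nat) : Bool :=
  ou2 w F k (Nat.lor (Nat.lor U (addU m)) (Nat.shiftLeft (nat_lit 1) (Nat.add (nat_lit 16384) n))) (Nat.lor m U) r

def ou (w : Nat) (F : Nat → Nat → Nat → Nat) (LM LR : Nat → Nat) (n : Nat) (ih : Nat → Bool) (U : Nat) : Bool :=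
  ou1 w F ih U n (LM n) (lrs (LR n))

/-- lemmas `fuel - 1, …, 0` -/
def outer (w : Nat) (F : Nat → Nat → Nat → Nat) (LM LR : Nat → Nat) (k : Nat → Bool) (fuel : Nat) : Nat → Bool :=
  @Nat.rec (fun _ => Nat → Bool) k (ou w F LM LR) fuel

/-- literals of the chart which are false -/
def CU : Nat := nat_lit 0x208000008000000000000000000000000000000000000000000000000000000000000000000000000000000000000000000000000000000000000000000000000000000000000000000000000000000000000000000000000000000000000000000000000000000000000000000000000000000000000000000000000000000020800000800000000000000000000000000000000000000000000000000000000000000000000000000000000000000000000000000000000000000000000000208000008000000000000000000000000000000000000000000000000000000020800000800000000000000000000000208000008000000020800000800000008000000000000000000000000000000000000000000000000000000000000000000000000000000000000000000000000000000000000000000000000000000000000000000000000000000000000000000000000000000000000000000000000000000000000000000000000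0000000000000000000000000000000000000000000000000000000000000000000000000000000000000000000000000000000000000000000000000000000000000000000000000000000000000000000000000000000000000000000000000000000000000000000000000000000000000000000000000000000000000000000000000000000000000000000000000000000480080000000000000000000000000000000000000000000000000000000000000000000000000000000000000000000000000000000000000000000000000000000000000000000000000000000000000000000000000000000000000000000000000000000000000000000000000000000000000000000000000000000000048008000000000000000000000000000000000000000000000000000000000000000000000000000000000000000000000000000000000000000000000000000480080000000000000000000000000000000000000000000000000000000000048008000000000000000000000000000480080000000000048008000000000000000000000000000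

/-- further literals: numbers (2 and 8 bits), literals of 14 bits -/
def uU (c r : Nat) : Nat :=
  lloop (Nat.land r (nat_lit 3)) (Nat.land (Nat.shiftRight r (nat_lit 2)) (nat_lit 255)) (Nat.shiftRight r (nat_lit 10)) c

def ck2 (w : Nat) (F : Nat → Nat → Nat → Nat) (LM LR : Nat → Nat) (U V n np : Nat) : Bool :=
  outer w F LM LR (fin V) n (Nat.lor U (Nat.shiftLeft (Nat.sub (Nat.pow (nat_lit 2) np) (nat_lit 1)) (Nat.add (nat_lit 16384) n)))

def ck1 (b c d : Bool) (e : Bool) : Bool :=
  @Bool.rec (fun _ => Bool) false (@Bool.rec (fun _ => Bool) false (@Bool.rec (fun _ => Bool) false e d) c) b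

/-- a block: `n` lemmas, `np` imported clauses (numbers `ix`), `ne` exported clauses (numbers `ex`) -/
def ck (w : Nat) (F : Nat → Nat → Nat → Nat) (LM LR S : Nat → Nat) (U V m n np ne ix ex : Nat) : Bool :=
  @Bool.rec (fun _ => Bool) false
    (ck1 (Nat.ble (Nat.succ U) (Nat.pow (nat_lit 2) (nat_lit 16384))) (imp S LM m n ix np)
      (imp LM S (Nat.add n np) m ex ne) (ck2 w F LM LR U V n np)) (Nat.ble (Nat.add n np) (nat_lit 8192))

end

end Pool.Agent.H13.Z12.B4
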