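import Pool.Agent.H13.Z12.Defs4
import Pool.Agent.H32.Z12.MGDefs

/-!
Kernel checker for unit propagation proofs, sixth version (MP_1e71f9_co).

Positions of a mask: below `16384` literals, from `24576` on never false. A derivation is a list of
clauses; the set `S` starts with the first one and is resolved with the following ones, the pivot is
the variable with both literals in the union. A hint is either the number of an entry (plus one,
`w` bits, flag 0) or a base clause (22 bits, type bit, flag 1). Entries are base clauses, imported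
clauses, computed clauses (the result of a derivation) and composites (lists of hints, from `NM`).
-/

set_option autoImplicit false
set_option maxRecDepth 10000

namespace Pool.Agent.H13.Z12.B6

open Pool.Agent.H13.Z12.B3 (tr t1 t2 gq gpc ccT trc lr lm1 sw addU eM)
open Pool.Agent.H32.Z12 (bnd aT)

noncomputable section

/-- the 4-sets, 12 bits each -/
def W4 : Nat := nat_lit 0xf00e80e40e20e10e08e04e02e01d80d40d20d10d08d04d02d01cc0ca0c90c88c84c82c81c60c50c48c44c42c41c30c28c24c22c21c18c14c12c11c0cc0ac09c06c05c03b80b40b20b10b08b04b02b01ac0aa0a90a88a84a82a81a60a50a48a44a42a41a30a28a24a22a21a18a14a12a11a0ca0aa09a06a05a039c09a099098898498298196095094894494294193092892492292191891491291190c90a9099069059038e08d08c88c48c28c18b08a88a48a28a189889489289188c88a88988688588387086886486286185885485285184c84a84984684584383883483283182c82a82982682582381c81a81981681581380e80d80b8077807407207107087047027016c06a069068868468268166065064864464264163062862462262161861461261160c60a6096066056035c05a059058858458258156055054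854454254153052852452252151851451251150c50a5095065055034e04d04c84c44c24c14b04a84a44a24a149849449249148c48a48948648548347046846446246145845445245144c44a44944644544343843443243142c42a42942642542341c41a41941641541340e40d40b4073c03a039038838438238136035034834434234133032832432232131831431231130c30a3093063053032e02d02c82c42c22c12b02a82a42a22a129829429229128c28a28928628528327026826426226125825425225124c24a24924624524323823423223122c22a22922622522321c21a21921621521320e20d20b2071e01d01c81c41c21c11b01a81a41a21a119819419219118c18a18918618518317016816416216115815415215114c14a14914614514313813413213112c12a12912612512311c11a11911611511310e10d10b1070f00e80e40e20e10d80d40d20d10cc0ca0c90c60c50c30b80b40b20b10ac0aa0a90a60a50a309c09a09909609509308e08d08b08707807407207106c06a06906606506305c05a05905605505304e04d04b04703c03a03903603503302e02d02b02701e01d01b01700f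

/-- the 5-sets, 12 bits each -/
def W5 : Nat := nat_lit 0xf80f40f20f10f08f04f02f01ec0ea0e90e88e84e82e81e60e50e48e44e42e41e30e28e24e22e21e18e14e12e11e0ce0ae09e06e05e03dc0da0d90d88d84d82d81d60d50d48d44d42d41d30d28d24d22d21d18d14d12d11d0cd0ad09d06d05d03ce0cd0cc8cc4cc2cc1cb0ca8ca4ca2ca1c98c94c92c91c8cc8ac89c86c85c83c70c68c64c62c61c58c54c52c51c4cc4ac49c46c45c43c38c34c32c31c2cc2ac29c26c25c23c1cc1ac19c16c15c13c0ec0dc0bc07bc0ba0b90b88b84b82b81b60b50b48b44b42b41b30b28b24b22b21b18b14b12b11b0cb0ab09b06b05b03ae0ad0ac8ac4ac2ac1ab0aa8aa4aa2aa1a98a94a92a91a8ca8aa89a86a85a83a70a68a64a62a61a58a54a52a51a4ca4aa49a46a45a43a38a34a32a31a2ca2aa29a26a25a23a1ca1aa19a16a15a13a0ea0da0ba079e09d09c89c49c29c19b09a89a49a29a199899499299198c98a98998698598397096896496296195895495295194c94a94994694594393893493293192c92a92992692592391c91a91991691591390e90d90b9078f08e88e48e28e18d88d48d28d18cc8ca8c98c68c58c38b88b48b28b18ac8aa8a98a68a58a389c89a89989689589388e88d88b88787887487287186c86a86986686586385c85a85985685585384e84d84b84783c83a8398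3683583382e82d82b82781e81d81b81780f7c07a079078878478278176075074874474274173072872472272171871471271170c70a7097067057036e06d06c86c46c26c16b06a86a46a26a169869469269168c68a68968668568367066866466266165865465265164c64a64964664564363863463263162c62a62962662562361c61a61961661561360e60d60b6075e05d05c85c45c25c15b05a85a45a25a159859459259158c58a58958658558357056856456256155855455255154c54a54954654554353853453253152c52a52952652552351c51a51951651551350e50d50b5074f04e84e44e24e14d84d44d24d14cc4ca4c94c64c54c34b84b44b24b14ac4aa4a94a64a54a349c49a49949649549348e48d48b48747847447247146c46a46946646546345c45a45945645545344e44d44b44743c43a43943643543342e42d42b42741e41d41b41740f3e03d03c83c43c23c13b03a83a43a23a139839439239138c38a38938638538337036836436236135835435235134c34a34934634534333833433233132c32a32932632532331c31a31931631531330e30d30b3072f02e82e42e22e12d82d42d22d12cc2ca2c92c62c52c32b82b42b22b12ac2aa2a92a62a52a329c29a29929629529328e28d28b28727827427227126c26a26926626526325c25a25925625525324e24d24b24723c23a23923623523322e22d22b22721e21d21b21720f1f01e81e41e21e11d81d41d21d11cc1ca1c91c61c51c31b81b41b21b11ac1aa1a91a61a51a319c19a19919619519318e18d18b18717817417217116c16a16916616516315c15a15915615515314e14d14b14713c13a13913613513312e12d12b12711e11d11b11710f0f80f40f20f10ec0ea0e90e60e50e30dc0da0d90d60d50d30ce0cd0cb0c70bc0ba0b90b60b50b30ae0ad0ab0a709e09d09b09708f07c07a07907607507306e06d06b06705e05d05b05704f03e03d03b03702f01f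

def tb4 (x : Nat) : Nat :=
  Nat.land (Nat.shiftRight W4 (Nat.mul (nat_lit 12) (Nat.land x (nat_lit 511)))) (nat_lit 4095)

def tb5 (x : Nat) : Nat :=
  Nat.land (Nat.shiftRight W5 (Nat.mul (nat_lit 12) (Nat.land x (nat_lit 1023)))) (nat_lit 4095)

def gq1 (c q : Nat) (_ : Nat) : Nat :=
  gpc (Nat.shiftRight c (nat_lit 5)) (Nat.shiftRight c (nat_lit 7)) (tb4 c) (t1 (Nat.succ q)) (t2 (Nat.succ q))
    (gq (Nat.succ q))

/-- three term clause: numbers of `A` and `Q` (9 bits each), pattern (4 bits) -/
def gm (c : Nat) : Nat := @Nat.rec (fun _ => Nat) tr (gq1 c) (tb4 (Nat.shiftRight c (nat_lit 9)))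

def cq1 (c q : Nat) (_ : Nat) : Nat := ccT (Nat.succ q) (Nat.land (Nat.shiftRight c (nat_lit 10)) (nat_lit 4095))

/-- cocircuit clause: number of `A` (10 bits), `t` (12 bits) -/
def cm (c : Nat) : Nat := @Nat.rec (fun _ => Nat) tr (cq1 c) (tb5 c)

/-- the variables with both literals in `T` -/
def cl (T : Nat) : Nat := Nat.land (Nat.land T (Nat.shiftRight T (nat_lit 4096))) eM

/-- a clause without complementary literals -/
def fx (D : Nat) : Nat := @Bool.rec (fun _ => Nat) tr (Nat.lor D (nat_lit 0)) (Nat.beq (cl D) (nat_lit 0))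

/-- base clause of a hint: type bit, code -/
def inl (v : Nat) : Nat :=
  fx (@Nat.rec (fun _ => Nat) (gm (Nat.shiftRight v (nat_lit 1))) (fun _ _ => cm (Nat.shiftRight v (nat_lit 1)))
    (Nat.land v (nat_lit 1)))

/-- no variable with both literals: the start or a clause which is not needed -/
def sk (ih : Nat → Nat → Nat) (r S T : Nat) : Nat := @Bool.rec (fun _ => Nat) (ih r S) (ih r T) (Nat.beq S (nat_lit 0))

def stC (ih : Nat → Nat → Nat) (r T x : Nat) : Nat :=
  @Bool.rec (fun _ => Nat) tr (ih r (Nat.xor T (Nat.lor x (Nat.shiftLeft x (nat_lit 4096)))))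
    (Nat.beq (Nat.land x (Nat.sub x (nat_lit 1))) (nat_lit 0))

def stB (ih : Nat → Nat → Nat) (r S T x : Nat) : Nat :=
  @Bool.rec (fun _ => Nat) (stC ih r T x) (sk ih r S T) (Nat.beq x (nat_lit 0))

/-- resolution of `S` and `D`, `T` is the union -/
def stA (ih : Nat → Nat → Nat) (r S T : Nat) : Nat :=
  stB ih r S T (Nat.land (Nat.land T (Nat.shiftRight T (nat_lit 4096))) eM)

/-- the set `S` is evaluated before the next step -/
def fo (ih : Nat → Nat → Nat) (r S : Nat) : Nat := @Bool.rec (fun _ => Nat) tr (ih r S) (Nat.ble (nat_lit 0) S)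

def mk (w : Nat) : Nat := Nat.sub (Nat.pow (nat_lit 2) w) (nat_lit 1)

/-- inline hint -/
def il (ih : Nat → Nat → Nat) (r S : Nat) : Nat :=
  stA ih (Nat.shiftRight r (nat_lit 23)) S (Nat.lor S (inl (Nat.land r (nat_lit 8388607))))

/-- number of an entry -/
def ix (w : Nat) (J : (Nat → Nat → Nat) → Nat → Nat → Nat → Nat → Nat) (ih : Nat → Nat → Nat) (r S : Nat) : Nat :=
  @Nat.rec (fun _ => Nat) tr (J ih r S) (Nat.land r (mk w))

/-- one hint, `J ih r S p x`: the entry `p` -/
def r1 (w : Nat) (J : (Nat → Nat → Nat) → Nat → Nat → Nat → Nat → Nat) (_ : Nat) (ih : Nat → Nat → Nat) (r S : Nat) : Nat :=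
  @Nat.rec (fun _ => Nat) (ix w J ih (Nat.shiftRight r (nat_lit 1)) S)
    (fun _ _ => il ih (Nat.shiftRight r (nat_lit 1)) S) (Nat.land r (nat_lit 1))

def lend (_ S : Nat) : Nat := S

/-- record: number of hints (10 bits), hints -/
def rn (w : Nat) (J : (Nat → Nat → Nat) → Nat → Nat → Nat → Nat → Nat) (r S : Nat) : Nat :=
  @Nat.rec (fun _ => Nat → Nat → Nat) lend (r1 w J) (Nat.land r (nat_lit 1023)) (Nat.shiftRight r (nat_lit 10)) S

/-- steps with base clauses and computed clauses -/
def j0 (w NB : Nat) (B E : Nat → Nat) (ih : Nat → Nat → Nat) (r S p : Nat) (_ : Nat) : Nat :=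
  stA ih (Nat.shiftRight r w) S (Nat.lor S (@Bool.rec (fun _ => Nat) (B p) (E p) (Nat.ble NB p)))

def j2 (w NM : Nat) (M E : Nat → Nat) (J : (Nat → Nat → Nat) → Nat → Nat → Nat → Nat → Nat) (ih : Nat → Nat → Nat)
    (r S p : Nat) : Nat :=
  @Bool.rec (fun _ => Nat) (stA ih (Nat.shiftRight r w) S (Nat.lor S (E p)))
    (fo ih (Nat.shiftRight r w) (Nat.lor (rn w J (M p) S) (nat_lit 0))) (Nat.ble NM p)

def j1 (w NB NM : Nat) (B M E : Nat → Nat) (_ : Nat) (J : (Nat → Nat → Nat) → Nat → Nat → Nat → Nat → Nat)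
    (ih : Nat → Nat → Nat) (r S p : Nat) (_ : Nat) : Nat :=
  @Bool.rec (fun _ => Nat) (stA ih (Nat.shiftRight r w) S (Nat.lor S (B p))) (j2 w NM M E J ih r S p) (Nat.ble NB p)

/-- steps with all entries, `k` nested composites -/
def jj (w NB NM : Nat) (B M E : Nat → Nat) (k : Nat) : (Nat → Nat → Nat) → Nat → Nat → Nat → Nat → Nat :=
  @Nat.rec (fun _ => (Nat → Nat → Nat) → Nat → Nat → Nat → Nat → Nat) (j0 w NB B E) (j1 w NB NM B M E) k

def thr (TH n : Nat) : Nat := Nat.land (Nat.shiftRight TH (Nat.mul (nat_lit 16) n)) (nat_lit 65535)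

def nz (X : Nat) : Nat := @Bool.rec (fun _ => Nat) (Nat.lor X (nat_lit 0)) tr (Nat.beq X (nat_lit 0))

def Es (w NB NM K TH : Nat) (B M : Nat → Nat) (n : Nat) (ih : Nat → Nat) (p : Nat) : Nat :=
  @Bool.rec (fun _ => Nat) (ih p) (nz (rn w (jj w NB NM B M ih K) (M p) (nat_lit 0))) (Nat.ble (thr TH n) p)

/-- computed clauses of the levels below `f` -/
def EE (w NB NM K TH : Nat) (B M : Nat → Nat) (f : Nat) : Nat → Nat :=
  @Nat.rec (fun _ => Nat → Nat) (fun _ => tr) (Es w NB NM K TH B M) f

/-- all clauses -/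
def CC (NB : Nat) (B E : Nat → Nat) (p : Nat) (_ : Nat) : Nat :=
  @Bool.rec (fun _ => Nat) (B p) (E p) (Nat.ble NB p)

/-! The forward steps. -/

def sN2 (ih : Nat → Nat → Bool) (r U N : Nat) : Bool :=
  @Bool.rec (fun _ => Bool) (ih r (Nat.lor U (addU N))) true (Nat.beq N (nat_lit 0))

def sN (ih : Nat → Nat → Bool) (r U D : Nat) : Bool := sN2 ih r U (Nat.xor (Nat.lor U D) U)

def sI (w : Nat) (C : Nat → Nat → Nat) (ih : Nat → Nat → Bool) (r U : Nat) : Bool :=
  sN ih (Nat.shiftRight r w) U (@Nat.rec (fun _ => Nat) tr C (Nat.land r (mk w)))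

def sL (ih : Nat → Nat → Bool) (r U : Nat) : Bool :=
  sN ih (Nat.shiftRight r (nat_lit 23)) U (inl (Nat.land r (nat_lit 8388607)))

def s1 (w : Nat) (C : Nat → Nat → Nat) (_ : Nat) (ih : Nat → Nat → Bool) (r U : Nat) : Bool :=
  @Nat.rec (fun _ => Bool) (sI w C ih (Nat.shiftRight r (nat_lit 1)) U)
    (fun _ _ => sL ih (Nat.shiftRight r (nat_lit 1)) U) (Nat.land r (nat_lit 1))

def sE (k : Nat → Bool) (_ U : Nat) : Bool := k U

/-- record: number of forward steps (12 bits), steps; `true` if all literals of a clause are false, `k` at the end -/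
def sn (w : Nat) (C : Nat → Nat → Nat) (k : Nat → Bool) (r U : Nat) : Bool :=
  @Nat.rec (fun _ => Nat → Nat → Bool) (sE k) (s1 w C) (Nat.land r (nat_lit 4095)) (Nat.shiftRight r (nat_lit 12)) U

/-! Tables. -/

def tG (t i : Nat) : Nat := fx (gm (trc t (nat_lit 22) i))

def tC (t i : Nat) : Nat := fx (cm (trc t (nat_lit 22) i))

def tO (G : Nat → Nat) (t i : Nat) : Nat := fx (G (trc t (nat_lit 32) i))

/-- imported clauses: numbers of 16 bits in the list `S` of length `m` -/
def tI1 (S : Nat → Nat) (m k : Nat) : Nat := fx (@Bool.rec (fun _ => Nat) tr (S k) (Nat.ble (Nat.succ k) m))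

def tI (S : Nat → Nat) (m t i : Nat) : Nat := tI1 S m (aT t i)

/-- base clauses and imported clauses -/
def BB (G S : Nat → Nat) (m tg tc tz ti n1 n2 n3 : Nat) : Nat → Nat :=
  sw n1 (tG tg) (sw n2 (tC tc) (sw n3 (tO G tz) (tI S m ti)))

def S0 (_ : Nat) : Nat := tr

def cF (_ : Nat) : Bool := false

/-! Many pieces in one block. -/

def mu1 (w : Nat) (C : Nat → Nat → Nat) (P H : Nat → Nat) (j : Nat) (ih : Bool) : Bool :=
  bnd (sn w C cF (P j) (H j)) ih

/-- pieces `n - 1, …, 0`: streams `P`, false literals `H` -/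
def mu (w : Nat) (C : Nat → Nat → Nat) (P H : Nat → Nat) (n : Nat) : Bool :=
  @Nat.rec (fun _ => Bool) true (mu1 w C P H) n

/-! One piece in several blocks. -/

/-- clause `D` implies clause `L` if the literals of `U` are false -/
def imc (U D L : Nat) : Bool := Nat.beq (Nat.lor D (Nat.lor L U)) (Nat.lor L U)

def ex1 (S : Nat → Nat) (C : Nat → Nat → Nat) (m ex U : Nat) (i : Nat) (ih : Bool) : Bool :=
  bnd (imc U (C (aT ex i) (nat_lit 0)) (S (Nat.add m i))) ih

/-- a block: false literals `U`, stream `r`, end `k` -/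
def ckb (w : Nat) (C : Nat → Nat → Nat) (k : Nat → Bool) (U r : Nat) : Bool :=
  bnd (Nat.ble (Nat.succ U) (Nat.pow (nat_lit 2) (nat_lit 16384))) (sn w C k r U)

/-- end of a block: the literals of `V` are false, `ne` exported clauses (entries `ex`) -/
def fin (S : Nat → Nat) (C : Nat → Nat → Nat) (V m ex ne U : Nat) : Bool :=
  bnd (Nat.beq (Nat.lor V U) U) (@Nat.rec (fun _ => Bool) true (ex1 S C m ex U) ne)

end

end Pool.Agent.H13.Z12.B6
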