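import Pool.Agent.H13.Z12.Defs6
import Pool.Agent.H17.Z12.GenP
import Pool.Agent.H17.Z12.GenO

/-!
Kernel checker for unit propagation proofs, seventh version (MP_1e71f9_co).

As the sixth version, with numbers of entries which are local to a group of pieces, circuit clauses,
vertex steps and pairs. A vertex mask consists of seven literals `R` and of the literals `N` of 32 cells;
if one of the literals of `N` is true, then one of the literals of `R` is true. The step replaces
the literals of `N` in a set by `R`. A pair is a computed step of the same kind: a set `Y` and the result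
`R` of a derivation which starts with `Y`.
-/

set_option autoImplicit false
set_option maxRecDepth 10000

namespace Pool.Agent.H13.Z12.B7

open Pool.Agent.H13.Z12.B3 (tr trc lr sw addU eM lit1)
open Pool.Agent.H13.Z12.B6 (cl fx mk nz lend sN sE cF tI imc ex1)
open Pool.Agent.H32.Z12 (bnd aT)
open Pool.Agent.H17.Z12 (gn)
open Pool.Agent.H17.Z12.P (pn vn on)

noncomputable section

/-! Steps. -/

/-- `1 + 2 ^ 4096` -/
def mm : Nat := Nat.add (nat_lit 1) (Nat.pow (nat_lit 2) (nat_lit 4096))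

def stC (ih : Nat → Nat → Nat) (r T x : Nat) : Nat :=
  @Bool.rec (fun _ => Nat) tr (ih r (Nat.xor T (Nat.mul x mm))) (Nat.beq (Nat.land x (Nat.sub x (nat_lit 1))) (nat_lit 0))

/-- resolution, `T` is the union -/
def stA (ih : Nat → Nat → Nat) (r T : Nat) : Nat :=
  stC ih r T (Nat.land (Nat.land T (Nat.shiftRight T (nat_lit 4096))) eM)

/-- the positions of the literals of cells -/
def MT : Nat := Nat.shiftLeft (Nat.sub (Nat.pow (nat_lit 2) (nat_lit 8192)) (nat_lit 1)) (nat_lit 8192)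

def stW (ih : Nat → Nat → Nat) (r S S' : Nat) : Nat :=
  @Bool.rec (fun _ => Nat) tr (ih r S') (Nat.beq (Nat.lor (cl S') (Nat.sub (nat_lit 1) S)) (nat_lit 0))

/-- vertex step -/
def stV (ih : Nat → Nat → Nat) (r S V : Nat) : Nat := stW ih r S (Nat.xor (Nat.lor S V) (Nat.land V MT))

/-- step with a pair: `R` instead of `Y` -/
def stP (ih : Nat → Nat → Nat) (r S Y R : Nat) : Nat := stW ih r S (Nat.lor (Nat.xor (Nat.lor S Y) Y) R)

/-- parts of a packed pair -/
def MP : Nat := Nat.sub (Nat.pow (nat_lit 2) (nat_lit 32768)) (nat_lit 1)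

def yp (V : Nat) : Nat := Nat.shiftRight V (nat_lit 32768)

def rp (V : Nat) : Nat := Nat.land V MP

/-- inline hint, circuit or cocircuit: vertex bit, code -/
def ilC (ih : Nat → Nat → Nat) (r S : Nat) : Nat :=
  @Bool.rec (fun _ => Nat)
    (stA ih (Nat.shiftRight r (nat_lit 24)) (Nat.lor S (pn (Nat.land (Nat.shiftRight r (nat_lit 1)) (nat_lit 8388607)))))
    (stV ih (Nat.shiftRight r (nat_lit 24)) S (vn (Nat.land (Nat.shiftRight r (nat_lit 1)) (nat_lit 8388607))))
    (Nat.beq (Nat.land r (nat_lit 1)) (nat_lit 1))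

/-- inline hint: type bit, code -/
def il (ih : Nat → Nat → Nat) (r S : Nat) : Nat :=
  @Bool.rec (fun _ => Nat)
    (stA ih (Nat.shiftRight r (nat_lit 21)) (Nat.lor S (gn (Nat.land (Nat.shiftRight r (nat_lit 1)) (nat_lit 1048575)))))
    (ilC ih (Nat.shiftRight r (nat_lit 1)) S) (Nat.beq (Nat.land r (nat_lit 1)) (nat_lit 1))

/-- number of an entry -/
def ix (w : Nat) (J : (Nat → Nat → Nat) → Nat → Nat → Nat → Nat → Nat) (ih : Nat → Nat → Nat) (r S : Nat) : Nat :=
  @Nat.rec (fun _ => Nat) tr (J ih r S) (Nat.land r (mk w))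

/-- one hint, `J ih r S p x`: the entry `p` -/
def r1 (w : Nat) (J : (Nat → Nat → Nat) → Nat → Nat → Nat → Nat → Nat) (_ : Nat) (ih : Nat → Nat → Nat) (r S : Nat) : Nat :=
  @Bool.rec (fun _ => Nat) (ix w J ih (Nat.shiftRight r (nat_lit 1)) S) (il ih (Nat.shiftRight r (nat_lit 1)) S)
    (Nat.beq (Nat.land r (nat_lit 1)) (nat_lit 1))

/-- record: number of hints (7 bits), hints -/
def rn (w : Nat) (J : (Nat → Nat → Nat) → Nat → Nat → Nat → Nat → Nat) (r S : Nat) : Nat :=
  @Nat.rec (fun _ => Nat → Nat → Nat) lend (r1 w J) (Nat.land r (nat_lit 127)) (Nat.shiftRight r (nat_lit 7)) S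

/-- computed clauses, pairs (`yb`) and vertex masks -/
def je (w NX : Nat) (E V : Nat → Nat) (yb : Nat → Bool) (ih : Nat → Nat → Nat) (r S p : Nat) : Nat :=
  @Bool.rec (fun _ => Nat)
    (@Bool.rec (fun _ => Nat) (stA ih (Nat.shiftRight r w) (Nat.lor S (E p)))
      (stP ih (Nat.shiftRight r w) S (yp (E p)) (rp (E p))) (yb p))
    (stV ih (Nat.shiftRight r w) S (V p)) (Nat.ble NX p)

/-- steps with entries -/
def jj (w NB NX : Nat) (B E V : Nat → Nat) (yb : Nat → Bool) (ih : Nat → Nat → Nat) (r S p : Nat) (_ : Nat) : Nat :=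
  @Bool.rec (fun _ => Nat) (stA ih (Nat.shiftRight r w) (Nat.lor S (B p))) (je w NX E V yb ih r S p) (Nat.ble NB p)

/-! Pairs: `S` and the outputs `Y`; record: number of hints (9 bits), hints. -/

def pC (ih : Nat → Nat → Nat → Nat) (r S Y T x : Nat) : Nat :=
  @Bool.rec (fun _ => Nat) tr (ih r (Nat.xor T (Nat.mul x mm)) (Nat.lor Y (Nat.land S (Nat.mul x mm))))
    (Nat.beq (Nat.land x (Nat.sub x (nat_lit 1))) (nat_lit 0))

def pA (ih : Nat → Nat → Nat → Nat) (r S Y T : Nat) : Nat :=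
  pC ih r S Y T (Nat.land (Nat.land T (Nat.shiftRight T (nat_lit 4096))) eM)

def pW (ih : Nat → Nat → Nat → Nat) (r S' Y : Nat) : Nat :=
  @Bool.rec (fun _ => Nat) tr (ih r S' Y) (Nat.beq (cl S') (nat_lit 0))

def pV (ih : Nat → Nat → Nat → Nat) (r S Y V : Nat) : Nat :=
  pW ih r (Nat.xor (Nat.lor S V) (Nat.land V MT)) (Nat.lor Y (Nat.land V MT))

def pP (ih : Nat → Nat → Nat → Nat) (r S Y V R : Nat) : Nat :=
  pW ih r (Nat.lor (Nat.xor (Nat.lor S V) V) R) (Nat.lor Y V)

def plC (ih : Nat → Nat → Nat → Nat) (r S Y : Nat) : Nat :=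
  @Bool.rec (fun _ => Nat)
    (pA ih (Nat.shiftRight r (nat_lit 24)) S Y (Nat.lor S (pn (Nat.land (Nat.shiftRight r (nat_lit 1)) (nat_lit 8388607)))))
    (pV ih (Nat.shiftRight r (nat_lit 24)) S Y (vn (Nat.land (Nat.shiftRight r (nat_lit 1)) (nat_lit 8388607))))
    (Nat.beq (Nat.land r (nat_lit 1)) (nat_lit 1))

def pl (ih : Nat → Nat → Nat → Nat) (r S Y : Nat) : Nat :=
  @Bool.rec (fun _ => Nat)
    (pA ih (Nat.shiftRight r (nat_lit 21)) S Y (Nat.lor S (gn (Nat.land (Nat.shiftRight r (nat_lit 1)) (nat_lit 1048575)))))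
    (plC ih (Nat.shiftRight r (nat_lit 1)) S Y) (Nat.beq (Nat.land r (nat_lit 1)) (nat_lit 1))

def px (w : Nat) (J : (Nat → Nat → Nat → Nat) → Nat → Nat → Nat → Nat → Nat → Nat) (ih : Nat → Nat → Nat → Nat)
    (r S Y : Nat) : Nat :=
  @Nat.rec (fun _ => Nat) tr (J ih r S Y) (Nat.land r (mk w))

def p1 (w : Nat) (J : (Nat → Nat → Nat → Nat) → Nat → Nat → Nat → Nat → Nat → Nat) (_ : Nat)
    (ih : Nat → Nat → Nat → Nat) (r S Y : Nat) : Nat :=
  @Bool.rec (fun _ => Nat) (px w J ih (Nat.shiftRight r (nat_lit 1)) S Y) (pl ih (Nat.shiftRight r (nat_lit 1)) S Y)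
    (Nat.beq (Nat.land r (nat_lit 1)) (nat_lit 1))

def pend (_ S Y : Nat) : Nat := Nat.lor (Nat.land S MP) (Nat.shiftLeft Y (nat_lit 32768))

def qn (w : Nat) (J : (Nat → Nat → Nat → Nat) → Nat → Nat → Nat → Nat → Nat → Nat) (r Y : Nat) : Nat :=
  @Nat.rec (fun _ => Nat → Nat → Nat → Nat) pend (p1 w J) (Nat.land r (nat_lit 511)) (Nat.shiftRight r (nat_lit 9)) (fx Y) Y

def pe (w NX : Nat) (E V : Nat → Nat) (yb : Nat → Bool) (ih : Nat → Nat → Nat → Nat) (r S Y p : Nat) : Nat :=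
  @Bool.rec (fun _ => Nat)
    (@Bool.rec (fun _ => Nat) (pA ih (Nat.shiftRight r w) S Y (Nat.lor S (E p)))
      (pP ih (Nat.shiftRight r w) S Y (yp (E p)) (rp (E p))) (yb p))
    (pV ih (Nat.shiftRight r w) S Y (V p)) (Nat.ble NX p)

def pj (w NB NX : Nat) (B E V : Nat → Nat) (yb : Nat → Bool) (ih : Nat → Nat → Nat → Nat) (r S Y p : Nat) (_ : Nat) : Nat :=
  @Bool.rec (fun _ => Nat) (pA ih (Nat.shiftRight r w) S Y (Nat.lor S (B p))) (pe w NX E V yb ih r S Y p) (Nat.ble NB p)

/-- explicit outputs of a pair: number (7 bits), literals -/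
def ys (r : Nat) : Nat :=
  @Nat.rec (fun _ => Nat → Nat → Nat) lend lit1 (Nat.land r (nat_lit 127)) (Nat.shiftRight r (nat_lit 7)) (nat_lit 0)

def m2 (r : Nat) : Nat := Nat.shiftRight r (Nat.add (nat_lit 7) (Nat.mul (nat_lit 14) (Nat.land r (nat_lit 127))))

/-! Fields of a group header, 16 bits each: `w` 0, first entries and numbers of three term clauses
16, 32, of circuit and cocircuit clauses 48, 64, of other clauses 80, 96, first vertex entry 112,
first record 128, `NB` 144, `NX` 160, start of the thresholds (times 16) 176, number of groups of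
four levels 192, first entry and number of orthogonality clauses 208, 224. -/

def hf (h k : Nat) : Nat := Nat.land (Nat.shiftRight h k) (nat_lit 65535)

/-- number of the record of an entry -/
def rc (h p : Nat) : Nat := Nat.add (hf h (nat_lit 128)) (Nat.sub p (hf h (nat_lit 144)))

/-- the entry is a pair -/
def yb (TY h p : Nat) : Bool := Nat.beq (Nat.land (Nat.shiftRight TY (rc h p)) (nat_lit 1)) (nat_lit 1)

/-- value of a computed entry -/
def nE (w NB NX : Nat) (B M V : Nat → Nat) (yb : Nat → Bool) (E : Nat → Nat) (p : Nat) : Nat :=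
  @Bool.rec (fun _ => Nat) (nz (rn w (jj w NB NX B E V yb) (M p) (nat_lit 0)))
    (qn w (pj w NB NX B E V yb) (m2 (M p)) (ys (M p))) (yb p)

/-- first entry of the level `n` -/
def thr (h TH n : Nat) : Nat :=
  Nat.land (Nat.shiftRight TH (Nat.add (Nat.mul (nat_lit 16) (hf h (nat_lit 176))) (Nat.mul (hf h (nat_lit 0)) n)))
    (mk (hf h (nat_lit 0)))

def Es (h TH : Nat) (B M V : Nat → Nat) (yb : Nat → Bool) (n : Nat) (ih : Nat → Nat) (p : Nat) : Nat :=
  @Bool.rec (fun _ => Nat) (Nat.lor (ih p) (nat_lit 0))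
    (nE (hf h (nat_lit 0)) (hf h (nat_lit 144)) (hf h (nat_lit 160)) B M V yb ih p) (Nat.ble (thr h TH n) p)

def EI1 (h TH : Nat) (B M V : Nat → Nat) (yb : Nat → Bool) (q j : Nat) (ih : Nat → Nat) : Nat → Nat :=
  Es h TH B M V yb (Nat.add (Nat.mul (nat_lit 4) q) j) ih

/-- the levels `4 q, …, 4 q + j - 1`, below them `E` -/
def EI (h TH : Nat) (B M V : Nat → Nat) (yb : Nat → Bool) (q : Nat) (E : Nat → Nat) (j : Nat) : Nat → Nat :=
  @Nat.rec (fun _ => Nat → Nat) E (EI1 h TH B M V yb q) j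

def EO1 (h TH : Nat) (B M V : Nat → Nat) (yb : Nat → Bool) (q : Nat) (ih : Nat → Nat) (p : Nat) : Nat :=
  @Bool.rec (fun _ => Nat) (Nat.lor (ih p) (nat_lit 0)) (Nat.lor (EI h TH B M V yb q ih (nat_lit 4) p) (nat_lit 0))
    (Nat.ble (thr h TH (Nat.mul (nat_lit 4) q)) p)

/-- computed entries of the levels below `4 f` -/
def EE (h TH : Nat) (B M V : Nat → Nat) (yb : Nat → Bool) (f : Nat) : Nat → Nat :=
  @Nat.rec (fun _ => Nat → Nat) (fun _ => tr) (EO1 h TH B M V yb) f

/-- all clauses -/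
def CC (NB NX : Nat) (B E : Nat → Nat) (yb : Nat → Bool) (p : Nat) (_ : Nat) : Nat :=
  @Bool.rec (fun _ => Nat) (B p)
    (@Bool.rec (fun _ => Nat) (@Bool.rec (fun _ => Nat) (E p) tr (yb p)) tr (Nat.ble NX p)) (Nat.ble NB p)

/-! The forward steps. -/

def sI (w : Nat) (C : Nat → Nat → Nat) (ih : Nat → Nat → Bool) (r U : Nat) : Bool :=
  sN ih (Nat.shiftRight r w) U (@Nat.rec (fun _ => Nat) tr C (Nat.land r (mk w)))

def sL (ih : Nat → Nat → Bool) (r U : Nat) : Bool :=
  @Nat.rec (fun _ => Bool)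
    (sN ih (Nat.shiftRight r (nat_lit 21)) U (gn (Nat.land (Nat.shiftRight r (nat_lit 1)) (nat_lit 1048575))))
    (fun _ _ => sN ih (Nat.shiftRight r (nat_lit 25)) U (pn (Nat.land (Nat.shiftRight r (nat_lit 2)) (nat_lit 8388607))))
    (Nat.land r (nat_lit 1))

def s1 (w : Nat) (C : Nat → Nat → Nat) (_ : Nat) (ih : Nat → Nat → Bool) (r U : Nat) : Bool :=
  @Nat.rec (fun _ => Bool) (sI w C ih (Nat.shiftRight r (nat_lit 1)) U)
    (fun _ _ => sL ih (Nat.shiftRight r (nat_lit 1)) U) (Nat.land r (nat_lit 1))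

/-- record: number of forward steps (12 bits), steps; `true` if all literals of a clause are false, `k` at the end -/
def sn (w : Nat) (C : Nat → Nat → Nat) (k : Nat → Bool) (r U : Nat) : Bool :=
  @Nat.rec (fun _ => Nat → Nat → Bool) (sE k) (s1 w C) (Nat.land r (nat_lit 4095)) (Nat.shiftRight r (nat_lit 12)) U

/-! Tables. -/

def tG (t o i : Nat) : Nat := gn (trc t (nat_lit 20) (Nat.add o i))

def tC (t o i : Nat) : Nat := pn (trc t (nat_lit 23) (Nat.add o i))

def tO (G : Nat → Nat) (t o i : Nat) : Nat :=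
  fx (G (Nat.add (nat_lit 2) (Nat.shiftLeft (trc t (nat_lit 11) (Nat.add o i)) (nat_lit 14))))

def tW (t o i : Nat) : Nat := on (trc t (nat_lit 32) (Nat.add o i))

def tV (t o x p : Nat) : Nat := vn (trc t (nat_lit 23) (Nat.add o (Nat.sub p x)))

/-- base clauses and imported clauses -/
def BB (G S : Nat → Nat) (m tg tc tz tw ti h : Nat) : Nat → Nat :=
  sw (hf h (nat_lit 32)) (tG tg (hf h (nat_lit 16))) (sw (hf h (nat_lit 64)) (tC tc (hf h (nat_lit 48)))
    (sw (hf h (nat_lit 96)) (tO G tz (hf h (nat_lit 80))) (sw (hf h (nat_lit 224)) (tW tw (hf h (nat_lit 208)))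
      (tI S m ti))))

/-- vertex masks -/
def VV (tv h : Nat) : Nat → Nat := tV tv (hf h (nat_lit 112)) (hf h (nat_lit 160))

/-- records -/
def MM (w mo md h p : Nat) : Nat := lr w mo md (rc h p)

/-- all computed entries of a group -/
def DD (TH TY : Nat) (B M V : Nat → Nat → Nat) (h : Nat) : Nat → Nat :=
  EE h TH (B h) (M h) (V h) (yb TY h) (hf h (nat_lit 192))

/-- all clauses of a group -/
def CG (TY : Nat) (B D : Nat → Nat → Nat) (h : Nat) : Nat → Nat → Nat :=
  CC (hf h (nat_lit 144)) (hf h (nat_lit 160)) (B h) (D h) (yb TY h)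

/-! Many pieces in one block. -/

def pc2 (C : Nat → Nat → Nat → Nat) (r U h : Nat) (_ : Bool) : Bool := sn (hf h (nat_lit 0)) (C h) cF r U

/-- header plus one: `x` -/
def pc1 (C : Nat → Nat → Nat → Nat) (r U x : Nat) : Bool := @Nat.rec (fun _ => Bool) false (pc2 C r U) x

def mu1 (C : Nat → Nat → Nat → Nat) (HD PG : Nat) (P H : Nat → Nat) (j : Nat) (ih : Bool) : Bool :=
  bnd (pc1 C (P j) (H j) (trc HD (nat_lit 240) (aT PG j))) ih

/-- pieces `n - 1, …, 0`: streams `P`, false literals `H`, groups `PG`, headers `HD` -/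
def mu (C : Nat → Nat → Nat → Nat) (HD PG : Nat) (P H : Nat → Nat) (n : Nat) : Bool :=
  @Nat.rec (fun _ => Bool) true (mu1 C HD PG P H) n

/-! One piece in several blocks. -/

/-- a block: false literals `U`, stream `r`, end `k` -/
def ckb (w : Nat) (C : Nat → Nat → Nat) (k : Nat → Bool) (U r : Nat) : Bool :=
  bnd (Nat.ble (Nat.succ U) (Nat.pow (nat_lit 2) (nat_lit 16384))) (sn w C k r U)

/-- end of a block: the literals of `V` are false, `ne` exported clauses (entries `ex`) -/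
def fin (S : Nat → Nat) (C : Nat → Nat → Nat) (V m ex ne U : Nat) : Bool :=
  bnd (Nat.beq (Nat.lor V U) U) (@Nat.rec (fun _ => Bool) true (ex1 S C m ex U) ne)

end

end Pool.Agent.H13.Z12.B7
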