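import Pool.Agent.H17.Z12.Defs8

/-!
Fast evaluation of the blocks of the eighth checker (MP_1e71f9_co).

The format is the one of the eighth checker. The values of the computed entries are clauses or pairs of
masks, the parameters of a group are literals, and the loops are unrolled.
-/

set_option autoImplicit false
set_option maxRecDepth 10000

namespace Pool.Agent.H13.Z12.B9

open Pool.Agent.H13.Z12.B3 (tr eM)
open Pool.Agent.H13.Z12.B6 (cl mk lend)
open Pool.Agent.H13.Z12.B7 (stV stP il hf yb MT mm)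
open Pool.Agent.H17.Z12.B8 (ng lb dl hN hk hV)
open Pool.Agent.H17.Z12 (gn)
open Pool.Agent.H17.Z12.P (pn vn)

/-- Value of a computed entry: a clause, or a pair of outputs and result. -/
inductive Val : Type
  | cl (c : Nat) : Val
  | pr (y r : Nat) : Val

noncomputable section

/-! Derivations. -/

def sC (ih : Nat → Nat → Nat) (r T x : Nat) : Nat :=
  @Nat.rec (fun _ => Nat) (ih r (Nat.xor T (Nat.mul x mm))) (fun _ _ => tr) (Nat.land x (Nat.sub x (nat_lit 1)))

/-- resolution, `T` is the union -/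
def sA (ih : Nat → Nat → Nat) (r T : Nat) : Nat :=
  sC ih r T (Nat.land (Nat.land T (Nat.shiftRight T (nat_lit 4096))) eM)

/-- end of a derivation inside a derivation: the result `B` is used for a step with `S` -/
def kk (ih : Nat → Nat → Nat) (S r B : Nat) : Nat := sA ih r (Nat.lor S B)

/-- inline hint: bit 1: derivation `Sb`; bit 0: base clause or vertex mask -/
def is (Sb : (Nat → Nat → Nat) → Nat → Nat → Nat) (ih : Nat → Nat → Nat) (r S : Nat) : Nat :=
  @Bool.rec (fun _ => Nat) (il ih (Nat.shiftRight r (nat_lit 1)) S) (Sb ih (Nat.shiftRight r (nat_lit 1)) S)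
    (Nat.beq (Nat.land r (nat_lit 1)) (nat_lit 1))

/-- a hint with a value -/
def uV (ih : Nat → Nat → Nat) (r S : Nat) (X : Val) : Nat :=
  @Val.rec (fun _ => Nat) (fun c => sA ih r (Nat.lor S c)) (stP ih r S) X

/-- vertex masks and inline hints -/
def jw (NV k : Nat) (V : Nat → Nat) (Sb : (Nat → Nat → Nat) → Nat → Nat → Nat) (ih : Nat → Nat → Nat) (r S p : Nat) : Nat :=
  @Bool.rec (fun _ => Nat) (stV ih r S (V p)) (is Sb ih (Nat.add (Nat.shiftLeft r k) (Nat.sub p NV)) S) (Nat.ble NV p)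

/-- computed entries -/
def je (NX : Nat) (E : Nat → Val) (K : ((Nat → Nat → Nat) → Nat → Nat → Nat) → (Nat → Nat → Nat) → Nat → Nat → Nat → Nat)
    (Sb : (Nat → Nat → Nat) → Nat → Nat → Nat) (ih : Nat → Nat → Nat) (r S p : Nat) : Nat :=
  @Bool.rec (fun _ => Nat) (uV ih r S (E p)) (K Sb ih r S p) (Nat.ble NX p)

/-- base clauses -/
def jb (NB : Nat) (B : Nat → Nat)
    (K : ((Nat → Nat → Nat) → Nat → Nat → Nat) → (Nat → Nat → Nat) → Nat → Nat → Nat → Nat)
    (Sb : (Nat → Nat → Nat) → Nat → Nat → Nat) (ih : Nat → Nat → Nat) (r S p : Nat) (_ : Nat) : Nat :=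
  @Bool.rec (fun _ => Nat) (sA ih r (Nat.lor S (B p))) (K Sb ih r S p) (Nat.ble NB p)

/-- one hint: a digit in base `N`, `0` is the end -/
def q1 (N : Nat) (J : ((Nat → Nat → Nat) → Nat → Nat → Nat) → (Nat → Nat → Nat) → Nat → Nat → Nat → Nat → Nat)
    (Sb : (Nat → Nat → Nat) → Nat → Nat → Nat) (ih : Nat → Nat → Nat) (r S : Nat) : Nat :=
  @Nat.rec (fun _ => Nat) S (J Sb ih (Nat.div r N) S) (Nat.mod r N)

def qs (N : Nat) (J : ((Nat → Nat → Nat) → Nat → Nat → Nat) → (Nat → Nat → Nat) → Nat → Nat → Nat → Nat → Nat)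
    (Sb : (Nat → Nat → Nat) → Nat → Nat → Nat) (_ : Nat) (ih : Nat → Nat → Nat) (r S : Nat) : Nat :=
  @Nat.rec (fun _ => Nat) S (J Sb ih (Nat.div r N) S) (Nat.mod r N)

/-- four hints -/
def q4 (N : Nat) (J : ((Nat → Nat → Nat) → Nat → Nat → Nat) → (Nat → Nat → Nat) → Nat → Nat → Nat → Nat → Nat)
    (Sb : (Nat → Nat → Nat) → Nat → Nat → Nat) (_ : Nat) (ih : Nat → Nat → Nat) : Nat → Nat → Nat :=
  q1 N J Sb (q1 N J Sb (q1 N J Sb (q1 N J Sb ih)))

/-- a derivation inside a derivation: number of hints (5 bits), hints -/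
def sb1 (N : Nat) (J : ((Nat → Nat → Nat) → Nat → Nat → Nat) → (Nat → Nat → Nat) → Nat → Nat → Nat → Nat → Nat) (_ : Nat)
    (Sb : (Nat → Nat → Nat) → Nat → Nat → Nat) (ih : Nat → Nat → Nat) (r S : Nat) : Nat :=
  @Nat.rec (fun _ => Nat → Nat → Nat) (kk ih S) (qs N J Sb) (Nat.land r (nat_lit 31)) (Nat.shiftRight r (nat_lit 5))
    (nat_lit 0)

def s0 (_ : Nat → Nat → Nat) (_ _ : Nat) : Nat := tr

/-- derivations of depth `k` -/
def sb (N : Nat) (J : ((Nat → Nat → Nat) → Nat → Nat → Nat) → (Nat → Nat → Nat) → Nat → Nat → Nat → Nat → Nat) (k : Nat) :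
    (Nat → Nat → Nat) → Nat → Nat → Nat :=
  @Nat.rec (fun _ => (Nat → Nat → Nat) → Nat → Nat → Nat) s0 (sb1 N J) k

/-- record -/
def rn (N : Nat) (J : ((Nat → Nat → Nat) → Nat → Nat → Nat) → (Nat → Nat → Nat) → Nat → Nat → Nat → Nat → Nat) (r : Nat) : Nat :=
  @Nat.rec (fun _ => Nat → Nat → Nat) lend (q4 N J (sb N J (nat_lit 14))) (nat_lit 256) r (nat_lit 0)

/-! Pairs: `S` and the outputs `Y`; the continuations have values in `Val`. -/

def pW (ih : Nat → Nat → Nat → Val) (r S' Y : Nat) : Val :=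
  @Bool.rec (fun _ => Val) (Val.cl tr) (ih r S' Y) (Nat.beq (cl S') (nat_lit 0))

def pV (ih : Nat → Nat → Nat → Val) (r S Y V : Nat) : Val :=
  pW ih r (Nat.xor (Nat.lor S V) (Nat.land V MT)) (Nat.lor Y (Nat.land V MT))

def pP (ih : Nat → Nat → Nat → Val) (r S Y V R : Nat) : Val :=
  pW ih r (Nat.lor (Nat.xor (Nat.lor S V) V) R) (Nat.lor Y V)

/-- resolution, `T` is the union -/
def pR (ih : Nat → Nat → Nat → Val) (r S Y T x : Nat) : Val :=
  @Bool.rec (fun _ => Val) (Val.cl tr) (ih r (Nat.xor T (Nat.mul x mm)) (Nat.lor Y (Nat.land S (Nat.mul x mm))))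
    (Nat.beq (Nat.land x (Nat.sub x (nat_lit 1))) (nat_lit 0))

def pO2 (ih : Nat → Nat → Nat → Val) (r S Y T : Nat) : Val :=
  @Bool.rec (fun _ => Val) (Val.cl tr) (pR ih r S Y T (Nat.land (Nat.land T (Nat.shiftRight T (nat_lit 4096))) eM))
    (Nat.beq (cl S) (nat_lit 0))

def pO1 (ih : Nat → Nat → Nat → Val) (r S Y T y : Nat) : Val := pO2 ih r (Nat.lor S y) (Nat.lor Y y) (Nat.lor T y)

/-- new output: the negation of the literal `k` of the new literals of the clause -/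
def pO3 (ih : Nat → Nat → Nat → Val) (r S Y T k : Nat) : Val := pO1 ih r S Y T (ng (lb (dl (Nat.xor T S) k)))

/-- `k` has 5 bits, or `31` and 9 bits -/
def pO (ih : Nat → Nat → Nat → Val) (r S Y T : Nat) : Val :=
  @Bool.rec (fun _ => Val) (pO3 ih (Nat.shiftRight r (nat_lit 5)) S Y T (Nat.land r (nat_lit 31)))
    (pO3 ih (Nat.shiftRight r (nat_lit 14)) S Y T (Nat.land (Nat.shiftRight r (nat_lit 5)) (nat_lit 511)))
    (Nat.beq (Nat.land r (nat_lit 31)) (nat_lit 31))

def pC (ih : Nat → Nat → Nat → Val) (r S Y T x : Nat) : Val :=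
  @Bool.rec (fun _ => Val) (pR ih r S Y T x) (pO ih r S Y T) (Nat.beq x (nat_lit 0))

def pA (ih : Nat → Nat → Nat → Val) (r S Y T : Nat) : Val :=
  pC ih r S Y T (Nat.land (Nat.land T (Nat.shiftRight T (nat_lit 4096))) eM)

/-- inline hint, circuit or cocircuit: vertex bit, code -/
def plC (ih : Nat → Nat → Nat → Val) (r S Y : Nat) : Val :=
  @Bool.rec (fun _ => Val)
    (pA ih (Nat.shiftRight r (nat_lit 24)) S Y (Nat.lor S (pn (Nat.land (Nat.shiftRight r (nat_lit 1)) (nat_lit 8388607)))))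
    (pV ih (Nat.shiftRight r (nat_lit 24)) S Y (vn (Nat.land (Nat.shiftRight r (nat_lit 1)) (nat_lit 8388607))))
    (Nat.beq (Nat.land r (nat_lit 1)) (nat_lit 1))

/-- inline hint: type bit, code -/
def pl (ih : Nat → Nat → Nat → Val) (r S Y : Nat) : Val :=
  @Bool.rec (fun _ => Val)
    (pA ih (Nat.shiftRight r (nat_lit 21)) S Y (Nat.lor S (gn (Nat.land (Nat.shiftRight r (nat_lit 1)) (nat_lit 1048575)))))
    (plC ih (Nat.shiftRight r (nat_lit 1)) S Y) (Nat.beq (Nat.land r (nat_lit 1)) (nat_lit 1))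

def uP (ih : Nat → Nat → Nat → Val) (r S Y : Nat) (X : Val) : Val :=
  @Val.rec (fun _ => Val) (fun c => pA ih r S Y (Nat.lor S c)) (pP ih r S Y) X

def pw (NV k : Nat) (V : Nat → Nat) (ih : Nat → Nat → Nat → Val) (r S Y p : Nat) : Val :=
  @Bool.rec (fun _ => Val) (pV ih r S Y (V p)) (pl ih (Nat.add (Nat.shiftLeft r k) (Nat.sub p NV)) S Y) (Nat.ble NV p)

def pe (NX : Nat) (E : Nat → Val) (K : (Nat → Nat → Nat → Val) → Nat → Nat → Nat → Nat → Val)
    (ih : Nat → Nat → Nat → Val) (r S Y p : Nat) : Val :=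
  @Bool.rec (fun _ => Val) (uP ih r S Y (E p)) (K ih r S Y p) (Nat.ble NX p)

def pb (NB : Nat) (B : Nat → Nat) (K : (Nat → Nat → Nat → Val) → Nat → Nat → Nat → Nat → Val)
    (ih : Nat → Nat → Nat → Val) (r S Y p : Nat) (_ : Val) : Val :=
  @Bool.rec (fun _ => Val) (pA ih r S Y (Nat.lor S (B p))) (K ih r S Y p) (Nat.ble NB p)

/-- one hint: a digit in base `N`, `0` is the end -/
def t1 (N : Nat) (J : (Nat → Nat → Nat → Val) → Nat → Nat → Nat → Nat → Val → Val) (ih : Nat → Nat → Nat → Val) (r S Y : Nat) : Val :=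
  @Nat.rec (fun _ => Val) (Val.pr Y S) (J ih (Nat.div r N) S Y) (Nat.mod r N)

def t4 (N : Nat) (J : (Nat → Nat → Nat → Val) → Nat → Nat → Nat → Nat → Val → Val) (_ : Nat) (ih : Nat → Nat → Nat → Val) :
    Nat → Nat → Nat → Val := t1 N J (t1 N J (t1 N J (t1 N J ih)))

def pend (_ S Y : Nat) : Val := Val.pr Y S

/-- record of a pair -/
def qn (N : Nat) (J : (Nat → Nat → Nat → Val) → Nat → Nat → Nat → Nat → Val → Val) (r : Nat) : Val :=
  @Nat.rec (fun _ => Nat → Nat → Nat → Val) pend (t4 N J) (nat_lit 256) r (nat_lit 0) (nat_lit 0)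

/-! Computed entries. -/

/-- a clause which is not empty -/
def nv (X : Nat) : Val := @Bool.rec (fun _ => Val) (Val.cl X) (Val.cl tr) (Nat.beq X (nat_lit 0))

/-- value of a computed entry -/
def nE (N NB NX : Nat) (B : Nat → Nat)
    (K : ((Nat → Nat → Nat) → Nat → Nat → Nat) → (Nat → Nat → Nat) → Nat → Nat → Nat → Nat)
    (Kp : (Nat → Nat → Nat → Val) → Nat → Nat → Nat → Nat → Val) (M : Nat → Nat) (yb : Nat → Bool) (E : Nat → Val) (p : Nat) : Val :=
  @Bool.rec (fun _ => Val) (nv (rn N (jb NB B (je NX E K)) (M p))) (qn N (pb NB B (pe NX E Kp)) (M p)) (yb p)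

/-- first entry of the level `n` -/
def th9 (TH w m n : Nat) : Nat := Nat.land (Nat.shiftRight TH (Nat.mul w n)) m

def vv (X : Val) : Val := @Val.rec (fun _ => Val) Val.cl Val.pr X

/-- entries below the first entry of the level `n`: `E`, the others: `g` -/
def XS (t : Nat → Nat) (E g : Nat → Val) (n p : Nat) : Val :=
  @Bool.rec (fun _ => Val) (E p) (vv (g p)) (Nat.ble (t n) p)

def TR1 (t : Nat → Nat) (k : Nat) (ih : (Nat → Val) → Nat → Nat → Val) (E : Nat → Val) (n p : Nat) : Val :=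
  @Bool.rec (fun _ => Val) (ih E n p) (ih (XS t E (ih E n) n) (Nat.add n (Nat.pow (nat_lit 2) k)) p)
    (Nat.ble (t (Nat.add n (Nat.pow (nat_lit 2) k))) p)

/-- the levels `n, …, n + 2 ^ k - 1`, below them `E` -/
def TR (t : Nat → Nat) (F : (Nat → Val) → Nat → Val) (k : Nat) : (Nat → Val) → Nat → Nat → Val :=
  @Nat.rec (fun _ => (Nat → Val) → Nat → Nat → Val) (fun E _ => F E) (TR1 t) k

/-- `f x` with a literal `x` -/
def lz (f : Nat → Nat → Val) (x : Nat) : Nat → Val :=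
  @Nat.rec (fun _ => Nat → Val) (fun _ => Val.cl tr) (fun n _ => f n) (Nat.succ x)

def D7 (TH TY : Nat) (B M V : Nat → Nat → Nat) (h w m N k NV NB NX : Nat) : Nat → Val :=
  TR (th9 (Nat.shiftRight TH (Nat.mul (nat_lit 16) (hf h (nat_lit 176)))) w m)
    (nE N NB NX (B h) (jw NV k (V h)) (pw NV k (V h)) (M h) (yb TY h))
    (Nat.land (hf h (nat_lit 192)) (nat_lit 15)) (fun _ => Val.cl tr) (nat_lit 0)

/-- all computed entries of a group -/
def D9 (TH TY : Nat) (B M V : Nat → Nat → Nat) (h : Nat) : Nat → Val :=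
  lz (fun w => lz (fun m => lz (fun N => lz (fun k => lz (fun NV => lz (fun NB => lz (fun NX =>
    D7 TH TY B M V h w m N k NV NB NX) (hf h (nat_lit 160))) (hf h (nat_lit 144))) (hV h)) (hk h)) (hN h)) (mk w))
    (hf h (nat_lit 0))

/-- all clauses -/
def CC (NB NX : Nat) (B : Nat → Nat) (E : Nat → Val) (p : Nat) (_ : Nat) : Nat :=
  @Bool.rec (fun _ => Nat) (B p)
    (@Bool.rec (fun _ => Nat) (@Val.rec (fun _ => Nat) (fun c => c) (fun _ _ => tr) (E p)) tr (Nat.ble NX p)) (Nat.ble NB p)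

/-- all clauses of a group -/
def C9 (B : Nat → Nat → Nat) (D : Nat → Nat → Val) (h : Nat) : Nat → Nat → Nat :=
  CC (hf h (nat_lit 144)) (hf h (nat_lit 160)) (B h) (D h)

end

end Pool.Agent.H13.Z12.B9
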