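import Mathlib
import Pool.Agent.H13.Z12.Defs

/-!
Kernel checker for unit propagation proofs over the sign variables of twelve vectors
(MP_1e71f9_co).

Clauses are bit masks: bit `i < 4096` is the literal `χ i`, bit `4096 + i` its negation, bit
`8192 + s` the literal `T s`, bit `12288 + s` its negation.
-/

set_option autoImplicit false
set_option maxRecDepth 10000

namespace Pool.Agent.H13.Z12

/-- truth of the literal at position `i` -/
def lit (χ T : ℕ → Bool) (i : ℕ) : Prop :=
  (i < 4096 ∧ χ i = true) ∨ (4096 ≤ i ∧ i < 8192 ∧ χ (i - 4096) = false) ∨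
  (8192 ≤ i ∧ i < 12288 ∧ T (i - 8192) = true) ∨
  (12288 ≤ i ∧ i < 16384 ∧ T (i - 12288) = false)

/-- the clause with mask `m` is true -/
def Cl (χ T : ℕ → Bool) (m : ℕ) : Prop := ∃ i, m.testBit i = true ∧ lit χ T i

/-- all literals of the mask are false -/
def Fa (χ T : ℕ → Bool) (m : ℕ) : Prop := ∀ i, m.testBit i = true → ¬ lit χ T i

theorem Cl_or_Fa (χ T : ℕ → Bool) (m : ℕ) : Cl χ T m ∨ Fa χ T m := by
  by_cases h : Cl χ T m
  · exact Or.inl h
  · refine Or.inr fun i hi hl => h ⟨i, hi, hl⟩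

theorem eG_testBit (a i : ℕ) : (eG a).testBit i = (decide (i < a) || (decide (2 * a ≤ i) &&
    decide (i < 3 * a))) := by
  have h1 : eG a = (2 ^ a - 1) + 2 ^ (2 * a) * (2 ^ a - 1) := by
    have : eG a = (2 ^ a - 1) + (2 ^ a - 1) <<< (2 * a) := rfl
    rw [this, Nat.shiftLeft_eq, Nat.mul_comm]
  have h2 : (2 ^ a - 1 : ℕ) < 2 ^ (2 * a) :=
    lt_of_lt_of_le (Nat.sub_lt (Nat.two_pow_pos _) one_pos)
      (Nat.pow_le_pow_right (by norm_num) (by omega))
  rw [h1, Nat.add_comm, Nat.testBit_two_pow_mul_add _ h2]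
  by_cases hi : i < 2 * a
  · rw [if_pos hi, Nat.testBit_two_pow_sub_one]
    have : ¬ 2 * a ≤ i := by omega
    simp [this]
  · rw [if_neg hi, Nat.testBit_two_pow_sub_one]
    have h3 : 2 * a ≤ i := by omega
    have h4 : ¬ i < a := by omega
    have h5 : i - 2 * a < a ↔ i < 3 * a := by omega
    simp [h3, h4, h5]

theorem eM_testBit (i : ℕ) : eM.testBit i = (decide (i < 4096) || (decide (8192 ≤ i) &&
    decide (i < 12288))) := eG_testBit 4096 i

attribute [local irreducible] eM

theorem ng_testBit (x i : ℕ) : (ng x).testBit i = true →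
    (4096 ≤ i ∧ x.testBit (i - 4096) = true ∧ eM.testBit (i - 4096) = true) ∨
    (x.testBit (i + 4096) = true ∧ eM.testBit i = true) := by
  have h : ng x = ((x &&& eM) <<< 4096) ||| ((x >>> 4096) &&& eM) := rfl
  rw [h, Nat.testBit_or, Nat.testBit_shiftLeft, Nat.testBit_and, Nat.testBit_and,
    Nat.testBit_shiftRight, Bool.or_eq_true, Bool.and_eq_true, Bool.and_eq_true,
    Bool.and_eq_true, decide_eq_true_iff, Nat.add_comm 4096 i]
  rintro (⟨h1, h2, h3⟩ | ⟨h1, h2⟩)
  · exact Or.inl ⟨h1, h2, h3⟩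
  · exact Or.inr ⟨h1, h2⟩

/-- a true literal makes its negation false -/
theorem Fa_ng {χ T : ℕ → Bool} {k : ℕ} (hk : lit χ T k) : Fa χ T (ng (2 ^ k)) := by
  intro i hi hl
  rcases ng_testBit _ _ hi with ⟨h1, h2, h3⟩ | ⟨h2, h3⟩
  · rw [Nat.testBit_two_pow, decide_eq_true_iff] at h2
    rw [eM_testBit] at h3
    simp only [Bool.or_eq_true, Bool.and_eq_true, decide_eq_true_iff] at h3
    rcases hk with ⟨a, b⟩ | ⟨a, b, c⟩ | ⟨a, b, c⟩ | ⟨a, b, c⟩
    · rcases hl with ⟨a', b'⟩ | ⟨a', b', c'⟩ | ⟨a', b', c'⟩ | ⟨a', b', c'⟩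
      · omega
      · rw [← h2, b] at c'
        exact Bool.noConfusion c'
      · omega
      · omega
    · omega
    · rcases hl with ⟨a', b'⟩ | ⟨a', b', c'⟩ | ⟨a', b', c'⟩ | ⟨a', b', c'⟩
      · omega
      · omega
      · omega
      · have e : k - 8192 = i - 12288 := by omega
        rw [e, c'] at c
        exact Bool.noConfusion c
    · omega
  · rw [Nat.testBit_two_pow, decide_eq_true_iff] at h2
    rw [eM_testBit] at h3
    simp only [Bool.or_eq_true, Bool.and_eq_true, decide_eq_true_iff] at h3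
    rcases hk with ⟨a, b⟩ | ⟨a, b, c⟩ | ⟨a, b, c⟩ | ⟨a, b, c⟩
    · omega
    · rcases hl with ⟨a', b'⟩ | ⟨a', b', c'⟩ | ⟨a', b', c'⟩ | ⟨a', b', c'⟩
      · have e : k - 4096 = i := by omega
        rw [e, b'] at c
        exact Bool.noConfusion c
      · omega
      · omega
      · omega
    · omega
    · rcases hl with ⟨a', b'⟩ | ⟨a', b', c'⟩ | ⟨a', b', c'⟩ | ⟨a', b', c'⟩
      · omega
      · omega
      · have e : k - 12288 = i - 8192 := by omega
        rw [e, c'] at c
        exact Bool.noConfusion c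
      · omega

theorem eq_pow_of_testBit {x k : ℕ} (hk : x.testBit k = true) (h : x &&& (x - 1) = 0) :
    x = 2 ^ k := by
  have hx : x ≠ 0 := by
    rintro rfl
    simp at hk
  obtain ⟨n, hn⟩ := (Nat.and_sub_one_eq_zero_iff_isPowerOfTwo hx).1 h
  rw [hn, Nat.testBit_two_pow, decide_eq_true_iff] at hk
  rw [hn, hk]

/-- invariant of the propagation for the clause `m` -/
def Inv (χ T : ℕ → Bool) (m x α v : ℕ) : Prop :=
  v = 0 → (Cl χ T m ∨ Fa χ T α) ∧ (x = 0 → Cl χ T m)

theorem stp_inv {χ T : ℕ → Bool} {m x α v D : ℕ} (hD : Cl χ T D) (hI : Inv χ T m x α v) :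
    Inv χ T m (Nat.xor (Nat.lor D α) α) (Nat.lor α (ng (Nat.xor (Nat.lor D α) α)))
      (Nat.lor v (Nat.land (Nat.xor (Nat.lor D α) α)
        (Nat.sub (Nat.xor (Nat.lor D α) α) (nat_lit 1)))) := by
  change Inv χ T m ((D ||| α) ^^^ α) (α ||| ng ((D ||| α) ^^^ α))
    (v ||| (((D ||| α) ^^^ α) &&& (((D ||| α) ^^^ α) - 1)))
  set y := (D ||| α) ^^^ α with hy
  intro hv
  have hv0 : v = 0 := by
    by_contra hne
    have : v ≤ v ||| (y &&& (y - 1)) := Nat.left_le_or
    omega
  have hy0 : y &&& (y - 1) = 0 := by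
    rw [hv0, Nat.zero_or] at hv
    exact hv
  by_cases hm : Cl χ T m
  · exact ⟨Or.inl hm, fun _ => hm⟩
  · obtain ⟨h1, -⟩ := hI hv0
    have hα : Fa χ T α := h1.resolve_left hm
    obtain ⟨k, hk, hl⟩ := hD
    have hk2 : α.testBit k = false := by
      by_contra hne
      exact hα k (by simpa using hne) hl
    have hyk : y.testBit k = true := by
      rw [hy, Nat.testBit_xor, Nat.testBit_or, hk, hk2]
      rfl
    have hyp := eq_pow_of_testBit hyk hy0
    refine ⟨Or.inr fun i hi => ?_, fun h => ?_⟩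
    · rw [Nat.testBit_or, Bool.or_eq_true] at hi
      rcases hi with hi | hi
      · exact hα i hi
      · rw [hyp] at hi
        exact Fa_ng hl i hi
    · rw [h] at hyk
      simp at hyk

theorem hnt_eq (ent : ℕ → ℕ) (i α v : ℕ) (k : ℕ → ℕ → ℕ → Bool) :
    hnt ent i α v k = k (Nat.xor (Nat.lor (ent i) α) α)
      (Nat.lor α (ng (Nat.xor (Nat.lor (ent i) α) α)))
      (Nat.lor v (Nat.land (Nat.xor (Nat.lor (ent i) α) α)
        (Nat.sub (Nat.xor (Nat.lor (ent i) α) α) (nat_lit 1)))) := by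
  cases i <;> rfl

theorem inner_sound {χ T : ℕ → Bool} {ent : ℕ → ℕ} {c : ℕ} {m : ℕ}
    (hent : ∀ i ≤ c, Cl χ T (ent i)) (k : Bool) (g : ℕ) :
    ∀ r α v x, Inv χ T m x α v →
      inner ent c (fun w => @Nat.rec (fun _ => Bool) k (fun _ _ => false) w) g r α v x
        = true → k = true ∧ Cl χ T m := by
  induction g with
  | zero =>
    intro r α v x hI h
    have h' : (@Nat.rec (fun _ => Bool) k (fun _ _ => false) (v ||| x) : Bool) = true := h
    rcases hw : v ||| x with _ | w
    · rw [hw] at h'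
      have hv0 : v = 0 := by
        have : v ≤ v ||| x := Nat.left_le_or
        omega
      have hx0 : x = 0 := by
        have : x ≤ v ||| x := Nat.right_le_or
        omega
      exact ⟨h', (hI hv0).2 hx0⟩
    · rw [hw] at h'
      exact Bool.noConfusion h'
  | succ g ih =>
    intro r α v x hI h
    have hs : ∀ δ, Cl χ T (ent (Nat.sub c δ)) := fun δ => hent _ (Nat.sub_le c δ)
    have h' : hnt ent (Nat.sub c (Nat.land (Nat.land r 72057594037927935) 16383)) α v
        (fun _ α v => hnt ent (Nat.sub c (Nat.land (Nat.shiftRight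
          (Nat.land r 72057594037927935) 14) 16383)) α v
        fun _ α v => hnt ent (Nat.sub c (Nat.land (Nat.shiftRight
          (Nat.land r 72057594037927935) 28) 16383)) α v
        fun _ α v => hnt ent (Nat.sub c (Nat.shiftRight
          (Nat.land r 72057594037927935) 42)) α v
        fun x α v => inner ent c
          (fun w => @Nat.rec (fun _ => Bool) k (fun _ _ => false) w) g
          (Nat.shiftRight r 56) α v x) = true := h
    rw [hnt_eq, hnt_eq, hnt_eq, hnt_eq] at h'
    exact ih _ _ _ _ (stp_inv (hs _) (stp_inv (hs _) (stp_inv (hs _) (stp_inv (hs _) hI)))) h'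

theorem Fa_or {χ T : ℕ → Bool} {a b : ℕ} (ha : Fa χ T a) (hb : Fa χ T b) :
    Fa χ T (a ||| b) := by
  intro i hi
  rw [Nat.testBit_or, Bool.or_eq_true] at hi
  rcases hi with hi | hi
  · exact ha i hi
  · exact hb i hi

theorem Fa_zero {χ T : ℕ → Bool} : Fa χ T 0 := by
  intro i hi
  simp at hi

theorem Fa_addU {χ T : ℕ → Bool} {m : ℕ} (hm : Cl χ T m) : Fa χ T (addU m) := by
  rcases hb : Nat.beq (Nat.land m (Nat.sub m (nat_lit 1))) (nat_lit 0) with _ | _
  · unfold addU
    rw [hb]
    exact Fa_zero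
  · have h1 : m &&& (m - 1) = 0 := Nat.eq_of_beq_eq_true hb
    obtain ⟨k, hk, hl⟩ := hm
    have h2 := eq_pow_of_testBit hk h1
    unfold addU
    rw [hb]
    change Fa χ T (ng m)
    rw [h2]
    exact Fa_ng hl

theorem outer_sound {χ T : ℕ → Bool} {ent : ℕ → ℕ} {F : ℕ → Bool} (fuel : ℕ) :
    ∀ c r U, Fa χ T U → (∀ i ≤ c, Cl χ T (ent i)) → outer ent F fuel c r U = true →
      (∀ i ≤ c + fuel, Cl χ T (ent i)) ∧ ∃ W, Fa χ T W ∧ F W = true := by
  induction fuel with
  | zero =>
    intro c r U hU h hF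
    exact ⟨fun i hi => h i hi, U, hU, hF⟩
  | succ fuel ih =>
    intro c r U hU h hc
    have h1 := inner_sound (m := ent (Nat.succ c)) h (outer ent F fuel (Nat.succ c)
      (Nat.shiftRight r (Nat.add (nat_lit 8) (Nat.mul (nat_lit 56) (Nat.land r (nat_lit 255)))))
      (Nat.lor U (addU (ent (Nat.succ c))))) (Nat.land r (nat_lit 255))
      (Nat.land (Nat.shiftRight r (nat_lit 8))
        (Nat.sub (Nat.pow (nat_lit 2) (nat_lit 14280)) (nat_lit 1)))
      (Nat.lor (ent (Nat.succ c)) U) 0 1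
      (fun _ => ⟨(Cl_or_Fa χ T _).imp_right fun hm => Fa_or hm hU,
        fun h => absurd h one_ne_zero⟩) hc
    obtain ⟨h2, h3⟩ := h1
    have h5 := ih (Nat.succ c) _ _ (Fa_or hU (Fa_addU h3)) (fun i hi => by
      rcases Nat.lt_or_ge c i with h4 | h4
      · have : i = Nat.succ c := by omega
        rw [this]
        exact h3
      · exact h i h4) h2
    exact ⟨fun i hi => h5.1 i (by omega), h5.2⟩

theorem carry_sound {χ T : ℕ → Bool} {ent : ℕ → ℕ} {coff clits N : ℕ}
    (hent : ∀ i ≤ N, Cl χ T (ent i)) (fuel : ℕ) :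
    ∀ ix, carry ent N coff clits fuel ix = true → ∀ p < fuel, Cl χ T (lmask coff clits p) := by
  induction fuel with
  | zero =>
    intro ix _ p hp
    omega
  | succ q ih =>
    intro ix h p hp
    have h' : @Bool.rec (fun _ => Bool) false
          (carry ent N coff clits q (Nat.shiftRight ix (nat_lit 16)))
          (Nat.beq (lmask coff clits q)
        (@Nat.rec (fun _ => Nat) (ent (nat_lit 0)) (fun q _ => ent (Nat.succ q))
          (Nat.sub N (Nat.land ix (nat_lit 65535))))) = true := h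
    rcases hb : Nat.beq (lmask coff clits q)
        (@Nat.rec (fun _ => Nat) (ent (nat_lit 0)) (fun q _ => ent (Nat.succ q))
          (Nat.sub N (Nat.land ix (nat_lit 65535)))) with _ | _
    · rw [hb] at h'
      exact Bool.noConfusion h'
    · rw [hb] at h'
      have h2 : carry ent N coff clits q (ix >>> 16) = true := h'
      have e1 : (@Nat.rec (fun _ => Nat) (ent (nat_lit 0)) (fun q _ => ent (Nat.succ q))
          (Nat.sub N (Nat.land ix (nat_lit 65535))) : ℕ) = ent (N - (ix &&& 65535)) := by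
        change (@Nat.rec (fun _ => Nat) (ent (nat_lit 0)) (fun q _ => ent (Nat.succ q))
          (N - (ix &&& 65535)) : ℕ) = ent (N - (ix &&& 65535))
        cases N - (ix &&& 65535) <;> rfl
      rw [e1] at hb
      have h3 : lmask coff clits q = ent (N - (ix &&& 65535)) := Nat.eq_of_beq_eq_true hb
      rcases Nat.lt_or_ge p q with h5 | h5
      · exact ih (ix >>> 16) h2 p h5
      · have h6 : p = q := by omega
        rw [h6, h3]
        exact hent _ (Nat.sub_le _ _)

theorem ent3_base {G : ℕ → ℕ} {bt nb poff plits np off lits i : ℕ} (h : i < nb) :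
    ent3 G bt nb poff plits np off lits i =
      G (Nat.land (Nat.shiftRight bt (Nat.mul 32 i)) 4294967295) := by
  have e1 : Nat.ble (Nat.succ i) nb = true := by
    rw [Nat.ble_eq]
    exact h
  unfold ent3
  rw [e1]

theorem ent3_prev {G : ℕ → ℕ} {bt nb poff plits np off lits i : ℕ} (h : nb ≤ i)
    (h' : i < nb + np) :
    ent3 G bt nb poff plits np off lits i = lmask poff plits (i - nb) := by
  have e1 : Nat.ble (Nat.succ i) nb = false := by
    rw [← Bool.not_eq_true, Nat.ble_eq]
    omega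
  have e2 : Nat.ble (Nat.succ i) (Nat.add nb np) = true := by
    rw [Nat.ble_eq]
    change i + 1 ≤ nb + np
    omega
  unfold ent3
  rw [e1, e2]
  rfl

/-- a block with true base clauses and true previous table -/
theorem block_sound {χ T : ℕ → Bool} {G : ℕ → ℕ} (hG : ∀ c, Cl χ T (G c))
    {bt nb poff plits np off lits n hs U V coff clits nc ix : ℕ} (h0 : 0 < nb + np)
    (hp : ∀ i < np, Cl χ T (lmask poff plits i)) (hU : Fa χ T U)
    (h : blk (ent3 G bt nb poff plits np off lits) n (nb + np - 1) hs U V coff clits nc ix =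
      true) :
    (∀ j < nc, Cl χ T (lmask coff clits j)) ∧ Fa χ T V := by
  have key : ∀ i ≤ nb + np - 1, Cl χ T (ent3 G bt nb poff plits np off lits i) := by
    intro i hi
    rcases Nat.lt_or_ge i nb with h1 | h1
    · rw [ent3_base h1]
      exact hG _
    · rw [ent3_prev h1 (by omega)]
      exact hp _ (by omega)
  obtain ⟨h2, W, hW, hF⟩ := outer_sound n (nb + np - 1) hs U hU key h
  rcases hb : Nat.beq (Nat.lor V W) W with _ | _
  · rw [hb] at hF
    exact Bool.noConfusion hF
  · rw [hb] at hF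
    have h3 : V ||| W = W := Nat.eq_of_beq_eq_true hb
    refine ⟨carry_sound h2 nc ix hF, fun i hi => hW i ?_⟩
    rw [← h3, Nat.testBit_or, hi, Bool.true_or]

theorem Cl_zero {χ T : ℕ → Bool} : ¬ Cl χ T 0 := by
  rintro ⟨i, hi, -⟩
  simp at hi

end Pool.Agent.H13.Z12
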