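import Mathlib
import Pool.Agent.H28.Z12.Base
import Pool.Agent.H13.Z12.Defs2

/-!
Soundness of the second checker (MP_1e71f9_co).

Bits below `16384` of a mask are literals, bit `16384 + j` is a flag of clause `j` of the block,
bits from `32768` on are literals which are never false.
-/

set_option autoImplicit false
set_option maxRecDepth 10000

namespace Pool.Agent.H13.Z12.B2

open Pool.Agent.H13.Z12 (lit Cl Fa Cl_or_Fa Fa_addU Cl_zero)
open Pool.Agent.H28.Z12 (rlb ipM tpos T4 T5 T4_lt T5_lt spLo spHi gen spread genGP genCC gpQ gpT grd ccH)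

variable {χ T : ℕ → Bool}

/-- position `i` is false, `W j`: clause `j` has been verified -/
def fal (χ T : ℕ → Bool) (W : ℕ → Prop) (i : ℕ) : Prop :=
  (i < 16384 ∧ ¬ lit χ T i) ∨ (16384 ≤ i ∧ i < 32768 ∧ W (i - 16384))

/-- all positions of the mask are false -/
def FA (χ T : ℕ → Bool) (W : ℕ → Prop) (m : ℕ) : Prop := ∀ i, m.testBit i = true → fal χ T W i

/-- some position of the mask is not false -/
def CL (χ T : ℕ → Bool) (W : ℕ → Prop) (m : ℕ) : Prop := ∃ i, m.testBit i = true ∧ ¬ fal χ T W i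

/-- all bits are literals -/
def Lo (m : ℕ) : Prop := ∀ i, m.testBit i = true → i < 16384

section basics

variable {W : ℕ → Prop}

theorem lit_lt {i : ℕ} (h : lit χ T i) : i < 16384 := by
  rcases h with ⟨a, b⟩ | ⟨a, b, c⟩ | ⟨a, b, c⟩ | ⟨a, b, c⟩ <;> omega

theorem not_fal_of_lit {i : ℕ} (h : lit χ T i) : ¬ fal χ T W i := by
  rintro (⟨_, h2⟩ | ⟨h1, _, _⟩)
  · exact h2 h
  · have := lit_lt h
    omega

theorem not_fal_big {i : ℕ} (h : 32768 ≤ i) : ¬ fal χ T W i := by
  rintro (⟨h1, _⟩ | ⟨_, h1, _⟩) <;> omega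

theorem CL_of_Cl {m : ℕ} (h : Cl χ T m) : CL χ T W m := by
  obtain ⟨i, h1, h2⟩ := h
  exact ⟨i, h1, not_fal_of_lit h2⟩

theorem CL_big {m i : ℕ} (h : m.testBit i = true) (hi : 32768 ≤ i) : CL χ T W m :=
  ⟨i, h, not_fal_big hi⟩

theorem FA_or {a b : ℕ} (ha : FA χ T W a) (hb : FA χ T W b) : FA χ T W (Nat.lor a b) := by
  intro i hi
  change (a ||| b).testBit i = true at hi
  rw [Nat.testBit_or, Bool.or_eq_true] at hi
  rcases hi with hi | hi
  · exact ha i hi
  · exact hb i hi

theorem FA_left {a b : ℕ} (h : FA χ T W (Nat.lor a b)) : FA χ T W a := by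
  intro i hi
  refine h i ?_
  change (a ||| b).testBit i = true
  rw [Nat.testBit_or, hi, Bool.true_or]

theorem FA_right {a b : ℕ} (h : FA χ T W (Nat.lor a b)) : FA χ T W b := by
  intro i hi
  refine h i ?_
  change (a ||| b).testBit i = true
  rw [Nat.testBit_or, hi, Bool.or_true]

theorem FA_of_Fa {m : ℕ} (h : Fa χ T m) (hl : Lo m) : FA χ T W m :=
  fun i hi => Or.inl ⟨hl i hi, h i hi⟩

theorem Fa_of_FA {m : ℕ} (h : FA χ T W m) : Fa χ T m := fun i hi hl => not_fal_of_lit hl (h i hi)

theorem one_shl_testBit {k i : ℕ} (h : (Nat.shiftLeft 1 k).testBit i = true) : i = k := by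
  change (1 <<< k).testBit i = true at h
  rw [Nat.shiftLeft_eq, one_mul, Nat.testBit_two_pow, decide_eq_true_iff] at h
  exact h.symm

theorem one_shl_self (k : ℕ) : (Nat.shiftLeft 1 k).testBit k = true := by
  change (1 <<< k).testBit k = true
  rw [Nat.shiftLeft_eq, one_mul, Nat.testBit_two_pow_self]

theorem FA_one {k : ℕ} (h : fal χ T W k) : FA χ T W (Nat.shiftLeft 1 k) := by
  intro i hi
  rw [one_shl_testBit hi]
  exact h

theorem fal_of_FA_one {k : ℕ} (h : FA χ T W (Nat.shiftLeft 1 k)) : fal χ T W k :=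
  h k (one_shl_self k)

theorem not_FA_tr : ¬ FA χ T W tr := by
  intro h
  refine not_fal_big (χ := χ) (T := T) (W := W) (i := 65535) (by norm_num) (h 65535 ?_)
  have : tr = 2 ^ 65535 := rfl
  rw [this, Nat.testBit_two_pow_self]

theorem CL_tr : CL χ T W tr := by
  refine CL_big (i := 65535) ?_ (by norm_num)
  have : tr = 2 ^ 65535 := rfl
  rw [this, Nat.testBit_two_pow_self]

/-- negation of a literal position -/
theorem xor4096 {p : ℕ} (hp : p < 16384) : p ^^^ 4096 =
    if (p / 4096) % 2 = 0 then p + 4096 else p - 4096 := by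
  have h1 : p = p % 4096 + 4096 * (p / 4096) := (Nat.mod_add_div p 4096).symm
  have h2 : p / 4096 < 4 := by omega
  have key : ∀ q < 4, ∀ r : ℕ, r < 4096 → (r + 4096 * q) ^^^ 4096 =
      if q % 2 = 0 then (r + 4096 * q) + 4096 else (r + 4096 * q) - 4096 := by
    intro q hq r hr
    have e : ∀ a b : ℕ, (r + 4096 * a) ^^^ (0 + 4096 * b) = r + 4096 * (a ^^^ b) := by
      intro a b
      apply Nat.eq_of_testBit_eq
      intro i
      have h4096 : (4096 : ℕ) = 2 ^ 12 := by norm_num
      rw [Nat.testBit_xor, Nat.add_comm r, Nat.add_comm r, Nat.add_comm 0, h4096,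
        Nat.testBit_two_pow_mul_add _ (by rw [← h4096]; exact hr),
        Nat.testBit_two_pow_mul_add _ (by norm_num),
        Nat.testBit_two_pow_mul_add _ (by rw [← h4096]; exact hr)]
      by_cases hi : i < 12
      · simp [hi]
      · simp [hi, Nat.testBit_xor]
    have e2 := e q 1
    rw [zero_add, mul_one] at e2
    rw [e2]
    interval_cases q <;> simp
  have := key (p / 4096) h2 (p % 4096) (Nat.mod_lt _ (by norm_num))
  rw [← h1] at this
  exact this

theorem neg_lit {p : ℕ} (h : lit χ T p) : ¬ lit χ T (p ^^^ 4096) := by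
  have hp := lit_lt h
  rw [xor4096 hp]
  rcases h with ⟨a, b⟩ | ⟨a, b, c⟩ | ⟨a, b, c⟩ | ⟨a, b, c⟩
  · have : p / 4096 % 2 = 0 := by omega
    rw [if_pos this]
    rintro (⟨a', b'⟩ | ⟨a', b', c'⟩ | ⟨a', b', c'⟩ | ⟨a', b', c'⟩)
    · omega
    · rw [Nat.add_sub_cancel, b] at c'
      exact Bool.noConfusion c'
    · omega
    · omega
  · have : ¬ p / 4096 % 2 = 0 := by omega
    rw [if_neg this]
    rintro (⟨a', b'⟩ | ⟨a', b', c'⟩ | ⟨a', b', c'⟩ | ⟨a', b', c'⟩)
    · rw [c] at b'
      exact Bool.noConfusion b'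
    · omega
    · omega
    · omega
  · have : p / 4096 % 2 = 0 := by omega
    rw [if_pos this]
    rintro (⟨a', b'⟩ | ⟨a', b', c'⟩ | ⟨a', b', c'⟩ | ⟨a', b', c'⟩)
    · omega
    · omega
    · omega
    · have e : p + 4096 - 12288 = p - 8192 := by omega
      rw [e, c] at c'
      exact Bool.noConfusion c'
  · have : ¬ p / 4096 % 2 = 0 := by omega
    rw [if_neg this]
    rintro (⟨a', b'⟩ | ⟨a', b', c'⟩ | ⟨a', b', c'⟩ | ⟨a', b', c'⟩)
    · omega
    · omega
    · have e : p - 4096 - 8192 = p - 12288 := by omega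
      rw [e, c] at c'
      exact Bool.noConfusion c'
    · omega

theorem xor4096_lt {p : ℕ} (hp : p < 16384) : p ^^^ 4096 < 16384 :=
  Nat.xor_lt_two_pow (n := 14) hp (by norm_num)

/-- An entry: a true clause, except for one literal. -/
theorem entry {D p : ℕ} (hD : CL χ T W D) (hp : p < 16384)
    (h : FA χ T W (Nat.xor D (Nat.shiftLeft 1 p))) : fal χ T W (Nat.xor p 4096) := by
  obtain ⟨k, hk, hl⟩ := hD
  by_cases hkp : k = p
  · subst hkp
    refine Or.inl ⟨xor4096_lt hp, neg_lit ?_⟩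
    by_contra hc
    exact hl (Or.inl ⟨hp, hc⟩)
  · exfalso
    refine hl (h k ?_)
    change (D ^^^ (Nat.shiftLeft 1 p)).testBit k = true
    rw [Nat.testBit_xor, hk]
    rcases hb : (Nat.shiftLeft 1 p).testBit k with _ | _
    · rfl
    · exact absurd (one_shl_testBit hb) hkp

end basics

section steps

variable {W : ℕ → Prop}

/-- All entries are valid. -/
def EV (χ T : ℕ → Bool) (W : ℕ → Prop) (R Y : ℕ → ℕ) : Prop :=
  ∀ p, FA χ T W (R p) → FA χ T W (Y p)

theorem EV.sw {R Y R' Y' : ℕ → ℕ} {n : ℕ} (h : EV χ T W R Y) (h' : EV χ T W R' Y') :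
    EV χ T W (sw n R R') (sw n Y Y') := by
  intro p
  unfold B2.sw
  cases Nat.ble n p
  · exact h p
  · exact h' (Nat.sub p n)

theorem stp_sound {R Y : ℕ → ℕ} (h : EV χ T W R Y) {S p : ℕ} {x : ℕ}
    (hS : FA χ T W (stp R Y S p x)) : FA χ T W S := by
  have h1 : FA χ T W (R p) := FA_right hS
  have h2 := h p h1
  have h3 : FA χ T W (Nat.xor (Nat.lor S (Y p)) (Y p)) := FA_left hS
  intro i hi
  rcases hb : (Y p).testBit i with _ | _
  · refine h3 i ?_
    change ((S ||| Y p) ^^^ Y p).testBit i = true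
    rw [Nat.testBit_xor, Nat.testBit_or, hi, hb]
    rfl
  · exact h2 i hb

theorem rec_sound {R Y : ℕ → ℕ} (h : EV χ T W R Y) {S k : ℕ}
    (hS : FA χ T W (@Nat.rec (fun _ => Nat) tr (stp R Y S) k)) : FA χ T W S := by
  cases k with
  | zero => exact absurd hS not_FA_tr
  | succ p => exact stp_sound h hS

theorem rl_sound {R Y : ℕ → ℕ} (h : EV χ T W R Y) (g : ℕ) :
    ∀ r S, FA χ T W (rl R Y g r S) → FA χ T W S := by
  induction g with
  | zero => exact fun r S hS => hS
  | succ g ih =>
    intro r S hS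
    exact rec_sound h (rec_sound h (rec_sound h (rec_sound h (ih _ _ hS))))

theorem rm_sound {R Y : ℕ → ℕ} (h : EV χ T W R Y) (g : ℕ) :
    ∀ r S, FA χ T W (rm R Y g r S) → FA χ T W S := by
  induction g with
  | zero => exact fun r S hS => hS
  | succ g ih =>
    intro r S hS
    exact rec_sound h (rec_sound h (ih _ _ hS))

/-- Composite entries. -/
theorem EV.comp {R Y MR : ℕ → ℕ} (h : EV χ T W R Y) :
    EV χ T W (fun i => mR R Y (MR i)) (fun i => mY Y (MR i)) :=
  fun _ hp => rm_sound h _ _ _ hp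

theorem land_lt (x : ℕ) : Nat.land x 16383 < 16384 :=
  lt_of_le_of_lt (Nat.and_le_right (n := x) (m := 16383)) (by norm_num)

theorem EV.base {D : ℕ → ℕ} {r : ℕ → ℕ} (h : ∀ c, CL χ T W (D c)) :
    EV χ T W (fun i => Nat.xor (D (Nat.shiftRight (r i) (nat_lit 14)))
      (Nat.shiftLeft (nat_lit 1) (Nat.land (r i) (nat_lit 16383)))) (fun i => eYb (r i)) :=
  fun _ hp => FA_one (entry (h _) (land_lt _) hp)

theorem EV.lem {LM LR : ℕ → ℕ} (hW : ∀ j, W j → Cl χ T (LM j)) :
    EV χ T W (eRl LM LR) (eYl LR) := by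
  intro i hp
  have h1 : FA χ T W (Nat.lor (Nat.xor (LM (Nat.shiftRight i 2))
      (Nat.shiftLeft (nat_lit 1) (lpq (LR (Nat.shiftRight i 2)) i)))
      (Nat.shiftLeft (nat_lit 1) (Nat.add (nat_lit 16384) (Nat.shiftRight i 2)))) := hp
  have h2 := fal_of_FA_one (FA_right h1)
  have h3 : W (Nat.shiftRight i 2) := by
    rcases h2 with ⟨h, _⟩ | ⟨_, _, h⟩
    · have : 16384 + Nat.shiftRight i 2 < 16384 := h
      omega
    · have e : 16384 + Nat.shiftRight i 2 - 16384 = Nat.shiftRight i 2 := by omega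
      have h' : W (16384 + Nat.shiftRight i 2 - 16384) := h
      rw [e] at h'
      exact h'
  exact FA_one (entry (CL_of_Cl (hW _ h3)) (land_lt _) (FA_left h1))

end steps

section masks

variable {W : ℕ → Prop}

theorem Lo_or {a b : ℕ} (ha : Lo a) (hb : Lo b) : Lo (Nat.lor a b) := by
  intro i hi
  change (a ||| b).testBit i = true at hi
  rw [Nat.testBit_or, Bool.or_eq_true] at hi
  rcases hi with hi | hi
  · exact ha i hi
  · exact hb i hi

theorem Lo_one (x : ℕ) : Lo (Nat.shiftLeft (nat_lit 1) (Nat.land x (nat_lit 16383))) := by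
  intro i hi
  rw [one_shl_testBit hi]
  exact land_lt x

theorem Lo_lloop (g : ℕ) : ∀ r m, Lo m → Lo (lloop g r m) := by
  induction g with
  | zero => exact fun r m hm => hm
  | succ g ih =>
    intro r m hm
    exact ih _ _ (Lo_or (Lo_or (Lo_or (Lo_or hm (Lo_one r)) (Lo_one _)) (Lo_one _)) (Lo_one _))

theorem Lo_lm1 (r : ℕ) : Lo (lm1 r) := Lo_lloop _ _ _ fun i hi => by
  have : (0 : ℕ).testBit i = true := hi
  simp at this

theorem eM_eq : eM = Pool.Agent.H13.Z12.eM := by decide +kernel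

theorem ng_eq (x : ℕ) : ng x = Pool.Agent.H13.Z12.ng x := by
  unfold ng Pool.Agent.H13.Z12.ng
  rw [eM_eq]

theorem addU_eq (m : ℕ) : addU m = Pool.Agent.H13.Z12.addU m := by
  unfold addU Pool.Agent.H13.Z12.addU
  rw [ng_eq]

theorem Lo_ng (x : ℕ) : Lo (ng x) := by
  intro i hi
  rw [ng_eq] at hi
  rcases Pool.Agent.H13.Z12.ng_testBit _ _ hi with ⟨h1, h2, h3⟩ | ⟨h2, h3⟩
  · rw [Pool.Agent.H13.Z12.eM_testBit] at h3
    simp only [Bool.or_eq_true, Bool.and_eq_true, decide_eq_true_iff] at h3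
    omega
  · rw [Pool.Agent.H13.Z12.eM_testBit] at h3
    simp only [Bool.or_eq_true, Bool.and_eq_true, decide_eq_true_iff] at h3
    omega

theorem Lo_addU (m : ℕ) : Lo (addU m) := by
  unfold addU
  cases Nat.beq (Nat.land m (Nat.sub m (nat_lit 1))) (nat_lit 0)
  · intro i hi
    have : (0 : ℕ).testBit i = true := hi
    simp at this
  · exact Lo_ng m

theorem FA_addU {m : ℕ} (h : Cl χ T m) : FA χ T W (addU m) := by
  refine FA_of_Fa ?_ (Lo_addU m)
  rw [addU_eq]
  exact Fa_addU h

theorem m1_bits : m1.testBit 0 = true ∧ m1.testBit 4096 = true := by decide +kernel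

theorem start_bits (p : ℕ) : (Nat.mul m1 (Nat.shiftLeft 1 p)).testBit p = true ∧
    (Nat.mul m1 (Nat.shiftLeft 1 p)).testBit (p + 4096) = true := by
  have e : Nat.mul m1 (Nat.shiftLeft 1 p) = 2 ^ p * m1 := by
    change m1 * (1 <<< p) = _
    rw [Nat.shiftLeft_eq, one_mul, Nat.mul_comm]
  rw [e, Nat.testBit_two_pow_mul, Nat.testBit_two_pow_mul, Nat.sub_self, Nat.add_sub_cancel_left,
    m1_bits.1, m1_bits.2]
  simp

theorem p0_cases (x : ℕ) : Nat.land x 12287 < 4096 ∨
    (8192 ≤ Nat.land x 12287 ∧ Nat.land x 12287 < 12288) := by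
  have h1 : Nat.land x 12287 ≤ 12287 := Nat.and_le_right (n := x) (m := 12287)
  have h2 : (Nat.land x 12287).testBit 12 = false := by
    change (x &&& 12287).testBit 12 = false
    rw [Nat.testBit_and]
    have : (12287 : ℕ).testBit 12 = false := by decide
    rw [this, Bool.and_false]
  rw [Nat.testBit_eq_decide_div_mod_eq, decide_eq_false_iff_not] at h2
  have e : (2 : ℕ) ^ 12 = 4096 := by norm_num
  rw [e] at h2
  omega

theorem start_false {x : ℕ}
    (h : FA χ T W (Nat.mul m1 (Nat.shiftLeft 1 (Nat.land x 12287)))) : False := by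
  obtain ⟨b1, b2⟩ := start_bits (Nat.land x 12287)
  have f1 := h _ b1
  have f2 := h _ b2
  have hc := p0_cases x
  generalize Nat.land x 12287 = p at f1 f2 hc
  have g1 : ¬ lit χ T p := by
    rcases f1 with ⟨_, h1⟩ | ⟨h1, _⟩
    · exact h1
    · omega
  have g2 : ¬ lit χ T (p + 4096) := by
    rcases f2 with ⟨_, h1⟩ | ⟨h1, _⟩
    · exact h1
    · omega
  rcases hc with hc | hc
  · rcases Bool.eq_false_or_eq_true (χ p) with hv | hv
    · exact g1 (Or.inl ⟨hc, hv⟩)
    · refine g2 (Or.inr (Or.inl ⟨by omega, by omega, ?_⟩))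
      rw [Nat.add_sub_cancel, hv]
  · rcases Bool.eq_false_or_eq_true (T (p - 8192)) with hv | hv
    · exact g1 (Or.inr (Or.inr (Or.inl ⟨by omega, by omega, hv⟩)))
    · refine g2 (Or.inr (Or.inr (Or.inr ⟨by omega, by omega, ?_⟩)))
      have e : p + 4096 - 12288 = p - 8192 := by omega
      rw [e, hv]

end masks

/-- **The outer loop**. -/
theorem outer_sound {R Y LM LR : ℕ → ℕ} {F : ℕ → Bool}
    (hE : EV χ T (fun j => Cl χ T (LM j)) R Y) (hLM : ∀ j, Lo (LM j)) (fuel : ℕ) :
    fuel ≤ 16384 → ∀ U, FA χ T (fun j => Cl χ T (LM j)) U → outer R Y LM LR F fuel U = true →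
      (∀ j < fuel, Cl χ T (LM j)) ∧ ∃ V, FA χ T (fun j => Cl χ T (LM j)) V ∧ F V = true := by
  induction fuel with
  | zero =>
    intro _ U hU h
    exact ⟨fun j hj => absurd hj (Nat.not_lt_zero j), U, hU, h⟩
  | succ n ih =>
    intro hn U hU h
    set r := Nat.shiftRight (LR n) (Nat.add (nat_lit 8) (Nat.mul (nat_lit 56)
      (Nat.land (LR n) (nat_lit 255)))) with hr
    set S := rl R Y (Nat.land r (nat_lit 255)) (Nat.mod (Nat.shiftRight r (nat_lit 22))
      (Nat.pow (nat_lit 2) (Nat.mul (nat_lit 60) (Nat.land r (nat_lit 255)))))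
      (Nat.mul m1 (Nat.shiftLeft (nat_lit 1)
        (Nat.land (Nat.shiftRight r (nat_lit 8)) (nat_lit 12287)))) with hS
    have h' : (@Nat.rec (fun _ => Bool) (outer R Y LM LR F n (Nat.lor (Nat.lor U (addU (LM n)))
        (Nat.shiftLeft (nat_lit 1) (Nat.add (nat_lit 16384) n)))) cf
        (Nat.xor (Nat.lor S (Nat.lor (LM n) U)) (Nat.lor (LM n) U)) : Bool) = true := h
    rcases hx : Nat.xor (Nat.lor S (Nat.lor (LM n) U)) (Nat.lor (LM n) U) with _ | w
    · rw [hx] at h'
      have h2 : outer R Y LM LR F n (Nat.lor (Nat.lor U (addU (LM n)))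
        (Nat.shiftLeft (nat_lit 1) (Nat.add (nat_lit 16384) n))) = true := h'
      have hcl : Cl χ T (LM n) := by
        rcases Cl_or_Fa χ T (LM n) with hc | hf
        · exact hc
        · exfalso
          have hA : FA χ T (fun j => Cl χ T (LM j)) (Nat.lor (LM n) U) :=
            FA_or (FA_of_Fa hf (hLM n)) hU
          have hSA : FA χ T (fun j => Cl χ T (LM j)) S := by
            intro i hi
            refine hA i ?_
            by_contra hc
            rw [Bool.not_eq_true] at hc
            have h3 : (Nat.xor (Nat.lor S (Nat.lor (LM n) U)) (Nat.lor (LM n) U)).testBit i =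
                true := by
              change ((S ||| Nat.lor (LM n) U) ^^^ Nat.lor (LM n) U).testBit i = true
              rw [Nat.testBit_xor, Nat.testBit_or, hi, hc]
              rfl
            rw [hx] at h3
            simp at h3
          rw [hS] at hSA
          exact start_false (rl_sound hE _ _ _ hSA)
      have hU' : FA χ T (fun j => Cl χ T (LM j)) (Nat.lor (Nat.lor U (addU (LM n)))
          (Nat.shiftLeft (nat_lit 1) (Nat.add (nat_lit 16384) n))) := by
        refine FA_or (FA_or hU (FA_addU hcl)) (FA_one (Or.inr ⟨?_, ?_, ?_⟩))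
        · exact Nat.le_add_right 16384 n
        · change 16384 + n < 32768
          omega
        · have e : 16384 + n - 16384 = n := by omega
          change Cl χ T (LM (16384 + n - 16384))
          rw [e]
          exact hcl
      obtain ⟨h5, h6⟩ := ih (by omega) _ hU' h2
      refine ⟨fun j hj => ?_, h6⟩
      rcases Nat.lt_or_ge j n with h7 | h7
      · exact h5 j h7
      · have : j = n := by omega
        rw [this]
        exact hcl
    · rw [hx] at h'
      exact Bool.noConfusion h'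

section tables

variable {W : ℕ → Prop}

/-- pattern with the numbers `a`, `b` -/
def pt (a b : Nat) : Nat :=
  match a, b with
  | 0, 0 => 34 | 0, 1 => 18 | 0, 2 => 8 | 0, 3 => 56
  | 1, 0 => 33 | 1, 1 => 17 | 1, 2 => 11 | 1, 3 => 59
  | 2, 0 => 46 | 2, 1 => 30 | 2, 2 => 4 | 2, 3 => 52
  | 3, 0 => 45 | 3, 1 => 29 | 3, 2 => 7 | 3, 3 => 55
  | _, _ => 0

theorem pt_check : ((List.range 4).all fun a => (List.range 4).all fun b =>
    Nat.beq (Nat.land (Nat.shiftRight gpT (pt a b)) 1) 1 && Nat.blt (pt a b) 64) = true := by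
  decide +kernel

/-- check of the two tables of a 4-set -/
def tchk (Q : Nat) : Bool := (List.range 4).all fun a => (List.range 4).all fun b =>
  Nat.beq (Nat.xor (Nat.land (Nat.shiftRight (t1 Q) (Nat.mul 8192 a)) M8)
    (Nat.land (Nat.shiftRight (t2 Q) (Nat.mul 8192 b)) M8)) (gpQ Q (pt a b))

theorem t_check : ((List.range 4096).all fun Q =>
    !(Nat.beq (Nat.land (Nat.shiftRight T4 Q) 1) 1) || tchk Q) = true := by decide +kernel

theorem range_all {n : ℕ} {f : ℕ → Bool} (h : (List.range n).all f = true) :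
    ∀ x < n, f x = true := fun x hx => List.all_eq_true.1 h x (List.mem_range.2 hx)

theorem exists_bit {x : ℕ} (h : x ≠ 0) : ∃ i, x.testBit i = true := by
  by_contra hc
  apply h
  apply Nat.eq_of_testBit_eq
  intro i
  rw [Nat.zero_testBit]
  by_contra hi
  exact hc ⟨i, by simpa using hi⟩

theorem shl_testBit (c n m : ℕ) : (Nat.shiftLeft c n).testBit (n + m) = c.testBit m := by
  change (c <<< n).testBit (n + m) = c.testBit m
  rw [Nat.testBit_shiftLeft]
  simp

theorem lor_testBit (a b i : ℕ) : (Nat.lor a b).testBit i = (a.testBit i || b.testBit i) := by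
  change (a ||| b).testBit i = _
  rw [Nat.testBit_or]

theorem bit_and_one (x k : ℕ) : Nat.land (Nat.shiftRight x k) 1 = (x.testBit k).toNat := by
  change (x >>> k) &&& 1 = _
  rw [Nat.and_one_is_mod, Nat.toNat_testBit, Nat.shiftRight_eq_div_pow]

/-- a guard: shifted by `32768` -/
theorem CL_guard {a z : ℕ} (h : z ≠ 0) :
    CL χ T W (Nat.lor a (Nat.shiftLeft z (nat_lit 32768))) := by
  obtain ⟨i, hi⟩ := exists_bit h
  refine CL_big (i := 32768 + i) ?_ (by omega)
  have : (Nat.shiftLeft z 32768).testBit (32768 + i) = true := by rw [shl_testBit, hi]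
  rw [lor_testBit]
  change (a.testBit (32768 + i) || (Nat.shiftLeft z 32768).testBit (32768 + i)) = true
  rw [this, Bool.or_true]

theorem field_eq (s : ℕ) : Nat.land s 24576 = Nat.mul 8192 (Nat.land (Nat.shiftRight s 13) 3) := by
  change s &&& 24576 = 8192 * ((s >>> 13) &&& 3)
  apply Nat.eq_of_testBit_eq
  intro i
  have h8192 : (8192 : ℕ) = 2 ^ 13 := by norm_num
  have h24576 : (24576 : ℕ) = 2 ^ 13 * 3 := by norm_num
  rw [h8192, Nat.testBit_two_pow_mul, Nat.testBit_and, Nat.testBit_and, Nat.testBit_shiftRight,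
    h24576, Nat.testBit_two_pow_mul]
  by_cases hi : 13 ≤ i
  · have : 13 + (i - 13) = i := by omega
    rw [this]
    cases s.testBit i <;> simp [hi]
  · simp [hi]

theorem land3_lt (x : ℕ) : Nat.land x 3 < 4 :=
  lt_of_le_of_lt (Nat.and_le_right (n := x) (m := 3)) (by norm_num)

theorem T4_zero : T4.testBit 0 = false := by decide +kernel

theorem land_zero_of_lor {a b : ℕ} (h : Nat.lor a b = 0) : a = 0 ∧ b = 0 := by
  have h1 : a ||| b = 0 := h
  have h2 : a ≤ a ||| b := Nat.left_le_or
  have h3 : b ≤ a ||| b := Nat.right_le_or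
  omega

theorem N4_bit {A : ℕ} (hA : A < 4096) : N4.testBit A = !(T4.testBit A) := by
  have : N4 = (2 ^ 4096 - 1) ^^^ T4 := rfl
  rw [this, Nat.testBit_xor, Nat.testBit_two_pow_sub_one, decide_eq_true hA, Bool.true_xor]

theorem grd_one (c : ℕ) : grd 1 c = c := by
  have h : grd 1 c = c ||| ((1 - 1) ||| ((1 - 1) <<< 4096)) := rfl
  rw [h, Nat.sub_self, Nat.zero_shiftLeft, Nat.or_zero, Nat.or_zero]

theorem gpc_CL (hgp : ∀ A Q pat, Q < 4096 → pat < 64 → Cl χ T (genGP A Q pat)) {s u A Q : ℕ}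
    (hA : A < 4096) (hQ : Q < 4096) : CL χ T W (gpc s u A (t1 Q) (t2 Q) (gq Q)) := by
  by_cases hz : Nat.lor (Nat.land (Nat.shiftRight N4 A) (nat_lit 1)) (Nat.land A (gq Q)) = 0
  · obtain ⟨z1, z2⟩ := land_zero_of_lor hz
    have hTA : T4.testBit A = true := by
      have z1' : Nat.land (Nat.shiftRight N4 A) 1 = 0 := z1
      rw [bit_and_one, N4_bit hA] at z1'
      cases hb : T4.testBit A
      · rw [hb] at z1'
        simp at z1'
      · rfl
    have hA0 : A ≠ 0 := by
      rintro rfl
      rw [T4_zero] at hTA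
      exact Bool.noConfusion hTA
    have hTQ : T4.testBit Q = true := by
      by_contra hc
      rw [Bool.not_eq_true] at hc
      obtain ⟨i, hi⟩ := exists_bit hA0
      have hi12 : i < 12 := by
        by_contra hge
        have : A.testBit i = false := Nat.testBit_lt_two_pow (lt_of_lt_of_le hA (by
          calc 4096 = 2 ^ 12 := by norm_num
            _ ≤ 2 ^ i := Nat.pow_le_pow_right (by norm_num) (by omega)))
        rw [this] at hi
        exact Bool.noConfusion hi
      have hgq : gq Q = Nat.lor Q 4095 := by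
        have h0 : gq Q = Nat.lor Q (Nat.mul 4095 (Nat.sub 1
          (Nat.land (Nat.shiftRight T4 Q) 1))) := rfl
        rw [h0, bit_and_one, hc]
        rfl
      have h1 : (Nat.land A (gq Q)).testBit i = true := by
        change (A &&& gq Q).testBit i = true
        rw [Nat.testBit_and, hi, hgq, lor_testBit]
        have : (4095 : ℕ).testBit i = true := by
          interval_cases i <;> rfl
        rw [this, Bool.or_true]
        rfl
      rw [z2] at h1
      simp at h1
    have hgq : gq Q = Q := by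
      have h0 : gq Q = Nat.lor Q (Nat.mul 4095 (Nat.sub 1
        (Nat.land (Nat.shiftRight T4 Q) 1))) := rfl
      rw [h0, bit_and_one, hTQ]
      exact Nat.or_zero Q
    rw [hgq] at z2
    set a := Nat.land (Nat.shiftRight s 13) 3 with ha
    set b := Nat.land (Nat.shiftRight u 13) 3 with hb
    have ha4 : a < 4 := land3_lt _
    have hb4 : b < 4 := land3_lt _
    have h1 := range_all t_check Q hQ
    rw [bit_and_one, hTQ] at h1
    have h2 : tchk Q = true := h1
    have h3 := Nat.eq_of_beq_eq_true (range_all (range_all h2 a ha4) b hb4)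
    have h4 := range_all (range_all pt_check a ha4) b hb4
    rw [Bool.and_eq_true, Nat.blt_eq] at h4
    have h5 := Nat.eq_of_beq_eq_true h4.1
    have e1 : gpc s u A (t1 Q) (t2 Q) (gq Q) = Nat.shiftLeft (gpQ Q (pt a b)) A := by
      have e0 : gpc s u A (t1 Q) (t2 Q) (gq Q) = Nat.lor (Nat.shiftLeft (Nat.xor
        (Nat.land (Nat.shiftRight (t1 Q) (Nat.land s 24576)) M8)
        (Nat.land (Nat.shiftRight (t2 Q) (Nat.land u 24576)) M8)) A)
        (Nat.shiftLeft (Nat.lor (Nat.land (Nat.shiftRight N4 A) (nat_lit 1))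
          (Nat.land A (gq Q))) (nat_lit 32768)) := rfl
      rw [e0, hz, field_eq, field_eq, ← ha, ← hb, h3]
      have : Nat.shiftLeft 0 32768 = 0 := Nat.zero_shiftLeft _
      exact (congrArg (Nat.lor _) this).trans (Nat.or_zero _)
    have e2 : genGP A Q (pt a b) = Nat.shiftLeft (gpQ Q (pt a b)) A := by
      have e0 : genGP A Q (pt a b) = grd (Nat.land (Nat.land (Nat.shiftRight T4 A)
        (Nat.shiftRight T4 Q)) (Nat.land (Nat.shiftRight gpT (pt a b))
          (Nat.sub 1 (Nat.land A Q)))) (Nat.shiftLeft (gpQ Q (pt a b)) A) := rfl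
      have z2' : Nat.sub 1 (Nat.land A Q) = 1 := by rw [z2]
      have e3 : Nat.land (Nat.land (Nat.shiftRight T4 A) (Nat.shiftRight T4 Q)) 1 = 1 := by
        have q1 := bit_and_one T4 A
        have q2 := bit_and_one T4 Q
        rw [hTA] at q1
        rw [hTQ] at q2
        change ((T4 >>> A) &&& (T4 >>> Q)) &&& 1 = 1
        change (T4 >>> A) &&& 1 = 1 at q1
        change (T4 >>> Q) &&& 1 = 1 at q2
        rw [Nat.and_assoc, q2, q1]
      rw [e0, z2', h5, e3, grd_one]
    rw [e1, ← e2]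
    exact CL_of_Cl (hgp _ _ _ hQ h4.2)
  · exact CL_guard hz

theorem gp_CL (hgp : ∀ A Q pat, Q < 4096 → pat < 64 → Cl χ T (genGP A Q pat)) (c : ℕ) :
    CL χ T W (gp c) := by
  rcases hu : Nat.land (Nat.shiftRight c (nat_lit 15)) (nat_lit 4095) with _ | q
  · have : gp c = tr := by
      unfold gp gpu
      rw [hu]
      rfl
    rw [this]
    exact CL_tr
  · have e : gp c = gpc c (Nat.shiftRight c (nat_lit 15)) (Nat.land c (nat_lit 4095))
        (t1 (Nat.succ q)) (t2 (Nat.succ q)) (gq (Nat.succ q)) := by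
      unfold gp gpu
      rw [hu]
      rfl
    rw [e]
    refine gpc_CL hgp ?_ ?_
    · exact lt_of_le_of_lt (Nat.and_le_right (n := c) (m := 4095)) (by norm_num)
    · have h1 : q + 1 ≤ 4095 := by
        rw [← hu]
        exact Nat.and_le_right (n := Nat.shiftRight c 15) (m := 4095)
      omega

theorem spr_lt (y : ℕ) : spr y < 2 ^ 2112 := by
  have h1 : sL y < 2 ^ 2112 := lt_of_lt_of_le (Nat.mod_lt _ (by norm_num)) (by
    calc (18446744073709551616 : ℕ) = 2 ^ 64 := by norm_num
      _ ≤ 2 ^ 2112 := Nat.pow_le_pow_right (by norm_num) (by norm_num))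
  have h2 : (@Nat.rec (fun _ => Nat) (nat_lit 0) sH1 (Nat.shiftRight y (nat_lit 6)) : ℕ) <
      2 ^ 2112 := by
    cases Nat.shiftRight y (nat_lit 6) with
    | zero => exact Nat.two_pow_pos _
    | succ k => exact Nat.mod_lt _ (Nat.two_pow_pos _)
  exact Nat.or_lt_two_pow h1 h2

theorem spr_check : ((List.range 4096).all fun y => Nat.beq (spr y) (spread y)) = true := by
  decide +kernel

theorem ccT_CL (hcc : ∀ A t, t < 4096 → Cl χ T (genCC A t)) {A t : ℕ} (ht : t < 4096) :
    CL χ T W (ccT A t) := by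
  set U := spr (Nat.land (Nat.xor t (ipM A)) (Nat.xor (nat_lit 4095) A)) with hU
  rcases hb : T5.testBit A with _ | _
  · have hJ : (cJ A).testBit 32768 = true := by
      have e : cJ A = Nat.lor (spr (Nat.xor 4095 A)) (Nat.shiftLeft (Nat.sub 1
        (Nat.land (Nat.shiftRight T5 A) 1)) 32768) := rfl
      rw [e, bit_and_one, hb, lor_testBit]
      have := one_shl_self 32768
      change (_ || (Nat.shiftLeft 1 32768).testBit 32768) = true
      rw [this, Bool.or_true]
    have hUb : U.testBit 32768 = false :=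
      Nat.testBit_lt_two_pow (lt_of_lt_of_le (spr_lt _) (Nat.pow_le_pow_right (by norm_num)
        (by norm_num)))
    refine CL_big (i := A + 32768) ?_ (by omega)
    have e : ccT A t = Nat.lor (Nat.shiftLeft (Nat.lor (Nat.xor (cJ A) U)
      (Nat.shiftLeft U 4096)) A) (Nat.shiftLeft 1 (Nat.add 8192 (tpos t))) := rfl
    rw [e, lor_testBit, shl_testBit, lor_testBit]
    have : (Nat.xor (cJ A) U).testBit 32768 = true := by
      change (cJ A ^^^ U).testBit 32768 = true
      rw [Nat.testBit_xor, hJ, hUb]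
      rfl
    rw [this, Bool.true_or, Bool.true_or]
  · have hA : A < 4096 := by
      by_contra hc
      have : T5.testBit A = false := Nat.testBit_lt_two_pow (lt_of_lt_of_le T5_lt
        (Nat.pow_le_pow_right (by norm_num) (by omega)))
      rw [this] at hb
      exact Bool.noConfusion hb
    have h4095 : ∀ x : ℕ, x < 4096 → spr x = spread x := fun x hx =>
      Nat.eq_of_beq_eq_true (range_all spr_check x hx)
    have hJ : Nat.xor 4095 A < 4096 := Nat.xor_lt_two_pow (n := 12) (by norm_num) hA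
    have hUl : Nat.land (Nat.xor t (ipM A)) (Nat.xor 4095 A) < 4096 :=
      lt_of_le_of_lt (Nat.and_le_right (n := Nat.xor t (ipM A)) (m := Nat.xor 4095 A)) hJ
    have e1 : cJ A = spread (Nat.xor 4095 A) := by
      have e : cJ A = Nat.lor (spr (Nat.xor 4095 A)) (Nat.shiftLeft (Nat.sub 1
        (Nat.land (Nat.shiftRight T5 A) 1)) 32768) := rfl
      rw [e, bit_and_one, hb, h4095 _ hJ]
      have : Nat.shiftLeft (Nat.sub 1 (true).toNat) 32768 = 0 := Nat.zero_shiftLeft _
      rw [this]
      exact Nat.or_zero _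
    have e2 : ccT A t = genCC A t := by
      have e : ccT A t = Nat.lor (Nat.shiftLeft (Nat.lor (Nat.xor (cJ A) U)
        (Nat.shiftLeft U 4096)) A) (Nat.shiftLeft 1 (Nat.add 8192 (tpos t))) := rfl
      have e' : genCC A t = grd (Nat.land (Nat.shiftRight T5 A) 1)
        (Nat.lor (Nat.shiftLeft (ccH (spread (Nat.xor 4095 A))
          (spread (Nat.land (Nat.xor t (ipM A)) (Nat.xor 4095 A)))) A)
          (Nat.shiftLeft 1 (Nat.add 8192 (tpos t)))) := rfl
      have h1 : U = spread (Nat.land (Nat.xor t (ipM A)) (Nat.xor 4095 A)) := h4095 _ hUl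
      rw [e, e', bit_and_one, hb, e1, h1]
      exact (grd_one _).symm
    rw [e2]
    exact CL_of_Cl (hcc _ _ ht)

theorem cc_CL (hcc : ∀ A t, t < 4096 → Cl χ T (genCC A t)) (c : ℕ) : CL χ T W (cc c) := by
  rcases hu : Nat.shiftRight c (nat_lit 12) with _ | q
  · have : cc c = tr := by
      unfold cc
      rw [hu]
      rfl
    rw [this]
    exact CL_tr
  · have e : cc c = ccT (Nat.succ q) (Nat.land c (nat_lit 4095)) := by
      unfold cc
      rw [hu]
      rfl
    rw [e]
    exact ccT_CL hcc (lt_of_le_of_lt (Nat.and_le_right (n := c) (m := 4095)) (by norm_num))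

end tables

/-- All base clauses are true. -/
structure Ok (χ T : ℕ → Bool) (G : ℕ → ℕ) : Prop where
  g : ∀ c, Cl χ T (G c)
  gp : ∀ A Q pat, Q < 4096 → pat < 64 → Cl χ T (genGP A Q pat)
  cc : ∀ A t, t < 4096 → Cl χ T (genCC A t)

/-- All entries of a block are valid. -/
theorem ev_block {W : ℕ → Prop} {G : ℕ → ℕ} (hG : Ok χ T G) {LM LR MR rg rc ro : ℕ → ℕ}
    {n1 n2 n3 n4 : ℕ} (hW : ∀ j, W j → Cl χ T (LM j)) :
    EV χ T W
      (sw n4 (sw n1 (fun i => eRg (rg i)) (sw n2 (fun i => eRc (rc i))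
        (sw n3 (fun i => eRo G (ro i)) (eRl LM LR))))
        (fun i => mR (sw n1 (fun i => eRg (rg i)) (sw n2 (fun i => eRc (rc i))
        (sw n3 (fun i => eRo G (ro i)) (eRl LM LR))))
          (sw n1 (fun i => eYb (rg i)) (sw n2 (fun i => eYb (rc i))
            (sw n3 (fun i => eYb (ro i)) (eYl LR)))) (MR i)))
      (sw n4 (sw n1 (fun i => eYb (rg i)) (sw n2 (fun i => eYb (rc i))
            (sw n3 (fun i => eYb (ro i)) (eYl LR))))
        (fun i => mY (sw n1 (fun i => eYb (rg i)) (sw n2 (fun i => eYb (rc i))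
            (sw n3 (fun i => eYb (ro i)) (eYl LR)))) (MR i))) := by
  have h0 : EV χ T W (sw n1 (fun i => eRg (rg i)) (sw n2 (fun i => eRc (rc i))
        (sw n3 (fun i => eRo G (ro i)) (eRl LM LR))))
      (sw n1 (fun i => eYb (rg i)) (sw n2 (fun i => eYb (rc i))
            (sw n3 (fun i => eYb (ro i)) (eYl LR)))) :=
    (EV.base fun c => gp_CL hG.gp c).sw ((EV.base fun c => cc_CL hG.cc c).sw
      ((EV.base fun c => CL_of_Cl (hG.g c)).sw (EV.lem hW)))
  exact h0.sw h0.comp

/-- State between blocks: the literals of `U` are false, the first `m` clauses of the list `S`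
are true. -/
def St2 (χ T : ℕ → Bool) (U : ℕ) (S : ℕ → ℕ) (m : ℕ) : Prop :=
  Fa χ T U ∧ ∀ i < m, Cl χ T (S i)

theorem St2.false {U : ℕ} {S : ℕ → ℕ} {m i : ℕ} (s : St2 χ T U S m) (hi : Nat.ble (Nat.succ i) m =
    true) (h : Nat.beq (S i) 0 = true) : False := by
  have h1 := s.2 i (Nat.le_of_ble_eq_true hi)
  rw [Nat.eq_of_beq_eq_true h] at h1
  exact Cl_zero h1

theorem and_rec {a b : Bool} (h : @Bool.rec (fun _ => Bool) false a b = true) :
    b = true ∧ a = true := by
  cases b
  · exact Bool.noConfusion h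
  · exact ⟨rfl, h⟩

theorem imp_sound {S LM : ℕ → ℕ} {m n ix : ℕ} (hS : ∀ i < m, Cl χ T (S i)) (np : ℕ) :
    imp S LM m n ix np = true → ∀ i < np, Cl χ T (LM (n + i)) := by
  induction np with
  | zero => exact fun _ i hi => absurd hi (Nat.not_lt_zero i)
  | succ q ih =>
    intro h i hi
    have h' : (@Bool.rec (fun _ => Bool) false (imp S LM m n ix q)
      (impC S LM m n q (Nat.land (Nat.shiftRight ix (Nat.mul (nat_lit 32) q))
        (nat_lit 4294967295))) : Bool) = true := h
    obtain ⟨h1, h2⟩ := and_rec h'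
    rcases Nat.lt_or_ge i q with h3 | h3
    · exact ih h2 i h3
    · have : i = q := by omega
      subst this
      obtain ⟨h4, h5⟩ := and_rec h1
      have h6 : LM (n + i) = S (Nat.land (Nat.shiftRight ix (Nat.mul (nat_lit 32) i))
        (nat_lit 4294967295)) := Nat.eq_of_beq_eq_true h5
      rw [h6]
      exact hS _ (Nat.le_of_ble_eq_true h4)

/-- the exported clauses: clause `m + i` of the list is clause `k` of the block -/
theorem exp_sound {S LM : ℕ → ℕ} {m n ex : ℕ} (hL : ∀ i < n, Cl χ T (LM i)) (ne : ℕ)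
    (h : imp LM S n m ex ne = true) : ∀ i < ne, Cl χ T (S (m + i)) := imp_sound hL ne h

/-- **A block**: `n` lemmas, `np` imported clauses, `ne` exported clauses. -/
theorem block_sound2 {R Y LM LR : ℕ → ℕ}
    (hE : EV χ T (fun j => Cl χ T (LM j)) R Y) (hLM : ∀ j, Lo (LM j)) {U V U0 n np m ne ix ex : ℕ}
    {S : ℕ → ℕ} (s : St2 χ T U S m) (hU : Nat.ble (Nat.succ U) (Nat.pow (nat_lit 2) (nat_lit 16384)) = true)
    (hn : Nat.ble (Nat.add n np) 16384 = true)
    (hU0 : Nat.beq U0 (Nat.lor U (Nat.shiftLeft (Nat.sub (Nat.pow (nat_lit 2) np) (nat_lit 1))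
      (Nat.add (nat_lit 16384) n))) = true)
    (hi : imp S LM m n ix np = true) (hx : imp LM S (Nat.add n np) m ex ne = true)
    (h : outer R Y LM LR (fin V) n U0 = true) : St2 χ T V S (Nat.add m ne) := by
  have hnn : n + np ≤ 16384 := Nat.le_of_ble_eq_true hn
  have himp := imp_sound s.2 np hi
  have hUl : Lo U := by
    intro i hi
    by_contra hc
    have h1 : U < 2 ^ 16384 := Nat.le_of_ble_eq_true hU
    have : U.testBit i = false := Nat.testBit_lt_two_pow (lt_of_lt_of_le h1
      (Nat.pow_le_pow_right (by norm_num) (by omega)))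
    rw [this] at hi
    exact Bool.noConfusion hi
  have hFU : FA χ T (fun j => Cl χ T (LM j)) U0 := by
    rw [Nat.eq_of_beq_eq_true hU0]
    refine FA_or (FA_of_Fa s.1 hUl) ?_
    intro i hi
    have hi' : ((2 ^ np - 1) <<< (16384 + n)).testBit i = true := hi
    rw [Nat.testBit_shiftLeft, Bool.and_eq_true, decide_eq_true_iff,
      Nat.testBit_two_pow_sub_one, decide_eq_true_iff] at hi'
    refine Or.inr ⟨by omega, by omega, ?_⟩
    have e : i - 16384 = n + (i - (16384 + n)) := by omega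
    change Cl χ T (LM (i - 16384))
    rw [e]
    exact himp _ hi'.2
  obtain ⟨h1, W, hW, hF⟩ := outer_sound hE hLM n (by omega) U0 hFU h
  have hall : ∀ i < Nat.add n np, Cl χ T (LM i) := by
    intro i hi
    have hi' : i < n + np := hi
    rcases Nat.lt_or_ge i n with h2 | h2
    · exact h1 i h2
    · have e : i = n + (i - n) := by omega
      rw [e]
      exact himp _ (by omega)
  refine ⟨?_, ?_⟩
  · have h3 : V ||| W = W := Nat.eq_of_beq_eq_true hF
    intro i hi
    refine Fa_of_FA hW i ?_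
    rw [← h3, Nat.testBit_or, hi, Bool.true_or]
  · intro i hi
    have hi' : i < m + ne := hi
    rcases Nat.lt_or_ge i m with h2 | h2
    · exact s.2 i h2
    · have e : i = m + (i - m) := by omega
      rw [e]
      exact imp_sound hall ne hx _ (by omega)

end Pool.Agent.H13.Z12.B2
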