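import Mathlib
import Pool.Agent.H13.Z12.Sound3
import Pool.Agent.H28.Z12.CondR

/-!
Chains of blocks of the third checker (MP_1e71f9_co).
-/

set_option autoImplicit false

namespace Pool.Agent.H13.Z12.B3

open Pool.Agent.H77.Z12 Pool.Agent.H64.Z12 Pool.Agent.H28.Z12

variable {χ T : ℕ → Bool}

theorem ok_genR (hM : RModel χ T) (h : Simp χ 63 4095) :
    Ok χ T (genR (nat_lit 16773183) (nat_lit 0)) :=
  ⟨genR_one hM h, fun _ _ _ hQ hp => cl_of_sat (R.genGP_sat hM hQ hp),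
    fun _ _ ht => cl_of_sat (R.genCC_sat hM ht)⟩

theorem ok_gen (hM : Model χ T) (h : Simp χ 63 4095) :
    Ok χ T (gen (nat_lit 16773183) (nat_lit 0)) :=
  ⟨gen_one hM h, fun _ _ _ hQ hp => cl_of_sat (genGP_sat hM hQ hp),
    fun _ _ ht => cl_of_sat (genCC_sat hM ht)⟩

theorem St2.start {U off lits n : ℕ} {S : ℕ → ℕ} (s : St χ T U off lits n)
    (h : ((List.range n).all fun i => Nat.beq (S i) (Pool.Agent.H13.Z12.lmask off lits i)) =
      true) : St2 χ T U S n := by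
  refine ⟨s.1, fun i hi => ?_⟩
  have h1 := List.all_eq_true.1 h i (List.mem_range.2 hi)
  rw [Nat.eq_of_beq_eq_true h1]
  exact s.2 i hi

end Pool.Agent.H13.Z12.B3
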