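import Mathlib
import Pool.Agent.H13.Z12.Sound3
import Pool.Agent.H13.Z12.Defs4

/-!
Soundness of the fourth checker (MP_1e71f9_co).
-/

set_option autoImplicit false
set_option maxRecDepth 10000

namespace Pool.Agent.H13.Z12.B4

open Pool.Agent.H13.Z12 (lit Cl Fa Cl_or_Fa)
open Pool.Agent.H13.Z12.B3

variable {χ T : ℕ → Bool} {W : ℕ → Prop}

/-- The steps are sound: if the new set is false, the old one is. -/
def BW (χ T : ℕ → Bool) (W : ℕ → Prop) (F : ℕ → ℕ → ℕ → ℕ) : Prop :=
  ∀ S p x, FA χ T W (F S p x) → FA χ T W S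

theorem land_sound {S R Y : ℕ} (h : FA χ T W (Nat.lor (Nat.land S (Nat.xor fu Y)) R))
    (h2 : FA χ T W R → FA χ T W Y) : FA χ T W S := by
  have h1 := h2 (FA_right h)
  have h3 : FA χ T W (Nat.land S (Nat.xor fu Y)) := FA_left h
  intro i hb hi
  rcases hy : Y.testBit i with _ | _
  · refine h3 i hb ?_
    change (S &&& (fu ^^^ Y)).testBit i = true
    rw [Nat.testBit_and, Nat.testBit_xor, hi, hy, fu_testBit hb]
    rfl
  · exact h1 i hb hy

theorem BW.base {R Y : ℕ → ℕ} (h : EV χ T W R Y) : BW χ T W (bS R Y) :=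
  fun _ p _ hS => land_sound hS (h p)

theorem rec_sound {F : ℕ → ℕ → ℕ → ℕ} (h : BW χ T W F) {S k : ℕ}
    (hS : FA χ T W (@Nat.rec (fun _ => Nat) tr (F S) k)) : FA χ T W S := by
  cases k with
  | zero => exact absurd hS not_FA_tr
  | succ p => exact h S p _ hS

theorem r4_sound {F : ℕ → ℕ → ℕ → ℕ} (h : BW χ T W F) (w g : ℕ) :
    ∀ r S, FA χ T W ((@Nat.rec (fun _ => Nat → Nat → Nat) lend (r4 w F) g : Nat → Nat → Nat) r S) →
      FA χ T W S := by
  induction g with
  | zero => exact fun r S hS => hS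
  | succ g ih =>
    intro r S hS
    exact rec_sound h (rec_sound h (rec_sound h (rec_sound h (fo_sound ih hS))))

theorem rl_sound {F : ℕ → ℕ → ℕ → ℕ} (h : BW χ T W F) (w a g : ℕ) :
    ∀ r S, FA χ T W (rl w F a g r S) → FA χ T W S := by
  induction a with
  | zero => exact fun r S hS => r4_sound h w g r S hS
  | succ a ih =>
    intro r S hS
    exact rec_sound h (ih _ _ hS)

theorem cS_sound {F : ℕ → ℕ → ℕ → ℕ} (h : BW χ T W F) {w : ℕ} {Y : ℕ → ℕ} {r S : ℕ}
    (hS : FA χ T W (cS w F Y r S)) : FA χ T W S :=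
  land_sound hS fun hp => rl_sound h _ _ _ _ _ hp

theorem iS_sound {F : ℕ → ℕ → ℕ → ℕ} (h : BW χ T W F) {w : ℕ} {r S : ℕ}
    (hS : FA χ T W (iS w F r S)) : FA χ T W S := by
  refine land_sound hS fun hp => ?_
  have h1 : ¬ FA χ T W (rl w F (Nat.land r (nat_lit 3))
      (Nat.land (Nat.shiftRight r (nat_lit 2)) (nat_lit 255)) (Nat.shiftRight r (nat_lit 38))
      (st0 (Nat.shiftRight r (nat_lit 10)))) := fun hc => start_false (rl_sound h _ _ _ _ _ hc)
  exact FA_one (entry (CL_of_not_FA h1) (land_lt _) hp)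

/-- A level: all steps, steps with entries. -/
def Lv (χ T : ℕ → Bool) (LM : ℕ → ℕ) (F E : ℕ → ℕ → ℕ → ℕ) : Prop :=
  BW χ T (fun j => Cl χ T (LM j)) F ∧ BW χ T (fun j => Cl χ T (LM j)) E

theorem BW.fs {F E : ℕ → ℕ → ℕ → ℕ} {n : ℕ} (h : BW χ T W F) (h' : BW χ T W E) :
    BW χ T W (fs n F E) := by
  intro S p x hS
  unfold B4.fs at hS
  cases hb : Nat.ble n p
  · rw [hb] at hS
    exact h S p x hS
  · rw [hb] at hS
    exact h' S p x hS

theorem BW.es {F E : ℕ → ℕ → ℕ → ℕ} {Y M : ℕ → ℕ} {a b w : ℕ} (h : BW χ T W F) (h' : BW χ T W E) :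
    BW χ T W (es a b w F Y M E) := by
  intro S p x hS
  unfold B4.es at hS
  cases ha : Nat.ble a p
  · rw [ha] at hS
    exact h' S p x hS
  · rw [ha] at hS
    change FA χ T W (B4.cl b w F Y M S p) at hS
    unfold B4.cl at hS
    cases hb : Nat.ble b p
    · rw [hb] at hS
      exact cS_sound h hS
    · rw [hb] at hS
      exact iS_sound h hS

theorem Lv.start {LM R Y : ℕ → ℕ} (h : EV χ T (fun j => Cl χ T (LM j)) R Y) :
    Lv χ T LM (bS R Y) e0 :=
  ⟨BW.base h, fun _ _ _ hS => absurd hS not_FA_tr⟩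

/-- The next level. -/
theorem Lv.step {LM Y M : ℕ → ℕ} {F0 F E : ℕ → ℕ → ℕ → ℕ} {a b w n : ℕ}
    (h0 : BW χ T (fun j => Cl χ T (LM j)) F0) (h : Lv χ T LM F E) :
    Lv χ T LM (B4.fs n F0 (B4.es a b w F Y M E)) (B4.es a b w F Y M E) :=
  ⟨h0.fs (h.1.es h.2), h.1.es h.2⟩

theorem EV.code {D D1 : ℕ → ℕ} {D2 : ℕ → ℕ → ℕ} (h : ∀ c, CL χ T W (D c))
    (hD : ∀ c x, D2 c x = Nat.lor (D c) (nat_lit 0)) {r : ℕ → ℕ}
    (hr : ∀ i, D1 i = @Nat.rec (fun _ => Nat) tr D2 (Nat.shiftRight (r i) (nat_lit 14))) :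
    EV χ T W (fun i => Nat.xor (D1 i)
      (Nat.shiftLeft (nat_lit 1) (Nat.land (r i) (nat_lit 16383)))) (fun i => eYb (r i)) := by
  intro i hp
  refine FA_one (entry ?_ (land_lt _) hp)
  rw [hr i]
  cases Nat.shiftRight (r i) (nat_lit 14) with
  | zero => exact CL_tr
  | succ c =>
    have : (@Nat.rec (fun _ => Nat) tr D2 (Nat.succ c) : ℕ) = D2 c (@Nat.rec (fun _ => Nat) tr D2 c) := rfl
    have h0 : Nat.lor (D c) (nat_lit 0) = D c := Nat.or_zero _
    rw [this, hD, h0]
    exact h c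

/-- The base entries and the lemma entries of a block are valid. -/
theorem ev_base {G : ℕ → ℕ} (hG : Ok χ T G) {LM LR : ℕ → ℕ} {tg tc tz n1 n2 n3 : ℕ} :
    EV χ T (fun j => Cl χ T (LM j)) (bR G LM LR tg tc tz n1 n2 n3) (bY LR tg tc tz n1 n2 n3) := by
  have hg : EV χ T (fun j => Cl χ T (LM j)) (tG tg) (tY (nat_lit 44) tg) :=
    EV.code (D2 := gp1) (r := fun i => trc tg (nat_lit 44) i) (fun c => gp_CL hG.gp c)
      (fun _ _ => rfl) (fun _ => rfl)
  have hc : EV χ T (fun j => Cl χ T (LM j)) (tC tc) (tY (nat_lit 38) tc) :=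
    EV.code (D2 := cc1) (r := fun i => trc tc (nat_lit 38) i) (fun c => cc_CL hG.cc c)
      (fun _ _ => rfl) (fun _ => rfl)
  have ho : EV χ T (fun j => Cl χ T (LM j)) (tO G tz) (tY (nat_lit 46) tz) :=
    EV.base (r := fun i => trc tz (nat_lit 46) i) fun c => CL_of_Cl (hG.g c)
  exact hg.sw (hc.sw (ho.sw (EV.lem fun _ h => h)))

/-- **The outer loop**. -/
theorem outer_sound {F : ℕ → ℕ → ℕ → ℕ} {LM LR : ℕ → ℕ} {k : ℕ → Bool} {w : ℕ}
    (hE : BW χ T (fun j => Cl χ T (LM j)) F) (hLM : ∀ j, Lo (LM j)) (fuel : ℕ) :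
    fuel ≤ 8192 → ∀ U, FA χ T (fun j => Cl χ T (LM j)) U → outer w F LM LR k fuel U = true →
      (∀ j < fuel, Cl χ T (LM j)) ∧ ∃ V, FA χ T (fun j => Cl χ T (LM j)) V ∧ k V = true := by
  induction fuel with
  | zero =>
    intro _ U hU h
    exact ⟨fun j hj => absurd hj (Nat.not_lt_zero j), U, hU, h⟩
  | succ n ih =>
    intro hn U hU h
    obtain ⟨r, hr⟩ : ∃ r, r = lrs (LR n) := ⟨_, rfl⟩
    obtain ⟨S, hS⟩ : ∃ S, S = rl w F (Nat.land r (nat_lit 3))
      (Nat.land (Nat.shiftRight r (nat_lit 2)) (nat_lit 255)) (Nat.shiftRight r (nat_lit 24))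
      (st0 (Nat.shiftRight r (nat_lit 10))) := ⟨_, rfl⟩
    have h' : (@Nat.rec (fun _ => Bool) (outer w F LM LR k n (Nat.lor (Nat.lor U (addU (LM n)))
        (Nat.shiftLeft (nat_lit 1) (Nat.add (nat_lit 16384) n)))) cf
        (Nat.xor (Nat.lor S (Nat.lor (LM n) U)) (Nat.lor (LM n) U)) : Bool) = true := by
      rw [hS, hr]
      exact h
    rcases hx : Nat.xor (Nat.lor S (Nat.lor (LM n) U)) (Nat.lor (LM n) U) with _ | w'
    · rw [hx] at h'
      have h2 : outer w F LM LR k n (Nat.lor (Nat.lor U (addU (LM n)))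
        (Nat.shiftLeft (nat_lit 1) (Nat.add (nat_lit 16384) n))) = true := h'
      have hcl : Cl χ T (LM n) := by
        rcases Cl_or_Fa χ T (LM n) with hc | hf
        · exact hc
        · exfalso
          have hA : FA χ T (fun j => Cl χ T (LM j)) (Nat.lor (LM n) U) :=
            FA_or (FA_of_Fa hf (hLM n)) hU
          have hSA : FA χ T (fun j => Cl χ T (LM j)) S := by
            intro i hb hi
            refine hA i hb ?_
            by_contra hc
            rw [Bool.not_eq_true] at hc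
            have h3 : (Nat.xor (Nat.lor S (Nat.lor (LM n) U)) (Nat.lor (LM n) U)).testBit i =
                true := by
              change ((S ||| Nat.lor (LM n) U) ^^^ Nat.lor (LM n) U).testBit i = true
              rw [Nat.testBit_xor, Nat.testBit_or, hi, hc]
              rfl
            rw [hx] at h3
            simp at h3
          rw [hS] at hSA
          exact start_false (rl_sound hE _ _ _ _ _ hSA)
      have hU' : FA χ T (fun j => Cl χ T (LM j)) (Nat.lor (Nat.lor U (addU (LM n)))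
          (Nat.shiftLeft (nat_lit 1) (Nat.add (nat_lit 16384) n))) := by
        refine FA_or (FA_or hU (FA_addU hcl)) (FA_one (Or.inr ⟨?_, ?_, ?_⟩))
        · exact Nat.le_add_right 16384 n
        · change 16384 + n < 24576
          omega
        · have e : 16384 + n - 16384 = n := by omega
          change Cl χ T (LM (16384 + n - 16384))
          rw [e]
          exact hcl
      obtain ⟨h5, h6⟩ := ih (by omega) _ hU' h2
      refine ⟨fun j hj => ?_, h6⟩
      rcases Nat.lt_or_ge j n with h7 | h7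
      · exact h5 j h7
      · have : j = n := by omega
        rw [this]
        exact hcl
    · rw [hx] at h'
      exact Bool.noConfusion h'

theorem ck1_spec {b c d e : Bool} (h : ck1 b c d e = true) :
    b = true ∧ c = true ∧ d = true ∧ e = true := by
  cases b
  · exact Bool.noConfusion h
  · cases c
    · exact Bool.noConfusion h
    · cases d
      · exact Bool.noConfusion h
      · exact ⟨rfl, rfl, rfl, h⟩

theorem ck_spec {F : ℕ → ℕ → ℕ → ℕ} {LM LR S : ℕ → ℕ} {w U V n np m ne ix ex : ℕ}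
    (h : ck w F LM LR S U V m n np ne ix ex = true) :
    Nat.ble (Nat.add n np) (nat_lit 8192) = true ∧
    Nat.ble (Nat.succ U) (Nat.pow (nat_lit 2) (nat_lit 16384)) = true ∧
    imp S LM m n ix np = true ∧ imp LM S (Nat.add n np) m ex ne = true ∧
    ck2 w F LM LR U V n np = true := by
  unfold ck at h
  generalize Nat.ble (Nat.add n np) (nat_lit 8192) = b at h ⊢
  generalize Nat.ble (Nat.succ U) (Nat.pow (nat_lit 2) (nat_lit 16384)) = c at h ⊢
  cases b
  · exact Bool.noConfusion h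
  · exact ⟨rfl, ck1_spec h⟩

/-- **A block**: `n` lemmas, `np` imported clauses, `ne` exported clauses. -/
theorem block_sound {F E : ℕ → ℕ → ℕ → ℕ} {LM LR S : ℕ → ℕ} {w U V n np m ne ix ex : ℕ}
    (hL : Lv χ T LM F E) (hLM : ∀ j, Lo (LM j)) (s : St2 χ T U S m)
    (hc : ck w F LM LR S U V m n np ne ix ex = true) : St2 χ T V S (Nat.add m ne) := by
  obtain ⟨hn, hU, hi, hx, h⟩ := ck_spec hc
  have hnn : n + np ≤ 8192 := Nat.le_of_ble_eq_true hn
  have himp := imp_sound s.2 np hi
  have hUl : Lo U := by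
    intro i hi
    by_contra hc
    have h1 : U < 2 ^ 16384 := Nat.le_of_ble_eq_true hU
    have : U.testBit i = false := Nat.testBit_lt_two_pow (lt_of_lt_of_le h1
      (Nat.pow_le_pow_right (by norm_num) (by omega)))
    rw [this] at hi
    exact Bool.noConfusion hi
  have hFU : FA χ T (fun j => Cl χ T (LM j)) (Nat.lor U (Nat.shiftLeft (Nat.sub (Nat.pow (nat_lit 2) np)
      (nat_lit 1)) (Nat.add (nat_lit 16384) n))) := by
    refine FA_or (FA_of_Fa s.1 hUl) ?_
    intro i _ hi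
    have hi' : ((2 ^ np - 1) <<< (16384 + n)).testBit i = true := hi
    rw [Nat.testBit_shiftLeft, Bool.and_eq_true, decide_eq_true_iff,
      Nat.testBit_two_pow_sub_one, decide_eq_true_iff] at hi'
    refine Or.inr ⟨by omega, by omega, ?_⟩
    have e : i - 16384 = n + (i - (16384 + n)) := by omega
    change Cl χ T (LM (i - 16384))
    rw [e]
    exact himp _ hi'.2
  obtain ⟨h1, W, hW, hF⟩ := outer_sound (k := fin V) hL.1 hLM n (by omega) _ hFU h
  have hall : ∀ i < Nat.add n np, Cl χ T (LM i) := by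
    intro i hi
    have hi' : i < n + np := hi
    rcases Nat.lt_or_ge i n with h2 | h2
    · exact h1 i h2
    · have e : i = n + (i - n) := by omega
      rw [e]
      exact himp _ (by omega)
  refine ⟨?_, ?_⟩
  · have h3 : V ||| W = W := Nat.eq_of_beq_eq_true hF
    intro i hi
    refine Fa_of_FA hW i ?_
    rw [← h3, Nat.testBit_or, hi, Bool.true_or]
  · intro i hi
    have hi' : i < m + ne := hi
    rcases Nat.lt_or_ge i m with h2 | h2
    · exact s.2 i h2
    · have e : i = m + (i - m) := by omega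
      rw [e]
      exact imp_sound hall ne hx _ (by omega)

end Pool.Agent.H13.Z12.B4
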