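import Mathlib
import Pool.Agent.H13.Z12.Sound4
import Pool.Agent.H13.Z12.Glue3
import Pool.Agent.H28.Z12.CondX

/-!
Chains of blocks of the fourth checker (MP_1e71f9_co).
-/

set_option autoImplicit false

namespace Pool.Agent.H13.Z12.B4

open Pool.Agent.H77.Z12 Pool.Agent.H64.Z12 Pool.Agent.H28.Z12
open Pool.Agent.H13.Z12.B3 (Ok St2)

variable {χ T : ℕ → Bool}

theorem ok_gen (hM : Model χ T) (h : Simp χ 63 4095) : Ok χ T (gen (nat_lit 16773183) (nat_lit 0)) :=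
  B3.ok_gen hM h

theorem ok_genR (hM : RModel χ T) (h : Simp χ 63 4095) :
    Ok χ T (genR (nat_lit 16773183) (nat_lit 0)) := B3.ok_genR hM h

theorem ok_genX {D : ℕ} (hM : X.XModel D χ T) (h : Simp χ 63 4095) :
    Ok χ T (genX D (nat_lit 16773183) (nat_lit 0)) :=
  ⟨genX_one hM h, fun _ _ _ hQ hp => cl_of_sat (X.genGP_sat hM hQ hp),
    fun _ _ ht => cl_of_sat (X.genCC_sat hM ht)⟩

/-- The start of a chain. -/
theorem start {U off lits n : ℕ} {S : ℕ → ℕ} (s : St χ T U off lits n)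
    (h : ((List.range n).all fun i => Nat.beq (S i) (Pool.Agent.H13.Z12.lmask off lits i)) =
      true) : St2 χ T U S n := B3.St2.start s h

/-- The end of a chain. -/
theorem stop {U : ℕ} {S : ℕ → ℕ} {m i : ℕ} (s : St2 χ T U S m) (hi : Nat.ble (Nat.succ i) m = true)
    (h : Nat.beq (S i) 0 = true) : False := s.false hi h

/-- The lowest level of a block. -/
theorem lv0 {G : ℕ → ℕ} (hG : Ok χ T G) {LM LR : ℕ → ℕ} {tg tc tz n1 n2 n3 : ℕ} :
    Lv χ T LM (bS (bR G LM LR tg tc tz n1 n2 n3) (bY LR tg tc tz n1 n2 n3)) e0 :=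
  Lv.start (ev_base hG)

/-- The next level. -/
theorem lv {LM Y M : ℕ → ℕ} {F0 F E F1 E1 : ℕ → ℕ → ℕ → ℕ} {a b w n : ℕ} (h0 : Lv χ T LM F0 e0)
    (h : Lv χ T LM F E)
    (hE : ∀ S p x, E1 S p x = @Bool.rec (fun _ => Nat) (E S p x) (cl b w F Y M S p) (Nat.ble a p))
    (hF : ∀ S p x, F1 S p x = @Bool.rec (fun _ => Nat) (F0 S p x) (E1 S p x) (Nat.ble n p)) :
    Lv χ T LM F1 E1 := by
  have e1 : E1 = es a b w F Y M E := funext fun S => funext fun p => funext fun x => hE S p x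
  have e2 : F1 = fs n F0 E1 := funext fun S => funext fun p => funext fun x => hF S p x
  rw [e2, e1]
  exact Lv.step h0.1 h

/-- A block. -/
theorem blk {F E : ℕ → ℕ → ℕ → ℕ} {LR S : ℕ → ℕ} {w U V n np m ne ix ex : ℕ}
    (hL : Lv χ T (fun i => B3.lm1 (LR i)) F E) (s : St2 χ T U S m)
    (hc : ck w F (fun i => B3.lm1 (LR i)) LR S U V m n np ne ix ex = true) :
    St2 χ T V S (Nat.add m ne) :=
  block_sound hL (fun _ => B3.Lo_lm1 _) s hc

end Pool.Agent.H13.Z12.B4
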