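import Mathlib
import Pool.Agent.H13.Z12.Sound3
import Pool.Agent.H13.Z12.Defs6
import Pool.Agent.H32.Z12.M

/-!
Soundness of the sixth checker (MP_1e71f9_co).

A set is good if some position is not false and if it has no complementary literals (or a guard
bit). Resolution on the only variable with both literals in the union keeps this.
-/

set_option autoImplicit false
set_option maxRecDepth 10000

namespace Pool.Agent.H13.Z12.B6

open Pool.Agent.H13.Z12 (lit Cl Fa Cl_zero eM_testBit eq_pow_of_testBit)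
open Pool.Agent.H13.Z12.B3
open Pool.Agent.H32.Z12 (bnd bnd_true aT)

variable {χ T : ℕ → Bool}

/-- no flags -/
def W0 (_ : ℕ) : Prop := False

/-- guard bit -/
def Gd (X : ℕ) : Prop := ∃ i, 24576 ≤ i ∧ i < 28673 ∧ X.testBit i = true

/-- no complementary literals -/
def Cs (X : ℕ) : Prop := Gd X ∨ cl X = 0

/-- some position is not false, no complementary literals -/
def Gq (χ T : ℕ → Bool) (X : ℕ) : Prop := CL χ T W0 X ∧ Cs X

theorem Gd.CL {X : ℕ} (h : Gd X) : CL χ T W0 X := by
  obtain ⟨i, h1, h2, h3⟩ := h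
  exact CL_big h3 h1 h2

theorem Gd.good {X : ℕ} (h : Gd X) : Gq χ T X := ⟨h.CL, Or.inl h⟩

theorem good_tr : Gq χ T tr := Gd.good ⟨28672, by norm_num, by norm_num, tr_bit⟩

theorem lor_zero (X : ℕ) : Nat.lor X (nat_lit 0) = X := Nat.or_zero X

theorem good_fx {D : ℕ} (h : CL χ T W0 D) : Gq χ T (fx D) := by
  unfold fx
  cases hb : Nat.beq (cl D) (nat_lit 0)
  · exact good_tr
  · change Gq χ T (Nat.lor D (nat_lit 0))
    rw [lor_zero]
    exact ⟨h, Or.inr (Nat.eq_of_beq_eq_true hb)⟩

theorem tb4_lt (x : ℕ) : tb4 x < 4096 :=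
  lt_of_le_of_lt (Nat.and_le_right (n := Nat.shiftRight W4 (Nat.mul (nat_lit 12)
    (Nat.land x (nat_lit 511)))) (m := 4095)) (by norm_num)

theorem tb5_lt (x : ℕ) : tb5 x < 4096 :=
  lt_of_le_of_lt (Nat.and_le_right (n := Nat.shiftRight W5 (Nat.mul (nat_lit 12)
    (Nat.land x (nat_lit 1023)))) (m := 4095)) (by norm_num)

theorem gm_CL (hgp : ∀ A Q pat, Q < 4096 → pat < 64 → Cl χ T (Pool.Agent.H28.Z12.genGP A Q pat))
    (c : ℕ) : CL χ T W0 (gm c) := by
  rcases hu : tb4 (Nat.shiftRight c (nat_lit 9)) with _ | q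
  · have : gm c = tr := by
      unfold gm
      rw [hu]
      rfl
    rw [this]
    exact CL_tr
  · have e : gm c = gpc (Nat.shiftRight c (nat_lit 5)) (Nat.shiftRight c (nat_lit 7)) (tb4 c)
        (t1 (Nat.succ q)) (t2 (Nat.succ q)) (gq (Nat.succ q)) := by
      unfold gm
      rw [hu]
      rfl
    rw [e]
    refine gpc_CL hgp (tb4_lt c) ?_
    have := tb4_lt (Nat.shiftRight c (nat_lit 9))
    rw [hu] at this
    exact this

theorem cm_CL (hcc : ∀ A t, t < 4096 → Cl χ T (Pool.Agent.H28.Z12.genCC A t)) (c : ℕ) :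
    CL χ T W0 (cm c) := by
  rcases hu : tb5 c with _ | q
  · have : cm c = tr := by
      unfold cm
      rw [hu]
      rfl
    rw [this]
    exact CL_tr
  · have e : cm c = ccT (Nat.succ q) (Nat.land (Nat.shiftRight c (nat_lit 10)) (nat_lit 4095)) := by
      unfold cm
      rw [hu]
      rfl
    rw [e]
    refine ccT_CL hcc ?_ (lt_of_le_of_lt (Nat.and_le_right (n := Nat.shiftRight c 10) (m := 4095))
      (by norm_num))
    have := tb5_lt c
    rw [hu] at this
    exact this

theorem good_inl {G : ℕ → ℕ} (hG : Ok χ T G) (v : ℕ) : Gq χ T (inl v) := by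
  unfold inl
  apply good_fx
  cases Nat.land v (nat_lit 1) with
  | zero => exact gm_CL hG.gp _
  | succ n => exact cm_CL hG.cc _

/-! ### Resolution -/

theorem cl_testBit (X i : ℕ) :
    (cl X).testBit i = (X.testBit i && X.testBit (i + 4096) && eM.testBit i) := by
  have e : cl X = (X &&& (X >>> 4096)) &&& eM := rfl
  rw [e, Nat.testBit_and, Nat.testBit_and, Nat.testBit_shiftRight, Nat.add_comm 4096 i]

theorem eM_range {i : ℕ} (h : eM.testBit i = true) : i < 4096 ∨ (8192 ≤ i ∧ i < 12288) := by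
  rw [eM_testBit] at h
  simp only [Bool.or_eq_true, Bool.and_eq_true, decide_eq_true_iff] at h
  omega

theorem res_bit {T1 k : ℕ} (h1 : T1.testBit k = true) (h2 : T1.testBit (k + 4096) = true) (i : ℕ) :
    (Nat.xor T1 (Nat.lor (2 ^ k) (Nat.shiftLeft (2 ^ k) (nat_lit 4096)))).testBit i =
      (T1.testBit i && decide (i ≠ k) && decide (i ≠ k + 4096)) := by
  change (T1 ^^^ (2 ^ k ||| (2 ^ k) <<< 4096)).testBit i = _
  have e : (2 ^ k : ℕ) <<< 4096 = 2 ^ (k + 4096) := by
    rw [Nat.shiftLeft_eq, ← pow_add]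
  rw [e, Nat.testBit_xor, Nat.testBit_or, Nat.testBit_two_pow, Nat.testBit_two_pow]
  by_cases a : i = k
  · subst a
    rw [h1]
    simp
  · by_cases b : i = k + 4096
    · subst b
      rw [h2]
      simp
    · have a' : ¬ k = i := fun h => a h.symm
      have b' : ¬ k + 4096 = i := fun h => b h.symm
      simp [a, b, a', b']

/-- **Resolution.** -/
theorem good_res {S D x : ℕ} (hS : Gq χ T S) (hD : Gq χ T D)
    (hx : x = cl (Nat.lor S D)) (h0 : x ≠ 0) (h1 : Nat.land x (Nat.sub x (nat_lit 1)) = 0) :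
    Gq χ T (Nat.xor (Nat.lor S D) (Nat.lor x (Nat.shiftLeft x (nat_lit 4096)))) := by
  obtain ⟨k, hk⟩ := exists_bit h0
  have hxk : x = 2 ^ k := eq_pow_of_testBit hk h1
  have hb := hk
  rw [hx, cl_testBit, Bool.and_eq_true, Bool.and_eq_true] at hb
  obtain ⟨⟨b1, b2⟩, b3⟩ := hb
  have hr := eM_range b3
  have hk' : k < 12288 := by omega
  have hbit : ∀ i, (Nat.xor (Nat.lor S D) (Nat.lor x (Nat.shiftLeft x (nat_lit 4096)))).testBit i =
      ((Nat.lor S D).testBit i && decide (i ≠ k) && decide (i ≠ k + 4096)) := by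
    intro i
    rw [hxk]
    exact res_bit b1 b2 i
  by_cases hg : Gd S ∨ Gd D
  · refine Gd.good ?_
    have : ∃ i, 24576 ≤ i ∧ i < 28673 ∧ (Nat.lor S D).testBit i = true := by
      rcases hg with ⟨i, g1, g2, g3⟩ | ⟨i, g1, g2, g3⟩
      · exact ⟨i, g1, g2, by rw [lor_testBit, g3, Bool.true_or]⟩
      · exact ⟨i, g1, g2, by rw [lor_testBit, g3, Bool.or_true]⟩
    obtain ⟨i, g1, g2, g3⟩ := this
    refine ⟨i, g1, g2, ?_⟩
    rw [hbit, g3]
    have e1 : i ≠ k := by omega
    have e2 : i ≠ k + 4096 := by omega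
    simp [e1, e2]
  · rw [not_or] at hg
    have cS : cl S = 0 := hS.2.resolve_left hg.1
    have cD : cl D = 0 := hD.2.resolve_left hg.2
    have nS : ∀ X, cl X = 0 → X.testBit k = true → X.testBit (k + 4096) = true → False := by
      intro X hX q1 q2
      have := cl_testBit X k
      rw [hX, q1, q2, b3, Nat.zero_testBit] at this
      exact Bool.noConfusion this
    refine ⟨?_, Or.inr ?_⟩
    · obtain ⟨i, i1, i2, i3⟩ := hS.1
      obtain ⟨j, j1, j2, j3⟩ := hD.1
      by_cases ei : i = k ∨ i = k + 4096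
      · by_cases ej : j = k ∨ j = k + 4096
        · exfalso
          have li : lit χ T i := by
            by_contra hc
            exact i3 (Or.inl ⟨by omega, hc⟩)
          have lj : lit χ T j := by
            by_contra hc
            exact j3 (Or.inl ⟨by omega, hc⟩)
          have hx4 : k ^^^ 4096 = k + 4096 := by
            rw [xor4096 (by omega), if_pos (by omega)]
          by_cases hij : i = j
          · subst hij
            rcases ei with ei | ei
            · subst ei
              rw [lor_testBit, Bool.or_eq_true] at b2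
              rcases b2 with q | q
              · exact nS S cS i2 q
              · exact nS D cD j2 q
            · subst ei
              rw [lor_testBit, Bool.or_eq_true] at b1
              rcases b1 with q | q
              · exact nS S cS q i2
              · exact nS D cD q j2
          · have hh : lit χ T k ∧ lit χ T (k + 4096) := by
              rcases ei with ei | ei
              · rcases ej with ej | ej
                · exact absurd (ei.trans ej.symm) hij
                · exact ⟨ei ▸ li, ej ▸ lj⟩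
              · rcases ej with ej | ej
                · exact ⟨ej ▸ lj, ei ▸ li⟩
                · exact absurd (ei.trans ej.symm) hij
            have := neg_lit hh.1
            rw [hx4] at this
            exact this hh.2
        · rw [not_or] at ej
          refine ⟨j, j1, ?_, j3⟩
          rw [hbit, lor_testBit, j2]
          simp [ej.1, ej.2]
      · rw [not_or] at ei
        refine ⟨i, i1, ?_, i3⟩
        rw [hbit, lor_testBit, i2]
        simp [ei.1, ei.2]
    · by_contra hc
      obtain ⟨i, hi⟩ := exists_bit hc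
      rw [cl_testBit, Bool.and_eq_true, Bool.and_eq_true, hbit, hbit] at hi
      obtain ⟨⟨q1, q2⟩, q3⟩ := hi
      simp only [Bool.and_eq_true, decide_eq_true_iff] at q1 q2
      have : (cl (Nat.lor S D)).testBit i = true := by
        rw [cl_testBit, q1.1.1, q2.1.1, q3]
        rfl
      rw [← hx, hxk, Nat.testBit_two_pow, decide_eq_true_iff] at this
      exact q1.1.2 this.symm

/-- State of a derivation: the start or a good set. -/
def St (χ T : ℕ → Bool) (S : ℕ) : Prop := S = 0 ∨ Gq χ T S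

/-- The continuation is sound. -/
def Ks (χ T : ℕ → Bool) (ih : ℕ → ℕ → ℕ) : Prop := ∀ r S, St χ T S → St χ T (ih r S)

theorem st_tr : St χ T tr := Or.inr good_tr

theorem stA_sound {ih : ℕ → ℕ → ℕ} (h : Ks χ T ih) {r S D : ℕ} (hS : St χ T S) (hD : Gq χ T D) :
    St χ T (stA ih r S (Nat.lor S D)) := by
  have e : stA ih r S (Nat.lor S D) = stB ih r S (Nat.lor S D) (cl (Nat.lor S D)) := rfl
  rw [e]
  unfold stB
  cases hb : Nat.beq (cl (Nat.lor S D)) (nat_lit 0)
  · change St χ T (stC ih r (Nat.lor S D) (cl (Nat.lor S D)))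
    unfold stC
    cases hc : Nat.beq (Nat.land (cl (Nat.lor S D)) (Nat.sub (cl (Nat.lor S D)) (nat_lit 1)))
        (nat_lit 0)
    · exact st_tr
    · refine h _ _ (Or.inr ?_)
      have h0 : cl (Nat.lor S D) ≠ 0 := by
        intro h0
        rw [h0] at hb
        exact Bool.noConfusion hb
      rcases hS with hS | hS
      · subst hS
        have e0 : Nat.lor 0 D = D := Nat.zero_or D
        rw [e0] at h0 ⊢
        rcases hD.2 with hg | hg
        · refine Gd.good ?_
          obtain ⟨i, g1, g2, g3⟩ := hg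
          rw [e0] at hc
          obtain ⟨k, hk⟩ := exists_bit h0
          have hxk : cl D = 2 ^ k := eq_pow_of_testBit hk (Nat.eq_of_beq_eq_true hc)
          rw [cl_testBit, Bool.and_eq_true, Bool.and_eq_true] at hk
          obtain ⟨⟨b1, b2⟩, b3⟩ := hk
          have hr := eM_range b3
          refine ⟨i, g1, g2, ?_⟩
          rw [hxk, res_bit b1 b2, g3]
          have e1 : i ≠ k := by omega
          have e2 : i ≠ k + 4096 := by omega
          simp [e1, e2]
        · exact absurd hg h0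
      · exact good_res hS hD rfl h0 (Nat.eq_of_beq_eq_true hc)
  · change St χ T (sk ih r S (Nat.lor S D))
    unfold sk
    cases hs : Nat.beq S (nat_lit 0)
    · exact h _ _ hS
    · refine h _ _ (Or.inr ⟨?_, Or.inr (Nat.eq_of_beq_eq_true hb)⟩)
      have : S = 0 := Nat.eq_of_beq_eq_true hs
      subst this
      have e0 : Nat.lor 0 D = D := Nat.zero_or D
      rw [e0]
      exact hD.1

theorem fo_sound' {ih : ℕ → ℕ → ℕ} (h : Ks χ T ih) {r S : ℕ} (hS : St χ T S) :
    St χ T (fo ih r S) := by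
  unfold fo
  cases Nat.ble (nat_lit 0) S
  · exact st_tr
  · exact h _ _ hS

/-- The step with an entry is sound. -/
def Js (χ T : ℕ → Bool) (J : (ℕ → ℕ → ℕ) → ℕ → ℕ → ℕ → ℕ → ℕ) : Prop :=
  ∀ ih, Ks χ T ih → ∀ r S p x, St χ T S → St χ T (J ih r S p x)

theorem r1_sound {G : ℕ → ℕ} (hG : Ok χ T G) {J : (ℕ → ℕ → ℕ) → ℕ → ℕ → ℕ → ℕ → ℕ}
    (hJ : Js χ T J) {w n : ℕ} {ih : ℕ → ℕ → ℕ} (h : Ks χ T ih) : Ks χ T (r1 w J n ih) := by
  intro r S hS
  unfold r1
  cases Nat.land r (nat_lit 1) with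
  | zero =>
    change St χ T (ix w J ih (Nat.shiftRight r (nat_lit 1)) S)
    unfold ix
    cases Nat.land (Nat.shiftRight r (nat_lit 1)) (mk w) with
    | zero => exact st_tr
    | succ p => exact hJ ih h _ _ _ _ hS
  | succ q => exact stA_sound h hS (good_inl hG _)

theorem rn_sound {G : ℕ → ℕ} (hG : Ok χ T G) {J : (ℕ → ℕ → ℕ) → ℕ → ℕ → ℕ → ℕ → ℕ}
    (hJ : Js χ T J) {w r S : ℕ} (hS : St χ T S) : St χ T (rn w J r S) := by
  have key : ∀ n, Ks χ T (@Nat.rec (fun _ => Nat → Nat → Nat) lend (r1 w J) n) := by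
    intro n
    induction n with
    | zero => exact fun r S hS => hS
    | succ n ih => exact r1_sound hG hJ ih
  exact key _ _ _ hS

/-- All values are good. -/
def Ga (χ T : ℕ → Bool) (B : ℕ → ℕ) : Prop := ∀ p, Gq χ T (B p)

theorem good_if {B E : ℕ → ℕ} (hB : Ga χ T B) (hE : Ga χ T E) (NB p : ℕ) :
    Gq χ T (@Bool.rec (fun _ => Nat) (B p) (E p) (Nat.ble NB p)) := by
  cases Nat.ble NB p
  · exact hB p
  · exact hE p

theorem jj_sound {G : ℕ → ℕ} (hG : Ok χ T G) {B M E : ℕ → ℕ} (hB : Ga χ T B) (hE : Ga χ T E)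
    (w NB NM k : ℕ) : Js χ T (jj w NB NM B M E k) := by
  induction k with
  | zero =>
    intro ih h r S p x hS
    exact stA_sound h hS (good_if hB hE NB p)
  | succ k ihk =>
    intro ih h r S p x hS
    change St χ T (@Bool.rec (fun _ => Nat) (stA ih (Nat.shiftRight r w) S (Nat.lor S (B p)))
      (j2 w NM M E (jj w NB NM B M E k) ih r S p) (Nat.ble NB p))
    cases Nat.ble NB p
    · exact stA_sound h hS (hB p)
    · change St χ T (@Bool.rec (fun _ => Nat) (stA ih (Nat.shiftRight r w) S (Nat.lor S (E p)))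
        (fo ih (Nat.shiftRight r w) (Nat.lor (rn w (jj w NB NM B M E k) (M p) S) (nat_lit 0)))
        (Nat.ble NM p))
      cases Nat.ble NM p
      · exact stA_sound h hS (hE p)
      · refine fo_sound' h ?_
        rw [lor_zero]
        exact rn_sound hG ihk hS

theorem good_nz {X : ℕ} (h : St χ T X) : Gq χ T (nz X) := by
  unfold nz
  cases hb : Nat.beq X (nat_lit 0)
  · change Gq χ T (Nat.lor X (nat_lit 0))
    rw [lor_zero]
    rcases h with h | h
    · rw [h] at hb
      exact Bool.noConfusion hb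
    · exact h
  · exact good_tr

/-- **Computed clauses.** -/
theorem good_EE {G : ℕ → ℕ} (hG : Ok χ T G) {B M : ℕ → ℕ} (hB : Ga χ T B) (w NB NM K TH f : ℕ) :
    Ga χ T (EE w NB NM K TH B M f) := by
  induction f with
  | zero => exact fun _ => good_tr
  | succ n ih =>
    intro p
    change Gq χ T (@Bool.rec (fun _ => Nat) (EE w NB NM K TH B M n p)
      (nz (rn w (jj w NB NM B M (EE w NB NM K TH B M n) K) (M p) (nat_lit 0))) (Nat.ble (thr TH n) p))
    cases Nat.ble (thr TH n) p
    · exact ih p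
    · exact good_nz (rn_sound hG (jj_sound hG hB ih w NB NM K) (Or.inl rfl))

/-- All clauses are good. -/
def GC (χ T : ℕ → Bool) (C : ℕ → ℕ → ℕ) : Prop := ∀ p x, Gq χ T (C p x)

theorem good_CC' {B E : ℕ → ℕ} (hB : Ga χ T B) (hE : Ga χ T E) (NB : ℕ) : GC χ T (CC NB B E) :=
  fun p _ => good_if hB hE NB p

/-! ### Base clauses -/

theorem Ga.sw {B E : ℕ → ℕ} (hB : Ga χ T B) (hE : Ga χ T E) (n : ℕ) : Ga χ T (sw n B E) := by
  intro p
  unfold B3.sw
  cases Nat.ble n p
  · exact hB p
  · exact hE _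

/-- The imported clauses are true. -/
theorem good_BB {G S : ℕ → ℕ} (hG : Ok χ T G) {m : ℕ} (hS : ∀ i < m, Cl χ T (S i))
    (tg tc tz ti n1 n2 n3 : ℕ) : Ga χ T (BB G S m tg tc tz ti n1 n2 n3) := by
  have hi : Ga χ T (tI S m ti) := by
    intro i
    change Gq χ T (fx (@Bool.rec (fun _ => Nat) tr (S (aT ti i)) (Nat.ble (Nat.succ (aT ti i)) m)))
    apply good_fx
    cases hb : Nat.ble (Nat.succ (aT ti i)) m
    · exact CL_tr
    · exact CL_of_Cl (hS _ (Nat.le_of_ble_eq_true hb))
  exact Ga.sw (fun i => good_fx (gm_CL hG.gp _)) (Ga.sw (fun i => good_fx (cm_CL hG.cc _))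
    (Ga.sw (fun i => good_fx (CL_of_Cl (hG.g _))) hi n3) n2) n1

/-! ### Forward steps -/

/-- All literals are false. -/
def Fz (χ T : ℕ → Bool) (U : ℕ) : Prop := FA χ T W0 U

theorem subset_of {a b : ℕ} (h : Nat.xor (Nat.lor b a) b = 0) {i : ℕ} (hi : a.testBit i = true) :
    b.testBit i = true := by
  by_contra hc
  rw [Bool.not_eq_true] at hc
  have h3 : (Nat.xor (Nat.lor b a) b).testBit i = true := by
    change ((b ||| a) ^^^ b).testBit i = true
    rw [Nat.testBit_xor, Nat.testBit_or, hi, hc]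
    rfl
  rw [h] at h3
  simp at h3

theorem ng_range {X i : ℕ} (h : (B3.ng X).testBit i = true) : (i < 16384 ∧
    ((4096 ≤ i ∧ X.testBit (i - 4096) = true ∧ eM.testBit (i - 4096) = true) ∨
      (X.testBit (i + 4096) = true ∧ eM.testBit i = true))) := by
  rw [ng_eq] at h
  rcases Pool.Agent.H13.Z12.ng_testBit _ _ h with ⟨h1, h2, h3⟩ | ⟨h2, h3⟩
  · have := eM_range h3
    exact ⟨by omega, Or.inl ⟨h1, h2, h3⟩⟩
  · have := eM_range h3
    exact ⟨by omega, Or.inr ⟨h2, h3⟩⟩

theorem addU_false {N : ℕ} (h : CL χ T W0 N) : Fz χ T (addU N) := by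
  unfold addU
  cases hb : Nat.beq (Nat.land N (Nat.sub N (nat_lit 1))) (nat_lit 0)
  · intro i _ hi
    have : (0 : ℕ).testBit i = true := hi
    simp at this
  · obtain ⟨k, k1, k2, k3⟩ := h
    have hN : N = 2 ^ k := eq_pow_of_testBit k2 (Nat.eq_of_beq_eq_true hb)
    intro i hb' hi
    have hi' : (B3.ng N).testBit i = true := hi
    obtain ⟨g1, g2⟩ := ng_range hi'
    refine Or.inl ⟨g1, ?_⟩
    rcases g2 with ⟨g3, g4, g5⟩ | ⟨g4, g5⟩
    · rw [hN, Nat.testBit_two_pow, decide_eq_true_iff] at g4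
      have hr := eM_range g5
      have hl : lit χ T k := by
        by_contra hc
        exact k3 (Or.inl ⟨by omega, hc⟩)
      have hx : k ^^^ 4096 = i := by
        rw [xor4096 (by omega), if_pos (by omega)]
        omega
      rw [← hx]
      exact neg_lit hl
    · rw [hN, Nat.testBit_two_pow, decide_eq_true_iff] at g4
      have hr := eM_range g5
      have hl : lit χ T k := by
        by_contra hc
        exact k3 (Or.inl ⟨by omega, hc⟩)
      have hx : k ^^^ 4096 = i := by
        rw [xor4096 (by omega), if_neg (by omega)]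
        omega
      rw [← hx]
      exact neg_lit hl

/-- The continuation with the false literals is sound. -/
def Us (χ T : ℕ → Bool) (k : ℕ → Bool) (ih : ℕ → ℕ → Bool) : Prop :=
  ∀ r U, Fz χ T U → ih r U = true → ∃ V, Fz χ T V ∧ k V = true

theorem sN_sound {k : ℕ → Bool} {ih : ℕ → ℕ → Bool} (h : Us χ T k ih) {r U D : ℕ} (hU : Fz χ T U)
    (hD : CL χ T W0 D) (h1 : sN ih r U D = true) : ∃ V, Fz χ T V ∧ k V = true := by
  have h2 : (@Bool.rec (fun _ => Bool) (ih r (Nat.lor U (addU (Nat.xor (Nat.lor U D) U)))) true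
    (Nat.beq (Nat.xor (Nat.lor U D) U) (nat_lit 0)) : Bool) = true := h1
  obtain ⟨i, i1, i2, i3⟩ := hD
  cases hb : Nat.beq (Nat.xor (Nat.lor U D) U) (nat_lit 0)
  · rw [hb] at h2
    refine h _ _ (FA_or hU (addU_false ⟨i, i1, ?_, i3⟩)) h2
    have hUi : U.testBit i = false := by
      by_contra hc
      rw [Bool.not_eq_false] at hc
      exact i3 (hU i i1 hc)
    change ((U ||| D) ^^^ U).testBit i = true
    rw [Nat.testBit_xor, Nat.testBit_or, i2, hUi]
    rfl
  · exact absurd (hU i i1 (subset_of (Nat.eq_of_beq_eq_true hb) i2)) i3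

theorem s1_sound {G : ℕ → ℕ} (hG : Ok χ T G) {C : ℕ → ℕ → ℕ} (hC : GC χ T C) {w n : ℕ}
    {k : ℕ → Bool} {ih : ℕ → ℕ → Bool} (h : Us χ T k ih) : Us χ T k (s1 w C n ih) := by
  intro r U hU h1
  have h2 : (@Nat.rec (fun _ => Bool) (sI w C ih (Nat.shiftRight r (nat_lit 1)) U)
    (fun _ _ => sL ih (Nat.shiftRight r (nat_lit 1)) U) (Nat.land r (nat_lit 1)) : Bool) = true := h1
  revert h2
  cases Nat.land r (nat_lit 1) with
  | zero =>
    intro h2
    have h3 : sN ih (Nat.shiftRight (Nat.shiftRight r (nat_lit 1)) w) U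
      (@Nat.rec (fun _ => Nat) tr C (Nat.land (Nat.shiftRight r (nat_lit 1)) (mk w))) = true := h2
    refine sN_sound h hU ?_ h3
    cases Nat.land (Nat.shiftRight r (nat_lit 1)) (mk w) with
    | zero => exact CL_tr
    | succ p => exact (hC p _).1
  | succ q =>
    intro h2
    exact sN_sound h hU (good_inl hG _).1 h2

/-- **Forward steps.** -/
theorem sn_sound {G : ℕ → ℕ} (hG : Ok χ T G) {C : ℕ → ℕ → ℕ} (hC : GC χ T C) {w r U : ℕ}
    {k : ℕ → Bool} (hU : Fz χ T U) (h : sn w C k r U = true) : ∃ V, Fz χ T V ∧ k V = true := by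
  have key : ∀ n, Us χ T k (@Nat.rec (fun _ => Nat → Nat → Bool) (sE k) (s1 w C) n) := by
    intro n
    induction n with
    | zero => exact fun r U hU h => ⟨U, hU, h⟩
    | succ n ih => exact s1_sound hG hC ih
  exact key _ _ _ hU h

theorem Fz_of_Fa {U : ℕ} (h : Fa χ T U) (hl : Lo U) : Fz χ T U := FA_of_Fa h hl

/-- **Many pieces.** -/
theorem mu_sound {H : (ℕ → Bool) → (ℕ → Bool) → Prop} {C : ℕ → ℕ → ℕ} {w : ℕ} {P Hf : ℕ → ℕ}
    {n : ℕ} (hC : ∀ χ T : ℕ → Bool, H χ T → ∃ G, Ok χ T G ∧ GC χ T C)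
    (h : mu w C P Hf n = true) : ∀ i < n, ∀ χ T : ℕ → Bool, H χ T →
      Fa χ T (Hf i) → Lo (Hf i) → False := by
  induction n with
  | zero => intro i hi; exact absurd hi (Nat.not_lt_zero i)
  | succ n ih =>
    obtain ⟨h1, h2⟩ := bnd_true h
    intro i hi
    rcases Nat.lt_or_ge i n with h3 | h3
    · exact ih h2 i h3
    · have e : i = n := by omega
      rw [e]
      intro χ T hM hF hlo
      obtain ⟨G, hG, hC'⟩ := hC χ T hM
      obtain ⟨V, _, hV⟩ := sn_sound hG hC' (Fz_of_Fa hF hlo) h1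
      exact Bool.noConfusion hV

/-! ### One piece in several blocks -/

theorem Lo_lt' {U : ℕ} (hU : Nat.ble (Nat.succ U) (Nat.pow (nat_lit 2) (nat_lit 16384)) = true) : Lo U := by
  intro i hi
  by_contra hc
  have h1 : U < 2 ^ 16384 := Nat.le_of_ble_eq_true hU
  have : U.testBit i = false := Nat.testBit_lt_two_pow (lt_of_lt_of_le h1
    (Nat.pow_le_pow_right (by norm_num) (by omega)))
  rw [this] at hi
  exact Bool.noConfusion hi

theorem imc_sound {U D L : ℕ} (hU : Fz χ T U) (hD : CL χ T W0 D) (hL : Lo L)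
    (h : imc U D L = true) : Cl χ T L := by
  have h1 : D ||| (L ||| U) = L ||| U := Nat.eq_of_beq_eq_true h
  obtain ⟨i, i1, i2, i3⟩ := hD
  have h2 : (L ||| U).testBit i = true := by
    rw [← h1, Nat.testBit_or, i2, Bool.true_or]
  rw [Nat.testBit_or, Bool.or_eq_true] at h2
  rcases h2 with h2 | h2
  · refine ⟨i, h2, ?_⟩
    by_contra hc
    exact i3 (Or.inl ⟨hL i h2, hc⟩)
  · exact absurd (hU i i1 h2) i3

/-- **The last block**. -/
theorem last_sound {G S : ℕ → ℕ} (hG : Ok χ T G) {C : ℕ → ℕ → ℕ} (hC : GC χ T C) {w U r m : ℕ}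
    (s : St2 χ T U S m) (h : ckb w C cF U r = true) : False := by
  obtain ⟨h1, h2⟩ := bnd_true h
  obtain ⟨V, _, hV⟩ := sn_sound hG hC (Fz_of_Fa s.1 (Lo_lt' h1)) h2
  exact Bool.noConfusion hV

/-- **A block**. -/
theorem block_sound {G S : ℕ → ℕ} (hG : Ok χ T G) {C : ℕ → ℕ → ℕ} (hC : GC χ T C)
    (hS : ∀ i, Lo (S i)) {w U V r m ex ne : ℕ} (s : St2 χ T U S m)
    (h : ckb w C (fin S C V m ex ne) U r = true) : St2 χ T V S (Nat.add m ne) := by
  obtain ⟨h1, h2⟩ := bnd_true h
  obtain ⟨U', hU', hF⟩ := sn_sound hG hC (Fz_of_Fa s.1 (Lo_lt' h1)) h2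
  obtain ⟨h3, h4⟩ := bnd_true hF
  have h5 : V ||| U' = U' := Nat.eq_of_beq_eq_true h3
  have key : ∀ n, (@Nat.rec (fun _ => Bool) true (ex1 S C m ex U') n : Bool) = true →
      ∀ i < n, Cl χ T (S (m + i)) := by
    intro n
    induction n with
    | zero => intro _ i hi; exact absurd hi (Nat.not_lt_zero i)
    | succ n ih =>
      intro hn i hi
      obtain ⟨h6, h7⟩ := bnd_true hn
      rcases Nat.lt_or_ge i n with h8 | h8
      · exact ih h7 i h8
      · have e : i = n := by omega
        rw [e]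
        exact imc_sound hU' (hC _ _).1 (hS _) h6
  refine ⟨?_, ?_⟩
  · intro i hi
    refine Fa_of_FA hU' i ?_
    rw [← h5, Nat.testBit_or, hi, Bool.true_or]
  · intro i hi
    have hi' : i < m + ne := hi
    rcases Nat.lt_or_ge i m with h8 | h8
    · exact s.2 i h8
    · have e : i = m + (i - m) := by omega
      rw [e]
      exact key ne h4 _ (by omega)

end Pool.Agent.H13.Z12.B6
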