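import Mathlib
import Pool.Agent.H13.Z12.Sound6
import Pool.Agent.H13.Z12.Glue4
import Pool.Agent.H32.Z12.MG

/-!
Blocks of many pieces and chains of blocks of the sixth checker (MP_1e71f9_co).
-/

set_option autoImplicit false

namespace Pool.Agent.H13.Z12.B6

open Pool.Agent.H77.Z12 Pool.Agent.H64.Z12 Pool.Agent.H28.Z12 Pool.Agent.H28.Z12.Cov
open Pool.Agent.H13.Z12 (Cl Fa)
open Pool.Agent.H13.Z12.B3 (Ok St2)
open Pool.Agent.H32.Z12 (fE fZ fP eT Z29 V29 CU0 det36 det36_sound uU uZ)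

variable {χ T : ℕ → Bool}

/-- Base clauses and all clauses of a block are good. -/
def OC (χ T : ℕ → Bool) (C : ℕ → ℕ → ℕ) : Prop := ∃ G, Ok χ T G ∧ GC χ T C

/-- **All clauses of a block**. -/
theorem good_CC {G S M : ℕ → ℕ} (hG : Ok χ T G) {w NB NM K TH f m tg tc tz ti n1 n2 n3 : ℕ}
    (hS : ∀ i < m, Cl χ T (S i)) :
    OC χ T (CC NB (BB G S m tg tc tz ti n1 n2 n3)
      (EE w NB NM K TH (BB G S m tg tc tz ti n1 n2 n3) M f)) :=
  ⟨G, hG, good_CC' (good_BB hG hS _ _ _ _ _ _ _) (good_EE hG (good_BB hG hS _ _ _ _ _ _ _) _ _ _ _ _ _) _⟩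

/-- All clauses of a block without imported clauses. -/
theorem good_C0 {G S M : ℕ → ℕ} (hG : Ok χ T G) {w NB NM K TH f tg tc tz ti n1 n2 n3 : ℕ} :
    OC χ T (CC NB (BB G S (nat_lit 0) tg tc tz ti n1 n2 n3)
      (EE w NB NM K TH (BB G S (nat_lit 0) tg tc tz ti n1 n2 n3) M f)) :=
  good_CC hG fun i hi => absurd hi (Nat.not_lt_zero i)

/-- **Patterns**, for a class of models. -/
theorem multiP_sound {H : (ℕ → Bool) → (ℕ → Bool) → Prop} {R : ℕ → ℕ} {C' : ℕ → ℕ → ℕ}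
    {w C P n : ℕ} {E : List (ℕ × Bool)}
    (hL : ∀ χ T : ℕ → Bool, H χ T → Simp χ 63 4095 → OC χ T C')
    (hE : (E.all fun p => decide (p.1 < 4096)) = true)
    (hC : 2 ^ (4096 + 63) ||| chartU ||| mkE E = C) (hl : C < 2 ^ 16384)
    (hd : det36 P n = true) (h : mu w C' R (fP C P) n = true) :
    ∀ i < n, ∀ χ T : ℕ → Bool, H χ T → χ 63 = true → Simp χ 63 4095 →
      SatC χ (ngM P i) (ngV P i) → (∀ p ∈ E, χ p.1 = p.2) → False := by
  intro i hi χ T hM h63 hS hs hE'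
  exact mu_sound (H := fun χ T => H χ T ∧ Simp χ 63 4095) (fun χ T h => hL χ T h.1 h.2)
    h i hi χ T ⟨hM, hS⟩
    (H32.Z12.fa_uU (H32.Z12.fa_cu hE hC h63 hS hE') (hs.2 (det36_sound hd i hi)) hs.1)
    (H32.Z12.Lo_uU (H32.Z12.Lo_lt hl))

/-- **Patterns with a mask of the signs of the frame for each piece**, for a class of models. -/
theorem multiE_sound {H : (ℕ → Bool) → (ℕ → Bool) → Prop} {R : ℕ → ℕ} {C' : ℕ → ℕ → ℕ}
    {w P EM n : ℕ} (hL : ∀ χ T : ℕ → Bool, H χ T → Simp χ 63 4095 → OC χ T C')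
    (hd : det36 P n = true) (h : mu w C' R (fE CU0 P EM) n = true) :
    ∀ i < n, ∀ χ T : ℕ → Bool, H χ T → χ 63 = true → Simp χ 63 4095 →
      SatC χ (ngM P i) (ngV P i) → (∀ p ∈ zL Z29 (eT EM i) V29, χ p.1 = p.2) → False := by
  intro i hi χ T hM h63 hS hs hE'
  have hC : Fa χ T CU0 := H32.Z12.fa_cu (E := []) (by decide) H32.Z12.cu0_ok h63 hS
    fun p hp => absurd hp List.not_mem_nil
  have hZ : Fa χ T (uZ CU0 Z29 (eT EM i) V29) := H32.Z12.fa_uZ hC fun j hj hz =>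
    hE' (zv Z29 j, V29.testBit j) (List.mem_map.2 ⟨j, List.mem_filter.2 ⟨List.mem_range.2 hj, hz⟩, rfl⟩)
  exact mu_sound (H := fun χ T => H χ T ∧ Simp χ 63 4095) (fun χ T h => hL χ T h.1 h.2)
    h i hi χ T ⟨hM, hS⟩
    (H32.Z12.fa_uU hZ (hs.2 (det36_sound hd i hi)) hs.1)
    (H32.Z12.Lo_uU (H32.Z12.Lo_uZ (H32.Z12.Lo_lt H32.Z12.cu0_lt)))

/-- Relaxed models, own mask of signs. -/
theorem multiE_rrefX {R : ℕ → ℕ} {C' : ℕ → ℕ → ℕ} {w P EM n X : ℕ}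
    (hL : ∀ χ T : ℕ → Bool, RModel χ T → Simp χ 63 4095 → OC χ T C')
    (hd : det36 P n = true) (h : mu w C' R (fE CU0 P EM) n = true) :
    ∀ i < n, RRefX (ngM P i) (ngV P i) (zL Z29 (eT EM i) V29) X 0 :=
  fun i hi χ T hM h63 hS hs hE' _ => multiE_sound hL hd h i hi χ T hM h63 hS hs hE'

/-- Unrelaxed models, own mask of signs. -/
theorem multiE_refX {R : ℕ → ℕ} {C' : ℕ → ℕ → ℕ} {w P EM n X : ℕ}
    (hL : ∀ χ T : ℕ → Bool, Model χ T → Simp χ 63 4095 → OC χ T C')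
    (hd : det36 P n = true) (h : mu w C' R (fE CU0 P EM) n = true) :
    ∀ i < n, RefX (ngM P i) (ngV P i) (zL Z29 (eT EM i) V29) X 0 :=
  fun i hi χ T hM h63 hS hs hE' _ => multiE_sound hL hd h i hi χ T hM h63 hS hs hE'

/-- Models with the parameter `D`, own mask of signs. -/
theorem multiE_xrefX {R : ℕ → ℕ} {C' : ℕ → ℕ → ℕ} {w D P EM n X : ℕ}
    (hL : ∀ χ T : ℕ → Bool, Pool.Agent.H28.Z12.X.XModel D χ T → Simp χ 63 4095 → OC χ T C')
    (hd : det36 P n = true) (h : mu w C' R (fE CU0 P EM) n = true) :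
    ∀ i < n, XRefX D (ngM P i) (ngV P i) (zL Z29 (eT EM i) V29) X 0 :=
  fun i hi χ T hM h63 hS hs hE' _ => multiE_sound hL hd h i hi χ T hM h63 hS hs hE'

/-- **Further signs**, for a class of models. -/
theorem multiZ_sound {H : (ℕ → Bool) → (ℕ → Bool) → Prop} {R : ℕ → ℕ} {C' : ℕ → ℕ → ℕ}
    {v m w K C Z P n : ℕ} {E : List (ℕ × Bool)}
    (hL : ∀ χ T : ℕ → Bool, H χ T → Simp χ 63 4095 → OC χ T C')
    (hE : (E.all fun p => decide (p.1 < 4096)) = true)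
    (hK : 2 ^ (4096 + 63) ||| chartU ||| mkE E = K) (hl : K < 2 ^ 16384)
    (hm : m.testBit 36 = true) (hC : uU K m w = C) (h : mu v C' R (fZ C Z P) n = true) :
    ∀ i < n, ∀ χ T : ℕ → Bool, H χ T → χ 63 = true → Simp χ 63 4095 → SatC χ m w →
      (∀ p ∈ zL Z (ngM P i) (ngV P i) ++ E, χ p.1 = p.2) → False := by
  intro i hi χ T hM h63 hS hs hE'
  have hCF : Fa χ T C := by
    rw [← hC]
    exact H32.Z12.fa_uU (H32.Z12.fa_cu hE hK h63 hS fun p hp => hE' p (List.mem_append_right _ hp))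
      (hs.2 hm) hs.1
  have hCL : Pool.Agent.H13.Z12.B2.Lo C := by
    rw [← hC]
    exact H32.Z12.Lo_uU (H32.Z12.Lo_lt hl)
  refine mu_sound (H := fun χ T => H χ T ∧ Simp χ 63 4095) (fun χ T h => hL χ T h.1 h.2)
    h i hi χ T ⟨hM, hS⟩ (H32.Z12.fa_uZ hCF ?_) (H32.Z12.Lo_uZ hCL)
  intro j hj hz
  refine hE' (zv Z j, (ngV P i).testBit j) (List.mem_append_left _ ?_)
  exact List.mem_map.2 ⟨j, List.mem_filter.2 ⟨List.mem_range.2 hj, hz⟩, rfl⟩

/-- Further signs, relaxed models. -/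
theorem multiZ_rrefX {R : ℕ → ℕ} {C' : ℕ → ℕ → ℕ} {v m w K C Z P n X : ℕ} {E : List (ℕ × Bool)}
    (hL : ∀ χ T : ℕ → Bool, RModel χ T → Simp χ 63 4095 → OC χ T C')
    (hE : (E.all fun p => decide (p.1 < 4096)) = true)
    (hK : 2 ^ (4096 + 63) ||| chartU ||| mkE E = K) (hl : K < 2 ^ 16384)
    (hm : m.testBit 36 = true) (hC : uU K m w = C) (h : mu v C' R (fZ C Z P) n = true) :
    ∀ i < n, RRefX m w (zL Z (ngM P i) (ngV P i) ++ E) X 0 :=
  fun i hi χ T hM h63 hS hs hE' _ =>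
    multiZ_sound hL hE hK hl hm hC h i hi χ T hM h63 hS hs hE'

/-- Further signs, models with the parameter `D`. -/
theorem multiZ_xrefX {R : ℕ → ℕ} {C' : ℕ → ℕ → ℕ} {v D m w K C Z P n X : ℕ}
    {E : List (ℕ × Bool)} (hL : ∀ χ T : ℕ → Bool, Pool.Agent.H28.Z12.X.XModel D χ T →
      Simp χ 63 4095 → OC χ T C') (hE : (E.all fun p => decide (p.1 < 4096)) = true)
    (hK : 2 ^ (4096 + 63) ||| chartU ||| mkE E = K) (hl : K < 2 ^ 16384)
    (hm : m.testBit 36 = true) (hC : uU K m w = C) (h : mu v C' R (fZ C Z P) n = true) :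
    ∀ i < n, XRefX D m w (zL Z (ngM P i) (ngV P i) ++ E) X 0 :=
  fun i hi χ T hM h63 hS hs hE' _ =>
    multiZ_sound hL hE hK hl hm hC h i hi χ T hM h63 hS hs hE'

/-! ### Chains of blocks -/

/-- A block. -/
theorem blk {LR : ℕ → ℕ} {C : ℕ → ℕ → ℕ} (hC : OC χ T C) {w U V r m ex ne : ℕ}
    (s : St2 χ T U (fun i => B3.lm1 (LR i)) m)
    (h : ckb w C (fin (fun i => B3.lm1 (LR i)) C V m ex ne) U r = true) :
    St2 χ T V (fun i => B3.lm1 (LR i)) (Nat.add m ne) := by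
  obtain ⟨G, hG, hC'⟩ := hC
  exact block_sound hG hC' (fun _ => B3.Lo_lm1 _) s h

/-- The last block. -/
theorem last {S : ℕ → ℕ} {C : ℕ → ℕ → ℕ} (hC : OC χ T C) {w U r m : ℕ} (s : St2 χ T U S m)
    (h : ckb w C cF U r = true) : False := by
  obtain ⟨G, hG, hC'⟩ := hC
  exact last_sound hG hC' s h

end Pool.Agent.H13.Z12.B6
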