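import Mathlib
import Pool.Agent.H13.Z12.Sound6
import Pool.Agent.H13.Z12.Defs7
import Pool.Agent.H17.Z12.GenPS
import Pool.Agent.H17.Z12.GenOS

/-!
Soundness of the seventh checker (MP_1e71f9_co), apart from the codes of the circuits.
-/

set_option autoImplicit false
set_option maxRecDepth 10000

namespace Pool.Agent.H13.Z12.B7

open Pool.Agent.H13.Z12 (lit Cl Fa Cl_zero eM_testBit eq_pow_of_testBit)
open Pool.Agent.H13.Z12.B3 (tr Ok CL FA fal CL_tr CL_of_Cl FA_or lit_lt not_fal_of_lit gpc_CL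
  lor_testBit shl_testBit exists_bit sw addU trc lr Lo St2 Fa_of_FA t1 t2 gq gpc eM)
open Pool.Agent.H13.Z12.B6 (W0 Gd Cs Gq good_tr good_fx lor_zero cl cl_testBit St Ks st_tr
  Js Ga good_nz GC Ga.sw Fz sN_sound Us Fz_of_Fa fx nz mk cF sN sE lend good_res tb5 imc imc_sound ex1
  Lo_lt' tI subset_of)
open Pool.Agent.H32.Z12 (bnd bnd_true aT)

variable {χ T : ℕ → Bool}

/-- Vertex mask: if a literal of a cell is true, then one of the literals of `R` is true. -/
def VG (χ T : ℕ → Bool) (V : ℕ) : Prop :=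
  ∀ i, 8192 ≤ i → i < 16384 → V.testBit i = true → lit χ T i →
    ∃ j, j < 8192 ∧ V.testBit j = true ∧ lit χ T j

/-- All base clauses are true, also the circuit clauses. -/
structure Ok7 (χ T : ℕ → Bool) (G : ℕ → ℕ) : Prop where
  ok : Ok χ T G
  kc : ∀ A t, t < 4096 → Cl χ T (Pool.Agent.H28.Z12.genKC A t)
  go : ∀ C Z t e, t < 4096 → e < 2 → Cl χ T (Pool.Agent.H28.Z12.genO C Z t e)

theorem cs_fx (D : ℕ) : Cs (fx D) := by
  unfold B6.fx
  cases hb : Nat.beq (cl D) (nat_lit 0)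
  · exact good_tr (χ := fun _ => true) (T := fun _ => true) |>.2
  · change Cs (Nat.lor D (nat_lit 0))
    rw [lor_zero]
    exact Or.inr (Nat.eq_of_beq_eq_true hb)

/-! ### Steps -/

theorem mul_pow_aux (k n : ℕ) : 2 ^ k * (1 + 2 ^ n) = (2 ^ k ||| (2 ^ k) <<< n) ∨ n = 0 := by
  rcases Nat.eq_zero_or_pos n with h | h
  · exact Or.inr h
  · left
    have h1 : (2 : ℕ) ^ k < 2 ^ (k + n) := Nat.pow_lt_pow_right (by norm_num) (by omega)
    have h2 := Nat.two_pow_add_eq_or_of_lt h1 1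
    rw [mul_one] at h2
    rw [Nat.shiftLeft_eq, ← pow_add, Nat.or_comm, ← h2, mul_add, mul_one, ← pow_add, Nat.add_comm]

theorem mul_mm {x : ℕ} (h : Nat.land x (Nat.sub x (nat_lit 1)) = 0) :
    Nat.mul x mm = Nat.lor x (Nat.shiftLeft x (nat_lit 4096)) := by
  by_cases h0 : x = 0
  · rw [h0]
    decide +kernel
  · obtain ⟨k, hk⟩ := exists_bit h0
    have hx : x = 2 ^ k := eq_pow_of_testBit hk h
    rw [hx]
    rcases mul_pow_aux k (nat_lit 4096) with h1 | h1
    · exact h1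
    · exact absurd h1 (by norm_num)

theorem res_zero (X : ℕ) : Nat.xor X (Nat.lor 0 (Nat.shiftLeft 0 (nat_lit 4096))) = X := by
  have : Nat.lor 0 (Nat.shiftLeft 0 (nat_lit 4096)) = 0 := by decide +kernel
  rw [this]
  exact Nat.xor_zero _

theorem cs_res {S D x : ℕ} (hS : Cs S) (hD : Cs D) (hx : x = cl (Nat.lor S D))
    (h1 : Nat.land x (Nat.sub x (nat_lit 1)) = 0) :
    Cs (Nat.xor (Nat.lor S D) (Nat.lor x (Nat.shiftLeft x (nat_lit 4096)))) := by
  by_cases h0 : x = 0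
  · rw [h0, res_zero]
    exact Or.inr (hx.symm.trans h0)
  · obtain ⟨k, hk⟩ := exists_bit h0
    have hxk : x = 2 ^ k := eq_pow_of_testBit hk h1
    have hb := hk
    rw [hx, cl_testBit, Bool.and_eq_true, Bool.and_eq_true] at hb
    obtain ⟨⟨b1, b2⟩, b3⟩ := hb
    have hr := B6.eM_range b3
    have hbit : ∀ i, (Nat.xor (Nat.lor S D) (Nat.lor x (Nat.shiftLeft x (nat_lit 4096)))).testBit i =
        ((Nat.lor S D).testBit i && decide (i ≠ k) && decide (i ≠ k + 4096)) := by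
      intro i
      rw [hxk]
      exact B6.res_bit b1 b2 i
    by_cases hg : Gd S ∨ Gd D
    · have : ∃ i, 24576 ≤ i ∧ i < 28673 ∧ (Nat.lor S D).testBit i = true := by
        rcases hg with ⟨i, g1, g2, g3⟩ | ⟨i, g1, g2, g3⟩
        · exact ⟨i, g1, g2, by rw [lor_testBit, g3, Bool.true_or]⟩
        · exact ⟨i, g1, g2, by rw [lor_testBit, g3, Bool.or_true]⟩
      obtain ⟨i, g1, g2, g3⟩ := this
      refine Or.inl ⟨i, g1, g2, ?_⟩
      rw [hbit, g3]
      have e1 : i ≠ k := by omega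
      have e2 : i ≠ k + 4096 := by omega
      simp [e1, e2]
    · refine Or.inr ?_
      by_contra hc
      obtain ⟨i, hi⟩ := exists_bit hc
      rw [cl_testBit, Bool.and_eq_true, Bool.and_eq_true, hbit, hbit] at hi
      obtain ⟨⟨q1, q2⟩, q3⟩ := hi
      simp only [Bool.and_eq_true, decide_eq_true_iff] at q1 q2
      have : (cl (Nat.lor S D)).testBit i = true := by
        rw [cl_testBit, q1.1.1, q2.1.1, q3]
        rfl
      rw [← hx, hxk, Nat.testBit_two_pow, decide_eq_true_iff] at this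
      exact q1.1.2 this.symm

theorem CL_left {S D : ℕ} (h : CL χ T W0 S) : CL χ T W0 (Nat.lor S D) := by
  obtain ⟨i, i1, i2, i3⟩ := h
  exact ⟨i, i1, by rw [lor_testBit, i2, Bool.true_or], i3⟩

theorem CL_right {S D : ℕ} (h : CL χ T W0 D) : CL χ T W0 (Nat.lor S D) := by
  obtain ⟨i, i1, i2, i3⟩ := h
  exact ⟨i, i1, by rw [lor_testBit, i2, Bool.or_true], i3⟩

theorem CL_or {S D : ℕ} (h : CL χ T W0 (Nat.lor S D)) : CL χ T W0 S ∨ CL χ T W0 D := by
  obtain ⟨i, i1, i2, i3⟩ := h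
  rw [lor_testBit, Bool.or_eq_true] at i2
  rcases i2 with i2 | i2
  · exact Or.inl ⟨i, i1, i2, i3⟩
  · exact Or.inr ⟨i, i1, i2, i3⟩

theorem CL_res {S D x : ℕ} (hS : Gq χ T S) (hD : Gq χ T D) (hx : x = cl (Nat.lor S D))
    (h1 : Nat.land x (Nat.sub x (nat_lit 1)) = 0) :
    CL χ T W0 (Nat.xor (Nat.lor S D) (Nat.lor x (Nat.shiftLeft x (nat_lit 4096)))) := by
  by_cases h0 : x = 0
  · rw [h0, res_zero]
    exact CL_left hS.1
  · exact (good_res hS hD hx h0 h1).1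

theorem stA_sound {ih : ℕ → ℕ → ℕ} (h : Ks χ T ih) {r S D : ℕ} (hS : St χ T S) (hD : Gq χ T D) :
    St χ T (stA ih r (Nat.lor S D)) := by
  have e : stA ih r (Nat.lor S D) = stC ih r (Nat.lor S D) (cl (Nat.lor S D)) := rfl
  rw [e]
  unfold stC
  cases hc : Nat.beq (Nat.land (cl (Nat.lor S D)) (Nat.sub (cl (Nat.lor S D)) (nat_lit 1)))
      (nat_lit 0)
  · exact st_tr
  · have hc' := Nat.eq_of_beq_eq_true hc
    refine h _ _ (Or.inr ?_)
    rw [mul_mm hc']
    rcases hS with hS | hS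
    · subst hS
      have e0 : Nat.lor 0 D = D := Nat.zero_or D
      have hcs : Cs 0 := Or.inr (by decide +kernel)
      refine ⟨?_, cs_res hcs hD.2 rfl hc'⟩
      rw [e0] at hc' ⊢
      by_cases h0 : cl D = 0
      · rw [h0, res_zero]
        exact hD.1
      · rcases hD.2 with hg | hg
        · obtain ⟨i, g1, g2, g3⟩ := hg
          obtain ⟨k, hk⟩ := exists_bit h0
          have hxk : cl D = 2 ^ k := eq_pow_of_testBit hk hc'
          rw [cl_testBit, Bool.and_eq_true, Bool.and_eq_true] at hk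
          obtain ⟨⟨b1, b2⟩, b3⟩ := hk
          have hr := B6.eM_range b3
          refine (Gd.CL ⟨i, g1, g2, ?_⟩)
          rw [hxk, B6.res_bit b1 b2, g3]
          have e1 : i ≠ k := by omega
          have e2 : i ≠ k + 4096 := by omega
          simp [e1, e2]
        · exact absurd hg h0
    · exact ⟨CL_res hS hD rfl hc', cs_res hS.2 hD.2 rfl hc'⟩

theorem stW_sound {ih : ℕ → ℕ → ℕ} (h : Ks χ T ih) {r S S' : ℕ} (hS : St χ T S)
    (hc : CL χ T W0 S → CL χ T W0 S') : St χ T (stW ih r S S') := by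
  unfold stW
  cases hb : Nat.beq (Nat.lor (cl S') (Nat.sub (nat_lit 1) S)) (nat_lit 0)
  · exact st_tr
  · have h1 : cl S' ||| (1 - S) = 0 := Nat.eq_of_beq_eq_true hb
    obtain ⟨h2, h3⟩ := Nat.or_eq_zero_iff.1 h1
    have hS0 : S ≠ 0 := by
      intro h0
      rw [h0] at h3
      exact absurd h3 (by norm_num)
    exact h _ _ (Or.inr ⟨hc (hS.resolve_left hS0).1, Or.inr h2⟩)

theorem mask_testBit (a b i : ℕ) : (Nat.shiftLeft (Nat.sub (Nat.pow (nat_lit 2) a) (nat_lit 1)) b).testBit i =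
    (decide (b ≤ i) && decide (i < b + a)) := by
  change ((2 ^ a - 1) <<< b).testBit i = _
  rw [Nat.testBit_shiftLeft, Nat.testBit_two_pow_sub_one]
  by_cases h : b ≤ i
  · have : (i - b < a) = (i < b + a) := by
      apply propext
      omega
    simp [h, this]
  · have : ¬ i ≥ b := h
    simp [h]

theorem MT_testBit (i : ℕ) : MT.testBit i = (decide (8192 ≤ i) && decide (i < 16384)) := by
  unfold MT
  rw [mask_testBit]

theorem mask0_testBit (a i : ℕ) : (Nat.sub (Nat.pow (nat_lit 2) a) (nat_lit 1)).testBit i =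
    decide (i < a) := by
  change (2 ^ a - 1).testBit i = _
  rw [Nat.testBit_two_pow_sub_one]

theorem MP_testBit (i : ℕ) : MP.testBit i = decide (i < 32768) := by
  unfold MP
  rw [mask0_testBit]

/-- **Vertex step.** -/
theorem vert_CL {S V : ℕ} (hV : VG χ T V) (h : CL χ T W0 S ∨ CL χ T W0 (Nat.land V MT)) :
    CL χ T W0 (Nat.xor (Nat.lor S V) (Nat.land V MT)) := by
  have hb : ∀ j, (Nat.xor (Nat.lor S V) (Nat.land V MT)).testBit j =
      (((S.testBit j || V.testBit j)) ^^ (V.testBit j && MT.testBit j)) := by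
    intro j
    change ((S ||| V) ^^^ (V &&& MT)).testBit j = _
    rw [Nat.testBit_xor, Nat.testBit_or, Nat.testBit_and]
  have key : ∀ i, i < 28673 → V.testBit i = true → MT.testBit i = true → ¬ fal χ T W0 i →
      CL χ T W0 (Nat.xor (Nat.lor S V) (Nat.land V MT)) := by
    intro i i1 m1 m2' i3
    rw [MT_testBit, Bool.and_eq_true, decide_eq_true_iff, decide_eq_true_iff] at m2'
    have hl : lit χ T i := by
      by_contra hc
      exact i3 (Or.inl ⟨m2'.2, hc⟩)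
    obtain ⟨j, j1, j2, j3⟩ := hV i m2'.1 m2'.2 m1 hl
    refine ⟨j, by omega, ?_, not_fal_of_lit j3⟩
    have : MT.testBit j = false := by
      rw [MT_testBit]
      have : ¬ 8192 ≤ j := by omega
      simp [this]
    rw [hb, j2, this]
    simp
  rcases h with ⟨i, i1, i2, i3⟩ | ⟨i, i1, i2, i3⟩
  · by_cases hm : V.testBit i = true ∧ MT.testBit i = true
    · exact key i i1 hm.1 hm.2 i3
    · refine ⟨i, i1, ?_, i3⟩
      have : (V.testBit i && MT.testBit i) = false := by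
        rw [Bool.and_eq_false_iff]
        by_contra hc
        rw [not_or, Bool.not_eq_false, Bool.not_eq_false] at hc
        exact hm hc
      rw [hb, this, i2]
      simp
  · have : (V &&& MT).testBit i = true := i2
    rw [Nat.testBit_and, Bool.and_eq_true] at this
    exact key i i1 this.1 this.2 i3

/-- **Step with a pair.** -/
theorem pair_CL {S Y R : ℕ} (hR : CL χ T W0 Y → CL χ T W0 R) (h : CL χ T W0 S ∨ CL χ T W0 Y) :
    CL χ T W0 (Nat.lor (Nat.xor (Nat.lor S Y) Y) R) := by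
  rcases h with ⟨i, i1, i2, i3⟩ | h
  · by_cases hy : Y.testBit i = true
    · exact CL_right (hR ⟨i, i1, hy, i3⟩)
    · rw [Bool.not_eq_true] at hy
      refine CL_left ⟨i, i1, ?_, i3⟩
      change ((S ||| Y) ^^^ Y).testBit i = true
      rw [Nat.testBit_xor, Nat.testBit_or, i2, hy]
      rfl
  · exact CL_right (hR h)

theorem stV_sound {ih : ℕ → ℕ → ℕ} (h : Ks χ T ih) {r S V : ℕ} (hS : St χ T S) (hV : VG χ T V) :
    St χ T (stV ih r S V) := stW_sound h hS fun hc => vert_CL hV (Or.inl hc)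

theorem stP_sound {ih : ℕ → ℕ → ℕ} (h : Ks χ T ih) {r S Y R : ℕ} (hS : St χ T S)
    (hR : CL χ T W0 Y → CL χ T W0 R) : St χ T (stP ih r S Y R) :=
  stW_sound h hS fun hc => pair_CL hR (Or.inl hc)

theorem good_pn {G : ℕ → ℕ} (hG : Ok7 χ T G) (c : ℕ) : Gq χ T (Pool.Agent.H17.Z12.P.pn c) :=
  Pool.Agent.H17.Z12.P.good_pn hG.ok hG.kc c

theorem VG_vn {G : ℕ → ℕ} (hG : Ok7 χ T G) (c : ℕ) : VG χ T (Pool.Agent.H17.Z12.P.vn c) :=
  Pool.Agent.H17.Z12.P.vn_VG hG.ok.cc hG.kc c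

theorem ilC_sound {G : ℕ → ℕ} (hG : Ok7 χ T G) {ih : ℕ → ℕ → ℕ} (h : Ks χ T ih) :
    Ks χ T (ilC ih) := by
  intro r S hS
  unfold ilC
  cases Nat.beq (Nat.land r (nat_lit 1)) (nat_lit 1)
  · exact stA_sound h hS (good_pn hG _)
  · exact stV_sound h hS (VG_vn hG _)

theorem il_sound {G : ℕ → ℕ} (hG : Ok7 χ T G) {ih : ℕ → ℕ → ℕ} (h : Ks χ T ih) :
    Ks χ T (il ih) := by
  intro r S hS
  unfold il
  cases Nat.beq (Nat.land r (nat_lit 1)) (nat_lit 1)
  · exact stA_sound h hS (Pool.Agent.H17.Z12.good_gn hG.ok _)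
  · exact ilC_sound hG h _ _ hS

theorem r1_sound {G : ℕ → ℕ} (hG : Ok7 χ T G) {J : (ℕ → ℕ → ℕ) → ℕ → ℕ → ℕ → ℕ → ℕ}
    (hJ : Js χ T J) {w n : ℕ} {ih : ℕ → ℕ → ℕ} (h : Ks χ T ih) : Ks χ T (r1 w J n ih) := by
  intro r S hS
  unfold r1
  cases Nat.beq (Nat.land r (nat_lit 1)) (nat_lit 1)
  · change St χ T (ix w J ih (Nat.shiftRight r (nat_lit 1)) S)
    unfold ix
    cases Nat.land (Nat.shiftRight r (nat_lit 1)) (mk w) with
    | zero => exact st_tr
    | succ p => exact hJ ih h _ _ _ _ hS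
  · exact il_sound hG h _ _ hS

theorem rn_sound {G : ℕ → ℕ} (hG : Ok7 χ T G) {J : (ℕ → ℕ → ℕ) → ℕ → ℕ → ℕ → ℕ → ℕ}
    (hJ : Js χ T J) {w r S : ℕ} (hS : St χ T S) : St χ T (rn w J r S) := by
  have key : ∀ n, Ks χ T (@Nat.rec (fun _ => Nat → Nat → Nat) lend (r1 w J) n) := by
    intro n
    induction n with
    | zero => exact fun r S hS => hS
    | succ n ih => exact r1_sound hG hJ ih
  exact key _ _ _ hS

/-- A packed pair: if a literal of the outputs is true, then a literal of the result. -/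
def PV (χ T : ℕ → Bool) (V : ℕ) : Prop := CL χ T W0 (yp V) → CL χ T W0 (rp V)

/-- The values of the computed entries are sound. -/
def GE (χ T : ℕ → Bool) (yb : ℕ → Bool) (E : ℕ → ℕ) : Prop :=
  ∀ p, (yb p = false → Gq χ T (E p)) ∧ (yb p = true → PV χ T (E p))

theorem jj_sound {B E V : ℕ → ℕ} {yb : ℕ → Bool} (hB : Ga χ T B) (hE : GE χ T yb E)
    (hV : ∀ p, VG χ T (V p)) (w NB NX : ℕ) : Js χ T (jj w NB NX B E V yb) := by
  intro ih h r S p x hS
  unfold jj
  cases Nat.ble NB p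
  · exact stA_sound h hS (hB p)
  · change St χ T (je w NX E V yb ih r S p)
    unfold je
    cases Nat.ble NX p
    · cases hy : yb p
      · exact stA_sound h hS ((hE p).1 hy)
      · exact stP_sound h hS ((hE p).2 hy)
    · exact stV_sound h hS (hV p)

/-! ### Pairs -/

/-- State of a pair. -/
def Inv (χ T : ℕ → Bool) (S Y : ℕ) : Prop := Cs S ∧ (CL χ T W0 Y → CL χ T W0 S)

/-- The continuation is sound. -/
def Kp (χ T : ℕ → Bool) (ih : ℕ → ℕ → ℕ → ℕ) : Prop := ∀ r S Y, Inv χ T S Y → PV χ T (ih r S Y)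

theorem yp_tr : yp tr = 0 := by decide +kernel

theorem CL_zero (h : CL χ T W0 0) : False := by
  obtain ⟨i, _, i2, _⟩ := h
  rw [Nat.zero_testBit] at i2
  exact Bool.noConfusion i2

theorem PV_tr : PV χ T tr := by
  intro h
  rw [yp_tr] at h
  exact (CL_zero h).elim

theorem pA_sound {ih : ℕ → ℕ → ℕ → ℕ} (h : Kp χ T ih) {r S Y D : ℕ} (hS : Inv χ T S Y)
    (hD : Gq χ T D) : PV χ T (pA ih r S Y (Nat.lor S D)) := by
  have e : pA ih r S Y (Nat.lor S D) = pC ih r S Y (Nat.lor S D) (cl (Nat.lor S D)) := rfl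
  rw [e]
  unfold pC
  cases hc : Nat.beq (Nat.land (cl (Nat.lor S D)) (Nat.sub (cl (Nat.lor S D)) (nat_lit 1)))
      (nat_lit 0)
  · exact PV_tr
  · have hc' := Nat.eq_of_beq_eq_true hc
    refine h _ _ _ ⟨?_, fun hy => ?_⟩
    · rw [mul_mm hc']
      exact cs_res hS.1 hD.2 rfl hc'
    · have hs : CL χ T W0 S := by
        rcases CL_or hy with hy | ⟨i, i1, i2, i3⟩
        · exact hS.2 hy
        · refine ⟨i, i1, ?_, i3⟩
          have : (S &&& Nat.mul (cl (Nat.lor S D)) mm).testBit i = true := i2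
          rw [Nat.testBit_and, Bool.and_eq_true] at this
          exact this.1
      rw [mul_mm hc']
      exact CL_res ⟨hs, hS.1⟩ hD rfl hc'

theorem pW_sound {ih : ℕ → ℕ → ℕ → ℕ} (h : Kp χ T ih) {r S' Y' : ℕ}
    (hc : CL χ T W0 Y' → CL χ T W0 S') : PV χ T (pW ih r S' Y') := by
  unfold pW
  cases hb : Nat.beq (cl S') (nat_lit 0)
  · exact PV_tr
  · exact h _ _ _ ⟨Or.inr (Nat.eq_of_beq_eq_true hb), hc⟩

theorem pV_sound {ih : ℕ → ℕ → ℕ → ℕ} (h : Kp χ T ih) {r S Y V : ℕ} (hS : Inv χ T S Y)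
    (hV : VG χ T V) : PV χ T (pV ih r S Y V) := by
  refine pW_sound h fun hc => vert_CL hV ?_
  rcases CL_or hc with hc | hc
  · exact Or.inl (hS.2 hc)
  · exact Or.inr hc

theorem pP_sound {ih : ℕ → ℕ → ℕ → ℕ} (h : Kp χ T ih) {r S Y V R : ℕ} (hS : Inv χ T S Y)
    (hR : CL χ T W0 V → CL χ T W0 R) : PV χ T (pP ih r S Y V R) := by
  refine pW_sound h fun hc => pair_CL hR ?_
  rcases CL_or hc with hc | hc
  · exact Or.inl (hS.2 hc)
  · exact Or.inr hc

theorem plC_sound {G : ℕ → ℕ} (hG : Ok7 χ T G) {ih : ℕ → ℕ → ℕ → ℕ} (h : Kp χ T ih) :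
    Kp χ T (plC ih) := by
  intro r S Y hS
  unfold plC
  cases Nat.beq (Nat.land r (nat_lit 1)) (nat_lit 1)
  · exact pA_sound h hS (good_pn hG _)
  · exact pV_sound h hS (VG_vn hG _)

theorem pl_sound {G : ℕ → ℕ} (hG : Ok7 χ T G) {ih : ℕ → ℕ → ℕ → ℕ} (h : Kp χ T ih) :
    Kp χ T (pl ih) := by
  intro r S Y hS
  unfold pl
  cases Nat.beq (Nat.land r (nat_lit 1)) (nat_lit 1)
  · exact pA_sound h hS (Pool.Agent.H17.Z12.good_gn hG.ok _)
  · exact plC_sound hG h _ _ _ hS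

/-- The step with an entry is sound. -/
def Jp (χ T : ℕ → Bool) (J : (ℕ → ℕ → ℕ → ℕ) → ℕ → ℕ → ℕ → ℕ → ℕ → ℕ) : Prop :=
  ∀ ih, Kp χ T ih → ∀ r S Y p x, Inv χ T S Y → PV χ T (J ih r S Y p x)

theorem p1_sound {G : ℕ → ℕ} (hG : Ok7 χ T G) {J : (ℕ → ℕ → ℕ → ℕ) → ℕ → ℕ → ℕ → ℕ → ℕ → ℕ}
    (hJ : Jp χ T J) {w n : ℕ} {ih : ℕ → ℕ → ℕ → ℕ} (h : Kp χ T ih) : Kp χ T (p1 w J n ih) := by
  intro r S Y hS
  unfold p1
  cases Nat.beq (Nat.land r (nat_lit 1)) (nat_lit 1)
  · change PV χ T (px w J ih (Nat.shiftRight r (nat_lit 1)) S Y)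
    unfold px
    cases Nat.land (Nat.shiftRight r (nat_lit 1)) (mk w) with
    | zero => exact PV_tr
    | succ p => exact hJ ih h _ _ _ _ _ hS
  · exact pl_sound hG h _ _ _ hS

theorem pend_sound : Kp χ T pend := by
  intro r S Y hS hc
  have hl : ∀ i, (pend r S Y).testBit i = ((S.testBit i && decide (i < 32768)) ||
      (decide (32768 ≤ i) && Y.testBit (i - 32768))) := by
    intro i
    change ((S &&& MP) ||| (Y <<< 32768)).testBit i = _
    rw [Nat.testBit_or, Nat.testBit_and, MP_testBit, Nat.testBit_shiftLeft]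
  have h1 : CL χ T W0 Y := by
    obtain ⟨i, i1, i2, i3⟩ := hc
    refine ⟨i, i1, ?_, i3⟩
    have e : ((pend r S Y) >>> 32768).testBit i = true := i2
    rw [Nat.testBit_shiftRight, hl] at e
    have a1 : ¬ 32768 + i < 32768 := by omega
    have a2 : 32768 ≤ 32768 + i := by omega
    have a3 : 32768 + i - 32768 = i := by omega
    simpa [a1, a2, a3] using e
  obtain ⟨i, i1, i2, i3⟩ := hS.2 h1
  refine ⟨i, i1, ?_, i3⟩
  change ((pend r S Y) &&& MP).testBit i = true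
  have a1 : i < 32768 := by omega
  rw [Nat.testBit_and, MP_testBit, hl, i2]
  simp [a1]

theorem qn_sound {G : ℕ → ℕ} (hG : Ok7 χ T G) {J : (ℕ → ℕ → ℕ → ℕ) → ℕ → ℕ → ℕ → ℕ → ℕ → ℕ}
    (hJ : Jp χ T J) (w r Y : ℕ) : PV χ T (qn w J r Y) := by
  have key : ∀ n, Kp χ T (@Nat.rec (fun _ => Nat → Nat → Nat → Nat) pend (p1 w J) n) := by
    intro n
    induction n with
    | zero => exact pend_sound
    | succ n ih => exact p1_sound hG hJ ih
  refine key _ _ _ _ ⟨cs_fx Y, fun h => ?_⟩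
  unfold B6.fx
  cases hb : Nat.beq (cl Y) (nat_lit 0)
  · exact CL_tr
  · change CL χ T W0 (Nat.lor Y (nat_lit 0))
    rw [lor_zero]
    exact h

theorem pj_sound {B E V : ℕ → ℕ} {yb : ℕ → Bool} (hB : Ga χ T B) (hE : GE χ T yb E)
    (hV : ∀ p, VG χ T (V p)) (w NB NX : ℕ) : Jp χ T (pj w NB NX B E V yb) := by
  intro ih h r S Y p x hS
  unfold pj
  cases Nat.ble NB p
  · exact pA_sound h hS (hB p)
  · change PV χ T (pe w NX E V yb ih r S Y p)
    unfold pe
    cases Nat.ble NX p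
    · cases hy : yb p
      · exact pA_sound h hS ((hE p).1 hy)
      · exact pP_sound h hS ((hE p).2 hy)
    · exact pV_sound h hS (hV p)

/-! ### Computed entries -/

theorem GE_nE {G : ℕ → ℕ} (hG : Ok7 χ T G) {B M V E : ℕ → ℕ} {yb : ℕ → Bool} (hB : Ga χ T B)
    (hV : ∀ p, VG χ T (V p)) (hE : GE χ T yb E) (w NB NX : ℕ) :
    GE χ T yb (nE w NB NX B M V yb E) := by
  intro p
  constructor
  · intro hy
    unfold nE
    rw [hy]
    exact good_nz (rn_sound hG (jj_sound hB hE hV w NB NX) (Or.inl rfl))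
  · intro hy
    unfold nE
    rw [hy]
    exact qn_sound hG (pj_sound hB hE hV w NB NX) _ _ _

theorem GE_if {yb : ℕ → Bool} {A B : ℕ → ℕ} (hA : GE χ T yb A) (hB : GE χ T yb B) (b : ℕ → Bool) :
    GE χ T yb (fun p => @Bool.rec (fun _ => Nat) (A p) (B p) (b p)) := by
  intro p
  change (_ → Gq χ T (@Bool.rec (fun _ => Nat) (A p) (B p) (b p))) ∧
    (_ → PV χ T (@Bool.rec (fun _ => Nat) (A p) (B p) (b p)))
  cases b p
  · exact hA p
  · exact hB p

theorem GE_lor {yb : ℕ → Bool} {A : ℕ → ℕ} (hA : GE χ T yb A) :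
    GE χ T yb (fun p => Nat.lor (A p) (nat_lit 0)) := by
  intro p
  change (_ → Gq χ T (Nat.lor (A p) (nat_lit 0))) ∧ (_ → PV χ T (Nat.lor (A p) (nat_lit 0)))
  rw [lor_zero]
  exact hA p

theorem GE_EI {G : ℕ → ℕ} (hG : Ok7 χ T G) {B M V E : ℕ → ℕ} {yb : ℕ → Bool} (hB : Ga χ T B)
    (hV : ∀ p, VG χ T (V p)) (hE : GE χ T yb E) (h TH q j : ℕ) :
    GE χ T yb (EI h TH B M V yb q E j) := by
  induction j with
  | zero => exact hE
  | succ j ih =>
    exact GE_if (GE_lor ih) (GE_nE hG hB hV ih _ _ _) (fun p => Nat.ble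
      (thr h TH (Nat.add (Nat.mul (nat_lit 4) q) j)) p)

theorem GE_EE {G : ℕ → ℕ} (hG : Ok7 χ T G) {B M V : ℕ → ℕ} {yb : ℕ → Bool} (hB : Ga χ T B)
    (hV : ∀ p, VG χ T (V p)) (h TH f : ℕ) : GE χ T yb (EE h TH B M V yb f) := by
  induction f with
  | zero => exact fun p => ⟨fun _ => good_tr, fun _ => PV_tr⟩
  | succ n ih =>
    exact GE_if (GE_lor ih) (GE_lor (GE_EI hG hB hV ih h TH n _)) (fun p => Nat.ble
      (thr h TH (Nat.mul (nat_lit 4) n)) p)

theorem good_CC {B E : ℕ → ℕ} {yb : ℕ → Bool} (hB : Ga χ T B) (hE : GE χ T yb E) (NB NX : ℕ) :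
    GC χ T (CC NB NX B E yb) := by
  intro p x
  unfold CC
  cases Nat.ble NB p
  · exact hB p
  · change Gq χ T (@Bool.rec (fun _ => Nat) (@Bool.rec (fun _ => Nat) (E p) tr (yb p)) tr
      (Nat.ble NX p))
    cases Nat.ble NX p
    · cases hy : yb p
      · exact (hE p).1 hy
      · exact good_tr
    · exact good_tr

/-! ### Base clauses -/

theorem good_BB {G S : ℕ → ℕ} (hG : Ok7 χ T G) {m : ℕ} (hS : ∀ i < m, Cl χ T (S i))
    (tg tc tz tw ti h : ℕ) : Ga χ T (BB G S m tg tc tz tw ti h) := by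
  have hi : Ga χ T (tI S m ti) := by
    intro i
    change Gq χ T (fx (@Bool.rec (fun _ => Nat) tr (S (aT ti i)) (Nat.ble (Nat.succ (aT ti i)) m)))
    apply good_fx
    cases hb : Nat.ble (Nat.succ (aT ti i)) m
    · exact CL_tr
    · exact CL_of_Cl (hS _ (Nat.le_of_ble_eq_true hb))
  exact Ga.sw (fun i => Pool.Agent.H17.Z12.good_gn hG.ok _) (Ga.sw (fun i => good_pn hG _)
    (Ga.sw (fun i => good_fx (CL_of_Cl (hG.ok.g _)))
      (Ga.sw (fun i => Pool.Agent.H17.Z12.P.good_on hG.go _) hi _) _) _) _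

/-! ### Forward steps -/

theorem sL_sound {G : ℕ → ℕ} (hG : Ok7 χ T G) {k : ℕ → Bool} {ih : ℕ → ℕ → Bool}
    (h : Us χ T k ih) : Us χ T k (sL ih) := by
  intro r U hU h1
  have h2 : (@Nat.rec (fun _ => Bool)
    (sN ih (Nat.shiftRight r (nat_lit 21)) U (Pool.Agent.H17.Z12.gn (Nat.land (Nat.shiftRight r (nat_lit 1)) (nat_lit 1048575))))
    (fun _ _ => sN ih (Nat.shiftRight r (nat_lit 25)) U (Pool.Agent.H17.Z12.P.pn (Nat.land (Nat.shiftRight r (nat_lit 2)) (nat_lit 8388607))))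
    (Nat.land r (nat_lit 1)) : Bool) = true := h1
  revert h2
  cases Nat.land r (nat_lit 1) with
  | zero => exact fun h2 => sN_sound h hU (Pool.Agent.H17.Z12.good_gn hG.ok _).1 h2
  | succ q => exact fun h2 => sN_sound h hU (good_pn hG _).1 h2

theorem s1_sound {G : ℕ → ℕ} (hG : Ok7 χ T G) {C : ℕ → ℕ → ℕ} (hC : GC χ T C) {w n : ℕ}
    {k : ℕ → Bool} {ih : ℕ → ℕ → Bool} (h : Us χ T k ih) : Us χ T k (s1 w C n ih) := by
  intro r U hU h1
  have h2 : (@Nat.rec (fun _ => Bool) (sI w C ih (Nat.shiftRight r (nat_lit 1)) U)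
    (fun _ _ => sL ih (Nat.shiftRight r (nat_lit 1)) U) (Nat.land r (nat_lit 1)) : Bool) = true := h1
  revert h2
  cases Nat.land r (nat_lit 1) with
  | zero =>
    intro h2
    have h3 : sN ih (Nat.shiftRight (Nat.shiftRight r (nat_lit 1)) w) U
      (@Nat.rec (fun _ => Nat) tr C (Nat.land (Nat.shiftRight r (nat_lit 1)) (mk w))) = true := h2
    refine sN_sound h hU ?_ h3
    cases Nat.land (Nat.shiftRight r (nat_lit 1)) (mk w) with
    | zero => exact CL_tr
    | succ p => exact (hC p _).1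
  | succ q => exact fun h2 => sL_sound hG h _ _ hU h2

/-- **Forward steps.** -/
theorem sn_sound {G : ℕ → ℕ} (hG : Ok7 χ T G) {C : ℕ → ℕ → ℕ} (hC : GC χ T C) {w r U : ℕ}
    {k : ℕ → Bool} (hU : Fz χ T U) (h : sn w C k r U = true) : ∃ V, Fz χ T V ∧ k V = true := by
  have key : ∀ n, Us χ T k (@Nat.rec (fun _ => Nat → Nat → Bool) (sE k) (s1 w C) n) := by
    intro n
    induction n with
    | zero => exact fun r U hU h => ⟨U, hU, h⟩
    | succ n ih => exact s1_sound hG hC ih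
  exact key _ _ _ hU h

/-- **Many pieces.** -/
theorem mu_sound {H : (ℕ → Bool) → (ℕ → Bool) → Prop} {C : ℕ → ℕ → ℕ → ℕ} {HD PG : ℕ}
    {P Hf : ℕ → ℕ} {n : ℕ}
    (hC : ∀ χ T : ℕ → Bool, H χ T → ∃ G, Ok7 χ T G ∧ ∀ h, GC χ T (C h))
    (h : mu C HD PG P Hf n = true) : ∀ i < n, ∀ χ T : ℕ → Bool, H χ T →
      Fa χ T (Hf i) → Lo (Hf i) → False := by
  induction n with
  | zero => intro i hi; exact absurd hi (Nat.not_lt_zero i)
  | succ n ih =>
    obtain ⟨h1, h2⟩ := bnd_true h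
    intro i hi
    rcases Nat.lt_or_ge i n with h3 | h3
    · exact ih h2 i h3
    · have e : i = n := by omega
      rw [e]
      intro χ T hM hF hlo
      obtain ⟨G, hG, hC'⟩ := hC χ T hM
      have h4 : (@Nat.rec (fun _ => Bool) false (pc2 C (P n) (Hf n))
        (trc HD (nat_lit 240) (aT PG n)) : Bool) = true := h1
      revert h4
      cases trc HD (nat_lit 240) (aT PG n) with
      | zero => exact fun h4 => Bool.noConfusion h4
      | succ q =>
        intro h4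
        obtain ⟨V, _, hV⟩ := sn_sound hG (hC' q) (Fz_of_Fa hF hlo) h4
        exact Bool.noConfusion hV

/-! ### One piece in several blocks -/

/-- **The last block**. -/
theorem last_sound {G S : ℕ → ℕ} (hG : Ok7 χ T G) {C : ℕ → ℕ → ℕ} (hC : GC χ T C) {w U r m : ℕ}
    (s : St2 χ T U S m) (h : ckb w C cF U r = true) : False := by
  obtain ⟨h1, h2⟩ := bnd_true h
  obtain ⟨V, _, hV⟩ := sn_sound hG hC (Fz_of_Fa s.1 (Lo_lt' h1)) h2
  exact Bool.noConfusion hV

/-- **A block**. -/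
theorem block_sound {G S : ℕ → ℕ} (hG : Ok7 χ T G) {C : ℕ → ℕ → ℕ} (hC : GC χ T C)
    (hS : ∀ i, Lo (S i)) {w U V r m ex ne : ℕ} (s : St2 χ T U S m)
    (h : ckb w C (fin S C V m ex ne) U r = true) : St2 χ T V S (Nat.add m ne) := by
  obtain ⟨h1, h2⟩ := bnd_true h
  obtain ⟨U', hU', hF⟩ := sn_sound hG hC (Fz_of_Fa s.1 (Lo_lt' h1)) h2
  obtain ⟨h3, h4⟩ := bnd_true hF
  have h5 : V ||| U' = U' := Nat.eq_of_beq_eq_true h3
  have key : ∀ n, (@Nat.rec (fun _ => Bool) true (ex1 S C m ex U') n : Bool) = true →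
      ∀ i < n, Cl χ T (S (m + i)) := by
    intro n
    induction n with
    | zero => intro _ i hi; exact absurd hi (Nat.not_lt_zero i)
    | succ n ih =>
      intro hn i hi
      obtain ⟨h6, h7⟩ := bnd_true hn
      rcases Nat.lt_or_ge i n with h8 | h8
      · exact ih h7 i h8
      · have e : i = n := by omega
        rw [e]
        exact imc_sound hU' (hC _ _).1 (hS _) h6
  refine ⟨?_, ?_⟩
  · intro i hi
    refine Fa_of_FA hU' i ?_
    rw [← h5, Nat.testBit_or, hi, Bool.true_or]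
  · intro i hi
    have hi' : i < m + ne := hi
    rcases Nat.lt_or_ge i m with h8 | h8
    · exact s.2 i h8
    · have e : i = m + (i - m) := by omega
      rw [e]
      exact key ne h4 _ (by omega)

end Pool.Agent.H13.Z12.B7
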