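import Mathlib
import Pool.Agent.H17.Z12.Glue8
import Pool.Agent.H13.Z12.Defs9

/-!
Soundness of the fast evaluation of the eighth checker (MP_1e71f9_co).
-/

set_option autoImplicit false
set_option maxRecDepth 10000

namespace Pool.Agent.H13.Z12.B9

open Pool.Agent.H13.Z12 (lit Cl Fa)
open Pool.Agent.H13.Z12.B3 (tr CL CL_tr)
open Pool.Agent.H13.Z12.B6 (W0 Gq good_tr cl St Ks st_tr Ga lend mk)
open Pool.Agent.H13.Z12.B7 (Ok7 VG VG_vn good_pn stA stC stA_sound stV_sound stP_sound il_sound hf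
  mm mul_mm cs_res CL_res CL_or CL_left CL_right vert_CL pair_CL OC yb stV stP il)
open Pool.Agent.H17.Z12.B8 (stA_sound' hN hk hV good_BB8 BB8 VV8 ng lb dl)

variable {χ T : ℕ → Bool}

theorem sA_eq (ih : ℕ → ℕ → ℕ) (r S : ℕ) : sA ih r S = stA ih r S := by
  have key : ∀ (x y : ℕ), (@Nat.rec (fun _ => Nat) (ih r (Nat.xor S (Nat.mul x mm))) (fun _ _ => tr) y : ℕ) =
      @Bool.rec (fun _ => Nat) tr (ih r (Nat.xor S (Nat.mul x mm))) (Nat.beq y (nat_lit 0)) := by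
    intro x y
    cases y with
    | zero => rfl
    | succ n => rfl
  exact key _ _

theorem sA_sound {ih : ℕ → ℕ → ℕ} (h : Ks χ T ih) {r S D : ℕ} (hS : St χ T S) (hD : Gq χ T D) :
    St χ T (sA ih r (Nat.lor S D)) := by
  rw [sA_eq]
  exact stA_sound h hS hD

/-- Sound values. -/
def GV (χ T : ℕ → Bool) : Val → Prop
  | Val.cl c => Gq χ T c
  | Val.pr y r => CL χ T W0 y → CL χ T W0 r

theorem GV_tr : GV χ T (Val.cl tr) := good_tr

/-- All values are sound. -/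
def GE (χ T : ℕ → Bool) (E : ℕ → Val) : Prop := ∀ p, GV χ T (E p)

/-! ### Derivations -/

theorem kk_sound {ih : ℕ → ℕ → ℕ} (h : Ks χ T ih) {S : ℕ} (hS : St χ T S) : Ks χ T (kk ih S) := by
  intro r B hB
  unfold kk
  rw [sA_eq]
  exact stA_sound' h hS hB

/-- The derivation inside a derivation is sound. -/
def Ss (χ T : ℕ → Bool) (Sb : (ℕ → ℕ → ℕ) → ℕ → ℕ → ℕ) : Prop := ∀ ih, Ks χ T ih → Ks χ T (Sb ih)

/-- The step with a number is sound. -/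
def Kk (χ T : ℕ → Bool) (K : ((ℕ → ℕ → ℕ) → ℕ → ℕ → ℕ) → (ℕ → ℕ → ℕ) → ℕ → ℕ → ℕ → ℕ) : Prop :=
  ∀ Sb, Ss χ T Sb → ∀ ih, Ks χ T ih → ∀ r S p, St χ T S → St χ T (K Sb ih r S p)

/-- The step with a number is sound. -/
def J9 (χ T : ℕ → Bool) (J : ((ℕ → ℕ → ℕ) → ℕ → ℕ → ℕ) → (ℕ → ℕ → ℕ) → ℕ → ℕ → ℕ → ℕ → ℕ) : Prop :=
  ∀ Sb, Ss χ T Sb → ∀ ih, Ks χ T ih → ∀ r S p x, St χ T S → St χ T (J Sb ih r S p x)

theorem is_sound {G : ℕ → ℕ} (hG : Ok7 χ T G) {Sb : (ℕ → ℕ → ℕ) → ℕ → ℕ → ℕ} (hb : Ss χ T Sb)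
    {ih : ℕ → ℕ → ℕ} (h : Ks χ T ih) : Ks χ T (is Sb ih) := by
  intro r S hS
  unfold is
  cases Nat.beq (Nat.land r (nat_lit 1)) (nat_lit 1)
  · exact il_sound hG h _ _ hS
  · exact hb ih h _ _ hS

theorem uV_sound {ih : ℕ → ℕ → ℕ} (h : Ks χ T ih) {r S : ℕ} {X : Val} (hS : St χ T S)
    (hX : GV χ T X) : St χ T (uV ih r S X) := by
  cases X with
  | cl c => exact sA_sound h hS hX
  | pr y q => exact stP_sound h hS hX

theorem jw_sound {G : ℕ → ℕ} (hG : Ok7 χ T G) {V : ℕ → ℕ} (hV : ∀ p, VG χ T (V p)) (NV k : ℕ) :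
    Kk χ T (jw NV k V) := by
  intro Sb hb ih h r S p hS
  unfold jw
  cases Nat.ble NV p
  · exact stV_sound h hS (hV p)
  · exact is_sound hG hb h _ _ hS

theorem je_sound {E : ℕ → Val} (hE : GE χ T E)
    {K : ((ℕ → ℕ → ℕ) → ℕ → ℕ → ℕ) → (ℕ → ℕ → ℕ) → ℕ → ℕ → ℕ → ℕ} (hK : Kk χ T K) (NX : ℕ) :
    Kk χ T (je NX E K) := by
  intro Sb hb ih h r S p hS
  unfold je
  cases Nat.ble NX p
  · exact uV_sound h hS (hE p)
  · exact hK Sb hb ih h _ _ _ hS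

theorem jb_sound {B : ℕ → ℕ} (hB : Ga χ T B)
    {K : ((ℕ → ℕ → ℕ) → ℕ → ℕ → ℕ) → (ℕ → ℕ → ℕ) → ℕ → ℕ → ℕ → ℕ} (hK : Kk χ T K) (NB : ℕ) :
    J9 χ T (jb NB B K) := by
  intro Sb hb ih h r S p x hS
  unfold jb
  cases Nat.ble NB p
  · exact sA_sound h hS (hB p)
  · exact hK Sb hb ih h _ _ _ hS

theorem q1_sound {J : ((ℕ → ℕ → ℕ) → ℕ → ℕ → ℕ) → (ℕ → ℕ → ℕ) → ℕ → ℕ → ℕ → ℕ → ℕ}
    (hJ : J9 χ T J) {Sb : (ℕ → ℕ → ℕ) → ℕ → ℕ → ℕ} (hb : Ss χ T Sb) {N : ℕ} {ih : ℕ → ℕ → ℕ}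
    (h : Ks χ T ih) : Ks χ T (q1 N J Sb ih) := by
  intro r S hS
  unfold q1
  cases Nat.mod r N with
  | zero => exact hS
  | succ p => exact hJ Sb hb ih h _ _ _ _ hS

theorem sb_sound {J : ((ℕ → ℕ → ℕ) → ℕ → ℕ → ℕ) → (ℕ → ℕ → ℕ) → ℕ → ℕ → ℕ → ℕ → ℕ}
    (hJ : J9 χ T J) (N k : ℕ) : Ss χ T (sb N J k) := by
  induction k with
  | zero => exact fun _ _ _ _ _ => st_tr
  | succ k ih0 =>
    intro ih h r S hS
    have key : ∀ n, Ks χ T (@Nat.rec (fun _ => Nat → Nat → Nat) (kk ih S) (qs N J (sb N J k)) n) := by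
      intro n
      induction n with
      | zero => exact kk_sound h hS
      | succ n ih' => exact q1_sound hJ ih0 ih'
    exact key _ _ _ (Or.inl rfl)

theorem rn_sound {J : ((ℕ → ℕ → ℕ) → ℕ → ℕ → ℕ) → (ℕ → ℕ → ℕ) → ℕ → ℕ → ℕ → ℕ → ℕ}
    (hJ : J9 χ T J) (N r : ℕ) : St χ T (rn N J r) := by
  have hb := sb_sound hJ N (nat_lit 14)
  have key : ∀ n, Ks χ T (@Nat.rec (fun _ => Nat → Nat → Nat) lend (q4 N J (sb N J (nat_lit 14))) n) := by
    intro n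
    induction n with
    | zero => exact fun r S hS => hS
    | succ n ih => exact q1_sound hJ hb (q1_sound hJ hb (q1_sound hJ hb (q1_sound hJ hb ih)))
  exact key (nat_lit 256) r (nat_lit 0) (Or.inl rfl)

/-! ### Pairs -/

/-- The continuation is sound. -/
def Kp (χ T : ℕ → Bool) (ih : ℕ → ℕ → ℕ → Val) : Prop :=
  ∀ r S Y, B7.Inv χ T S Y → GV χ T (ih r S Y)

theorem pW_sound {ih : ℕ → ℕ → ℕ → Val} (h : Kp χ T ih) {r S' Y' : ℕ}
    (hc : CL χ T W0 Y' → CL χ T W0 S') : GV χ T (pW ih r S' Y') := by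
  unfold pW
  cases hb : Nat.beq (cl S') (nat_lit 0)
  · exact GV_tr
  · exact h _ _ _ ⟨Or.inr (Nat.eq_of_beq_eq_true hb), hc⟩

theorem pV_sound {ih : ℕ → ℕ → ℕ → Val} (h : Kp χ T ih) {r S Y V : ℕ} (hS : B7.Inv χ T S Y)
    (hV : VG χ T V) : GV χ T (pV ih r S Y V) := by
  refine pW_sound h fun hc => vert_CL hV ?_
  rcases CL_or hc with hc | hc
  · exact Or.inl (hS.2 hc)
  · exact Or.inr hc

theorem pP_sound {ih : ℕ → ℕ → ℕ → Val} (h : Kp χ T ih) {r S Y V R : ℕ} (hS : B7.Inv χ T S Y)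
    (hR : CL χ T W0 V → CL χ T W0 R) : GV χ T (pP ih r S Y V R) := by
  refine pW_sound h fun hc => pair_CL hR ?_
  rcases CL_or hc with hc | hc
  · exact Or.inl (hS.2 hc)
  · exact Or.inr hc

theorem pR_sound {ih : ℕ → ℕ → ℕ → Val} (h : Kp χ T ih) {r S Y D : ℕ} (hS : B7.Inv χ T S Y)
    (hD : Gq χ T D) : GV χ T (pR ih r S Y (Nat.lor S D) (cl (Nat.lor S D))) := by
  unfold pR
  cases hc : Nat.beq (Nat.land (cl (Nat.lor S D)) (Nat.sub (cl (Nat.lor S D)) (nat_lit 1)))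
      (nat_lit 0)
  · exact GV_tr
  · have hc' := Nat.eq_of_beq_eq_true hc
    refine h _ _ _ ⟨?_, fun hy => ?_⟩
    · rw [mul_mm hc']
      exact cs_res hS.1 hD.2 rfl hc'
    · have hs : CL χ T W0 S := by
        rcases CL_or hy with hy | ⟨i, i1, i2, i3⟩
        · exact hS.2 hy
        · refine ⟨i, i1, ?_, i3⟩
          have : (S &&& Nat.mul (cl (Nat.lor S D)) mm).testBit i = true := i2
          rw [Nat.testBit_and, Bool.and_eq_true] at this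
          exact this.1
      rw [mul_mm hc']
      exact CL_res ⟨hs, hS.1⟩ hD rfl hc'

theorem pO1_sound {ih : ℕ → ℕ → ℕ → Val} (h : Kp χ T ih) {r S Y D y : ℕ} (hS : B7.Inv χ T S Y)
    (hD : Gq χ T D) : GV χ T (pO1 ih r S Y (Nat.lor S D) y) := by
  unfold pO1
  have e : Nat.lor (Nat.lor S D) y = Nat.lor (Nat.lor S y) D := by
    change (S ||| D) ||| y = (S ||| y) ||| D
    rw [Nat.or_assoc, Nat.or_assoc, Nat.or_comm D y]
  rw [e]
  have e2 : pO2 ih r (Nat.lor S y) (Nat.lor Y y) (Nat.lor (Nat.lor S y) D) =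
    @Bool.rec (fun _ => Val) (Val.cl tr) (pR ih r (Nat.lor S y) (Nat.lor Y y) (Nat.lor (Nat.lor S y) D)
      (cl (Nat.lor (Nat.lor S y) D))) (Nat.beq (cl (Nat.lor S y)) (nat_lit 0)) := rfl
  rw [e2]
  cases hc : Nat.beq (cl (Nat.lor S y)) (nat_lit 0)
  · exact GV_tr
  · refine pR_sound h ⟨Or.inr (Nat.eq_of_beq_eq_true hc), fun hy => ?_⟩ hD
    rcases CL_or hy with hy | hy
    · exact CL_left (hS.2 hy)
    · exact CL_right hy

theorem pA_sound {ih : ℕ → ℕ → ℕ → Val} (h : Kp χ T ih) {r S Y D : ℕ} (hS : B7.Inv χ T S Y)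
    (hD : Gq χ T D) : GV χ T (pA ih r S Y (Nat.lor S D)) := by
  have e : pA ih r S Y (Nat.lor S D) = pC ih r S Y (Nat.lor S D) (cl (Nat.lor S D)) := rfl
  rw [e]
  unfold pC
  cases Nat.beq (cl (Nat.lor S D)) (nat_lit 0)
  · exact pR_sound h hS hD
  · change GV χ T (pO ih r S Y (Nat.lor S D))
    unfold pO
    cases Nat.beq (Nat.land r (nat_lit 31)) (nat_lit 31)
    · exact pO1_sound h hS hD
    · exact pO1_sound h hS hD

theorem plC_sound {G : ℕ → ℕ} (hG : Ok7 χ T G) {ih : ℕ → ℕ → ℕ → Val} (h : Kp χ T ih) :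
    Kp χ T (plC ih) := by
  intro r S Y hS
  unfold plC
  cases Nat.beq (Nat.land r (nat_lit 1)) (nat_lit 1)
  · exact pA_sound h hS (good_pn hG _)
  · exact pV_sound h hS (VG_vn hG _)

theorem pl_sound {G : ℕ → ℕ} (hG : Ok7 χ T G) {ih : ℕ → ℕ → ℕ → Val} (h : Kp χ T ih) :
    Kp χ T (pl ih) := by
  intro r S Y hS
  unfold pl
  cases Nat.beq (Nat.land r (nat_lit 1)) (nat_lit 1)
  · exact pA_sound h hS (Pool.Agent.H17.Z12.good_gn hG.ok _)
  · exact plC_sound hG h _ _ _ hS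

/-- The step of a pair with a number is sound. -/
def Kq (χ T : ℕ → Bool) (K : (ℕ → ℕ → ℕ → Val) → ℕ → ℕ → ℕ → ℕ → Val) : Prop :=
  ∀ ih, Kp χ T ih → ∀ r S Y p, B7.Inv χ T S Y → GV χ T (K ih r S Y p)

/-- The step of a pair with a number is sound. -/
def P9 (χ T : ℕ → Bool) (J : (ℕ → ℕ → ℕ → Val) → ℕ → ℕ → ℕ → ℕ → Val → Val) : Prop :=
  ∀ ih, Kp χ T ih → ∀ r S Y p x, B7.Inv χ T S Y → GV χ T (J ih r S Y p x)

theorem pw_sound {G : ℕ → ℕ} (hG : Ok7 χ T G) {V : ℕ → ℕ} (hV : ∀ p, VG χ T (V p)) (NV k : ℕ) :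
    Kq χ T (pw NV k V) := by
  intro ih h r S Y p hS
  unfold pw
  cases Nat.ble NV p
  · exact pV_sound h hS (hV p)
  · exact pl_sound hG h _ _ _ hS

theorem pe_sound {E : ℕ → Val} (hE : GE χ T E) {K : (ℕ → ℕ → ℕ → Val) → ℕ → ℕ → ℕ → ℕ → Val}
    (hK : Kq χ T K) (NX : ℕ) : Kq χ T (pe NX E K) := by
  intro ih h r S Y p hS
  unfold pe
  cases Nat.ble NX p
  · change GV χ T (uP ih r S Y (E p))
    have := hE p
    revert this
    cases E p with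
    | cl c => exact fun h1 => pA_sound h hS h1
    | pr y q => exact fun h1 => pP_sound h hS h1
  · exact hK ih h _ _ _ _ hS

theorem pb_sound {B : ℕ → ℕ} (hB : Ga χ T B) {K : (ℕ → ℕ → ℕ → Val) → ℕ → ℕ → ℕ → ℕ → Val}
    (hK : Kq χ T K) (NB : ℕ) : P9 χ T (pb NB B K) := by
  intro ih h r S Y p x hS
  unfold pb
  cases Nat.ble NB p
  · exact pA_sound h hS (hB p)
  · exact hK ih h _ _ _ _ hS

theorem t1_sound {J : (ℕ → ℕ → ℕ → Val) → ℕ → ℕ → ℕ → ℕ → Val → Val} (hJ : P9 χ T J) {N : ℕ}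
    {ih : ℕ → ℕ → ℕ → Val} (h : Kp χ T ih) : Kp χ T (t1 N J ih) := by
  intro r S Y hS
  unfold t1
  cases Nat.mod r N with
  | zero => exact hS.2
  | succ p => exact hJ ih h _ _ _ _ _ hS

theorem qn_sound {J : (ℕ → ℕ → ℕ → Val) → ℕ → ℕ → ℕ → ℕ → Val → Val} (hJ : P9 χ T J) (N r : ℕ) :
    GV χ T (qn N J r) := by
  have key : ∀ n, Kp χ T (@Nat.rec (fun _ => Nat → Nat → Nat → Val) pend (t4 N J) n) := by
    intro n
    induction n with
    | zero => exact fun r S Y hS => hS.2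
    | succ n ih => exact t1_sound hJ (t1_sound hJ (t1_sound hJ (t1_sound hJ ih)))
  have h0 : B7.Inv χ T (nat_lit 0) (nat_lit 0) := ⟨Or.inr (by decide +kernel), fun h => h⟩
  exact key (nat_lit 256) r (nat_lit 0) (nat_lit 0) h0

/-! ### Computed entries -/

theorem nv_sound {X : ℕ} (h : St χ T X) : GV χ T (nv X) := by
  unfold nv
  cases hb : Nat.beq X (nat_lit 0)
  · refine h.resolve_left fun h0 => ?_
    rw [h0] at hb
    exact Bool.noConfusion hb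
  · exact GV_tr

theorem nE_sound {B : ℕ → ℕ} (hB : Ga χ T B)
    {K : ((ℕ → ℕ → ℕ) → ℕ → ℕ → ℕ) → (ℕ → ℕ → ℕ) → ℕ → ℕ → ℕ → ℕ} (hK : Kk χ T K)
    {Kq' : (ℕ → ℕ → ℕ → Val) → ℕ → ℕ → ℕ → ℕ → Val} (hKq : Kq χ T Kq') {E : ℕ → Val} (hE : GE χ T E)
    (N NB NX : ℕ) (M : ℕ → ℕ) (yb : ℕ → Bool) : GE χ T (nE N NB NX B K Kq' M yb E) := by
  intro p
  unfold nE
  cases yb p
  · exact nv_sound (rn_sound (jb_sound hB (je_sound hE hK NX) NB) _ _)
  · exact qn_sound (pb_sound hB (pe_sound hE hKq NX) NB) _ _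

theorem vv_sound {X : Val} (h : GV χ T X) : GV χ T (vv X) := by
  cases X with
  | cl c => exact h
  | pr y q => exact h

theorem XS_sound {E g : ℕ → Val} (hE : GE χ T E) (hg : GE χ T g) (t : ℕ → ℕ) (n : ℕ) :
    GE χ T (XS t E g n) := by
  intro p
  unfold XS
  cases Nat.ble (t n) p
  · exact hE p
  · exact vv_sound (hg p)

theorem TR_sound {F : (ℕ → Val) → ℕ → Val} (hF : ∀ E, GE χ T E → GE χ T (F E)) (t : ℕ → ℕ)
    (k : ℕ) : ∀ E, GE χ T E → ∀ n, GE χ T (TR t F k E n) := by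
  induction k with
  | zero => exact fun E hE _ => hF E hE
  | succ k ih =>
    intro E hE n p
    change GV χ T (@Bool.rec (fun _ => Val) (TR t F k E n p)
      (TR t F k (XS t E (TR t F k E n) n) (Nat.add n (Nat.pow (nat_lit 2) k)) p)
      (Nat.ble (t (Nat.add n (Nat.pow (nat_lit 2) k))) p))
    cases Nat.ble (t (Nat.add n (Nat.pow (nat_lit 2) k))) p
    · exact ih E hE n p
    · exact ih _ (XS_sound hE (ih E hE n) t n) _ p

theorem D7_sound {G : ℕ → ℕ} (hG : Ok7 χ T G) {B M V : ℕ → ℕ → ℕ} {h : ℕ} (hB : Ga χ T (B h))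
    (hV : ∀ p, VG χ T (V h p)) (TH TY w m N k NV NB NX : ℕ) :
    GE χ T (D7 TH TY B M V h w m N k NV NB NX) :=
  TR_sound (fun _ hE => nE_sound hB (jw_sound hG hV _ _) (pw_sound hG hV _ _) hE _ _ _ _ _) _ _
    _ (fun _ => GV_tr) _

theorem lz_sound {f : ℕ → ℕ → Val} (h : ∀ n, GE χ T (f n)) (x : ℕ) : GE χ T (lz f x) := h x

theorem D9_sound {G : ℕ → ℕ} (hG : Ok7 χ T G) {B M V : ℕ → ℕ → ℕ} {h : ℕ} (hB : Ga χ T (B h))
    (hV : ∀ p, VG χ T (V h p)) (TH TY : ℕ) : GE χ T (D9 TH TY B M V h) := by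
  unfold D9
  exact lz_sound (fun w => lz_sound (fun m => lz_sound (fun N => lz_sound (fun k => lz_sound
    (fun NV => lz_sound (fun NB => lz_sound (fun NX => D7_sound hG hB hV TH TY w m N k NV NB NX)
      _) _) _) _) _) _) _

theorem good_CC {B : ℕ → ℕ} {E : ℕ → Val} (hB : Ga χ T B) (hE : GE χ T E) (NB NX : ℕ) :
    B6.GC χ T (CC NB NX B E) := by
  intro p x
  unfold CC
  cases Nat.ble NB p
  · exact hB p
  · cases Nat.ble NX p
    · have := hE p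
      revert this
      change GV χ T (E p) → Gq χ T (@Val.rec (fun _ => Nat) (fun c => c) (fun _ _ => tr) (E p))
      cases E p with
      | cl c => exact fun h1 => h1
      | pr y q => exact fun _ => good_tr
    · exact good_tr

/-- **All clauses of a block**. -/
theorem good_C9 {G S : ℕ → ℕ} (hG : Ok7 χ T G) {m tb tz tw ti TY TH : ℕ} {M : ℕ → ℕ → ℕ}
    (hS : ∀ i < m, Cl χ T (S i)) :
    OC χ T (C9 (BB8 G S m tb tz tw ti) (D9 TH TY (BB8 G S m tb tz tw ti) M (VV8 tb))) := by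
  have hB : ∀ h, Ga χ T (BB8 G S m tb tz tw ti h) := fun h => good_BB8 hG hS tb tz tw ti h
  have hV : ∀ h p, VG χ T (VV8 tb h p) := fun h p => VG_vn hG _
  exact ⟨G, hG, fun h => good_CC (hB h) (D9_sound hG (hB h) (hV h) TH TY) _ _⟩

/-- All clauses of a block without imported clauses. -/
theorem good_C90 {G S : ℕ → ℕ} (hG : Ok7 χ T G) {tb tz tw ti TY TH : ℕ} {M : ℕ → ℕ → ℕ} :
    OC χ T (C9 (BB8 G S (nat_lit 0) tb tz tw ti)
      (D9 TH TY (BB8 G S (nat_lit 0) tb tz tw ti) M (VV8 tb))) :=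
  good_C9 hG fun i hi => absurd hi (Nat.not_lt_zero i)

end Pool.Agent.H13.Z12.B9
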