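import Mathlib
import Pool.Agent.H13.Z12.Sound9
import Pool.Agent.H13.Z12.Defs10

/-!
Soundness of the second fast evaluation of the eighth checker (MP_1e71f9_co).
-/

set_option autoImplicit false
set_option maxRecDepth 10000

namespace Pool.Agent.H13.Z12.B10

open Pool.Agent.H13.Z12 (lit Cl Fa)
open Pool.Agent.H13.Z12.B3 (tr CL CL_tr eM)
open Pool.Agent.H13.Z12.B6 (W0 Gq good_tr cl St Ks st_tr Ga lend mk)
open Pool.Agent.H13.Z12.B7 (Ok7 VG VG_vn stA stW stV_sound stP_sound hf mm MT CL_or vert_CL pair_CL OC yb stV stP Inv)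
open Pool.Agent.H17.Z12.B8 (stA_sound' hN hk hV good_BB8 BB8 VV8 ng lb dl)
open Pool.Agent.H13.Z12.B9 (Val GV GE GV_tr Ss sA sA_eq sA_sound is is_sound Kp pR pR_sound pO1 pO1_sound pO2 pl
  pl_sound vv vv_sound nv nv_sound lz pend s0 good_CC C9)

variable {χ T : ℕ → Bool}

theorem rec_eq (a : ℕ) : ∀ x : ℕ, (@Nat.rec (fun _ => Nat) a (fun _ _ => tr) x : ℕ) =
    @Bool.rec (fun _ => Nat) tr a (Nat.beq x (nat_lit 0))
  | 0 => rfl
  | _ + 1 => rfl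

theorem rec_eqV (a : Val) : ∀ x : ℕ, (@Nat.rec (fun _ => Val) a (fun _ _ => Val.cl tr) x : Val) =
    @Bool.rec (fun _ => Val) (Val.cl tr) a (Nat.beq x (nat_lit 0))
  | 0 => rfl
  | _ + 1 => rfl

theorem sA_sound' {ih : ℕ → ℕ → ℕ} (h : Ks χ T ih) {r S D : ℕ} (hS : St χ T S) (hD : St χ T D) :
    St χ T (sA ih r (Nat.lor S D)) := by
  rw [sA_eq]
  exact stA_sound' h hS hD

/-! ### Levels -/

theorem L5_sound {t : ℕ → ℕ} {F : (ℕ → Val) → ℕ → Val} {Tb : ℕ → (ℕ → Val) → ℕ → (ℕ → Val) → ℕ → ℕ → Val}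
    (hF : ∀ E, GE χ T E → GE χ T (F E))
    (hT : ∀ k E0 a E n, GE χ T E0 → GE χ T E → GE χ T (Tb k E0 a E n)) : ∀ K, GE χ T (L5 t F Tb K) := by
  intro K
  induction K with
  | zero => exact fun p => hF _ (fun _ => GV_tr) p
  | succ k ih =>
    intro p
    change GV χ T (@Bool.rec (fun _ => Val) (L5 t F Tb k p)
      (Tb k (fun p => vv (L5 t F Tb k p)) (t (Nat.pow (nat_lit 2) k)) (fun _ => Val.cl tr)
        (Nat.pow (nat_lit 2) k) p) (Nat.ble (t (Nat.pow (nat_lit 2) k)) p))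
    cases Nat.ble (t (Nat.pow (nat_lit 2) k)) p
    · exact ih p
    · exact hT _ _ _ _ _ (fun p => vv_sound (ih p)) (fun _ => GV_tr) p

/-- The levels after the first finished group. -/
noncomputable def TB (t : ℕ → ℕ) (F : (ℕ → Val) → ℕ → Val) : ℕ → (ℕ → Val) → ℕ → (ℕ → Val) → ℕ → ℕ → Val :=
  @Nat.rec (fun _ => (Nat → Val) → Nat → (Nat → Val) → Nat → Nat → Val)
    (fun E0 a E _ p => F (fun p => @Bool.rec (fun _ => Nat → Val) E0 E (Nat.ble a p) p) p)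
    (fun k ih E0 a E n p => @Bool.rec (fun _ => Val) (ih E0 a E n p)
      (ih E0 a (fun p => @Bool.rec (fun _ => Nat → Val) E (fun p => vv (ih E0 a E n p)) (Nat.ble (t n) p) p)
        (Nat.add n (Nat.pow (nat_lit 2) k)) p)
      (Nat.ble (t (Nat.add n (Nat.pow (nat_lit 2) k))) p))

theorem TB_sound {t : ℕ → ℕ} {F : (ℕ → Val) → ℕ → Val} (hF : ∀ E, GE χ T E → GE χ T (F E)) :
    ∀ k E0 a E n, GE χ T E0 → GE χ T E → GE χ T (TB t F k E0 a E n) := by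
  intro k
  induction k with
  | zero =>
    intro E0 a E n h0 hE p
    refine hF _ (fun p => ?_) p
    change GV χ T (@Bool.rec (fun _ => Nat → Val) E0 E (Nat.ble a p) p)
    cases Nat.ble a p
    · exact h0 p
    · exact hE p
  | succ k ih =>
    intro E0 a E n h0 hE p
    change GV χ T (@Bool.rec (fun _ => Val) (TB t F k E0 a E n p)
      (TB t F k E0 a (fun p => @Bool.rec (fun _ => Nat → Val) E (fun p => vv (TB t F k E0 a E n p)) (Nat.ble (t n) p) p)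
        (Nat.add n (Nat.pow (nat_lit 2) k)) p)
      (Nat.ble (t (Nat.add n (Nat.pow (nat_lit 2) k))) p))
    cases Nat.ble (t (Nat.add n (Nat.pow (nat_lit 2) k))) p
    · exact ih E0 a E n h0 hE p
    · refine ih E0 a _ _ h0 (fun q => ?_) p
      change GV χ T (@Bool.rec (fun _ => Nat → Val) E (fun p => vv (TB t F k E0 a E n p)) (Nat.ble (t n) q) q)
      cases Nat.ble (t n) q
      · exact hE q
      · exact vv_sound (ih E0 a E n h0 hE q)

theorem L4_sound {t : ℕ → ℕ} {F : (ℕ → Val) → ℕ → Val} (hF : ∀ E, GE χ T E → GE χ T (F E)) (K : ℕ) :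
    GE χ T (L4 t F K) := L5_sound (Tb := TB t F) hF (TB_sound hF) K

theorem L3_sound {QC QP : (ℕ → Val) → ℕ → Val} (hC : ∀ E, GE χ T E → GE χ T (QC E))
    (hP : ∀ E, GE χ T E → GE χ T (QP E)) (TH TY h w m K : ℕ) : GE χ T (L3 TH TY h w m QC QP K) := by
  refine L4_sound (fun E hE p => ?_) K
  change GV χ T (@Bool.rec (fun _ => (Nat → Val) → Nat → Val) QC QP (yb TY h p) E p)
  cases yb TY h p
  · exact hC E hE p
  · exact hP E hE p

/-! ### Steps -/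

theorem q_sound {G : ℕ → ℕ} (hG : Ok7 χ T G) {FB FC FV : ℕ → (ℕ → ℕ → ℕ) → ℕ → ℕ → ℕ}
    {FP : ℕ → ℕ → (ℕ → ℕ → ℕ) → ℕ → ℕ → ℕ} (hFB : ∀ p, Ss χ T (FB p)) (hFC : ∀ v, St χ T v → Ss χ T (FC v))
    (hFP : ∀ y v, (CL χ T W0 y → CL χ T W0 v) → Ss χ T (FP y v)) (hFV : ∀ p, Ss χ T (FV p))
    {E : ℕ → Val} (hE : GE χ T E) {Sb : (ℕ → ℕ → ℕ) → ℕ → ℕ → ℕ} (hb : Ss χ T Sb) (N k NV NB NX : ℕ) :
    Ss χ T (fun ih r S => @Nat.rec (fun _ => ((Nat → Nat → Nat) → Nat → Nat → Nat)) (fun _ _ S => S) (fun p _ ih r S => @Bool.rec (fun _ => Nat → ((Nat → Nat → Nat) → Nat → Nat → Nat)) FB (fun p ih r S => @Bool.rec (fun _ => Nat → ((Nat → Nat → Nat) → Nat → Nat → Nat)) (fun p ih r S => @Val.rec (fun _ => ((Nat → Nat → Nat) → Nat → Nat → Nat)) FC FP (E p) ih r S) (fun p ih r S => @Bool.rec (fun _ => Nat → ((Nat → Nat → Nat) → Nat → Nat → Nat)) FV (fun p ih r S => is Sb ih (Nat.add (Nat.shiftLeft r k)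 (Nat.sub p NV)) S) (Nat.ble NV p) p ih r S) (Nat.ble NX p) p ih r S) (Nat.ble NB p) p ih r S) (Nat.mod r N) ih (Nat.div r N) S) := by
  intro ih h r S hS
  refine (?_ : St χ T (@Nat.rec (fun _ => ((Nat → Nat → Nat) → Nat → Nat → Nat)) (fun _ _ S => S) (fun p _ ih r S => @Bool.rec (fun _ => Nat → ((Nat → Nat → Nat) → Nat → Nat → Nat)) FB (fun p ih r S => @Bool.rec (fun _ => Nat → ((Nat → Nat → Nat) → Nat → Nat → Nat)) (fun p ih r S => @Val.rec (fun _ => ((Nat → Nat → Nat) → Nat → Nat → Nat)) FC FP (E p) ih r S) (fun p ih r S => @Bool.rec (fun _ => Nat → ((Nat → Nat → Nat) → Nat → Nat → Nat)) FV (fun p ih r S => is Sb ih (Nat.add (Nat.shiftLeft r k) (Nat.sub p NV)) S) (Nat.ble NV p) p ih r S) (Nat.ble NX p) p ih r S) (Nat.ble NB p) p ih r S) (Nat.mod r N) ih (Nat.div r N) S))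
  cases Nat.mod r N with
  | zero => exact hS
  | succ p =>
    refine (?_ : St χ T (@Bool.rec (fun _ => Nat → ((Nat → Nat → Nat) → Nat → Nat → Nat)) FB (fun p ih r S => @Bool.rec (fun _ => Nat → ((Nat → Nat → Nat) → Nat → Nat → Nat)) (fun p ih r S => @Val.rec (fun _ => ((Nat → Nat → Nat) → Nat → Nat → Nat)) FC FP (E p) ih r S) (fun p ih r S => @Bool.rec (fun _ => Nat → ((Nat → Nat → Nat) → Nat → Nat → Nat)) FV (fun p ih r S => is Sb ih (Nat.add (Nat.shiftLeft r k) (Nat.sub p NV)) S) (Nat.ble NV p) p ih r S) (Nat.ble NX p) p ih r S) (Nat.ble NB p) p ih (Nat.div r N) S))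
    cases Nat.ble NB p
    · exact hFB p ih h _ _ hS
    · refine (?_ : St χ T (@Bool.rec (fun _ => Nat → ((Nat → Nat → Nat) → Nat → Nat → Nat))
        (fun p ih r S => @Val.rec (fun _ => ((Nat → Nat → Nat) → Nat → Nat → Nat)) FC FP (E p) ih r S) (fun p ih r S => @Bool.rec (fun _ => Nat → ((Nat → Nat → Nat) → Nat → Nat → Nat)) FV (fun p ih r S => is Sb ih (Nat.add (Nat.shiftLeft r k) (Nat.sub p NV)) S) (Nat.ble NV p) p ih r S) (Nat.ble NX p) p ih (Nat.div r N) S))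
      cases Nat.ble NX p
      · refine (?_ : St χ T (@Val.rec (fun _ => ((Nat → Nat → Nat) → Nat → Nat → Nat)) FC FP (E p) ih (Nat.div r N) S))
        have h1 := hE p
        revert h1
        cases E p with
        | cl c => exact fun h1 => hFC c (Or.inr h1) ih h _ _ hS
        | pr y v => exact fun h1 => hFP y v h1 ih h _ _ hS
      · refine (?_ : St χ T (@Bool.rec (fun _ => Nat → ((Nat → Nat → Nat) → Nat → Nat → Nat)) FV
          (fun p ih r S => is Sb ih (Nat.add (Nat.shiftLeft r k) (Nat.sub p NV)) S) (Nat.ble NV p) p ih (Nat.div r N) S))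
        cases Nat.ble NV p
        · exact hFV p ih h _ _ hS
        · exact is_sound hG hb h _ _ hS

/-- The step of a pair is sound. -/
def Sp (χ T : ℕ → Bool) (F : (ℕ → ℕ → ℕ → Val) → ℕ → ℕ → ℕ → Val) : Prop := ∀ ih, Kp χ T ih → Kp χ T (F ih)

theorem p_sound {G : ℕ → ℕ} (hG : Ok7 χ T G) {HB HC HV : ℕ → (ℕ → ℕ → ℕ → Val) → ℕ → ℕ → ℕ → Val}
    {HP : ℕ → ℕ → (ℕ → ℕ → ℕ → Val) → ℕ → ℕ → ℕ → Val} (hHB : ∀ p, Sp χ T (HB p))
    (hHC : ∀ v, Gq χ T v → Sp χ T (HC v))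
    (hHP : ∀ y v, (CL χ T W0 y → CL χ T W0 v) → Sp χ T (HP y v)) (hHV : ∀ p, Sp χ T (HV p))
    {E : ℕ → Val} (hE : GE χ T E) (N k NV NB NX : ℕ) :
    Sp χ T (fun ih r S Y => @Nat.rec (fun _ => ((Nat → Nat → Nat → Val) → Nat → Nat → Nat → Val)) (fun _ _ S Y => Val.pr Y S) (fun p _ ih r S Y => @Bool.rec (fun _ => Nat → ((Nat → Nat → Nat → Val) → Nat → Nat → Nat → Val)) HB (fun p ih r S Y => @Bool.rec (fun _ => Nat → ((Nat → Nat → Nat → Val) → Nat → Nat → Nat → Val)) (fun p ih r S Y => @Val.rec (fun _ => ((Nat → Nat → Nat → Val) → Nat → Nat → Nat → Val)) HC HP (E p) ih r S Y) (fun p ih r S Y => @Bool.rec (fun _ => Nat → ((Nat → Nat → Nat → Val) → Nat → Nat → Nat → Val)) HV (fun p ih r S Y => pl ih (Nat.add (Nat.shiftLeft r k) (Nat.sub p NV)) S Y) (Nat.ble NV p) p ih r S Y) (Nat.ble NX p) p ih r S Y) (Nat.ble NB p) p ih r S Y) (Nat.mod r N) ih (Nat.div r N) S Y) := by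
  intro ih h r S Y hS
  refine (?_ : GV χ T (@Nat.rec (fun _ => ((Nat → Nat → Nat → Val) → Nat → Nat → Nat → Val)) (fun _ _ S Y => Val.pr Y S) (fun p _ ih r S Y => @Bool.rec (fun _ => Nat → ((Nat → Nat → Nat → Val) → Nat → Nat → Nat → Val)) HB (fun p ih r S Y => @Bool.rec (fun _ => Nat → ((Nat → Nat → Nat → Val) → Nat → Nat → Nat → Val)) (fun p ih r S Y => @Val.rec (fun _ => ((Nat → Nat → Nat → Val) → Nat → Nat → Nat → Val)) HC HP (E p) ih r S Y) (fun p ih r S Y => @Bool.rec (fun _ => Nat → ((Nat → Nat → Nat → Val) → Nat → Nat → Nat → Val)) HV (fun p ih r S Y => pl ih (Nat.add (Nat.shiftLeft r k) (Nat.sub p NV)) S Y) (Nat.ble NV p) p ih r S Y) (Nat.ble NX p) p ih r S Y) (Nat.ble NB p) p ih r S Y) (Nat.mod r N) ih (Nat.div r N) S Y))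
  cases Nat.mod r N with
  | zero => exact hS.2
  | succ p =>
    refine (?_ : GV χ T (@Bool.rec (fun _ => Nat → ((Nat → Nat → Nat → Val) → Nat → Nat → Nat → Val)) HB (fun p ih r S Y => @Bool.rec (fun _ => Nat → ((Nat → Nat → Nat → Val) → Nat → Nat → Nat → Val)) (fun p ih r S Y => @Val.rec (fun _ => ((Nat → Nat → Nat → Val) → Nat → Nat → Nat → Val)) HC HP (E p) ih r S Y) (fun p ih r S Y => @Bool.rec (fun _ => Nat → ((Nat → Nat → Nat → Val) → Nat → Nat → Nat → Val)) HV (fun p ih r S Y => pl ih (Nat.add (Nat.shiftLeft r k) (Nat.sub p NV)) S Y) (Nat.ble NV p) p ih r S Y) (Nat.ble NX p) p ih r S Y) (Nat.ble NB p) p ih (Nat.div r N) S Y))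
    cases Nat.ble NB p
    · exact hHB p ih h _ _ _ hS
    · refine (?_ : GV χ T (@Bool.rec (fun _ => Nat → ((Nat → Nat → Nat → Val) → Nat → Nat → Nat → Val))
        (fun p ih r S Y => @Val.rec (fun _ => ((Nat → Nat → Nat → Val) → Nat → Nat → Nat → Val)) HC HP (E p) ih r S Y) (fun p ih r S Y => @Bool.rec (fun _ => Nat → ((Nat → Nat → Nat → Val) → Nat → Nat → Nat → Val)) HV (fun p ih r S Y => pl ih (Nat.add (Nat.shiftLeft r k) (Nat.sub p NV)) S Y) (Nat.ble NV p) p ih r S Y) (Nat.ble NX p) p ih (Nat.div r N) S Y))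
      cases Nat.ble NX p
      · refine (?_ : GV χ T (@Val.rec (fun _ => ((Nat → Nat → Nat → Val) → Nat → Nat → Nat → Val)) HC HP (E p) ih (Nat.div r N) S Y))
        have h1 := hE p
        revert h1
        cases E p with
        | cl c => exact fun h1 => hHC c h1 ih h _ _ _ hS
        | pr y v => exact fun h1 => hHP y v h1 ih h _ _ _ hS
      · refine (?_ : GV χ T (@Bool.rec (fun _ => Nat → ((Nat → Nat → Nat → Val) → Nat → Nat → Nat → Val)) HV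
          (fun p ih r S Y => pl ih (Nat.add (Nat.shiftLeft r k) (Nat.sub p NV)) S Y) (Nat.ble NV p) p ih (Nat.div r N) S Y))
        cases Nat.ble NV p
        · exact hHV p ih h _ _ _ hS
        · exact pl_sound hG h _ _ _ hS


theorem L2_sound {G : ℕ → ℕ} (hG : Ok7 χ T G) {FB FC FV : ℕ → (ℕ → ℕ → ℕ) → ℕ → ℕ → ℕ}
    {FP : ℕ → ℕ → (ℕ → ℕ → ℕ) → ℕ → ℕ → ℕ} (hFB : ∀ p, Ss χ T (FB p)) (hFC : ∀ v, St χ T v → Ss χ T (FC v))
    (hFP : ∀ y v, (CL χ T W0 y → CL χ T W0 v) → Ss χ T (FP y v)) (hFV : ∀ p, Ss χ T (FV p))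
    {HB HC HV : ℕ → (ℕ → ℕ → ℕ → Val) → ℕ → ℕ → ℕ → Val}
    {HP : ℕ → ℕ → (ℕ → ℕ → ℕ → Val) → ℕ → ℕ → ℕ → Val} (hHB : ∀ p, Sp χ T (HB p))
    (hHC : ∀ v, Gq χ T v → Sp χ T (HC v))
    (hHP : ∀ y v, (CL χ T W0 y → CL χ T W0 v) → Sp χ T (HP y v)) (hHV : ∀ p, Sp χ T (HV p))
    {SB : (ℕ → Val) → (ℕ → ℕ → ℕ) → ℕ → ℕ → ℕ} (hSB : ∀ E, GE χ T E → Ss χ T (SB E))
    (TH TY h w m N k NV NB NX K : ℕ) (M : ℕ → ℕ) :
    GE χ T (L2 TH TY h w m N k NV NB NX M FB FC FP FV HB HC HP HV SB K) := by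
  refine L3_sound (fun E hE p => ?_) (fun E hE p => ?_) TH TY h w m K
  · have hq := q_sound hG hFB hFC hFP hFV hE (hSB E hE) N k NV NB NX
    refine nv_sound ?_
    have key : ∀ n, Ks χ T (@Nat.rec (fun _ => Nat → Nat → Nat) lend (fun _ ih => (fun ih => (fun ih r S => @Nat.rec (fun _ => ((Nat → Nat → Nat) → Nat → Nat → Nat)) (fun _ _ S => S) (fun p _ ih r S => @Bool.rec (fun _ => Nat → ((Nat → Nat → Nat) → Nat → Nat → Nat)) FB (fun p ih r S => @Bool.rec (fun _ => Nat → ((Nat → Nat → Nat) → Nat → Nat → Nat)) (fun p ih r S => @Val.rec (fun _ => ((Nat → Nat → Nat) → Nat → Nat → Nat)) FC FP (E p) ih r S) (fun p ih r S => @Bool.rec (fun _ => Nat → ((Nat → Nat → Nat) → Nat → Nat → Nat)) FV (fun p ih r S => is (SB E) ih (Nat.add (Nat.shiftLeft r k) (Nat.sub p NV)) S) (Nat.ble NV p) p ih r S) (Nat.ble NX p) p ih r S) (Nat.ble NB p) p ih r S) (Nat.mod r N) ih (Nat.div r N) S) ((fun ih r S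 => @Nat.rec (fun _ => ((Nat → Nat → Nat) → Nat → Nat → Nat)) (fun _ _ S => S) (fun p _ ih r S => @Bool.rec (fun _ => Nat → ((Nat → Nat → Nat) → Nat → Nat → Nat)) FB (fun p ih r S => @Bool.rec (fun _ => Nat → ((Nat → Nat → Nat) → Nat → Nat → Nat)) (fun p ih r S => @Val.rec (fun _ => ((Nat → Nat → Nat) → Nat → Nat → Nat)) FC FP (E p) ih r S) (fun p ih r S => @Bool.rec (fun _ => Nat → ((Nat → Nat → Nat) → Nat → Nat → Nat)) FV (fun p ih r S => is (SB E) ih (Nat.add (Nat.shiftLeft r k) (Nat.sub p NV)) S) (Nat.ble NV p) p ih r S) (Nat.ble NX p) p ih r S) (Nat.ble NB p) p ih r S) (Nat.mod r N) ih (Nat.div r N) S) ((fun ih r S => @Nat.rec (fun _ => ((Nat → Nat → Nat) → Nat → Nat → Nat)) (fun _ _ S => S) (fun p _ ih r S => @Bool.rec (fun _ => Nat → ((Nat → Nat → Nat) → Nat → Nat → Nat)) FB (fun p ih r S => @Bool.rec (fun _ => Nat → ((Nat → Nat → Nat) → Nat → Nat → Nat)) (fun p ih r S => @Val.rec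 (fun _ => ((Nat → Nat → Nat) → Nat → Nat → Nat)) FC FP (E p) ih r S) (fun p ih r S => @Bool.rec (fun _ => Nat → ((Nat → Nat → Nat) → Nat → Nat → Nat)) FV (fun p ih r S => is (SB E) ih (Nat.add (Nat.shiftLeft r k) (Nat.sub p NV)) S) (Nat.ble NV p) p ih r S) (Nat.ble NX p) p ih r S) (Nat.ble NB p) p ih r S) (Nat.mod r N) ih (Nat.div r N) S) ((fun ih r S => @Nat.rec (fun _ => ((Nat → Nat → Nat) → Nat → Nat → Nat)) (fun _ _ S => S) (fun p _ ih r S => @Bool.rec (fun _ => Nat → ((Nat → Nat → Nat) → Nat → Nat → Nat)) FB (fun p ih r S => @Bool.rec (fun _ => Nat → ((Nat → Nat → Nat) → Nat → Nat → Nat)) (fun p ih r S => @Val.rec (fun _ => ((Nat → Nat → Nat) → Nat → Nat → Nat)) FC FP (E p) ih r S) (fun p ih r S => @Bool.rec (fun _ => Nat → ((Nat → Nat → Nat) → Nat → Nat → Nat)) FV (fun p ih r S => is (SB E) ih (Nat.add (Nat.shiftLeft r k) (Nat.sub p NV)) S) (Nat.ble NV p) p ih r S) (Nat.ble NX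 p) p ih r S) (Nat.ble NB p) p ih r S) (Nat.mod r N) ih (Nat.div r N) S) ih)))) ((fun ih => (fun ih r S => @Nat.rec (fun _ => ((Nat → Nat → Nat) → Nat → Nat → Nat)) (fun _ _ S => S) (fun p _ ih r S => @Bool.rec (fun _ => Nat → ((Nat → Nat → Nat) → Nat → Nat → Nat)) FB (fun p ih r S => @Bool.rec (fun _ => Nat → ((Nat → Nat → Nat) → Nat → Nat → Nat)) (fun p ih r S => @Val.rec (fun _ => ((Nat → Nat → Nat) → Nat → Nat → Nat)) FC FP (E p) ih r S) (fun p ih r S => @Bool.rec (fun _ => Nat → ((Nat → Nat → Nat) → Nat → Nat → Nat)) FV (fun p ih r S => is (SB E) ih (Nat.add (Nat.shiftLeft r k) (Nat.sub p NV)) S) (Nat.ble NV p) p ih r S) (Nat.ble NX p) p ih r S) (Nat.ble NB p) p ih r S) (Nat.mod r N) ih (Nat.div r N) S) ((fun ih r S => @Nat.rec (fun _ => ((Nat → Nat → Nat) → Nat → Nat → Nat)) (fun _ _ S => S) (fun p _ ih r S => @Bool.rec (fun _ => Nat → ((Nat → Nat → Nat) → Nat → Nat → Nat)) FB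 (fun p ih r S => @Bool.rec (fun _ => Nat → ((Nat → Nat → Nat) → Nat → Nat → Nat)) (fun p ih r S => @Val.rec (fun _ => ((Nat → Nat → Nat) → Nat → Nat → Nat)) FC FP (E p) ih r S) (fun p ih r S => @Bool.rec (fun _ => Nat → ((Nat → Nat → Nat) → Nat → Nat → Nat)) FV (fun p ih r S => is (SB E) ih (Nat.add (Nat.shiftLeft r k) (Nat.sub p NV)) S) (Nat.ble NV p) p ih r S) (Nat.ble NX p) p ih r S) (Nat.ble NB p) p ih r S) (Nat.mod r N) ih (Nat.div r N) S) ((fun ih r S => @Nat.rec (fun _ => ((Nat → Nat → Nat) → Nat → Nat → Nat)) (fun _ _ S => S) (fun p _ ih r S => @Bool.rec (fun _ => Nat → ((Nat → Nat → Nat) → Nat → Nat → Nat)) FB (fun p ih r S => @Bool.rec (fun _ => Nat → ((Nat → Nat → Nat) → Nat → Nat → Nat)) (fun p ih r S => @Val.rec (fun _ => ((Nat → Nat → Nat) → Nat → Nat → Nat)) FC FP (E p) ih r S) (fun p ih r S => @Bool.rec (fun _ => Nat → ((Nat → Nat → Nat) → Nat → Nat → Nat)) FV (fun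 p ih r S => is (SB E) ih (Nat.add (Nat.shiftLeft r k) (Nat.sub p NV)) S) (Nat.ble NV p) p ih r S) (Nat.ble NX p) p ih r S) (Nat.ble NB p) p ih r S) (Nat.mod r N) ih (Nat.div r N) S) ((fun ih r S => @Nat.rec (fun _ => ((Nat → Nat → Nat) → Nat → Nat → Nat)) (fun _ _ S => S) (fun p _ ih r S => @Bool.rec (fun _ => Nat → ((Nat → Nat → Nat) → Nat → Nat → Nat)) FB (fun p ih r S => @Bool.rec (fun _ => Nat → ((Nat → Nat → Nat) → Nat → Nat → Nat)) (fun p ih r S => @Val.rec (fun _ => ((Nat → Nat → Nat) → Nat → Nat → Nat)) FC FP (E p) ih r S) (fun p ih r S => @Bool.rec (fun _ => Nat → ((Nat → Nat → Nat) → Nat → Nat → Nat)) FV (fun p ih r S => is (SB E) ih (Nat.add (Nat.shiftLeft r k) (Nat.sub p NV)) S) (Nat.ble NV p) p ih r S) (Nat.ble NX p) p ih r S) (Nat.ble NB p) p ih r S) (Nat.mod r N) ih (Nat.div r N) S) ih)))) ((fun ih => (fun ih r S => @Nat.rec (fun _ => ((Nat → Nat → Nat) → Nat → Nat →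 Nat)) (fun _ _ S => S) (fun p _ ih r S => @Bool.rec (fun _ => Nat → ((Nat → Nat → Nat) → Nat → Nat → Nat)) FB (fun p ih r S => @Bool.rec (fun _ => Nat → ((Nat → Nat → Nat) → Nat → Nat → Nat)) (fun p ih r S => @Val.rec (fun _ => ((Nat → Nat → Nat) → Nat → Nat → Nat)) FC FP (E p) ih r S) (fun p ih r S => @Bool.rec (fun _ => Nat → ((Nat → Nat → Nat) → Nat → Nat → Nat)) FV (fun p ih r S => is (SB E) ih (Nat.add (Nat.shiftLeft r k) (Nat.sub p NV)) S) (Nat.ble NV p) p ih r S) (Nat.ble NX p) p ih r S) (Nat.ble NB p) p ih r S) (Nat.mod r N) ih (Nat.div r N) S) ((fun ih r S => @Nat.rec (fun _ => ((Nat → Nat → Nat) → Nat → Nat → Nat)) (fun _ _ S => S) (fun p _ ih r S => @Bool.rec (fun _ => Nat → ((Nat → Nat → Nat) → Nat → Nat → Nat)) FB (fun p ih r S => @Bool.rec (fun _ => Nat → ((Nat → Nat → Nat) → Nat → Nat → Nat)) (fun p ih r S => @Val.rec (fun _ => ((Nat → Nat → Nat) → Nat → Nat → Nat))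 FC FP (E p) ih r S) (fun p ih r S => @Bool.rec (fun _ => Nat → ((Nat → Nat → Nat) → Nat → Nat → Nat)) FV (fun p ih r S => is (SB E) ih (Nat.add (Nat.shiftLeft r k) (Nat.sub p NV)) S) (Nat.ble NV p) p ih r S) (Nat.ble NX p) p ih r S) (Nat.ble NB p) p ih r S) (Nat.mod r N) ih (Nat.div r N) S) ((fun ih r S => @Nat.rec (fun _ => ((Nat → Nat → Nat) → Nat → Nat → Nat)) (fun _ _ S => S) (fun p _ ih r S => @Bool.rec (fun _ => Nat → ((Nat → Nat → Nat) → Nat → Nat → Nat)) FB (fun p ih r S => @Bool.rec (fun _ => Nat → ((Nat → Nat → Nat) → Nat → Nat → Nat)) (fun p ih r S => @Val.rec (fun _ => ((Nat → Nat → Nat) → Nat → Nat → Nat)) FC FP (E p) ih r S) (fun p ih r S => @Bool.rec (fun _ => Nat → ((Nat → Nat → Nat) → Nat → Nat → Nat)) FV (fun p ih r S => is (SB E) ih (Nat.add (Nat.shiftLeft r k) (Nat.sub p NV)) S) (Nat.ble NV p) p ih r S) (Nat.ble NX p) p ih r S) (Nat.ble NB p) p ih r S) (Nat.mod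 r N) ih (Nat.div r N) S) ((fun ih r S => @Nat.rec (fun _ => ((Nat → Nat → Nat) → Nat → Nat → Nat)) (fun _ _ S => S) (fun p _ ih r S => @Bool.rec (fun _ => Nat → ((Nat → Nat → Nat) → Nat → Nat → Nat)) FB (fun p ih r S => @Bool.rec (fun _ => Nat → ((Nat → Nat → Nat) → Nat → Nat → Nat)) (fun p ih r S => @Val.rec (fun _ => ((Nat → Nat → Nat) → Nat → Nat → Nat)) FC FP (E p) ih r S) (fun p ih r S => @Bool.rec (fun _ => Nat → ((Nat → Nat → Nat) → Nat → Nat → Nat)) FV (fun p ih r S => is (SB E) ih (Nat.add (Nat.shiftLeft r k) (Nat.sub p NV)) S) (Nat.ble NV p) p ih r S) (Nat.ble NX p) p ih r S) (Nat.ble NB p) p ih r S) (Nat.mod r N) ih (Nat.div r N) S) ih)))) ((fun ih => (fun ih r S => @Nat.rec (fun _ => ((Nat → Nat → Nat) → Nat → Nat → Nat)) (fun _ _ S => S) (fun p _ ih r S => @Bool.rec (fun _ => Nat → ((Nat → Nat → Nat) → Nat → Nat → Nat)) FB (fun p ih r S => @Bool.rec (fun _ => Nat → ((Nat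 → Nat → Nat) → Nat → Nat → Nat)) (fun p ih r S => @Val.rec (fun _ => ((Nat → Nat → Nat) → Nat → Nat → Nat)) FC FP (E p) ih r S) (fun p ih r S => @Bool.rec (fun _ => Nat → ((Nat → Nat → Nat) → Nat → Nat → Nat)) FV (fun p ih r S => is (SB E) ih (Nat.add (Nat.shiftLeft r k) (Nat.sub p NV)) S) (Nat.ble NV p) p ih r S) (Nat.ble NX p) p ih r S) (Nat.ble NB p) p ih r S) (Nat.mod r N) ih (Nat.div r N) S) ((fun ih r S => @Nat.rec (fun _ => ((Nat → Nat → Nat) → Nat → Nat → Nat)) (fun _ _ S => S) (fun p _ ih r S => @Bool.rec (fun _ => Nat → ((Nat → Nat → Nat) → Nat → Nat → Nat)) FB (fun p ih r S => @Bool.rec (fun _ => Nat → ((Nat → Nat → Nat) → Nat → Nat → Nat)) (fun p ih r S => @Val.rec (fun _ => ((Nat → Nat → Nat) → Nat → Nat → Nat)) FC FP (E p) ih r S) (fun p ih r S => @Bool.rec (fun _ => Nat → ((Nat → Nat → Nat) → Nat → Nat → Nat)) FV (fun p ih r S => is (SB E) ih (Nat.add (Nat.shiftLeft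 r k) (Nat.sub p NV)) S) (Nat.ble NV p) p ih r S) (Nat.ble NX p) p ih r S) (Nat.ble NB p) p ih r S) (Nat.mod r N) ih (Nat.div r N) S) ((fun ih r S => @Nat.rec (fun _ => ((Nat → Nat → Nat) → Nat → Nat → Nat)) (fun _ _ S => S) (fun p _ ih r S => @Bool.rec (fun _ => Nat → ((Nat → Nat → Nat) → Nat → Nat → Nat)) FB (fun p ih r S => @Bool.rec (fun _ => Nat → ((Nat → Nat → Nat) → Nat → Nat → Nat)) (fun p ih r S => @Val.rec (fun _ => ((Nat → Nat → Nat) → Nat → Nat → Nat)) FC FP (E p) ih r S) (fun p ih r S => @Bool.rec (fun _ => Nat → ((Nat → Nat → Nat) → Nat → Nat → Nat)) FV (fun p ih r S => is (SB E) ih (Nat.add (Nat.shiftLeft r k) (Nat.sub p NV)) S) (Nat.ble NV p) p ih r S) (Nat.ble NX p) p ih r S) (Nat.ble NB p) p ih r S) (Nat.mod r N) ih (Nat.div r N) S) ((fun ih r S => @Nat.rec (fun _ => ((Nat → Nat → Nat) → Nat → Nat → Nat)) (fun _ _ S => S) (fun p _ ih r S => @Bool.rec (fun _ => Nat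 → ((Nat → Nat → Nat) → Nat → Nat → Nat)) FB (fun p ih r S => @Bool.rec (fun _ => Nat → ((Nat → Nat → Nat) → Nat → Nat → Nat)) (fun p ih r S => @Val.rec (fun _ => ((Nat → Nat → Nat) → Nat → Nat → Nat)) FC FP (E p) ih r S) (fun p ih r S => @Bool.rec (fun _ => Nat → ((Nat → Nat → Nat) → Nat → Nat → Nat)) FV (fun p ih r S => is (SB E) ih (Nat.add (Nat.shiftLeft r k) (Nat.sub p NV)) S) (Nat.ble NV p) p ih r S) (Nat.ble NX p) p ih r S) (Nat.ble NB p) p ih r S) (Nat.mod r N) ih (Nat.div r N) S) ih)))) (ih))))) n) := by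
      intro n
      induction n with
      | zero => exact fun r S hS => hS
      | succ n ih =>
        have h4 : ∀ ih, Ks χ T ih → Ks χ T ((fun ih r S => @Nat.rec (fun _ => ((Nat → Nat → Nat) → Nat → Nat → Nat)) (fun _ _ S => S) (fun p _ ih r S => @Bool.rec (fun _ => Nat → ((Nat → Nat → Nat) → Nat → Nat → Nat)) FB (fun p ih r S => @Bool.rec (fun _ => Nat → ((Nat → Nat → Nat) → Nat → Nat → Nat)) (fun p ih r S => @Val.rec (fun _ => ((Nat → Nat → Nat) → Nat → Nat → Nat)) FC FP (E p) ih r S) (fun p ih r S => @Bool.rec (fun _ => Nat → ((Nat → Nat → Nat) → Nat → Nat → Nat)) FV (fun p ih r S => is (SB E) ih (Nat.add (Nat.shiftLeft r k) (Nat.sub p NV)) S) (Nat.ble NV p) p ih r S) (Nat.ble NX p) p ih r S) (Nat.ble NB p) p ih r S) (Nat.mod r N) ih (Nat.div r N) S) ((fun ih r S => @Nat.rec (fun _ => ((Nat → Nat → Nat) → Nat → Nat → Nat)) (fun _ _ S => S) (fun p _ ih r S => @Bool.rec (fun _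 => Nat → ((Nat → Nat → Nat) → Nat → Nat → Nat)) FB (fun p ih r S => @Bool.rec (fun _ => Nat → ((Nat → Nat → Nat) → Nat → Nat → Nat)) (fun p ih r S => @Val.rec (fun _ => ((Nat → Nat → Nat) → Nat → Nat → Nat)) FC FP (E p) ih r S) (fun p ih r S => @Bool.rec (fun _ => Nat → ((Nat → Nat → Nat) → Nat → Nat → Nat)) FV (fun p ih r S => is (SB E) ih (Nat.add (Nat.shiftLeft r k) (Nat.sub p NV)) S) (Nat.ble NV p) p ih r S) (Nat.ble NX p) p ih r S) (Nat.ble NB p) p ih r S) (Nat.mod r N) ih (Nat.div r N) S) ((fun ih r S => @Nat.rec (fun _ => ((Nat → Nat → Nat) → Nat → Nat → Nat)) (fun _ _ S => S) (fun p _ ih r S => @Bool.rec (fun _ => Nat → ((Nat → Nat → Nat) → Nat → Nat → Nat)) FB (fun p ih r S => @Bool.rec (fun _ => Nat → ((Nat → Nat → Nat) → Nat → Nat → Nat)) (fun p ih r S => @Val.rec (fun _ => ((Nat → Nat → Nat) → Nat → Nat → Nat)) FC FP (E p) ih r S) (fun p ih r S => @Bool.rec (fun _ => Nat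 → ((Nat → Nat → Nat) → Nat → Nat → Nat)) FV (fun p ih r S => is (SB E) ih (Nat.add (Nat.shiftLeft r k) (Nat.sub p NV)) S) (Nat.ble NV p) p ih r S) (Nat.ble NX p) p ih r S) (Nat.ble NB p) p ih r S) (Nat.mod r N) ih (Nat.div r N) S) ((fun ih r S => @Nat.rec (fun _ => ((Nat → Nat → Nat) → Nat → Nat → Nat)) (fun _ _ S => S) (fun p _ ih r S => @Bool.rec (fun _ => Nat → ((Nat → Nat → Nat) → Nat → Nat → Nat)) FB (fun p ih r S => @Bool.rec (fun _ => Nat → ((Nat → Nat → Nat) → Nat → Nat → Nat)) (fun p ih r S => @Val.rec (fun _ => ((Nat → Nat → Nat) → Nat → Nat → Nat)) FC FP (E p) ih r S) (fun p ih r S => @Bool.rec (fun _ => Nat → ((Nat → Nat → Nat) → Nat → Nat → Nat)) FV (fun p ih r S => is (SB E) ih (Nat.add (Nat.shiftLeft r k) (Nat.sub p NV)) S) (Nat.ble NV p) p ih r S) (Nat.ble NX p) p ih r S) (Nat.ble NB p) p ih r S) (Nat.mod r N) ih (Nat.div r N) S) ih)))) := fun ih h => hq _ (hq _ (hq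 _ (hq _ h)))
        exact h4 _ (h4 _ (h4 _ (h4 _ ih)))
    exact key (nat_lit 64) (M p) (nat_lit 0) (Or.inl rfl)
  · have hq := p_sound hG hHB hHC hHP hHV hE N k NV NB NX
    have key : ∀ n, Kp χ T (@Nat.rec (fun _ => Nat → Nat → Nat → Val) pend (fun _ ih => (fun ih => (fun ih r S Y => @Nat.rec (fun _ => ((Nat → Nat → Nat → Val) → Nat → Nat → Nat → Val)) (fun _ _ S Y => Val.pr Y S) (fun p _ ih r S Y => @Bool.rec (fun _ => Nat → ((Nat → Nat → Nat → Val) → Nat → Nat → Nat → Val)) HB (fun p ih r S Y => @Bool.rec (fun _ => Nat → ((Nat → Nat → Nat → Val) → Nat → Nat → Nat → Val)) (fun p ih r S Y => @Val.rec (fun _ => ((Nat → Nat → Nat → Val) → Nat → Nat → Nat → Val)) HC HP (E p) ih r S Y) (fun p ih r S Y => @Bool.rec (fun _ => Nat → ((Nat → Nat → Nat → Val) → Nat → Nat → Nat → Val)) HV (fun p ih r S Y => pl ih (Nat.add (Nat.shiftLeft r k) (Nat.sub p NV)) S Y) (Nat.ble NV p) p ih r S Y)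 (Nat.ble NX p) p ih r S Y) (Nat.ble NB p) p ih r S Y) (Nat.mod r N) ih (Nat.div r N) S Y) ((fun ih r S Y => @Nat.rec (fun _ => ((Nat → Nat → Nat → Val) → Nat → Nat → Nat → Val)) (fun _ _ S Y => Val.pr Y S) (fun p _ ih r S Y => @Bool.rec (fun _ => Nat → ((Nat → Nat → Nat → Val) → Nat → Nat → Nat → Val)) HB (fun p ih r S Y => @Bool.rec (fun _ => Nat → ((Nat → Nat → Nat → Val) → Nat → Nat → Nat → Val)) (fun p ih r S Y => @Val.rec (fun _ => ((Nat → Nat → Nat → Val) → Nat → Nat → Nat → Val)) HC HP (E p) ih r S Y) (fun p ih r S Y => @Bool.rec (fun _ => Nat → ((Nat → Nat → Nat → Val) → Nat → Nat → Nat → Val)) HV (fun p ih r S Y => pl ih (Nat.add (Nat.shiftLeft r k) (Nat.sub p NV)) S Y) (Nat.ble NV p) p ih r S Y) (Nat.ble NX p) p ih r S Y) (Nat.ble NB p) p ih r S Y) (Nat.mod r N) ih (Nat.div r N) S Y) ((fun ih r S Y => @Nat.rec (fun _ => ((Nat → Nat → Nat → Val) → Nat → Nat → Nat → Val)) (fun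 _ _ S Y => Val.pr Y S) (fun p _ ih r S Y => @Bool.rec (fun _ => Nat → ((Nat → Nat → Nat → Val) → Nat → Nat → Nat → Val)) HB (fun p ih r S Y => @Bool.rec (fun _ => Nat → ((Nat → Nat → Nat → Val) → Nat → Nat → Nat → Val)) (fun p ih r S Y => @Val.rec (fun _ => ((Nat → Nat → Nat → Val) → Nat → Nat → Nat → Val)) HC HP (E p) ih r S Y) (fun p ih r S Y => @Bool.rec (fun _ => Nat → ((Nat → Nat → Nat → Val) → Nat → Nat → Nat → Val)) HV (fun p ih r S Y => pl ih (Nat.add (Nat.shiftLeft r k) (Nat.sub p NV)) S Y) (Nat.ble NV p) p ih r S Y) (Nat.ble NX p) p ih r S Y) (Nat.ble NB p) p ih r S Y) (Nat.mod r N) ih (Nat.div r N) S Y) ((fun ih r S Y => @Nat.rec (fun _ => ((Nat → Nat → Nat → Val) → Nat → Nat → Nat → Val)) (fun _ _ S Y => Val.pr Y S) (fun p _ ih r S Y => @Bool.rec (fun _ => Nat → ((Nat → Nat → Nat → Val) → Nat → Nat → Nat → Val)) HB (fun p ih r S Y => @Bool.rec (fun _ => Nat → ((Nat → Nat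 → Nat → Val) → Nat → Nat → Nat → Val)) (fun p ih r S Y => @Val.rec (fun _ => ((Nat → Nat → Nat → Val) → Nat → Nat → Nat → Val)) HC HP (E p) ih r S Y) (fun p ih r S Y => @Bool.rec (fun _ => Nat → ((Nat → Nat → Nat → Val) → Nat → Nat → Nat → Val)) HV (fun p ih r S Y => pl ih (Nat.add (Nat.shiftLeft r k) (Nat.sub p NV)) S Y) (Nat.ble NV p) p ih r S Y) (Nat.ble NX p) p ih r S Y) (Nat.ble NB p) p ih r S Y) (Nat.mod r N) ih (Nat.div r N) S Y) ih)))) ((fun ih => (fun ih r S Y => @Nat.rec (fun _ => ((Nat → Nat → Nat → Val) → Nat → Nat → Nat → Val)) (fun _ _ S Y => Val.pr Y S) (fun p _ ih r S Y => @Bool.rec (fun _ => Nat → ((Nat → Nat → Nat → Val) → Nat → Nat → Nat → Val)) HB (fun p ih r S Y => @Bool.rec (fun _ => Nat → ((Nat → Nat → Nat → Val) → Nat → Nat → Nat → Val)) (fun p ih r S Y => @Val.rec (fun _ => ((Nat → Nat → Nat → Val) → Nat → Nat → Nat → Val)) HC HP (E p) ih r S Y) (fun p ih r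 S Y => @Bool.rec (fun _ => Nat → ((Nat → Nat → Nat → Val) → Nat → Nat → Nat → Val)) HV (fun p ih r S Y => pl ih (Nat.add (Nat.shiftLeft r k) (Nat.sub p NV)) S Y) (Nat.ble NV p) p ih r S Y) (Nat.ble NX p) p ih r S Y) (Nat.ble NB p) p ih r S Y) (Nat.mod r N) ih (Nat.div r N) S Y) ((fun ih r S Y => @Nat.rec (fun _ => ((Nat → Nat → Nat → Val) → Nat → Nat → Nat → Val)) (fun _ _ S Y => Val.pr Y S) (fun p _ ih r S Y => @Bool.rec (fun _ => Nat → ((Nat → Nat → Nat → Val) → Nat → Nat → Nat → Val)) HB (fun p ih r S Y => @Bool.rec (fun _ => Nat → ((Nat → Nat → Nat → Val) → Nat → Nat → Nat → Val)) (fun p ih r S Y => @Val.rec (fun _ => ((Nat → Nat → Nat → Val) → Nat → Nat → Nat → Val)) HC HP (E p) ih r S Y) (fun p ih r S Y => @Bool.rec (fun _ => Nat → ((Nat → Nat → Nat → Val) → Nat → Nat → Nat → Val)) HV (fun p ih r S Y => pl ih (Nat.add (Nat.shiftLeft r k) (Nat.sub p NV)) S Y) (Nat.ble NV p) p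 ih r S Y) (Nat.ble NX p) p ih r S Y) (Nat.ble NB p) p ih r S Y) (Nat.mod r N) ih (Nat.div r N) S Y) ((fun ih r S Y => @Nat.rec (fun _ => ((Nat → Nat → Nat → Val) → Nat → Nat → Nat → Val)) (fun _ _ S Y => Val.pr Y S) (fun p _ ih r S Y => @Bool.rec (fun _ => Nat → ((Nat → Nat → Nat → Val) → Nat → Nat → Nat → Val)) HB (fun p ih r S Y => @Bool.rec (fun _ => Nat → ((Nat → Nat → Nat → Val) → Nat → Nat → Nat → Val)) (fun p ih r S Y => @Val.rec (fun _ => ((Nat → Nat → Nat → Val) → Nat → Nat → Nat → Val)) HC HP (E p) ih r S Y) (fun p ih r S Y => @Bool.rec (fun _ => Nat → ((Nat → Nat → Nat → Val) → Nat → Nat → Nat → Val)) HV (fun p ih r S Y => pl ih (Nat.add (Nat.shiftLeft r k) (Nat.sub p NV)) S Y) (Nat.ble NV p) p ih r S Y) (Nat.ble NX p) p ih r S Y) (Nat.ble NB p) p ih r S Y) (Nat.mod r N) ih (Nat.div r N) S Y) ((fun ih r S Y => @Nat.rec (fun _ => ((Nat → Nat → Nat → Val) → Nat → Nat → Nat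 → Val)) (fun _ _ S Y => Val.pr Y S) (fun p _ ih r S Y => @Bool.rec (fun _ => Nat → ((Nat → Nat → Nat → Val) → Nat → Nat → Nat → Val)) HB (fun p ih r S Y => @Bool.rec (fun _ => Nat → ((Nat → Nat → Nat → Val) → Nat → Nat → Nat → Val)) (fun p ih r S Y => @Val.rec (fun _ => ((Nat → Nat → Nat → Val) → Nat → Nat → Nat → Val)) HC HP (E p) ih r S Y) (fun p ih r S Y => @Bool.rec (fun _ => Nat → ((Nat → Nat → Nat → Val) → Nat → Nat → Nat → Val)) HV (fun p ih r S Y => pl ih (Nat.add (Nat.shiftLeft r k) (Nat.sub p NV)) S Y) (Nat.ble NV p) p ih r S Y) (Nat.ble NX p) p ih r S Y) (Nat.ble NB p) p ih r S Y) (Nat.mod r N) ih (Nat.div r N) S Y) ih)))) ((fun ih => (fun ih r S Y => @Nat.rec (fun _ => ((Nat → Nat → Nat → Val) → Nat → Nat → Nat → Val)) (fun _ _ S Y => Val.pr Y S) (fun p _ ih r S Y => @Bool.rec (fun _ => Nat → ((Nat → Nat → Nat → Val) → Nat → Nat → Nat → Val)) HB (fun p ih r S Y => @Bool.rec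 (fun _ => Nat → ((Nat → Nat → Nat → Val) → Nat → Nat → Nat → Val)) (fun p ih r S Y => @Val.rec (fun _ => ((Nat → Nat → Nat → Val) → Nat → Nat → Nat → Val)) HC HP (E p) ih r S Y) (fun p ih r S Y => @Bool.rec (fun _ => Nat → ((Nat → Nat → Nat → Val) → Nat → Nat → Nat → Val)) HV (fun p ih r S Y => pl ih (Nat.add (Nat.shiftLeft r k) (Nat.sub p NV)) S Y) (Nat.ble NV p) p ih r S Y) (Nat.ble NX p) p ih r S Y) (Nat.ble NB p) p ih r S Y) (Nat.mod r N) ih (Nat.div r N) S Y) ((fun ih r S Y => @Nat.rec (fun _ => ((Nat → Nat → Nat → Val) → Nat → Nat → Nat → Val)) (fun _ _ S Y => Val.pr Y S) (fun p _ ih r S Y => @Bool.rec (fun _ => Nat → ((Nat → Nat → Nat → Val) → Nat → Nat → Nat → Val)) HB (fun p ih r S Y => @Bool.rec (fun _ => Nat → ((Nat → Nat → Nat → Val) → Nat → Nat → Nat → Val)) (fun p ih r S Y => @Val.rec (fun _ => ((Nat → Nat → Nat → Val) → Nat → Nat → Nat → Val)) HC HP (E p) ih r S Y) (fun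 p ih r S Y => @Bool.rec (fun _ => Nat → ((Nat → Nat → Nat → Val) → Nat → Nat → Nat → Val)) HV (fun p ih r S Y => pl ih (Nat.add (Nat.shiftLeft r k) (Nat.sub p NV)) S Y) (Nat.ble NV p) p ih r S Y) (Nat.ble NX p) p ih r S Y) (Nat.ble NB p) p ih r S Y) (Nat.mod r N) ih (Nat.div r N) S Y) ((fun ih r S Y => @Nat.rec (fun _ => ((Nat → Nat → Nat → Val) → Nat → Nat → Nat → Val)) (fun _ _ S Y => Val.pr Y S) (fun p _ ih r S Y => @Bool.rec (fun _ => Nat → ((Nat → Nat → Nat → Val) → Nat → Nat → Nat → Val)) HB (fun p ih r S Y => @Bool.rec (fun _ => Nat → ((Nat → Nat → Nat → Val) → Nat → Nat → Nat → Val)) (fun p ih r S Y => @Val.rec (fun _ => ((Nat → Nat → Nat → Val) → Nat → Nat → Nat → Val)) HC HP (E p) ih r S Y) (fun p ih r S Y => @Bool.rec (fun _ => Nat → ((Nat → Nat → Nat → Val) → Nat → Nat → Nat → Val)) HV (fun p ih r S Y => pl ih (Nat.add (Nat.shiftLeft r k) (Nat.sub p NV)) S Y) (Nat.ble NV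 p) p ih r S Y) (Nat.ble NX p) p ih r S Y) (Nat.ble NB p) p ih r S Y) (Nat.mod r N) ih (Nat.div r N) S Y) ((fun ih r S Y => @Nat.rec (fun _ => ((Nat → Nat → Nat → Val) → Nat → Nat → Nat → Val)) (fun _ _ S Y => Val.pr Y S) (fun p _ ih r S Y => @Bool.rec (fun _ => Nat → ((Nat → Nat → Nat → Val) → Nat → Nat → Nat → Val)) HB (fun p ih r S Y => @Bool.rec (fun _ => Nat → ((Nat → Nat → Nat → Val) → Nat → Nat → Nat → Val)) (fun p ih r S Y => @Val.rec (fun _ => ((Nat → Nat → Nat → Val) → Nat → Nat → Nat → Val)) HC HP (E p) ih r S Y) (fun p ih r S Y => @Bool.rec (fun _ => Nat → ((Nat → Nat → Nat → Val) → Nat → Nat → Nat → Val)) HV (fun p ih r S Y => pl ih (Nat.add (Nat.shiftLeft r k) (Nat.sub p NV)) S Y) (Nat.ble NV p) p ih r S Y) (Nat.ble NX p) p ih r S Y) (Nat.ble NB p) p ih r S Y) (Nat.mod r N) ih (Nat.div r N) S Y) ih)))) ((fun ih => (fun ih r S Y => @Nat.rec (fun _ => ((Nat → Nat → Nat →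 Val) → Nat → Nat → Nat → Val)) (fun _ _ S Y => Val.pr Y S) (fun p _ ih r S Y => @Bool.rec (fun _ => Nat → ((Nat → Nat → Nat → Val) → Nat → Nat → Nat → Val)) HB (fun p ih r S Y => @Bool.rec (fun _ => Nat → ((Nat → Nat → Nat → Val) → Nat → Nat → Nat → Val)) (fun p ih r S Y => @Val.rec (fun _ => ((Nat → Nat → Nat → Val) → Nat → Nat → Nat → Val)) HC HP (E p) ih r S Y) (fun p ih r S Y => @Bool.rec (fun _ => Nat → ((Nat → Nat → Nat → Val) → Nat → Nat → Nat → Val)) HV (fun p ih r S Y => pl ih (Nat.add (Nat.shiftLeft r k) (Nat.sub p NV)) S Y) (Nat.ble NV p) p ih r S Y) (Nat.ble NX p) p ih r S Y) (Nat.ble NB p) p ih r S Y) (Nat.mod r N) ih (Nat.div r N) S Y) ((fun ih r S Y => @Nat.rec (fun _ => ((Nat → Nat → Nat → Val) → Nat → Nat → Nat → Val)) (fun _ _ S Y => Val.pr Y S) (fun p _ ih r S Y => @Bool.rec (fun _ => Nat → ((Nat → Nat → Nat → Val) → Nat → Nat → Nat → Val)) HB (fun p ih r S Y =>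 @Bool.rec (fun _ => Nat → ((Nat → Nat → Nat → Val) → Nat → Nat → Nat → Val)) (fun p ih r S Y => @Val.rec (fun _ => ((Nat → Nat → Nat → Val) → Nat → Nat → Nat → Val)) HC HP (E p) ih r S Y) (fun p ih r S Y => @Bool.rec (fun _ => Nat → ((Nat → Nat → Nat → Val) → Nat → Nat → Nat → Val)) HV (fun p ih r S Y => pl ih (Nat.add (Nat.shiftLeft r k) (Nat.sub p NV)) S Y) (Nat.ble NV p) p ih r S Y) (Nat.ble NX p) p ih r S Y) (Nat.ble NB p) p ih r S Y) (Nat.mod r N) ih (Nat.div r N) S Y) ((fun ih r S Y => @Nat.rec (fun _ => ((Nat → Nat → Nat → Val) → Nat → Nat → Nat → Val)) (fun _ _ S Y => Val.pr Y S) (fun p _ ih r S Y => @Bool.rec (fun _ => Nat → ((Nat → Nat → Nat → Val) → Nat → Nat → Nat → Val)) HB (fun p ih r S Y => @Bool.rec (fun _ => Nat → ((Nat → Nat → Nat → Val) → Nat → Nat → Nat → Val)) (fun p ih r S Y => @Val.rec (fun _ => ((Nat → Nat → Nat → Val) → Nat → Nat → Nat → Val)) HC HP (E p) ih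 r S Y) (fun p ih r S Y => @Bool.rec (fun _ => Nat → ((Nat → Nat → Nat → Val) → Nat → Nat → Nat → Val)) HV (fun p ih r S Y => pl ih (Nat.add (Nat.shiftLeft r k) (Nat.sub p NV)) S Y) (Nat.ble NV p) p ih r S Y) (Nat.ble NX p) p ih r S Y) (Nat.ble NB p) p ih r S Y) (Nat.mod r N) ih (Nat.div r N) S Y) ((fun ih r S Y => @Nat.rec (fun _ => ((Nat → Nat → Nat → Val) → Nat → Nat → Nat → Val)) (fun _ _ S Y => Val.pr Y S) (fun p _ ih r S Y => @Bool.rec (fun _ => Nat → ((Nat → Nat → Nat → Val) → Nat → Nat → Nat → Val)) HB (fun p ih r S Y => @Bool.rec (fun _ => Nat → ((Nat → Nat → Nat → Val) → Nat → Nat → Nat → Val)) (fun p ih r S Y => @Val.rec (fun _ => ((Nat → Nat → Nat → Val) → Nat → Nat → Nat → Val)) HC HP (E p) ih r S Y) (fun p ih r S Y => @Bool.rec (fun _ => Nat → ((Nat → Nat → Nat → Val) → Nat → Nat → Nat → Val)) HV (fun p ih r S Y => pl ih (Nat.add (Nat.shiftLeft r k) (Nat.sub p NV)) S Y)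 (Nat.ble NV p) p ih r S Y) (Nat.ble NX p) p ih r S Y) (Nat.ble NB p) p ih r S Y) (Nat.mod r N) ih (Nat.div r N) S Y) ih)))) (ih))))) n) := by
      intro n
      induction n with
      | zero => exact fun r S Y hS => hS.2
      | succ n ih =>
        have h4 : ∀ ih, Kp χ T ih → Kp χ T ((fun ih r S Y => @Nat.rec (fun _ => ((Nat → Nat → Nat → Val) → Nat → Nat → Nat → Val)) (fun _ _ S Y => Val.pr Y S) (fun p _ ih r S Y => @Bool.rec (fun _ => Nat → ((Nat → Nat → Nat → Val) → Nat → Nat → Nat → Val)) HB (fun p ih r S Y => @Bool.rec (fun _ => Nat → ((Nat → Nat → Nat → Val) → Nat → Nat → Nat → Val)) (fun p ih r S Y => @Val.rec (fun _ => ((Nat → Nat → Nat → Val) → Nat → Nat → Nat → Val)) HC HP (E p) ih r S Y) (fun p ih r S Y => @Bool.rec (fun _ => Nat → ((Nat → Nat → Nat → Val) → Nat → Nat → Nat → Val)) HV (fun p ih r S Y => pl ih (Nat.add (Nat.shiftLeft r k) (Nat.sub p NV)) S Y) (Nat.ble NV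 p) p ih r S Y) (Nat.ble NX p) p ih r S Y) (Nat.ble NB p) p ih r S Y) (Nat.mod r N) ih (Nat.div r N) S Y) ((fun ih r S Y => @Nat.rec (fun _ => ((Nat → Nat → Nat → Val) → Nat → Nat → Nat → Val)) (fun _ _ S Y => Val.pr Y S) (fun p _ ih r S Y => @Bool.rec (fun _ => Nat → ((Nat → Nat → Nat → Val) → Nat → Nat → Nat → Val)) HB (fun p ih r S Y => @Bool.rec (fun _ => Nat → ((Nat → Nat → Nat → Val) → Nat → Nat → Nat → Val)) (fun p ih r S Y => @Val.rec (fun _ => ((Nat → Nat → Nat → Val) → Nat → Nat → Nat → Val)) HC HP (E p) ih r S Y) (fun p ih r S Y => @Bool.rec (fun _ => Nat → ((Nat → Nat → Nat → Val) → Nat → Nat → Nat → Val)) HV (fun p ih r S Y => pl ih (Nat.add (Nat.shiftLeft r k) (Nat.sub p NV)) S Y) (Nat.ble NV p) p ih r S Y) (Nat.ble NX p) p ih r S Y) (Nat.ble NB p) p ih r S Y) (Nat.mod r N) ih (Nat.div r N) S Y) ((fun ih r S Y => @Nat.rec (fun _ => ((Nat → Nat → Nat → Val) → Nat → Nat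 → Nat → Val)) (fun _ _ S Y => Val.pr Y S) (fun p _ ih r S Y => @Bool.rec (fun _ => Nat → ((Nat → Nat → Nat → Val) → Nat → Nat → Nat → Val)) HB (fun p ih r S Y => @Bool.rec (fun _ => Nat → ((Nat → Nat → Nat → Val) → Nat → Nat → Nat → Val)) (fun p ih r S Y => @Val.rec (fun _ => ((Nat → Nat → Nat → Val) → Nat → Nat → Nat → Val)) HC HP (E p) ih r S Y) (fun p ih r S Y => @Bool.rec (fun _ => Nat → ((Nat → Nat → Nat → Val) → Nat → Nat → Nat → Val)) HV (fun p ih r S Y => pl ih (Nat.add (Nat.shiftLeft r k) (Nat.sub p NV)) S Y) (Nat.ble NV p) p ih r S Y) (Nat.ble NX p) p ih r S Y) (Nat.ble NB p) p ih r S Y) (Nat.mod r N) ih (Nat.div r N) S Y) ((fun ih r S Y => @Nat.rec (fun _ => ((Nat → Nat → Nat → Val) → Nat → Nat → Nat → Val)) (fun _ _ S Y => Val.pr Y S) (fun p _ ih r S Y => @Bool.rec (fun _ => Nat → ((Nat → Nat → Nat → Val) → Nat → Nat → Nat → Val)) HB (fun p ih r S Y => @Bool.rec (fun _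 => Nat → ((Nat → Nat → Nat → Val) → Nat → Nat → Nat → Val)) (fun p ih r S Y => @Val.rec (fun _ => ((Nat → Nat → Nat → Val) → Nat → Nat → Nat → Val)) HC HP (E p) ih r S Y) (fun p ih r S Y => @Bool.rec (fun _ => Nat → ((Nat → Nat → Nat → Val) → Nat → Nat → Nat → Val)) HV (fun p ih r S Y => pl ih (Nat.add (Nat.shiftLeft r k) (Nat.sub p NV)) S Y) (Nat.ble NV p) p ih r S Y) (Nat.ble NX p) p ih r S Y) (Nat.ble NB p) p ih r S Y) (Nat.mod r N) ih (Nat.div r N) S Y) ih)))) := fun ih h => hq _ (hq _ (hq _ (hq _ h)))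
        exact h4 _ (h4 _ (h4 _ (h4 _ ih)))
    have h0 : B7.Inv χ T (nat_lit 0) (nat_lit 0) := ⟨Or.inr (by decide +kernel), fun h => h⟩
    exact key (nat_lit 64) (M p) (nat_lit 0) (nat_lit 0) h0

/-- Derivations inside derivations. -/
noncomputable def SBn (N k NV NB NX : ℕ) (FB FC FV : ℕ → (ℕ → ℕ → ℕ) → ℕ → ℕ → ℕ)
    (FP : ℕ → ℕ → (ℕ → ℕ → ℕ) → ℕ → ℕ → ℕ) (E : ℕ → Val) : ℕ → ((Nat → Nat → Nat) → Nat → Nat → Nat) :=
  @Nat.rec (fun _ => ((Nat → Nat → Nat) → Nat → Nat → Nat)) s0 (fun _ Sb ih r S =>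
      @Nat.rec (fun _ => Nat → Nat → Nat) (fun r v => FC v ih r S) (fun _ => (fun ih r S => @Nat.rec (fun _ => ((Nat → Nat → Nat) → Nat → Nat → Nat)) (fun _ _ S => S) (fun p _ ih r S => @Bool.rec (fun _ => Nat → ((Nat → Nat → Nat) → Nat → Nat → Nat)) FB (fun p ih r S => @Bool.rec (fun _ => Nat → ((Nat → Nat → Nat) → Nat → Nat → Nat)) (fun p ih r S => @Val.rec (fun _ => ((Nat → Nat → Nat) → Nat → Nat → Nat)) FC FP (E p) ih r S) (fun p ih r S => @Bool.rec (fun _ => Nat → ((Nat → Nat → Nat) → Nat → Nat → Nat)) FV (fun p ih r S => is Sb ih (Nat.add (Nat.shiftLeft r k) (Nat.sub p NV)) S) (Nat.ble NV p) p ih r S) (Nat.ble NX p) p ih r S) (Nat.ble NB p) p ih r S) (Nat.mod r N) ih (Nat.div r N) S)) (Nat.land r (nat_lit 31))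
        (Nat.shiftRight r (nat_lit 5)) (nat_lit 0))

theorem SBn_sound {G : ℕ → ℕ} (hG : Ok7 χ T G) {FB FC FV : ℕ → (ℕ → ℕ → ℕ) → ℕ → ℕ → ℕ}
    {FP : ℕ → ℕ → (ℕ → ℕ → ℕ) → ℕ → ℕ → ℕ} (hFB : ∀ p, Ss χ T (FB p)) (hFC : ∀ v, St χ T v → Ss χ T (FC v))
    (hFP : ∀ y v, (CL χ T W0 y → CL χ T W0 v) → Ss χ T (FP y v)) (hFV : ∀ p, Ss χ T (FV p))
    {E : ℕ → Val} (hE : GE χ T E) (N k NV NB NX : ℕ) : ∀ n, Ss χ T (SBn N k NV NB NX FB FC FV FP E n) := by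
  intro n
  induction n with
  | zero => exact fun _ _ _ _ _ => st_tr
  | succ n ihn =>
    intro ih h r S hS
    have hq := q_sound hG hFB hFC hFP hFV hE ihn N k NV NB NX
    have key2 : ∀ n', Ks χ T (@Nat.rec (fun _ => Nat → Nat → Nat) (fun r v => FC v ih r S)
        (fun _ => (fun Sb => (fun ih r S => @Nat.rec (fun _ => ((Nat → Nat → Nat) → Nat → Nat → Nat)) (fun _ _ S => S) (fun p _ ih r S => @Bool.rec (fun _ => Nat → ((Nat → Nat → Nat) → Nat → Nat → Nat)) FB (fun p ih r S => @Bool.rec (fun _ => Nat → ((Nat → Nat → Nat) → Nat → Nat → Nat)) (fun p ih r S => @Val.rec (fun _ => ((Nat → Nat → Nat) → Nat → Nat → Nat)) FC FP (E p) ih r S) (fun p ih r S => @Bool.rec (fun _ => Nat → ((Nat → Nat → Nat) → Nat → Nat → Nat)) FV (fun p ih r S => is Sb ih (Nat.add (Nat.shiftLeft r k) (Nat.sub p NV)) S) (Nat.ble NV p) p ih r S) (Nat.ble NX p) p ih r S) (Nat.ble NB p) p ih r S) (Nat.mod r N)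 ih (Nat.div r N) S)) (SBn N k NV NB NX FB FC FV FP E n)) n') := by
      intro n'
      induction n' with
      | zero => exact fun r v hv => hFC v hv ih h r S hS
      | succ n' ih' => exact hq _ ih'
    exact key2 (Nat.land r (nat_lit 31)) (Nat.shiftRight r (nat_lit 5)) (nat_lit 0) (Or.inl rfl)

theorem L1_sound {G : ℕ → ℕ} (hG : Ok7 χ T G) {FB FC FV : ℕ → (ℕ → ℕ → ℕ) → ℕ → ℕ → ℕ}
    {FP : ℕ → ℕ → (ℕ → ℕ → ℕ) → ℕ → ℕ → ℕ} (hFB : ∀ p, Ss χ T (FB p)) (hFC : ∀ v, St χ T v → Ss χ T (FC v))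
    (hFP : ∀ y v, (CL χ T W0 y → CL χ T W0 v) → Ss χ T (FP y v)) (hFV : ∀ p, Ss χ T (FV p))
    {HB HC HV : ℕ → (ℕ → ℕ → ℕ → Val) → ℕ → ℕ → ℕ → Val}
    {HP : ℕ → ℕ → (ℕ → ℕ → ℕ → Val) → ℕ → ℕ → ℕ → Val} (hHB : ∀ p, Sp χ T (HB p))
    (hHC : ∀ v, Gq χ T v → Sp χ T (HC v))
    (hHP : ∀ y v, (CL χ T W0 y → CL χ T W0 v) → Sp χ T (HP y v)) (hHV : ∀ p, Sp χ T (HV p))
    (TH TY h w m N k NV NB NX K : ℕ) (M : ℕ → ℕ) :
    GE χ T (L1 TH TY h w m N k NV NB NX M FB FC FP FV HB HC HP HV K) :=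
  L2_sound (SB := fun E => SBn N k NV NB NX FB FC FV FP E (nat_lit 14)) hG hFB hFC hFP hFV hHB hHC hHP hHV
    (fun _ hE => SBn_sound hG hFB hFC hFP hFV hE N k NV NB NX _) TH TY h w m N k NV NB NX K M

/-! ### Steps of a pair -/

/-- The step of a pair with a clause. -/
def Ho (χ T : ℕ → Bool) (O : (ℕ → ℕ → ℕ → Val) → ℕ → ℕ → ℕ → ℕ → Val) : Prop :=
  ∀ ih, Kp χ T ih → ∀ r S Y D, B7.Inv χ T S Y → Gq χ T D → GV χ T (O ih r S Y (Nat.lor S D))

/-- The step of a pair which replaces. -/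
def Hg (χ T : ℕ → Bool) (O : (ℕ → ℕ → ℕ → Val) → ℕ → ℕ → ℕ → Val) : Prop :=
  ∀ ih, Kp χ T ih → ∀ r S Y, (CL χ T W0 Y → CL χ T W0 S) → GV χ T (O ih r S Y)

/-- The step of a pair with a new output. -/
def H3 (χ T : ℕ → Bool) (O : (ℕ → ℕ → ℕ → Val) → ℕ → ℕ → ℕ → ℕ → ℕ → Val) : Prop :=
  ∀ ih, Kp χ T ih → ∀ r S Y D y, B7.Inv χ T S Y → Gq χ T D → GV χ T (O ih r S Y (Nat.lor S D) y)

/-- The step of a pair with a new output. -/
def H2 (χ T : ℕ → Bool) (O : (ℕ → ℕ → ℕ → Val) → ℕ → ℕ → ℕ → ℕ → Val) : Prop :=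
  ∀ ih, Kp χ T ih → ∀ r S Y D y, B7.Inv χ T S Y → Gq χ T D →
    GV χ T (O ih r (Nat.lor S y) (Nat.lor Y y) (Nat.lor (Nat.lor S D) y))

theorem M1_sound {G : ℕ → ℕ} (hG : Ok7 χ T G) {B V M : ℕ → ℕ} (hB : Ga χ T B) (hV : ∀ p, VG χ T (V p))
    {FB FC FV : ℕ → (ℕ → ℕ → ℕ) → ℕ → ℕ → ℕ}
    {FP : ℕ → ℕ → (ℕ → ℕ → ℕ) → ℕ → ℕ → ℕ} (hFB : ∀ p, Ss χ T (FB p)) (hFC : ∀ v, St χ T v → Ss χ T (FC v))
    (hFP : ∀ y v, (CL χ T W0 y → CL χ T W0 v) → Ss χ T (FP y v)) (hFV : ∀ p, Ss χ T (FV p))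
    {PA : (ℕ → ℕ → ℕ → Val) → ℕ → ℕ → ℕ → ℕ → Val} (hPA : Ho χ T PA)
    {GP : (ℕ → ℕ → ℕ → Val) → ℕ → ℕ → ℕ → Val} (hGP : Hg χ T GP)
    (TH TY h w m N k NV NB NX K : ℕ) :
    GE χ T (M1 TH TY h w m N k NV NB NX B M V MT FB FC FP FV PA GP K) := by
  refine L1_sound hG hFB hFC hFP hFV ?_ ?_ ?_ ?_ TH TY h w m N k NV NB NX K M
  · exact fun p ih h r S Y hS => hPA ih h r S Y _ hS (hB p)
  · exact fun v hv ih h r S Y hS => hPA ih h r S Y _ hS hv
  · intro y v hv ih h r S Y hS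
    refine hGP ih h r _ _ fun hc => pair_CL hv ?_
    rcases CL_or hc with hc | hc
    · exact Or.inl (hS.2 hc)
    · exact Or.inr hc
  · intro p ih h r S Y hS
    refine hGP ih h r _ _ fun hc => vert_CL (hV p) ?_
    rcases CL_or hc with hc | hc
    · exact Or.inl (hS.2 hc)
    · exact Or.inr hc

theorem R_sound {ih : ℕ → ℕ → ℕ → Val} (h : Kp χ T ih) {r S Y D : ℕ} (hS : B7.Inv χ T S Y)
    (hD : Gq χ T D) (x : ℕ) (hx : x = cl (Nat.lor S D)) : GV χ T (@Nat.rec (fun _ => Val)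
      (ih r (Nat.xor (Nat.lor S D) (Nat.mul x mm)) (Nat.lor Y (Nat.land S (Nat.mul x mm)))) (fun _ _ => Val.cl tr)
      (Nat.land x (Nat.sub x (nat_lit 1)))) := by
  rw [rec_eqV, hx]
  exact pR_sound h hS hD

theorem M2_sound {G : ℕ → ℕ} (hG : Ok7 χ T G) {B V M : ℕ → ℕ} (hB : Ga χ T B) (hV : ∀ p, VG χ T (V p))
    {FB FC FV : ℕ → (ℕ → ℕ → ℕ) → ℕ → ℕ → ℕ}
    {FP : ℕ → ℕ → (ℕ → ℕ → ℕ) → ℕ → ℕ → ℕ} (hFB : ∀ p, Ss χ T (FB p)) (hFC : ∀ v, St χ T v → Ss χ T (FC v))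
    (hFP : ∀ y v, (CL χ T W0 y → CL χ T W0 v) → Ss χ T (FP y v)) (hFV : ∀ p, Ss χ T (FV p))
    {O : (ℕ → ℕ → ℕ → Val) → ℕ → ℕ → ℕ → ℕ → Val} (hO : Ho χ T O) (TH TY h w m N k NV NB NX K : ℕ) :
    GE χ T (M2 TH TY h w m N k NV NB NX B M V eM mm MT FB FC FP FV O K) := by
  refine M1_sound hG hB hV hFB hFC hFP hFV ?_ ?_ TH TY h w m N k NV NB NX K
  · intro ih h r S Y D hS hD
    have key : ∀ x, GV χ T (@Nat.rec (fun _ => (Nat → Nat → Nat → Val) → Nat → Nat → Nat → Nat → Val) O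
      (fun _ _ ih r S Y T => @Nat.rec (fun _ => Val) (ih r (Nat.xor T (Nat.mul (Nat.land (Nat.land T (Nat.shiftRight T (nat_lit 4096))) eM) mm)) (Nat.lor Y (Nat.land S (Nat.mul (Nat.land (Nat.land T (Nat.shiftRight T (nat_lit 4096))) eM) mm)))) (fun _ _ => Val.cl tr) (Nat.land (Nat.land (Nat.land T (Nat.shiftRight T (nat_lit 4096))) eM) (Nat.sub (Nat.land (Nat.land T (Nat.shiftRight T (nat_lit 4096))) eM) (nat_lit 1)))) x ih r S Y (Nat.lor S D)) := by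
      intro x
      cases x with
      | zero => exact hO ih h r S Y D hS hD
      | succ x => exact R_sound h hS hD _ rfl
    exact key _
  · intro ih h r S Y hc
    have key : ∀ x, x = cl S → GV χ T (@Nat.rec (fun _ => Val) (ih r S Y) (fun _ _ => Val.cl tr) x) := by
      intro x hx
      cases x with
      | zero => exact h _ _ _ ⟨Or.inr hx.symm, hc⟩
      | succ x => exact GV_tr
    exact key _ rfl

theorem M3_sound {G : ℕ → ℕ} (hG : Ok7 χ T G) {B V M : ℕ → ℕ} (hB : Ga χ T B) (hV : ∀ p, VG χ T (V p))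
    {FB FC FV : ℕ → (ℕ → ℕ → ℕ) → ℕ → ℕ → ℕ}
    {FP : ℕ → ℕ → (ℕ → ℕ → ℕ) → ℕ → ℕ → ℕ} (hFB : ∀ p, Ss χ T (FB p)) (hFC : ∀ v, St χ T v → Ss χ T (FC v))
    (hFP : ∀ y v, (CL χ T W0 y → CL χ T W0 v) → Ss χ T (FP y v)) (hFV : ∀ p, Ss χ T (FV p))
    {O : (ℕ → ℕ → ℕ → Val) → ℕ → ℕ → ℕ → ℕ → ℕ → Val} (hO : H3 χ T O) (TH TY h w m N k NV NB NX K : ℕ) :
    GE χ T (M3 TH TY h w m N k NV NB NX B M V eM mm MT FB FC FP FV O K) := by
  refine M2_sound hG hB hV hFB hFC hFP hFV ?_ TH TY h w m N k NV NB NX K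
  intro ih h r S Y D hS hD
  change GV χ T (@Bool.rec (fun _ => Val)
      (O ih (Nat.shiftRight r (nat_lit 5)) S Y (Nat.lor S D) (ng (lb (dl (Nat.xor (Nat.lor S D) S) (Nat.land r (nat_lit 31))))))
      (O ih (Nat.shiftRight r (nat_lit 14)) S Y (Nat.lor S D)
        (ng (lb (dl (Nat.xor (Nat.lor S D) S) (Nat.land (Nat.shiftRight r (nat_lit 5)) (nat_lit 511))))))
      (Nat.beq (Nat.land r (nat_lit 31)) (nat_lit 31)))
  cases Nat.beq (Nat.land r (nat_lit 31)) (nat_lit 31)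
  · exact hO ih h _ _ _ _ _ hS hD
  · exact hO ih h _ _ _ _ _ hS hD

theorem M4_sound {G : ℕ → ℕ} (hG : Ok7 χ T G) {B V M : ℕ → ℕ} (hB : Ga χ T B) (hV : ∀ p, VG χ T (V p))
    {FB FC FV : ℕ → (ℕ → ℕ → ℕ) → ℕ → ℕ → ℕ}
    {FP : ℕ → ℕ → (ℕ → ℕ → ℕ) → ℕ → ℕ → ℕ} (hFB : ∀ p, Ss χ T (FB p)) (hFC : ∀ v, St χ T v → Ss χ T (FC v))
    (hFP : ∀ y v, (CL χ T W0 y → CL χ T W0 v) → Ss χ T (FP y v)) (hFV : ∀ p, Ss χ T (FV p))
    {O : (ℕ → ℕ → ℕ → Val) → ℕ → ℕ → ℕ → ℕ → Val} (hO : H2 χ T O) (TH TY h w m N k NV NB NX K : ℕ) :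
    GE χ T (M4 TH TY h w m N k NV NB NX B M V eM mm MT FB FC FP FV O K) :=
  M3_sound hG hB hV hFB hFC hFP hFV (fun ih h r S Y D y hS hD => hO ih h r S Y D y hS hD)
    TH TY h w m N k NV NB NX K

theorem O2_sound : H2 χ T (fun ih r S Y T => @Nat.rec (fun _ => Val) (@Nat.rec (fun _ => Val) (ih r (Nat.xor T (Nat.mul (Nat.land (Nat.land T (Nat.shiftRight T (nat_lit 4096))) eM) mm)) (Nat.lor Y (Nat.land S (Nat.mul (Nat.land (Nat.land T (Nat.shiftRight T (nat_lit 4096))) eM) mm)))) (fun _ _ => Val.cl tr) (Nat.land (Nat.land (Nat.land T (Nat.shiftRight T (nat_lit 4096))) eM) (Nat.sub (Nat.land (Nat.land T (Nat.shiftRight T (nat_lit 4096))) eM) (nat_lit 1)))) (fun _ _ => Val.cl tr) (Nat.land (Nat.land S (Nat.shiftRight S (nat_lit 4096))) eM)) := by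
  intro ih h r S Y D y hS hD
  have e : Nat.lor (Nat.lor S D) y = Nat.lor (Nat.lor S y) D := by
    change (S ||| D) ||| y = (S ||| y) ||| D
    rw [Nat.or_assoc, Nat.or_assoc, Nat.or_comm D y]
  rw [e]
  have key : ∀ x, x = cl (Nat.lor S y) → GV χ T (@Nat.rec (fun _ => Val)
      ((fun T => @Nat.rec (fun _ => Val) (ih r (Nat.xor T (Nat.mul (Nat.land (Nat.land T (Nat.shiftRight T (nat_lit 4096))) eM) mm)) (Nat.lor (Nat.lor Y y) (Nat.land (Nat.lor S y) (Nat.mul (Nat.land (Nat.land T (Nat.shiftRight T (nat_lit 4096))) eM) mm)))) (fun _ _ => Val.cl tr) (Nat.land (Nat.land (Nat.land T (Nat.shiftRight T (nat_lit 4096))) eM) (Nat.sub (Nat.land (Nat.land T (Nat.shiftRight T (nat_lit 4096))) eM) (nat_lit 1)))) (Nat.lor (Nat.lor S y) D)) (fun _ _ => Val.cl tr) x) := by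
    intro x hx
    cases x with
    | zero =>
      refine R_sound (Y := Nat.lor Y y) h ⟨Or.inr hx.symm, fun hy => ?_⟩ hD _ rfl
      rcases CL_or hy with hy | hy
      · exact B7.CL_left (hS.2 hy)
      · exact B7.CL_right hy
    | succ x => exact GV_tr
  exact key _ rfl

/-! ### Steps of a derivation -/

theorem G_sound {ih : ℕ → ℕ → ℕ} {r S S' : ℕ} (h : St χ T (stW ih r S S')) :
    St χ T (@Nat.rec (fun _ => Nat) (ih r S') (fun _ _ => tr) (Nat.lor (cl S') (Nat.sub (nat_lit 1) S))) := by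
  rw [rec_eq]
  exact h

theorem M5_sound {G : ℕ → ℕ} (hG : Ok7 χ T G) {B V M : ℕ → ℕ} (hB : Ga χ T B) (hV : ∀ p, VG χ T (V p))
    (TH TY h w m N k NV NB NX K : ℕ) :
    GE χ T (M5 TH TY h w m N k NV NB NX B M V eM mm MT K) := by
  refine M4_sound hG hB hV ?_ ?_ ?_ ?_ O2_sound TH TY h w m N k NV NB NX K
  · exact fun p ih h r S hS => sA_sound (r := r) h hS (hB p)
  · exact fun v hv ih h r S hS => sA_sound' (r := r) h hS hv
  · exact fun y v hv ih h r S hS => G_sound (stP_sound h hS hv)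
  · exact fun p ih h r S hS => G_sound (stV_sound h hS (hV p))

theorem lz_sound {f : ℕ → ℕ → Val} {x : ℕ} (h : GE χ T (f x)) : GE χ T (lz f x) := h

theorem D10_sound {G : ℕ → ℕ} (hG : Ok7 χ T G) {B M V : ℕ → ℕ → ℕ} {h : ℕ} (hB : Ga χ T (B h))
    (hV : ∀ p, VG χ T (V h p)) (TH TY : ℕ) : GE χ T (D10 TH TY B M V h) := by
  unfold D10
  exact lz_sound (lz_sound (lz_sound (lz_sound (lz_sound (lz_sound (lz_sound (lz_sound (lz_sound (lz_sound
    (lz_sound (lz_sound (M5_sound hG hB hV _ TY h _ _ _ _ _ _ _ _))))))))))))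

/-- **All clauses of a block**. -/
theorem good_C10 {G S : ℕ → ℕ} (hG : Ok7 χ T G) {m tb tz tw ti TY TH : ℕ} {M : ℕ → ℕ → ℕ}
    (hS : ∀ i < m, Cl χ T (S i)) :
    OC χ T (C9 (BB8 G S m tb tz tw ti) (D10 TH TY (BB8 G S m tb tz tw ti) M (VV8 tb))) := by
  have hB : ∀ h, Ga χ T (BB8 G S m tb tz tw ti h) := fun h => good_BB8 hG hS tb tz tw ti h
  have hV : ∀ h p, VG χ T (VV8 tb h p) := fun h p => VG_vn hG _
  exact ⟨G, hG, fun h => good_CC (hB h) (D10_sound hG (hB h) (hV h) TH TY) _ _⟩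

/-- All clauses of a block without imported clauses. -/
theorem good_C100 {G S : ℕ → ℕ} (hG : Ok7 χ T G) {tb tz tw ti TY TH : ℕ} {M : ℕ → ℕ → ℕ} :
    OC χ T (C9 (BB8 G S (nat_lit 0) tb tz tw ti)
      (D10 TH TY (BB8 G S (nat_lit 0) tb tz tw ti) M (VV8 tb))) :=
  good_C10 hG fun i hi => absurd hi (Nat.not_lt_zero i)

end Pool.Agent.H13.Z12.B10
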